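import Pool.Agent.MP_12d2c5_pr.Finite

-- ======== part 0: formerly Pool.Agent.MP_12d2c5_pr.Sites
section MrgPart0

/-! Sites where a finite bush can be moved between two trees; transport and measurability. -/

open scoped Classical ENNReal
open Finset MeasureTheory Filter

namespace Pool.Agent.MP_12d2c5_pr

variable {V : Type}

/-- A finite set with two edges leaving it. -/
structure Dat (V : Type) where
  β : Finset V
  e0 : V
  e1 : V
  f0 : V
  f1 : V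

lemma Dat.inj : Function.Injective fun τ : Dat V => (τ.β, τ.e0, τ.e1, τ.f0, τ.f1) := by
  rintro ⟨_, _, _, _, _⟩ ⟨_, _, _, _, _⟩ h
  simp only [Prod.mk.injEq] at h
  simp [h]

instance [Countable V] : Countable (Dat V) := Dat.inj.countable

structure St (G : SimpleGraph V) (L : ℕ) (τ : Dat V) : Prop where
  e0 : τ.e0 ∈ τ.β
  f0 : τ.f0 ∈ τ.β
  e1 : τ.e1 ∉ τ.β
  f1 : τ.f1 ∉ τ.β
  ae : G.Adj τ.e0 τ.e1
  af : G.Adj τ.f0 τ.f1
  sub : ∀ b ∈ τ.β, G.dist τ.e0 b ≤ L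

def Near (G : SimpleGraph V) (r : ℕ) (τ : Dat V) (v : V) : Prop :=
  v ∉ τ.β ∧ ∃ b ∈ τ.β, G.dist b v ≤ r

/-- The local conditions at a site. -/
def Loc' (G : SimpleGraph V) (r ρ : ℕ) (cn : V → V → Prop) (τ : Dat V) (t : V) : Prop :=
  ¬ cn τ.e1 τ.f1 ∧ Near G r τ t ∧ ¬ cn t τ.e1 ∧ ¬ cn t τ.f1 ∧
    (∀ v, Near G r τ v → cn v τ.e1 ∨ cn v τ.f1 ∨ cn v t) ∧
    ∃ a t', a ∉ τ.β ∧ t' ∉ τ.β ∧ G.dist τ.e0 a ≤ ρ ∧ G.dist τ.e0 t' ≤ ρ ∧ cn a τ.f1 ∧ cn t' t ∧
      G.dist a t' ≤ r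

/-- The two trees come close only near the site. -/
def Far (G : SimpleGraph V) (r L ρ : ℕ) (cn : V → V → Prop) (τ : Dat V) (t : V) (Co : Set V) :
    Prop :=
  ∀ t' k', t' ∈ Co → k' ∈ Co → cn t' t → cn k' τ.e1 → r < G.dist t' k' ∧
    (G.dist t' k' ≤ r + 2 * (2 * L + 1) → G.dist τ.e0 t' ≤ ρ)

def Valid (G : SimpleGraph V) (r L ρ : ℕ) (F : SimpleGraph V) (τ : Dat V) (t : V) : Prop :=
  St G L τ ∧ Pend F τ.β τ.e0 τ.e1 ∧ F.Adj τ.e0 τ.e1 ∧ Loc' G r ρ F.Reachable τ t ∧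
    Far G r L ρ F.Reachable τ t (↑τ.β)ᶜ

/-- `C` is the third tree of a valid site of `K`. -/
def Wit (G : SimpleGraph V) (r L ρ : ℕ) (F : SimpleGraph V) (K C : F.ConnectedComponent) : Prop :=
  ∃ τ t, Valid G r L ρ F τ t ∧ F.connectedComponentMk τ.e1 = K ∧ F.connectedComponentMk t = C

def Wset (G : SimpleGraph V) (r L ρ : ℕ) (lam : ℝ) (F : SimpleGraph V)
    (K B1 B2 : F.ConnectedComponent) : Set F.ConnectedComponent :=
  {C | (∃ n, C ∈ Sn lam (CG G F r) n K B1 B2) ∧ Wit G r L ρ F K C}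

variable {G : SimpleGraph V} {r L ρ : ℕ} {τ : Dat V} {t : V} {lam : ℝ}

section Dist

variable [hG : Nice G]

lemma St.near (h : St G L τ) {v : V} (hv : Near G r τ v) : G.dist τ.e0 v ≤ L + r := by
  obtain ⟨-, b, h1, h2⟩ := hv
  have := dist_tri (G := G) τ.e0 b v
  have := h.sub b h1
  omega

omit hG in
lemma St.de1 (h : St G L τ) : G.dist τ.e0 τ.e1 = 1 := dist_adj h.ae

lemma St.df1 (h : St G L τ) : G.dist τ.e0 τ.f1 ≤ L + 1 := by
  have := dist_tri (G := G) τ.e0 τ.f0 τ.f1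
  have := h.sub _ h.f0
  have := dist_adj h.af
  omega

lemma Loc'.congr (hs : St G L τ) (hr : 1 ≤ r) (hρ : L + r ≤ ρ) {cn cn' : V → V → Prop}
    (h : ∀ u v, u ∉ τ.β → v ∉ τ.β → G.dist τ.e0 u ≤ ρ → G.dist τ.e0 v ≤ ρ → (cn u v ↔ cn' u v))
    (hl : Loc' G r ρ cn τ t) : Loc' G r ρ cn' τ t := by
  obtain ⟨a1, a2, a3, a4, a5, a, t', b1, b2, b3, b4, b5, b6, b7⟩ := hl
  have d1 : G.dist τ.e0 τ.e1 ≤ ρ := by rw [hs.de1]; omega
  have d2 : G.dist τ.e0 τ.f1 ≤ ρ := by have := hs.df1; omega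
  have d3 : G.dist τ.e0 t ≤ ρ := (hs.near a2).trans hρ
  refine ⟨by rwa [← h _ _ hs.e1 hs.f1 d1 d2], a2, by rwa [← h _ _ a2.1 hs.e1 d3 d1],
    by rwa [← h _ _ a2.1 hs.f1 d3 d2], fun v hv => ?_, a, t', b1, b2, b3, b4,
    (h _ _ b1 hs.f1 b3 d2).1 b5, (h _ _ b2 a2.1 b4 d3).1 b6, b7⟩
  have d4 := (hs.near hv).trans hρ
  rw [← h _ _ hv.1 hs.e1 d4 d1, ← h _ _ hv.1 hs.f1 d4 d2, ← h _ _ hv.1 a2.1 d4 d3]
  exact a5 v hv

end Dist

section Map

variable {F1 F2 : SimpleGraph V}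

noncomputable def Dat.map (φ : V → V) (τ : Dat V) : Dat V :=
  ⟨τ.β.image φ, φ τ.e0, φ τ.e1, φ τ.f0, φ τ.f1⟩

/-- `ψ` preserves the distance of `G`. -/
def Tr (G : SimpleGraph V) (ψ : F1 ≃g F2) : Prop := ∀ u v, G.dist (ψ u) (ψ v) = G.dist u v

lemma Tr.symm {ψ : F1 ≃g F2} (h : Tr G ψ) : Tr G ψ.symm := fun u v => by
  rw [← h]; simp

lemma Valid.map {ψ : F1 ≃g F2} (h : Tr G ψ) (hv : Valid G r L ρ F1 τ t) :
    Valid G r L ρ F2 (τ.map ψ) (ψ t) := by
  have hm : ∀ v, ψ v ∈ τ.β.image ψ ↔ v ∈ τ.β := fun v => ψ.injective.mem_finset_image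
  have ha : ∀ u v, G.Adj u v → G.Adj (ψ u) (ψ v) := fun u v huv => by
    rw [← SimpleGraph.dist_eq_one_iff_adj] at huv ⊢; rwa [h]
  have hr : ∀ u v, F2.Reachable (ψ u) (ψ v) ↔ F1.Reachable u v := fun u v => ψ.reachable_iff
  have hn : ∀ v, Near G r (τ.map ψ) (ψ v) ↔ Near G r τ v := fun v => by
    simp only [Near, Dat.map, hm, exists_mem_image, h _ _]
  obtain ⟨hs, hp, he, ⟨a1, a2, a3, a4, a5, a, t', b1, b2, b3, b4, b5, b6, b7⟩, hf⟩ := hv
  refine ⟨⟨(hm _).2 hs.e0, (hm _).2 hs.f0, (hm _).not.2 hs.e1, (hm _).not.2 hs.f1, ha _ _ hs.ae,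
    ha _ _ hs.af, fun b hb => ?_⟩, fun a ha b hb hab => ?_, ψ.map_adj_iff.2 he,
    ⟨(hr _ _).not.2 a1, (hn _).2 a2, (hr _ _).not.2 a3, (hr _ _).not.2 a4, fun v hv => ?_,
      ψ a, ψ t', (hm _).not.2 b1, (hm _).not.2 b2, (h _ _).trans_le b3, (h _ _).trans_le b4,
      (hr _ _).2 b5, (hr _ _).2 b6, (h _ _).trans_le b7⟩, fun t' k' c1 c2 c3 c4 => ?_⟩
  · obtain ⟨b, hb', rfl⟩ := mem_image.1 hb
    exact (h _ _).trans_le (hs.sub b hb')
  · obtain ⟨a, rfl⟩ := ψ.surjective a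
    obtain ⟨b, rfl⟩ := ψ.surjective b
    obtain ⟨rfl, rfl⟩ := hp a ((hm _).1 ha) b ((hm _).not.1 hb) (ψ.map_adj_iff.1 hab)
    exact ⟨rfl, rfl⟩
  · obtain ⟨v, rfl⟩ := ψ.surjective v
    simpa only [Dat.map, hr] using a5 v ((hn _).1 hv)
  · obtain ⟨t', rfl⟩ := ψ.surjective t'
    obtain ⟨k', rfl⟩ := ψ.surjective k'
    simpa only [Dat.map, h _ _] using hf t' k' ((hm _).not.1 c1) ((hm _).not.1 c2) ((hr _ _).1 c3)
      ((hr _ _).1 c4)

lemma Tr.adj {ψ : F1 ≃g F2} (h : Tr G ψ) {C C' : F1.ConnectedComponent}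
    (hC : (CG G F1 r).Adj C C') :
    (CG G F2 r).Adj (ψ.connectedComponentEquiv C) (ψ.connectedComponentEquiv C') := by
  obtain ⟨h1, u, v, rfl, rfl, h2⟩ := CG_adj.1 hC
  exact CG_adj.2 ⟨ψ.connectedComponentEquiv.injective.ne h1, ψ u, ψ v, rfl, rfl,
    (h _ _).trans_le h2⟩

lemma Wset.map {ψ : F1 ≃g F2} (h : Tr G ψ) {K B1 B2 C : F1.ConnectedComponent}
    (hC : C ∈ Wset G r L ρ lam F1 K B1 B2) :
    ψ.connectedComponentEquiv C ∈ Wset G r L ρ lam F2 (ψ.connectedComponentEquiv K)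
      (ψ.connectedComponentEquiv B1) (ψ.connectedComponentEquiv B2) := by
  obtain ⟨⟨n, h1⟩, τ, t, h2, rfl, rfl⟩ := hC
  exact ⟨⟨n, Sn.map _ (fun _ _ _ _ => h.adj) h1⟩, _, _, h2.map h, rfl, rfl⟩

end Map

section Meas

variable [Countable V]

lemma meas_mk (u v : V) : Measurable fun F : SimpleGraph V =>
    F.connectedComponentMk u = F.connectedComponentMk v := by
  simp only [SimpleGraph.ConnectedComponent.eq]; exact meas_reach u v

lemma meas_cg (u v : V) : Measurable fun F : SimpleGraph V =>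
    (CG G F r).Adj (F.connectedComponentMk u) (F.connectedComponentMk v) := by
  simp only [CG_adj]
  exact (meas_mk u v).not.and (Measurable.exists fun _ => Measurable.exists fun _ =>
    (meas_mk _ _).and ((meas_mk _ _).and measurable_const))

lemma meas_patt {P : (F : SimpleGraph V) → Finset F.ConnectedComponent → Prop}
    (hP : ∀ F F' Q (j : F.ConnectedComponent → F'.ConnectedComponent), Set.InjOn j Q →
      (∀ a ∈ Q, ∀ b ∈ Q, (CG G F r).Adj a b → (CG G F' r).Adj (j a) (j b)) → P F Q →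
      P F' (Q.image j)) (W : Finset V) :
    Measurable fun F : SimpleGraph V => P F (W.image F.connectedComponentMk) := by
  refine meas_of_atoms (univ ×ˢ W ×ˢ W) (a := fun (p : Bool × V × V) (F : SimpleGraph V) =>
    if p.1 then F.connectedComponentMk p.2.1 = F.connectedComponentMk p.2.2 else
      (CG G F r).Adj (F.connectedComponentMk p.2.1) (F.connectedComponentMk p.2.2))
    (fun p => ?_) fun F F' h hF => ?_
  · split_ifs
    · exact meas_mk _ _
    · exact meas_cg _ _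
  have h1 : ∀ u ∈ W, ∀ v ∈ W, (F.connectedComponentMk u = F.connectedComponentMk v ↔
      F'.connectedComponentMk u = F'.connectedComponentMk v) := fun u hu v hv => by
    simpa using h (true, u, v) (by simp [hu, hv])
  have h2 : ∀ u ∈ W, ∀ v ∈ W, (CG G F r).Adj (F.connectedComponentMk u) (F.connectedComponentMk v) →
      (CG G F' r).Adj (F'.connectedComponentMk u) (F'.connectedComponentMk v) := fun u hu v hv =>
    by simpa using (h (false, u, v) (by simp [hu, hv])).1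
  set j : F.ConnectedComponent → F'.ConnectedComponent := fun C =>
    if hC : ∃ u ∈ W, F.connectedComponentMk u = C then F'.connectedComponentMk hC.choose
    else F'.connectedComponentMk C.out with hj
  have h3 : ∀ u ∈ W, j (F.connectedComponentMk u) = F'.connectedComponentMk u := by
    intro u hu
    have hC : ∃ u' ∈ W, F.connectedComponentMk u' = F.connectedComponentMk u := ⟨u, hu, rfl⟩
    simp only [hj]
    rw [dif_pos hC]
    exact (h1 _ hC.choose_spec.1 _ hu).1 hC.choose_spec.2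
  have := hP F F' _ j (by
    intro a ha b hb e
    obtain ⟨u, hu, rfl⟩ := mem_image.1 ha
    obtain ⟨v, hv, rfl⟩ := mem_image.1 hb
    rw [h3 u hu, h3 v hv] at e
    exact (h1 u hu v hv).2 e) (by
    intro a ha b hb e
    obtain ⟨u, hu, rfl⟩ := mem_image.1 ha
    obtain ⟨v, hv, rfl⟩ := mem_image.1 hb
    rw [h3 u hu, h3 v hv]
    exact h2 u hu v hv e) hF
  rwa [image_image, image_congr (f := j ∘ F.connectedComponentMk) (g := F'.connectedComponentMk)
    fun u hu => h3 u hu] at this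

omit [Countable V] in
lemma exists_comp {F : SimpleGraph V} {P : Finset F.ConnectedComponent → Prop} :
    (∃ Q, P Q) ↔ ∃ W : Finset V, P (W.image F.connectedComponentMk) := by
  refine ⟨fun ⟨Q, h⟩ => ?_, fun ⟨W, h⟩ => ⟨_, h⟩⟩
  refine ⟨Q.image fun C => C.out, ?_⟩
  rwa [image_image, show (F.connectedComponentMk ∘ fun C : F.ConnectedComponent => C.out) = id from
    funext fun C => C.out_eq, image_id]

lemma meas_mem (v : V) (W : Finset V) : Measurable fun F : SimpleGraph V =>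
    F.connectedComponentMk v ∈ W.image F.connectedComponentMk := by
  simp only [mem_image]
  exact Measurable.exists fun u => measurable_const.and (meas_mk _ _)

lemma meas_card (p : ℕ → Prop) (W : Finset V) : Measurable fun F : SimpleGraph V =>
    p (W.image F.connectedComponentMk).card :=
  meas_patt (G := ⊥) (r := 0) (P := fun _ Q => p Q.card)
    (fun _ _ _ _ h1 _ h => by rwa [card_image_of_injOn h1]) W

lemma meas_sn (n : ℕ) (k b1 b2 a : V) : Measurable fun F : SimpleGraph V =>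
    F.connectedComponentMk a ∈ Sn lam (CG G F r) n (F.connectedComponentMk k)
      (F.connectedComponentMk b1) (F.connectedComponentMk b2) := by
  simp only [Sn, Set.mem_ofPred_eq, exists_comp]
  exact Measurable.exists fun W => (meas_patt (P := fun F Q => Rigid lam (CG G F r) Q)
    (fun _ _ _ j h1 h2 h => h.map j h1 h2) W).and ((meas_card (· ≤ n) W).and
    ((meas_mem _ _).not.and ((meas_mem _ _).and ((meas_mem _ _).and (meas_mem _ _)))))

lemma meas_strong (W : Finset V) : Measurable fun F : SimpleGraph V =>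
    Strong lam (CG G F r) (W.image F.connectedComponentMk) :=
  meas_patt (P := fun F Q => Strong lam (CG G F r) Q) (fun _ _ _ j h1 h2 h => h.map j h1 h2) W

omit [Countable V] in
lemma le_encard_iff' {α : Type} {S : Set α} {j : ℕ} :
    (j : ℕ∞) ≤ S.encard ↔ ∃ Y : Finset α, (∀ y ∈ Y, y ∈ S) ∧ j ≤ Y.card := by
  constructor
  · intro h
    obtain ⟨t, h1, h2⟩ := Set.exists_subset_encard_eq h
    have hf := Set.finite_of_encard_eq_coe h2
    refine ⟨hf.toFinset, fun y hy => h1 (hf.mem_toFinset.1 hy), ?_⟩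
    rw [hf.encard_eq_coe_toFinset_card] at h2
    exact_mod_cast h2.ge
  · rintro ⟨Y, h1, h2⟩
    refine le_trans ?_ (Set.encard_le_encard (show (Y : Set α) ⊆ S from h1))
    rw [Set.encard_coe_eq_coe_finsetCard]; exact_mod_cast h2

lemma meas_encard {S : (F : SimpleGraph V) → Set F.ConnectedComponent}
    (h : ∀ v, Measurable fun F : SimpleGraph V => F.connectedComponentMk v ∈ S F) (j : ℕ) :
    Measurable fun F => (j : ℕ∞) ≤ (S F).encard := by
  simp only [le_encard_iff', exists_comp, forall_mem_image]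
  exact Measurable.exists fun W => (Measurable.forall fun v => measurable_const.imp (h v)).and
    (meas_card (j ≤ ·) W)

lemma meas_pend (β : Finset V) (e0 e1 : V) : Measurable fun F : SimpleGraph V => Pend F β e0 e1 :=
  Measurable.forall fun _ => measurable_const.imp (Measurable.forall fun _ =>
    measurable_const.imp ((meas_adj _ _).imp measurable_const))

lemma meas_loc (τ : Dat V) (t : V) :
    Measurable fun F : SimpleGraph V => Loc' G r ρ F.Reachable τ t :=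
  (meas_reach _ _).not.and (measurable_const.and ((meas_reach _ _).not.and
    ((meas_reach _ _).not.and ((Measurable.forall fun _ => measurable_const.imp
      ((meas_reach _ _).or ((meas_reach _ _).or (meas_reach _ _)))).and
      (Measurable.exists fun _ => Measurable.exists fun _ => measurable_const.and
        (measurable_const.and (measurable_const.and (measurable_const.and
          ((meas_reach _ _).and ((meas_reach _ _).and measurable_const))))))))))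

lemma meas_far (τ : Dat V) (t : V) {Co : SimpleGraph V → Set V}
    (h : ∀ v, Measurable fun F => v ∈ Co F) :
    Measurable fun F : SimpleGraph V => Far G r L ρ F.Reachable τ t (Co F) :=
  Measurable.forall fun _ => Measurable.forall fun _ => (h _).imp ((h _).imp
    ((meas_reach _ _).imp ((meas_reach _ _).imp measurable_const)))

lemma meas_valid (τ : Dat V) (t : V) : Measurable fun F : SimpleGraph V => Valid G r L ρ F τ t :=
  measurable_const.and ((meas_pend _ _ _).and ((meas_adj _ _).and ((meas_loc _ _).and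
    (meas_far _ _ fun _ => measurable_const))))

lemma meas_wset (k b1 b2 a : V) : Measurable fun F : SimpleGraph V =>
    F.connectedComponentMk a ∈ Wset G r L ρ lam F (F.connectedComponentMk k)
      (F.connectedComponentMk b1) (F.connectedComponentMk b2) :=
  (Measurable.exists fun _ => meas_sn _ _ _ _ _).and (Measurable.exists fun _ =>
    Measurable.exists fun _ => (meas_valid _ _).and ((meas_mk _ _).and (meas_mk _ _)))

end Meas

end Pool.Agent.MP_12d2c5_pr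

end MrgPart0

-- ======== part 1: formerly Pool.Agent.MP_12d2c5_pr.Final
section MrgPart1

-- ======== part 0: formerly Pool.Agent.MP_12d2c5_pr.Poor
section MrgPart0

/-! A valid site is almost surely accompanied by infinitely many in one rigid class. -/

open scoped Classical ENNReal
open Finset MeasureTheory Filter

namespace Pool.Agent.MP_12d2c5_pr

variable {V : Type} {G : SimpleGraph V} {r L ρ : ℕ} {τ : Dat V} {t : V} {lam : ℝ}
  {F : SimpleGraph V}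

def Poor (G : SimpleGraph V) (r L ρ : ℕ) (lam : ℝ) (M R : ℕ) (x : V) (F : SimpleGraph V) : Prop :=
  ∃ τ t, τ.e0 = x ∧ Valid G r L ρ F τ t ∧
    ((¬ ∃ Q, Strong lam (CG G F r) Q ∧ F.connectedComponentMk τ.e1 ∈ Q ∧
      F.connectedComponentMk t ∈ Q) ∨
    ∃ (Y : Finset V) (b : V), (∀ y ∈ Y, G.dist x y ≤ R) ∧
      Strong lam (CG G F r) (Y.image F.connectedComponentMk) ∧
      F.connectedComponentMk τ.e1 ∈ Y.image F.connectedComponentMk ∧
      F.connectedComponentMk t ∈ Y.image F.connectedComponentMk ∧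
      F.connectedComponentMk b ∈ Y.image F.connectedComponentMk ∧
      F.connectedComponentMk b ≠ F.connectedComponentMk τ.e1 ∧
      ¬ ((M : ℕ∞) ≤ (Wset G r L ρ lam F (F.connectedComponentMk τ.e1)
        (F.connectedComponentMk t) (F.connectedComponentMk b)).encard))

lemma meas_poor [Countable V] (M R : ℕ) (x : V) : Measurable (Poor G r L ρ lam M R x) := by
  unfold Poor
  simp only [exists_comp]
  exact Measurable.exists fun τ => Measurable.exists fun t => measurable_const.and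
    ((meas_valid _ _).and ((Measurable.exists fun W => (meas_strong W).and
      ((meas_mem _ _).and (meas_mem _ _))).not.or (Measurable.exists fun Y =>
      Measurable.exists fun b => measurable_const.and ((meas_strong Y).and ((meas_mem _ _).and
        ((meas_mem _ _).and ((meas_mem _ _).and ((meas_mk _ _).not.and
          (meas_encard (fun v => meas_wset _ _ _ v) M).not))))))))

lemma Poor.map {F1 F2 : SimpleGraph V} {ψ : F1 ≃g F2} (h : Tr G ψ) {M R : ℕ} {x : V}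
    (hP : Poor G r L ρ lam M R x F1) : Poor G r L ρ lam M R (ψ x) F2 := by
  obtain ⟨τ, t, rfl, h1, h2⟩ := hP
  have e : ∀ v, ψ.symm.connectedComponentEquiv (F2.connectedComponentMk (ψ v)) =
      F1.connectedComponentMk v := fun v => congrArg F1.connectedComponentMk (ψ.symm_apply_apply v)
  refine ⟨_, _, rfl, h1.map h, h2.imp ?_ ?_⟩
  · rintro h2 ⟨Q, a1, a2, a3⟩
    refine h2 ⟨_, a1.map _ ψ.symm.connectedComponentEquiv.injective.injOn
      fun _ _ _ _ => h.symm.adj, ?_, ?_⟩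
    · rw [← e]; exact mem_image_of_mem _ a2
    · rw [← e]; exact mem_image_of_mem _ a3
  · rintro ⟨Y, b, a1, a2, a3, a4, a5, a6, a7⟩
    have e2 : (Y.image ψ).image F2.connectedComponentMk =
        (Y.image F1.connectedComponentMk).image ψ.connectedComponentEquiv := by
      rw [image_image, image_image]; rfl
    refine ⟨Y.image ψ, ψ b, fun y hy => ?_, ?_, ?_, ?_, ?_,
      ψ.connectedComponentEquiv.injective.ne a6, fun hc => a7 (hc.trans ?_)⟩
    · obtain ⟨y, hy', rfl⟩ := mem_image.1 hy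
      exact (h _ _).trans_le (a1 y hy')
    · rw [e2]; exact a2.map _ ψ.connectedComponentEquiv.injective.injOn fun _ _ _ _ => h.adj
    · rw [e2]; exact mem_image_of_mem _ a3
    · rw [e2]; exact mem_image_of_mem _ a4
    · rw [e2]; exact mem_image_of_mem _ a5
    · refine Set.encard_le_encard_of_injOn (f := ψ.symm.connectedComponentEquiv) (fun C hC => ?_)
        ψ.symm.connectedComponentEquiv.injective.injOn
      rw [← e, ← e t, ← e b]
      exact Wset.map h.symm hC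

lemma Valid.adj (h : Valid G r L ρ F τ t) (hI : InfC F) :
    (CG G F r).Adj (F.connectedComponentMk τ.e1) (F.connectedComponentMk t) := by
  obtain ⟨-, hp, -, ⟨-, ⟨-, b, b1, b2⟩, a3, -⟩, -⟩ := h
  exact CG_adj.2 ⟨fun e => a3 (SimpleGraph.ConnectedComponent.eq.1 e).symm, b, t,
    SimpleGraph.ConnectedComponent.eq.2 (hp.reach_exit hI b1), rfl, b2⟩

variable [hG : Nice G]

lemma Valid.close (h : Valid G r L ρ F τ t) (hI : InfC F) {τ' : Dat V} {t' : V}
    (h' : Valid G r L ρ F τ' t') (e1 : F.Reachable τ.e1 τ'.e1) (e2 : F.Reachable t t') :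
    G.dist τ'.e0 τ.e0 ≤ 2 * L := by
  obtain ⟨hs, hp, -, ⟨-, ⟨-, b, b1, b2⟩, -⟩, -⟩ := h
  obtain ⟨hs', hp', -, ⟨-, -, a3, -⟩, hf⟩ := h'
  have c1 : t ∉ τ'.β := fun h => a3 (e2.symm.trans (hp'.reach_exit hI h))
  have c2 : b ∈ τ'.β := by
    by_contra hb
    have := (hf t b c1 hb e2 ((hp.reach_exit hI b1).trans e1)).1
    rw [SimpleGraph.dist_comm] at this; omega
  have d1 := hs.sub b b1
  have d2 := hs'.sub b c2
  have d3 := dist_tri (G := G) τ'.e0 b τ.e0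
  rw [SimpleGraph.dist_comm] at d1
  omega

lemma poor_count (h1 : 1 < lam) (h2 : lam < 2) (hρ : L + r ≤ ρ) (hr : 1 ≤ r) (hF : F ≤ G)
    (hI : InfC F) (M R : ℕ) (o : V) (m : ℕ) :
    (((ball G o m).filter fun x => Poor G r L ρ lam M R x F).card : ℝ) ≤
      bl G (2 * L) * (M + 3) * (3 / (2 - lam)) * (sph G o (m + (R + ρ))).card := by
  set W := (ball G o (m + (R + ρ))).image F.connectedComponentMk with hW
  have w1 : W.card ≤ (sph G o (m + (R + ρ))).card := by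
    refine (card_le_card ?_).trans (card_image_le (f := F.connectedComponentMk))
    intro C hC
    obtain ⟨u, hu, rfl⟩ := mem_image.1 hC
    obtain ⟨s, hs, h⟩ := hI.meets_sph hF hu
    exact mem_image.2 ⟨s, hs, (SimpleGraph.ConnectedComponent.eq.2 h).symm⟩
  obtain ⟨C, c1, c2, c3, c4⟩ := density h1 h2 (CG G F r) W
  set U := (ball G o m).filter fun x => Poor G r L ρ lam M R x F with hU
  have hx : ∀ x ∈ U, ∃ (τ : Dat V) (t : V), τ.e0 = x ∧ Valid G r L ρ F τ t ∧ ∃ X ∈ C,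
      F.connectedComponentMk τ.e1 ∈ X ∧ F.connectedComponentMk t ∈ X ∧
      (X.filter (Wit G r L ρ F (F.connectedComponentMk τ.e1))).card ≤ M + 3 := by
    intro x hx
    obtain ⟨a0, τ, t, rfl, a1, a2⟩ := mem_filter.1 hx
    refine ⟨τ, t, rfl, a1, ?_⟩
    have inW : ∀ v, G.dist τ.e0 v ≤ R + ρ → F.connectedComponentMk v ∈ W := by
      intro v hv
      have := dist_tri (G := G) o τ.e0 v
      exact mem_image_of_mem _ (mem_ball.2 (by rw [mem_ball] at a0; omega))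
    rcases a2 with a2 | ⟨Y, b, b1, b2, b3, b4, b5, b6, b7⟩
    · obtain ⟨X, d1, d2, d3⟩ := c3 _ (inW τ.e1 (by rw [a1.1.de1]; omega)) _
        (inW t (by have := a1.1.near a1.2.2.2.1.2.1; omega)) (a1.adj hI)
      refine ⟨X, d1, d2, d3, (card_filter_le _ _).trans ?_⟩
      have := (c2 X d1).resolve_right fun h => a2 ⟨X, h, d2, d3⟩
      omega
    · obtain ⟨X, d1, d2⟩ := c4 _ (by
        intro Z hZ
        obtain ⟨y, hy, rfl⟩ := mem_image.1 hZ
        exact inW y (by have := b1 y hy; omega)) b2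
      refine ⟨X, d1, d2 b3, d2 b4, ?_⟩
      have d3 := (c2 X d1).resolve_left (by have := card_le_card d2; have := b2.1; omega)
      by_contra hc
      refine b7 (le_encard_iff'.2 ⟨X.filter (Wit G r L ρ F (F.connectedComponentMk τ.e1)),
        fun Z hZ => ?_, by omega⟩)
      obtain ⟨d4, d5⟩ := mem_filter.1 hZ
      refine ⟨⟨_, _, d3.2 _ (d2 b3), le_rfl, notMem_erase _ _,
        mem_erase.2 ⟨(a1.adj hI).ne', d2 b4⟩, mem_erase.2 ⟨b6, d2 b5⟩, mem_erase.2 ⟨?_, d4⟩⟩, d5⟩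
      obtain ⟨τ', t', e1, e2, rfl⟩ := d5
      rw [← e2]; exact (e1.adj hI).ne'
  have : Nonempty V := ⟨o⟩
  have : Nonempty (Dat V) := ⟨⟨∅, o, o, o, o⟩⟩
  choose! τ t hτ hv hX using hx
  set P := C.biUnion fun X => X.biUnion fun K =>
    if (X.filter (Wit G r L ρ F K)).card ≤ M + 3 then
      (X.filter (Wit G r L ρ F K)).image (Prod.mk K) else ∅ with hP
  have a1 : U.card ≤ bl G (2 * L) * P.card := by
    refine card_le_mul_card_image_of_maps_to (f := fun x =>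
      (F.connectedComponentMk (τ x).e1, F.connectedComponentMk (t x))) (fun x hx => ?_) _
      fun p _ => ?_
    · obtain ⟨X, d1, d2, d3, d4⟩ := hX x hx
      refine mem_biUnion.2 ⟨X, d1, mem_biUnion.2 ⟨_, d2, ?_⟩⟩
      rw [if_pos d4]
      exact mem_image_of_mem _ (mem_filter.2 ⟨d3, _, _, hv x hx, rfl, rfl⟩)
    · rcases (U.filter fun x => (F.connectedComponentMk (τ x).e1,
        F.connectedComponentMk (t x)) = p).eq_empty_or_nonempty with h | ⟨x0, h0⟩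
      · rw [h]; simp
      · rw [← card_ball x0]
        refine card_le_card fun x hx => ?_
        obtain ⟨d1, d2⟩ := mem_filter.1 hx
        obtain ⟨d3, d4⟩ := mem_filter.1 h0
        obtain ⟨e1, e2⟩ := Prod.ext_iff.1 (d2.trans d4.symm)
        have := (hv x d1).close hI (hv x0 d3) (SimpleGraph.ConnectedComponent.eq.1 e1)
          (SimpleGraph.ConnectedComponent.eq.1 e2)
        rwa [hτ x d1, hτ x0 d3, ← mem_ball] at this
  have a2 : P.card ≤ ∑ X ∈ C, X.card * (M + 3) := by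
    refine card_biUnion_le.trans (sum_le_sum fun X _ => card_biUnion_le.trans ?_)
    rw [← smul_eq_mul, ← sum_const]
    refine sum_le_sum fun K _ => ?_
    split_ifs with h
    · exact card_image_le.trans h
    · simp
  have a3 : (P.card : ℝ) ≤ (∑ X ∈ C, (X.card : ℝ)) * (M + 3) := by
    rw [sum_mul]; exact_mod_cast a2
  have a4 : (U.card : ℝ) ≤ bl G (2 * L) * P.card := by exact_mod_cast a1
  have a5 : (W.card : ℝ) ≤ (sph G o (m + (R + ρ))).card := by exact_mod_cast w1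
  have l0 : 0 < 3 / (2 - lam) := div_pos (by norm_num) (by linarith)
  calc (U.card : ℝ) ≤ bl G (2 * L) * ((3 / (2 - lam) * (sph G o (m + (R + ρ))).card) * (M + 3)) := by
        refine a4.trans (mul_le_mul_of_nonneg_left (a3.trans ?_) (Nat.cast_nonneg _))
        exact mul_le_mul_of_nonneg_right (c1.trans (mul_le_mul_of_nonneg_left a5 l0.le))
          (by positivity)
    _ = _ := by ring

/-- Every valid site has infinitely many companions in one rigid class. -/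
def Many (G : SimpleGraph V) (r : ℕ) (lam : ℝ) (F : SimpleGraph V) : Prop :=
  ∀ L ρ, L + r ≤ ρ → ∀ τ t, Valid G r L ρ F τ t → ∃ B, B ≠ F.connectedComponentMk t ∧
    (Wset G r L ρ lam F (F.connectedComponentMk τ.e1) (F.connectedComponentMk t) B).Infinite

variable {ν : Measure (Om V)} [IsProbabilityMeasure ν] {d : ℝ}

theorem FLim.many (h : FLim G ν) (hg : Growth G d) (h1 : 1 < lam) (h2 : lam < 2) (hr : 1 ≤ r) :
    ∀ᵐ ω ∂ν, Many G r lam (Fg G ω) := by
  have := countable_V G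
  have key : ∀ L ρ M R : ℕ, ∀ᵐ ω ∂ν, L + r ≤ ρ → ∀ x, ¬ Poor G r L ρ lam M R x (Fg G ω) := by
    intro L ρ M R
    by_cases hρ : L + r ≤ ρ
    swap
    · exact Eventually.of_forall fun _ h => absurd h hρ
    have l0 : 0 < 3 / (2 - lam) := div_pos (by norm_num) (by linarith)
    refine (h.null hg (meas_poor M R) (fun φ x F hP =>
      Poor.map (ψ := SimpleGraph.Iso.comap φ.toEquiv F) (fun u v => dist_iso φ u v) hP) (R + ρ)
      (C := bl G (2 * L) * (M + 3) * (3 / (2 - lam))) (by positivity) ?_).mono fun _ h _ => h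
    filter_upwards [h.infC] with ω hω o m
    exact poor_count h1 h2 hρ hr (Fg_le G ω) hω M R o m
  simp only [← ae_all_iff] at key
  filter_upwards [key] with ω hω L ρ hρ τ t hv
  set F := Fg G ω
  obtain ⟨Q, a1, a2, a3⟩ : ∃ Q, Strong lam (CG G F r) Q ∧ F.connectedComponentMk τ.e1 ∈ Q ∧
      F.connectedComponentMk t ∈ Q := by
    by_contra hn
    exact hω L ρ 0 0 hρ _ ⟨τ, t, rfl, hv, Or.inl hn⟩
  obtain ⟨Y, rfl⟩ := (exists_comp (P := fun Q' => Q' = Q)).1 ⟨Q, rfl⟩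
  obtain ⟨B, hB⟩ : (((Y.image F.connectedComponentMk).erase (F.connectedComponentMk τ.e1)).erase
      (F.connectedComponentMk t)).Nonempty := by
    rw [← card_pos]
    have b1 := pred_card_le_card_erase (s := Y.image F.connectedComponentMk)
      (a := F.connectedComponentMk τ.e1)
    have b2 := pred_card_le_card_erase (a := F.connectedComponentMk t)
      (s := (Y.image F.connectedComponentMk).erase (F.connectedComponentMk τ.e1))
    have := a1.1
    omega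
  simp only [mem_erase] at hB
  obtain ⟨b, rfl⟩ := B.exists_rep
  refine ⟨_, hB.1, fun hf => ?_⟩
  refine hω L ρ (hf.toFinset.card + 1) (Y.sup (G.dist τ.e0)) hρ _ ⟨τ, t, rfl, hv, Or.inr
    ⟨Y, b, fun y hy => le_sup hy, a1, a2, a3, hB.2.2, hB.2.1, fun hc => ?_⟩⟩
  have := hc.trans hf.encard_eq_coe_toFinset_card.le
  have : hf.toFinset.card + 1 ≤ hf.toFinset.card := by exact_mod_cast this
  omega

end Pool.Agent.MP_12d2c5_pr

end MrgPart0

-- ======== part 1: formerly Pool.Agent.MP_12d2c5_pr.Absorb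
section MrgPart1

/-! Every tree has a valid site. -/

open scoped Classical ENNReal
open Finset MeasureTheory Filter

namespace Pool.Agent.MP_12d2c5_pr

variable {V : Type} {G : SimpleGraph V} {r : ℕ} {lam d : ℝ} {F F' : SimpleGraph V}

def Rich (G : SimpleGraph V) (r : ℕ) (F : SimpleGraph V) (k : V) : Prop :=
  ∃ L ρ, L + r ≤ ρ ∧ ∀ Δ : Finset V, ∃ τ t, Valid G r L ρ F τ t ∧ F.Reachable τ.e1 k ∧
    ∀ v ∈ Δ, ¬ F.Reachable t v

lemma Many.rich (h : Many G r lam F) {L ρ : ℕ} (hρ : L + r ≤ ρ) {τ : Dat V} {t k : V}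
    (hv : Valid G r L ρ F τ t) (hk : F.Reachable τ.e1 k) : Rich G r F k := by
  obtain ⟨B, -, hB⟩ := h L ρ hρ τ t hv
  refine ⟨L, ρ, hρ, fun Δ => ?_⟩
  obtain ⟨C, ⟨-, τ', t', h1, h2, rfl⟩, h3⟩ :=
    hB.exists_notMem_finset (Δ.image F.connectedComponentMk)
  exact ⟨τ', t', h1, (SimpleGraph.ConnectedComponent.eq.1 h2).trans hk, fun v hv h =>
    h3 (mem_image.2 ⟨v, hv, (SimpleGraph.ConnectedComponent.eq.2 h).symm⟩)⟩

/-- The finite set `Δ` has been moved from the tree of `w` to the tree of `a`. -/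
structure Mv (F F' : SimpleGraph V) (w w' a : V) (Δ : Finset V) : Prop where
  hw : w ∈ Δ
  ha : a ∉ Δ
  hw' : w' ∉ Δ
  old : ∀ u ∈ Δ, F.Reachable u w ∧ F.Reachable u w'
  new : ∀ u ∈ Δ, F'.Reachable u a
  reach : ∀ u v, u ∉ Δ → v ∉ Δ → (F.Reachable u v ↔ F'.Reachable u v)
  adj : ∀ u v, u ≠ w → v ≠ w → (F.Adj u v ↔ F'.Adj u v)

lemma Thin.contact (h : Thin G d F) (hd : 1 ≤ d) {x y : V} (hxy : ¬ F.Reachable x y) (R : ℕ) :
    {u | F.Reachable u x ∧ ∃ z, F.Reachable z y ∧ G.dist u z ≤ R}.Finite := by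
  refine (h x y hxy ((1 + R : ℝ) ^ (-(d - 1))) (by positivity)).subset ?_
  rintro u ⟨h1, z, h2, h3⟩
  refine ⟨h1, {z}, by simpa using h2, ?_⟩
  rw [sum_singleton]
  refine Real.rpow_le_rpow_of_nonpos (el_pos _ _) ?_ (by linarith)
  have : (G.dist u z : ℝ) ≤ R := by exact_mod_cast h3
  unfold el; linarith

lemma Thin.far_pt (h : Thin G d F) (hI : InfC F) {x k t : V} (h1 : ¬ F.Reachable x k)
    (h2 : ¬ F.Reachable x t) {c : ℝ} (hc : 0 < c) : ∃ u, F.Reachable x u ∧ ∀ Y : Finset V,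
      (∀ z ∈ Y, F.Reachable z k ∨ F.Reachable z t) → ∑ z ∈ Y, el G u z ^ (-(d - 1)) < c := by
  obtain ⟨u, a1, a2⟩ := ((hI x).sdiff ((h x k h1 _ (half_pos hc)).union
    (h x t h2 _ (half_pos hc)))).nonempty
  refine ⟨u, a1, fun Y hY => ?_⟩
  simp only [Set.mem_union, Set.mem_ofPred_eq, not_or, not_and, not_exists, not_le] at a2
  rw [← sum_filter_add_sum_filter_not Y (F.Reachable · k)]
  have b1 := a2.1 a1.symm (Y.filter (F.Reachable · k)) fun z hz => (mem_filter.1 hz).2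
  have b2 := a2.2 a1.symm (Y.filter fun z => ¬ F.Reachable z k) fun z hz =>
    (hY z (mem_filter.1 hz).1).resolve_left (mem_filter.1 hz).2
  linarith

variable [hG : Nice G]

lemma far_fin (hd : 2 ≤ d) {Z S : Set V} (hZ : Z.Finite) (hS : S.Infinite) {c : ℝ} (hc : 0 < c) :
    ∃ u ∈ S, ∀ Y : Finset V, (∀ z ∈ Y, z ∈ Z) → ∑ z ∈ Y, el G u z ^ (-(d - 1)) < c := by
  obtain ⟨R, hR⟩ := exists_nat_gt (hZ.toFinset.card / c)
  obtain ⟨u, h1, h2⟩ := hS.exists_notMem_finset (hZ.toFinset.biUnion fun z => ball G z R)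
  refine ⟨u, h1, fun Y hY => ?_⟩
  have a1 : ∀ z ∈ Y, el G u z ^ (-(d - 1)) ≤ (1 + R : ℝ)⁻¹ := by
    intro z hz
    have b1 : R < G.dist z u := by
      by_contra hn
      exact h2 (mem_biUnion.2 ⟨z, hZ.mem_toFinset.2 (hY z hz), mem_ball.2 (not_lt.1 hn)⟩)
    refine (Real.rpow_le_rpow_of_exponent_le (one_le_el u z)
      (show -(d - 1) ≤ -1 by linarith)).trans ?_
    rw [Real.rpow_neg_one]
    refine inv_anti₀ (by positivity) ?_
    have : (R : ℝ) ≤ G.dist z u := by exact_mod_cast b1.le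
    rw [el_comm]; unfold el; linarith
  refine (sum_le_card_nsmul _ _ _ a1).trans_lt ?_
  have a2 : (Y.card : ℝ) ≤ hZ.toFinset.card := by
    exact_mod_cast card_le_card fun z hz => hZ.mem_toFinset.2 (hY z hz)
  rw [div_lt_iff₀ hc] at hR
  rw [nsmul_eq_mul, ← div_eq_mul_inv, div_lt_iff₀ (by positivity)]
  nlinarith

lemma Thin.outside (h : Thin G d F) (hg : Growth G d) (hd : 8 < d) (hI : InfC F) {k t : V}
    (hk : ¬ F.Reachable k t) :
    ∃ u v, F.Reachable u k ∧ G.Adj u v ∧ ¬ F.Reachable v k ∧ ¬ F.Reachable v t := by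
  by_contra hn
  push Not at hn
  obtain ⟨c, hc, hs⟩ := sep hg (by linarith)
  have fin := h.contact (by linarith) hk 1
  obtain ⟨x, h1, h2⟩ := far_fin (G := G) (d := d) (by linarith) fin (hI k) hc
  obtain ⟨x', h3, h4⟩ := far_fin (G := G) (d := d) (by linarith) fin (hI t) hc
  rcases hs {u | F.Reachable u k} _ x x' h1.symm (fun h => hk (h.symm.trans h3.symm))
    (fun u v h5 h6 h7 => Or.inl (show u ∈ {u | F.Reachable u k ∧ ∃ z, F.Reachable z t ∧
      G.dist u z ≤ 1} from ⟨h6, v, hn u v h6 h5 h7, (dist_adj h5).le⟩)) with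
    ⟨Y, h5, h6⟩ | ⟨Y, h5, h6⟩
  · exact absurd (h2 Y h5) (not_lt.2 h6)
  · exact absurd (h4 Y h5) (not_lt.2 h6)

lemma Thin.conn (h : Thin G d F) (hg : Growth G d) (hd : 8 < d) (hF : F ≤ G) (hI : InfC F)
    {k t a s : V} (ha : a ∉ {v | F.Reachable v k ∨ F.Reachable v t})
    (hs : s ∉ {v | F.Reachable v k ∨ F.Reachable v t}) :
    RIn G {v | F.Reachable v k ∨ F.Reachable v t}ᶜ a s := by
  by_contra hn
  obtain ⟨c, hc, hsep⟩ := sep hg (by linarith)
  have up : ∀ x, x ∉ {v | F.Reachable v k ∨ F.Reachable v t} → ∀ y, F.Reachable x y →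
      RIn G {v | F.Reachable v k ∨ F.Reachable v t}ᶜ x y := by
    intro x hx y hy
    refine reach_ind (P := fun y => RIn G {v | F.Reachable v k ∨ F.Reachable v t}ᶜ x y)
      (RIn.refl _ _ _) (fun u v h1 h2 ih => ih.tail (hF h2) (ih.mem hx) fun h => hx ?_) hy
    exact h.imp (h1.trans h2.reachable).trans (h1.trans h2.reachable).trans
  obtain ⟨x, h1, h2⟩ := h.far_pt hI (fun h => ha (Or.inl h)) (fun h => ha (Or.inr h)) hc
  obtain ⟨x', h3, h4⟩ := h.far_pt hI (fun h => hs (Or.inl h)) (fun h => hs (Or.inr h)) hc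
  rcases hsep {v | RIn G {v | F.Reachable v k ∨ F.Reachable v t}ᶜ a v}
    {v | F.Reachable v k ∨ F.Reachable v t} x x' (up a ha x h1)
    (fun h => hn (RIn.trans h (up s hs x' h3).symm)) (fun u v h5 h6 h7 => Or.inr (by
      by_contra h8
      exact h7 (RIn.tail h6 h5 (RIn.mem h6 ha) h8))) with ⟨Y, h5, h6⟩ | ⟨Y, h5, h6⟩
  · exact absurd (h2 Y h5) (not_lt.2 h6)
  · exact absurd (h4 Y h5) (not_lt.2 h6)

lemma Mv.rich {w w' a k : V} {Δ : Finset V} (h : Mv F F' w w' a Δ) (hr : 1 ≤ r) (hF : F ≤ G)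
    (hk : k ∉ Δ) (hR : Rich G r F' k) : Rich G r F k := by
  obtain ⟨L, ρ, hρ, hR⟩ := hR
  refine ⟨L, ρ, hρ, fun Δ0 => ?_⟩
  obtain ⟨τ, t, ⟨hs, hp, he, hl, hf⟩, h1, h2⟩ := hR (insert w' (Δ0 ∪ Δ.biUnion fun v =>
    ball G v (2 * ρ + (r + 2 * (2 * L + 1)))))
  have a1 : ∀ v ∈ Δ, ∀ y, F'.Reachable t y → 2 * ρ + (r + 2 * (2 * L + 1)) < G.dist v y := by
    intro v hv y hy
    by_contra hn
    exact h2 y (mem_insert_of_mem (mem_union_right _ (mem_biUnion.2
      ⟨v, hv, mem_ball.2 (not_lt.1 hn)⟩))) hy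
  have dt := (hs.near hl.2.1).trans hρ
  have a2 : ∀ v, G.dist τ.e0 v ≤ ρ → v ∉ Δ := by
    intro v hv hv'
    have b1 := a1 v hv' t (SimpleGraph.Reachable.refl _)
    have b2 := dist_tri (G := G) v τ.e0 t
    rw [SimpleGraph.dist_comm] at hv
    omega
  have a3 : ∀ v, G.dist τ.e0 v ≤ ρ → v ≠ w := by rintro v hv rfl; exact a2 _ hv h.hw
  have d1 : G.dist τ.e0 τ.e1 ≤ ρ := by rw [hs.de1]; omega
  have a4 : ∀ v ∈ Δ, ¬ F.Reachable t v := fun v hv hc =>
    h2 w' (mem_insert_self _ _) ((h.reach _ _ (a2 t dt) h.hw').1 (hc.trans (h.old v hv).2))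
  refine ⟨τ, t, ⟨hs, fun a ha b hb hab => hp a ha b hb ?_,
    (h.adj _ _ (a3 _ (by simp)) (a3 _ d1)).2 he, hl.congr hs hr hρ fun u v _ _ hu hv =>
      (h.reach u v (a2 u hu) (a2 v hv)).symm, fun t' k' b1 b2 b3 b4 => ?_⟩,
    (h.reach _ _ (a2 _ d1) hk).2 h1, fun v hv hc => ?_⟩
  · have b1 := hs.sub a ha
    have b2 := dist_tri (G := G) τ.e0 a b
    rw [dist_adj (hF hab)] at b2
    exact (h.adj _ _ (a3 _ (by omega)) (a3 _ (by omega))).1 hab
  · have c1 : t' ∉ Δ := fun hc => a4 t' hc b3.symm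
    have c2 := (h.reach _ _ c1 (a2 t dt)).1 b3
    by_cases c3 : k' ∈ Δ
    · have := a1 k' c3 t' c2.symm
      rw [SimpleGraph.dist_comm] at this
      exact ⟨by omega, fun _ => by omega⟩
    · exact hf t' k' b1 b2 c2 ((h.reach _ _ c3 (a2 _ d1)).1 b4)
  · by_cases c1 : v ∈ Δ
    · exact a4 v c1 hc
    · exact h2 v (mem_insert_of_mem (mem_union_left _ hv)) ((h.reach _ _ (a2 t dt) c1).1 hc)

/-- The properties used along the moves. -/
def Gp (G : SimpleGraph V) (r : ℕ) (lam d : ℝ) (F : SimpleGraph V) : Prop :=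
  Acy F ∧ InfC F ∧ (∀ v, ¬ Trunk F v) ∧ Thin G d F ∧ Many G r lam F

variable {Gd : Set (SimpleGraph V)}

lemma Closed.mv (hC : Closed G Gd) (hP : ∀ F ∈ Gd, Gp G r lam d F) (hF : F ∈ Gd) {w a : V}
    (hwa : G.Adj w a) (ha : ¬ F.Reachable a w) : ∃ F' ∈ Gd, ∃ w' Δ, Mv F F' w w' a Δ := by
  obtain ⟨w', F', hF', hM⟩ := (hC F hF).2 w a hwa fun h => ha h.symm.reachable
  have hA := (hP F hF).1
  have fin : {y | RIn F {w'}ᶜ w y}.Finite := by
    by_contra hi
    obtain ⟨u, -, hu⟩ := exists_infBr (hC F hF).1 (A := Set.univ) (u := a)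
      (by simpa [rin_univ] using (hP F hF).2.1 a)
    exact (hP F' hF').2.2.1 a ⟨u, w, by rintro rfl; exact ha hu.1.reachable, hM.infBr ha hu,
      hM.adj.symm, Set.Infinite.mono (fun y hy => hM.part ha hy) hi⟩
  have hΔ : ∀ y, y ∈ fin.toFinset ↔ RIn F {w'}ᶜ w y := fun y => by simp
  have w1 : w ∈ fin.toFinset := (hΔ w).2 (RIn.refl _ _ _)
  refine ⟨F', hF', w', fin.toFinset, w1, fun h => ha ((hΔ a).1 h).reach.symm,
    fun h => ((hΔ w').1 h).mem hM.1.ne rfl, fun u hu => ?_, fun u hu => ?_, fun u v hu hv => ?_,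
    fun u v hu hv => ⟨fun h => hM.keep h hu hv, fun h => hM.back h hu hv⟩⟩
  · have := ((hΔ u).1 hu).reach.symm
    exact ⟨this, this.trans hM.1.reachable⟩
  · exact (hM.part ha ((hΔ u).1 hu)).reach.symm.trans hM.adj.reachable
  · rw [(hM.pend hA hΔ).reach_iff hu hv, (hM.pend' hA ha hΔ).reach_iff hu hv]
    exact hM.rin_iff (by simpa using w1)

/-- The trees of `k` and `t` have not been touched. -/
def Inv (G : SimpleGraph V) (r : ℕ) (k t : V) (F F' : SimpleGraph V) : Prop :=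
  (∀ v, F'.Reachable v k ↔ F.Reachable v k) ∧ (∀ v, F'.Reachable v t ↔ F.Reachable v t) ∧
    (∀ u v, F.Reachable u k → (F'.Adj u v ↔ F.Adj u v)) ∧ (Rich G r F' k → Rich G r F k)

omit hG in
lemma Inv.refl (k t : V) (F : SimpleGraph V) : Inv G r k t F F :=
  ⟨fun _ => Iff.rfl, fun _ => Iff.rfl, fun _ _ _ => Iff.rfl, id⟩

omit hG in
lemma Inv.trans {k t : V} {F'' : SimpleGraph V} (h : Inv G r k t F F') (h' : Inv G r k t F' F'') :
    Inv G r k t F F'' :=
  ⟨fun v => (h'.1 v).trans (h.1 v), fun v => (h'.2.1 v).trans (h.2.1 v),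
    fun u v hu => (h'.2.2.1 u v ((h.1 u).2 hu)).trans (h.2.2.1 u v hu), h.2.2.2 ∘ h'.2.2.2⟩

lemma Closed.step (hC : Closed G Gd) (hP : ∀ F ∈ Gd, Gp G r lam d F) (hr : 1 ≤ r) (hF : F ∈ Gd)
    {k t w a : V} (hwa : G.Adj w a) (ha : ¬ (F.Reachable a k ∨ F.Reachable a t))
    (hw : ¬ (F.Reachable w k ∨ F.Reachable w t)) : ∃ F' ∈ Gd, Inv G r k t F F' ∧
      F'.Reachable w a ∧ ∀ v, F.Reachable v a → F'.Reachable v a := by
  by_cases h : F.Reachable a w
  · exact ⟨F, hF, Inv.refl _ _ _, h.symm, fun _ => id⟩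
  obtain ⟨F', hF', w', Δ, hM⟩ := hC.mv hP hF hwa h
  have key : ∀ z, ¬ F.Reachable a z → ¬ F.Reachable w z → ∀ v,
      F'.Reachable v z ↔ F.Reachable v z := by
    intro z h1 h2 v
    have hz : z ∉ Δ := fun h => h2 (hM.old z h).1.symm
    by_cases hv : v ∈ Δ
    · exact iff_of_false (fun h => h1 ((hM.reach _ _ hM.ha hz).2 ((hM.new v hv).symm.trans h)))
        fun h => h2 ((hM.old v hv).1.symm.trans h)
    · exact (hM.reach _ _ hv hz).symm
  rw [not_or] at ha hw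
  refine ⟨F', hF', ⟨key k ha.1 hw.1, key t ha.2 hw.2, fun u v hu => ?_,
    hM.rich hr (hC F hF).1 fun h => hw.1 (hM.old k h).1.symm⟩, hM.new w hM.hw, fun v hv =>
    (hM.reach _ _ (fun hc => h (hv.symm.trans (hM.old v hc).1)) hM.ha).1 hv⟩
  by_cases hv : v = w
  · subst hv
    exact iff_of_false (fun h => hw.1 ((key k ha.1 hw.1 v).1
      (h.symm.reachable.trans ((key k ha.1 hw.1 u).2 hu)))) fun h => hw.1 (h.symm.reachable.trans hu)
  · exact (hM.adj u v (by rintro rfl; exact hw.1 hu) hv).symm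

lemma Closed.absorb (hC : Closed G Gd) (hP : ∀ F ∈ Gd, Gp G r lam d F) (hr : 1 ≤ r) (hF : F ∈ Gd)
    {k t a : V} (S : Finset V) (hS : ∀ s ∈ S, RIn G {v | F.Reachable v k ∨ F.Reachable v t}ᶜ a s) :
    ∃ F' ∈ Gd, Inv G r k t F F' ∧ ∀ s ∈ S, F'.Reachable s a := by
  induction S using Finset.induction_on with
  | empty => exact ⟨F, hF, Inv.refl _ _ _, by simp⟩
  | insert s S _ ih =>
    obtain ⟨F1, h1, h2, h3⟩ := ih fun s hs => hS s (mem_insert_of_mem hs)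
    have : ∃ F2 ∈ Gd, Inv G r k t F F2 ∧ F2.Reachable s a ∧
        ∀ v, F1.Reachable v a → F2.Reachable v a := by
      refine RIn.ind (P := fun s => ∃ F2 ∈ Gd, Inv G r k t F F2 ∧ F2.Reachable s a ∧
        ∀ v, F1.Reachable v a → F2.Reachable v a)
        ⟨F1, h1, h2, SimpleGraph.Reachable.refl _, fun _ => id⟩ ?_ (hS s (mem_insert_self _ _))
      rintro u v - a1 a2 a3 ⟨F2, b1, b2, b3, b4⟩
      obtain ⟨F3, c1, c2, c3, c4⟩ := hC.step hP hr b1 (k := k) (t := t) a1.symm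
        (by rw [b2.1, b2.2.1]; exact a2) (by rw [b2.1, b2.2.1]; exact a3)
      have c5 := (c4 a b3.symm).symm
      exact ⟨F3, c1, b2.trans c2, c3.trans c5, fun y hy =>
        (c4 y ((b4 y hy).trans b3.symm)).trans c5⟩
    obtain ⟨F2, a1, a2, a3, a4⟩ := this
    refine ⟨F2, a1, a2, fun y hy => ?_⟩
    rcases mem_insert.1 hy with rfl | hy
    · exact a3
    · exact a4 y (h3 y hy)

theorem Closed.rich (hC : Closed G Gd) (hP : ∀ F ∈ Gd, Gp G r lam d F) (hg : Growth G d)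
    (hd : 8 < d) (hr : 1 ≤ r) (hF : F ∈ Gd) {k k' : V} (hk : ¬ F.Reachable k k') :
    Rich G r F k := by
  obtain ⟨hA, hI, hT, hth, -⟩ := hP F hF
  have hle := (hC F hF).1
  obtain ⟨u0, t, h1, h2, h3⟩ : ∃ u0 t, F.Reachable u0 k ∧ G.Adj u0 t ∧ ¬ F.Reachable t k := by
    by_contra hn
    push Not at hn
    exact hk (reach_ind (P := fun v => F.Reachable v k) (SimpleGraph.Reachable.refl _)
      (fun a b _ h ih => hn a b ih h) (hG.conn k k')).symm
  have h3' : ¬ F.Reachable k t := fun h => h3 h.symm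
  obtain ⟨f0, f1, a1, a2, a3, a4⟩ := hth.outside hg hd hI h3'
  obtain ⟨t1, x1, b1, b2, b3, b4⟩ := hth.outside hg hd hI h3
  have fin := hth.contact (by linarith) h3' r
  obtain ⟨β, e0, e1, c1, c2, c3, c4, c5, c6⟩ := exists_past hle hA hI hT k (insert f0 fin.toFinset)
    (by simp only [mem_insert, Set.Finite.mem_toFinset, Set.mem_ofPred_eq]
        rintro s (rfl | h)
        · exact a1.symm
        · exact h.1.symm)
  have ke : F.Reachable e1 k := (c6.trans c4.reachable).symm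
  have kb : ∀ b ∈ β, F.Reachable b k := fun b hb => (c5.reach_exit hI hb).trans ke
  set L := β.sup (G.dist e0) with hL
  have fin2 := hth.contact (by linarith) h3 (r + 2 * (2 * L + 1))
  have z1 : f1 ∉ {v | F.Reachable v k ∨ F.Reachable v t} := not_or.2 ⟨a3, a4⟩
  obtain ⟨F', hF', ⟨i1, i2, i3, i4⟩, hS⟩ := hC.absorb hP hr hF (k := k) (t := t) (a := f1)
    (insert x1 ((β.biUnion fun b => ball G b r).filter fun v =>
      ¬ (F.Reachable v k ∨ F.Reachable v t))) (fun s hs => hth.conn hg hd hle hI z1 (by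
        rcases mem_insert.1 hs with rfl | hs
        · exact not_or.2 ⟨b4, b3⟩
        · exact (mem_filter.1 hs).2))
  have ke' := (i1 _).2 ke
  refine i4 ((hP F' hF').2.2.2.2.rich (L := L) (ρ := L + r + G.dist e0 x1 + G.dist e0 t1 +
    fin2.toFinset.sup (G.dist e0)) (by omega) (τ := ⟨β, e0, e1, f0, f1⟩) (t := t)
    ⟨⟨c2, c1 (mem_insert_self _ _), c3, fun h => a3 (kb _ h), hle c4, a2, fun b hb => le_sup hb⟩,
      fun a ha b hb hab => c5 a ha b hb ((i3 a b (kb a ha)).1 hab), (i3 _ _ (kb _ c2)).2 c4,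
      ⟨fun h => a3 ((i1 _).1 (h.symm.trans ke')), ⟨fun h => h3 (kb _ h), u0, c1 (mem_insert_of_mem
        (fin.mem_toFinset.2 ⟨h1, t, SimpleGraph.Reachable.refl _, by rw [dist_adj h2]; exact hr⟩)),
        by rw [dist_adj h2]; exact hr⟩, fun h => h3 ((i1 _).1 (h.trans ke')),
        fun h => a4 ((i2 _).1 h.symm), ?_, x1, t1, fun h => b4 (kb _ h),
        fun h => h3 (b1.symm.trans (kb _ h)), by dsimp only; omega, by dsimp only; omega,
        hS x1 (mem_insert_self _ _), (i2 _).2 b1, by rw [dist_adj b2.symm]; exact hr⟩, ?_⟩ ke')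
  · rintro v ⟨-, b, hb, hv⟩
    by_cases hz : F.Reachable v k ∨ F.Reachable v t
    · rcases hz with h | h
      · exact Or.inl (((i1 v).2 h).trans ke'.symm)
      · exact Or.inr (Or.inr ((i2 v).2 h))
    · exact Or.inr (Or.inl (hS v (mem_insert_of_mem (mem_filter.2
        ⟨mem_biUnion.2 ⟨b, hb, mem_ball.2 hv⟩, hz⟩))))
  · intro t' k' _ d2 d3 d4
    have d5 := (i2 _).1 d3
    have d6 := (i1 _).1 (d4.trans ke')
    refine ⟨?_, fun h => ?_⟩
    · by_contra hn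
      exact d2 (c1 (mem_insert_of_mem (fin.mem_toFinset.2
        ⟨d6, t', d5, by rw [SimpleGraph.dist_comm]; exact not_lt.1 hn⟩)))
    · have := le_sup (f := G.dist e0) (fin2.mem_toFinset.2 ⟨d5, k', d6, h⟩)
      dsimp only; omega

variable {ν : Measure (Om V)} [IsProbabilityMeasure ν]

theorem FLim.rich (h : FLim G ν) (hg : Growth G d) (hd : 8 < d) (hr : 1 ≤ r) :
    ∀ᵐ ω ∂ν, ∀ k k', ¬ (Fg G ω).Reachable k k' → ∃ L ρ b1 b2, L + r ≤ ρ ∧
      (Fg G ω).connectedComponentMk b1 ≠ (Fg G ω).connectedComponentMk b2 ∧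
      (Wset G r L ρ (lamd d) (Fg G ω) ((Fg G ω).connectedComponentMk k)
        ((Fg G ω).connectedComponentMk b1) ((Fg G ω).connectedComponentMk b2)).Infinite := by
  obtain ⟨Gd, h1, h2, h3⟩ := h.closure (P := Gp G r (lamd d) d) (by
    filter_upwards [h.acy, h.infC, h.noTrunk hg hd, h.thin hg hd,
      h.many hg (one_lt_lamd hd) (lamd_lt_two hd) hr] with ω a1 a2 a3 a4 a5
    exact ⟨a1, a2, a3, a4, a5⟩)
  filter_upwards [h1] with ω hω k k' hk
  obtain ⟨L, ρ, hρ, hR⟩ := h3.rich h2 hg hd hr hω hk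
  obtain ⟨τ, t, a1, a2, -⟩ := hR ∅
  obtain ⟨B, a3, a4⟩ := (h2 _ hω).2.2.2.2 L ρ hρ τ t a1
  obtain ⟨b, rfl⟩ := B.exists_rep
  rw [SimpleGraph.ConnectedComponent.eq.2 a2] at a4
  exact ⟨L, ρ, t, b, hρ, a3.symm, a4⟩

end Pool.Agent.MP_12d2c5_pr

end MrgPart1

-- ======== part 2: formerly Pool.Agent.MP_12d2c5_pr.Toggle
section MrgPart2

/-! Moving a bush at a valid site of a sparse family. -/

open scoped Classical ENNReal
open Finset MeasureTheory Filter

namespace Pool.Agent.MP_12d2c5_pr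

lemma exists_colour {X : Type} [Countable X] (R : X → X → Prop) (hs : ∀ x y, R x y → R y x) (N : ℕ)
    (h : ∀ x, ∃ s : Finset X, s.card ≤ N ∧ ∀ y, R x y → y ∈ s) :
    ∃ c : X → ℕ, (∀ x, c x ≤ N) ∧ ∀ x y, x ≠ y → R x y → c x ≠ c y := by
  obtain ⟨enc, henc⟩ := exists_injective_nat X
  choose s h1 h2 using h
  let c : X → ℕ := (InvImage.wf enc Nat.lt_wfRel.wf).fix fun x ih =>
    sInf {k | ∀ y (h : enc y < enc x), y ∈ s x → ih y h ≠ k}
  have hc : ∀ x, c x = sInf {k | ∀ y, enc y < enc x → y ∈ s x → c y ≠ k} := fun x =>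
    WellFounded.fix_eq _ _ x
  have ex : ∀ x, ∃ k ≤ N, k ∈ {k | ∀ y, enc y < enc x → y ∈ s x → c y ≠ k} := by
    intro x
    obtain ⟨k, a1, a2⟩ := exists_mem_notMem_of_card_lt_card (s := (s x).image c)
      (t := range (N + 1)) (by have := h1 x; have := card_image_le (s := s x) (f := c); simp; omega)
    exact ⟨k, Nat.lt_succ_iff.1 (mem_range.1 a1), fun y _ hy e => a2 (mem_image.2 ⟨y, hy, e⟩)⟩
  have key : ∀ x y, enc y < enc x → R x y → c y ≠ c x := by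
    intro x y a1 a2
    obtain ⟨k, -, hk⟩ := ex x
    rw [hc x]
    exact Nat.sInf_mem ⟨k, hk⟩ y a1 (h2 x y a2)
  refine ⟨c, fun x => ?_, fun x y hne hr => ?_⟩
  · obtain ⟨k, a1, a2⟩ := ex x
    rw [hc x]; exact (Nat.sInf_le a2).trans a1
  · rcases lt_or_gt_of_ne (henc.ne hne) with h | h
    · exact key y x h (hs _ _ hr)
    · exact (key x y h hr).symm

variable {V : Type}

lemma toggle {ι : Type} [Countable ι] {ν : Measure (Om V)} [IsProbabilityMeasure ν]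
    {Vd : ι → Set (Om V)} (hV : ∀ i, MeasurableSet (Vd i)) {T : ι → Om V → Om V}
    {D Gd : Set (Om V)} (hD : MeasurableSet D) (hG : ∀ᵐ ω ∂ν, ω ∈ Gd)
    (h1 : ∀ i s, MeasurableSet s → s ⊆ Vd i → ν s ≤ ν (T i ⁻¹' s))
    (h2 : ∀ i ω, T i ω ∈ D → T i ω ∈ Vd i → ω ∈ Gd → ω ∉ D ∧ ∀ j, (T i ω ∈ Vd j ↔ ω ∈ Vd j))
    (h3 : ∀ E, Cyl E → ∀ ω ∈ D, ∃ i, ω ∈ Vd i ∧ ∀ ω', T i ω' ∈ E → ω' ∈ E) : ν D = 0 := by
  obtain ⟨enc, henc⟩ := exists_injective_nat ι
  have := le_of_cyl (ν.restrict D) (ν.restrict Dᶜ) (fun E hE => ?_) hD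
  · rw [Measure.restrict_apply hD, Measure.restrict_apply hD] at this
    simpa using this
  rw [Measure.restrict_apply hE.meas, Measure.restrict_apply hE.meas]
  set ok : ι → Prop := fun i => ∀ ω', T i ω' ∈ E → ω' ∈ E with hok
  set M : ι → Set (Om V) := fun i =>
    {ω | (ω ∈ Vd i ∧ ok i) ∧ ∀ j, enc j < enc i → ¬ (ω ∈ Vd j ∧ ok j)} with hM
  have mM : ∀ i, MeasurableSet (M i) := fun i => Measurable.setOf
    (((hV i).mem.and measurable_const).and (Measurable.forall fun j =>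
      measurable_const.imp ((hV j).mem.and measurable_const).not))
  have a1 : E ∩ D ⊆ ⋃ i, E ∩ D ∩ M i := by
    intro ω hω
    obtain ⟨i, hi, hmin⟩ := (InvImage.wf enc Nat.lt_wfRel.wf).has_min
      {i | ω ∈ Vd i ∧ ok i} (h3 E hE ω hω.2)
    exact Set.mem_iUnion.2 ⟨i, hω, hi, fun j hj h => hmin j h hj⟩
  have a2 : ∀ i, ν (E ∩ D ∩ M i) ≤ ν (E ∩ Dᶜ ∩ M i) := by
    intro i
    refine (h1 i _ ((hE.meas.inter hD).inter (mM i)) fun ω hω => hω.2.1.1).trans
      (measure_mono_ae ?_)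
    filter_upwards [hG] with ω hω h
    obtain ⟨⟨b1, b2⟩, ⟨b3, b4⟩, b5⟩ := h
    obtain ⟨b6, b7⟩ := h2 i ω b2 b3 hω
    exact ⟨⟨b4 ω b1, b6⟩, ⟨(b7 i).1 b3, b4⟩, fun j hj h => b5 j hj ⟨(b7 j).2 h.1, h.2⟩⟩
  refine (measure_mono a1).trans ((measure_iUnion_le _).trans
    ((ENNReal.tsum_le_tsum a2).trans ?_))
  rw [← measure_iUnion]
  · exact measure_mono (Set.iUnion_subset fun i => Set.inter_subset_left)
  · intro i j hij
    rw [Function.onFun, Set.disjoint_left]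
    rintro ω ⟨-, b1, b2⟩ ⟨-, b3, b4⟩
    rcases lt_or_gt_of_ne (henc.ne hij) with h | h
    · exact b4 i h b1
    · exact b2 j h b3
  · exact fun i => (hE.meas.inter hD.compl).inter (mM i)

variable {G : SimpleGraph V} {r L ρ : ℕ} {τ : Dat V} {t : V} {lam : ℝ} {F F' : SimpleGraph V}
  {Φ : Set (Dat V)}

/-- The bush hangs by one of its two edges. -/
def Mat (F : SimpleGraph V) (τ : Dat V) : Prop :=
  (Pend F τ.β τ.e0 τ.e1 ∧ F.Adj τ.e0 τ.e1) ∨ (Pend F τ.β τ.f0 τ.f1 ∧ F.Adj τ.f0 τ.f1)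

def Core (Φ : Set (Dat V)) (F : SimpleGraph V) : Set V := {v | ∀ τ ∈ Φ, Mat F τ → v ∉ τ.β}

/-- A family of sites far apart. -/
def Spar (G : SimpleGraph V) (L ρ : ℕ) (Φ : Set (Dat V)) : Prop :=
  ∀ τ ∈ Φ, St G L τ ∧ ∀ τ' ∈ Φ, τ ≠ τ' → 4 * ρ + 1 < G.dist τ.e0 τ'.e0

/-- Two forests that differ only by where the bush hangs. -/
structure Tw (G F F' : SimpleGraph V) (τ : Dat V) : Prop where
  le : F ≤ G
  le' : F' ≤ G
  inf : InfC F
  inf' : InfC F'
  mat : Mat F τ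
  mat' : Mat F' τ
  adj : ∀ a b, a ∉ τ.β → b ∉ τ.β → (F.Adj a b ↔ F'.Adj a b)

lemma Tw.symm (h : Tw G F F' τ) : Tw G F' F τ :=
  ⟨h.le', h.le, h.inf', h.inf, h.mat', h.mat, fun a b ha hb => (h.adj a b ha hb).symm⟩

lemma Mat.reach_iff (h : Mat F τ) {u v : V} (hu : u ∉ τ.β) (hv : v ∉ τ.β) :
    F.Reachable u v ↔ RIn F (↑τ.β)ᶜ u v := h.elim (·.1.reach_iff hu hv) (·.1.reach_iff hu hv)

lemma Tw.reach (h : Tw G F F' τ) {u v : V} (hu : u ∉ τ.β) (hv : v ∉ τ.β) :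
    F.Reachable u v ↔ F'.Reachable u v := by
  rw [h.mat.reach_iff hu hv, h.mat'.reach_iff hu hv]
  exact ⟨fun hr => hr.imp fun a b h1 h2 h3 => ⟨(h.adj a b h2 h3).1 h1, h2, h3⟩,
    fun hr => hr.imp fun a b h1 h2 h3 => ⟨(h.adj a b h2 h3).2 h1, h2, h3⟩⟩

lemma Tw.equiv (h : Tw G F F' τ) : ∃ θ : F.ConnectedComponent ≃ F'.ConnectedComponent,
    ∀ v, v ∉ τ.β → θ (F.connectedComponentMk v) = F'.connectedComponentMk v := by
  have rep : ∀ F : SimpleGraph V, InfC F → ∀ C : F.ConnectedComponent,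
      ∃ v, v ∉ τ.β ∧ F.connectedComponentMk v = C := by
    intro F hF C
    obtain ⟨u, rfl⟩ := C.exists_rep
    obtain ⟨v, h1, h2⟩ := (hF u).exists_notMem_finset τ.β
    exact ⟨v, h2, (SimpleGraph.ConnectedComponent.eq.2 h1).symm⟩
  choose p hp1 hp2 using rep F h.inf
  have e : ∀ v, v ∉ τ.β →
      F'.connectedComponentMk (p (F.connectedComponentMk v)) = F'.connectedComponentMk v :=
    fun v hv => SimpleGraph.ConnectedComponent.eq.2 ((h.reach (hp1 _) hv).1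
      (SimpleGraph.ConnectedComponent.eq.1 (hp2 _)))
  refine ⟨Equiv.ofBijective (fun C => F'.connectedComponentMk (p C)) ⟨fun C C' hC => ?_,
    fun C => ?_⟩, e⟩
  · rw [← hp2 C, ← hp2 C']
    exact SimpleGraph.ConnectedComponent.eq.2 ((h.reach (hp1 _) (hp1 _)).2
      (SimpleGraph.ConnectedComponent.eq.1 hC))
  · obtain ⟨v, h1, rfl⟩ := rep F' h.inf' C
    exact ⟨_, e v h1⟩

lemma Mat.adj (h : Mat F τ) (hs : St G L τ) (hI : InfC F) (hr : 1 ≤ r)
    (hn : ¬ F.Reachable τ.e1 τ.f1) :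
    (CG G F r).Adj (F.connectedComponentMk τ.e1) (F.connectedComponentMk τ.f1) := by
  refine CG_adj.2 ⟨fun e => hn (SimpleGraph.ConnectedComponent.eq.1 e), ?_⟩
  rcases h with h | h
  · exact ⟨τ.f0, τ.f1, SimpleGraph.ConnectedComponent.eq.2 (h.1.reach_exit hI hs.f0), rfl,
      by rw [dist_adj hs.af]; exact hr⟩
  · exact ⟨τ.e1, τ.e0, rfl, SimpleGraph.ConnectedComponent.eq.2 (h.1.reach_exit hI hs.e0),
      by rw [dist_adj hs.ae.symm]; exact hr⟩

lemma Tw.cg (h : Tw G F F' τ) (hs : St G L τ) (hr : 1 ≤ r) (hl : Loc' G r ρ F.Reachable τ t)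
    {θ : F.ConnectedComponent ≃ F'.ConnectedComponent}
    (hθ : ∀ v, v ∉ τ.β → θ (F.connectedComponentMk v) = F'.connectedComponentMk v)
    {C C' : F.ConnectedComponent} (hC : (CG G F r).Adj C C')
    (h1 : ¬ (C = F.connectedComponentMk τ.e1 ∧ C' = F.connectedComponentMk t))
    (h2 : ¬ (C' = F.connectedComponentMk τ.e1 ∧ C = F.connectedComponentMk t)) :
    (CG G F' r).Adj (θ C) (θ C') := by
  obtain ⟨a1, a2, a3, a4, a5, a, t', b1, b2, -, -, b5, b6, b7⟩ := hl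
  have KA : (CG G F' r).Adj (θ (F.connectedComponentMk τ.e1)) (θ (F.connectedComponentMk τ.f1)) := by
    rw [hθ _ hs.e1, hθ _ hs.f1]
    exact h.mat'.adj hs h.inf' hr (by rwa [← h.reach hs.e1 hs.f1])
  have AT : (CG G F' r).Adj (θ (F.connectedComponentMk τ.f1)) (θ (F.connectedComponentMk t)) := by
    refine CG_adj.2 ⟨θ.injective.ne fun e => a4 (SimpleGraph.ConnectedComponent.eq.1 e).symm,
      a, t', ?_, ?_, b7⟩
    · rw [← hθ a b1, SimpleGraph.ConnectedComponent.eq.2 b5]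
    · rw [← hθ t' b2, SimpleGraph.ConnectedComponent.eq.2 b6]
  have ex : (∀ u ∈ τ.β, F.connectedComponentMk u = F.connectedComponentMk τ.e1) ∨
      ∀ u ∈ τ.β, F.connectedComponentMk u = F.connectedComponentMk τ.f1 :=
    h.mat.imp (fun h' u hu => SimpleGraph.ConnectedComponent.eq.2 (h'.1.reach_exit h.inf hu))
      fun h' u hu => SimpleGraph.ConnectedComponent.eq.2 (h'.1.reach_exit h.inf hu)
  have key : ∀ u v, u ∈ τ.β → G.dist u v ≤ r →
      F.connectedComponentMk u ≠ F.connectedComponentMk v →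
      ¬ (F.connectedComponentMk u = F.connectedComponentMk τ.e1 ∧
        F.connectedComponentMk v = F.connectedComponentMk t) →
      (CG G F' r).Adj (θ (F.connectedComponentMk u)) (θ (F.connectedComponentMk v)) := by
    intro u v hu huv hne hn
    have hv : v ∉ τ.β := fun hv => hne (ex.elim (fun e => (e u hu).trans (e v hv).symm)
      fun e => (e u hu).trans (e v hv).symm)
    have := a5 v ⟨hv, u, hu, huv⟩
    simp only [← SimpleGraph.ConnectedComponent.eq] at this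
    rcases ex with e | e <;> rw [e u hu] at hne hn ⊢ <;> rcases this with e' | e' | e' <;>
      rw [e'] at hne hn ⊢
    · exact absurd rfl hne
    · exact KA
    · exact absurd ⟨rfl, rfl⟩ hn
    · exact KA.symm
    · exact absurd rfl hne
    · exact AT
  obtain ⟨hne, u, v, rfl, rfl, huv⟩ := CG_adj.1 hC
  by_cases hu : u ∈ τ.β
  · exact key u v hu huv hne h1
  by_cases hv : v ∈ τ.β
  · exact (key v u hv (by rwa [SimpleGraph.dist_comm]) hne.symm h2).symm
  exact CG_adj.2 ⟨θ.injective.ne hne, u, v, (hθ u hu).symm, (hθ v hv).symm, huv⟩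

variable [hG : Nice G]

lemma Spar.out (h : Spar G L ρ Φ) (hρ : L + r ≤ ρ) (h1 : τ ∈ Φ) {τ' : Dat V} (h2 : τ' ∈ Φ)
    (hne : τ' ≠ τ) {v : V} (hv : G.dist τ'.e0 v ≤ 3 * ρ + 1) : v ∉ τ.β := by
  intro hb
  have a1 := (h τ h1).1.sub v hb
  have a2 := (h τ' h2).2 τ h1 hne
  have a3 := dist_tri (G := G) τ'.e0 v τ.e0
  rw [SimpleGraph.dist_comm] at a1
  omega

lemma Tw.mats (h : Tw G F F' τ) (hΦ : Spar G L ρ Φ) (hρ : L + r ≤ ρ) (h1 : τ ∈ Φ) {τ' : Dat V}
    (h2 : τ' ∈ Φ) (hm : Mat F τ') : Mat F' τ' := by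
  by_cases e : τ' = τ
  · rw [e]; exact h.mat'
  have hs := (hΦ τ' h2).1
  have key : ∀ a ∈ τ'.β, ∀ b, G.Adj a b → (F.Adj a b ↔ F'.Adj a b) := by
    intro a ha b hab
    have a1 := hs.sub a ha
    have a2 := dist_tri (G := G) τ'.e0 a b
    rw [dist_adj hab] at a2
    exact h.adj a b (hΦ.out hρ h1 h2 e (by omega)) (hΦ.out hρ h1 h2 e (by omega))
  exact hm.imp (fun hm => ⟨fun a ha b hb hab => hm.1 a ha b hb ((key a ha b (h.le' hab)).2 hab),
    (key _ hs.e0 _ hs.ae).1 hm.2⟩) fun hm => ⟨fun a ha b hb hab =>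
      hm.1 a ha b hb ((key a ha b (h.le' hab)).2 hab), (key _ hs.f0 _ hs.af).1 hm.2⟩

lemma Spar.core (hΦ : Spar G L ρ Φ) (hρ : L + r ≤ ρ) (hI : InfC F) (u : V) :
    ∃ u' ∈ Core Φ F, F.Reachable u u' ∧ G.dist u u' ≤ 2 * L + 1 ∧
      (u' = u ∨ ∃ τ' ∈ Φ, u ∈ τ'.β) := by
  by_cases hu : u ∈ Core Φ F
  · exact ⟨u, hu, SimpleGraph.Reachable.refl _, by simp, Or.inl rfl⟩
  simp only [Core, Set.mem_ofPred_eq, not_forall, not_not] at hu
  obtain ⟨τ', h1, h2, h3⟩ := hu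
  have hs := (hΦ τ' h1).1
  obtain ⟨x, a1, a2, a3⟩ : ∃ x, x ∉ τ'.β ∧ F.Reachable u x ∧ G.dist τ'.e0 x ≤ L + 1 := by
    rcases h2 with h2 | h2
    · exact ⟨_, hs.e1, h2.1.reach_exit hI h3, by rw [hs.de1]; omega⟩
    · exact ⟨_, hs.f1, h2.1.reach_exit hI h3, hs.df1⟩
  refine ⟨x, fun τ3 b1 _ => ?_, a2, ?_, Or.inr ⟨τ', h1, h3⟩⟩
  · by_cases e : τ' = τ3
    · rwa [← e]
    · exact hΦ.out hρ b1 h1 e (by omega)
  · have b1 := hs.sub u h3
    have b2 := dist_tri (G := G) u τ'.e0 x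
    rw [SimpleGraph.dist_comm] at b1
    omega

lemma Spar.not_adj (hΦ : Spar G L ρ Φ) (hρ : L + r ≤ ρ) (hI : InfC F) (h1 : τ ∈ Φ)
    (hp : Pend F τ.β τ.f0 τ.f1) (hl : Loc' G r ρ F.Reachable τ t)
    (hf : Far G r L ρ F.Reachable τ t (Core Φ F)) :
    ¬ (CG G F r).Adj (F.connectedComponentMk τ.e1) (F.connectedComponentMk t) := by
  intro h
  obtain ⟨-, u, v, a1, a2, a3⟩ := CG_adj.1 h
  rw [SimpleGraph.ConnectedComponent.eq] at a1 a2
  have hu : u ∉ τ.β := fun h => hl.1 (a1.symm.trans (hp.reach_exit hI h))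
  have hv : v ∉ τ.β := fun h => hl.2.2.2.1 (a2.symm.trans (hp.reach_exit hI h))
  obtain ⟨u', b1, b2, b3, b4⟩ := hΦ.core hρ hI u
  obtain ⟨v', c1, c2, c3, c4⟩ := hΦ.core hρ hI v
  obtain ⟨d1, d2⟩ := hf v' u' c1 b1 (c2.symm.trans a2) (b2.symm.trans a1)
  have t1 := dist_tri (G := G) v' v u'
  have t2 := dist_tri (G := G) v u u'
  have t3 := dist_tri (G := G) τ.e0 v' v
  have t4 := dist_tri (G := G) τ.e0 v u
  rw [SimpleGraph.dist_comm] at a3 c3
  have d3 := d2 (by omega)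
  rcases c4 with rfl | ⟨τ', e1, e2⟩
  · rcases b4 with rfl | ⟨τ', e1, e2⟩
    · omega
    · exact hΦ.out hρ e1 h1 (by rintro rfl; exact hu e2) (by omega) e2
  · exact hΦ.out hρ e1 h1 (by rintro rfl; exact hv e2) (by omega) e2

end Pool.Agent.MP_12d2c5_pr

end MrgPart2

-- ======== part 3: formerly Pool.Agent.MP_12d2c5_pr.Final
section MrgPart3

/-! The component graph has no nontrivial automorphism. -/

open scoped Classical ENNReal
open Finset MeasureTheory Filter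

namespace Pool.Agent.MP_12d2c5_pr

variable {V : Type} {G : SimpleGraph V} {r L ρ : ℕ} {τ : Dat V} {lam : ℝ} {F F' : SimpleGraph V}
  {Φ : Set (Dat V)} {k k' b1 b2 c1 c2 : V}

/-- Valid sites of the family. -/
def Vd (G : SimpleGraph V) (r L ρ : ℕ) (lam : ℝ) (Φ : Set (Dat V)) (k k' b1 b2 c1 c2 : V)
    (F : SimpleGraph V) (τ : Dat V) : Prop :=
  Mat F τ ∧ (k ∉ τ.β ∧ k' ∉ τ.β ∧ b1 ∉ τ.β ∧ b2 ∉ τ.β ∧ c1 ∉ τ.β ∧ c2 ∉ τ.β) ∧
    F.Reachable τ.e1 k ∧ ∃ t, Loc' G r ρ F.Reachable τ t ∧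
      Far G r L ρ F.Reachable τ t (Core Φ F) ∧ ¬ F.Reachable t k' ∧
      ∃ n, F.connectedComponentMk t ∈ Sn lam (CG G F r) n (F.connectedComponentMk k)
        (F.connectedComponentMk b1) (F.connectedComponentMk b2)

def SS (G : SimpleGraph V) (r : ℕ) (lam : ℝ) (n : ℕ) (k b1 b2 : V) (F : SimpleGraph V) :
    Set F.ConnectedComponent :=
  Sn lam (CG G F r) n (F.connectedComponentMk k) (F.connectedComponentMk b1)
    (F.connectedComponentMk b2)

def NS (G : SimpleGraph V) (r : ℕ) (lam : ℝ) (n : ℕ) (k b1 b2 : V) (F : SimpleGraph V) :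
    Set F.ConnectedComponent :=
  {C | (CG G F r).Adj (F.connectedComponentMk k) C ∧ C ∈ SS G r lam n k b1 b2 F}

/-- The invariants of two trees agree, and the first has infinitely many valid sites. -/
def Dd (G : SimpleGraph V) (r L ρ : ℕ) (lam : ℝ) (Φ : Set (Dat V)) (k k' b1 b2 c1 c2 : V)
    (F : SimpleGraph V) : Prop :=
  InfC F ∧ ¬ F.Reachable k k' ∧ (∀ n, (SS G r lam n k b1 b2 F).Finite) ∧
    (∀ n, (SS G r lam n k b1 b2 F).encard = (SS G r lam n k' c1 c2 F).encard) ∧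
    (∀ n, (NS G r lam n k b1 b2 F).encard = (NS G r lam n k' c1 c2 F).encard) ∧
    ∀ n, ∃ τ ∈ Φ, Vd G r L ρ lam Φ k k' b1 b2 c1 c2 F τ ∧ n < G.dist k τ.e0

lemma meas_mat (τ : Dat V) [Countable V] : Measurable fun F : SimpleGraph V => Mat F τ :=
  ((meas_pend _ _ _).and (meas_adj _ _)).or ((meas_pend _ _ _).and (meas_adj _ _))

lemma meas_vd [Countable V] (τ : Dat V) :
    Measurable fun F => Vd G r L ρ lam Φ k k' b1 b2 c1 c2 F τ :=
  (meas_mat τ).and (measurable_const.and ((meas_reach _ _).and (Measurable.exists fun _ =>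
    (meas_loc _ _).and ((meas_far _ _ fun _ => Measurable.forall fun _ => measurable_const.imp
      ((meas_mat _).imp measurable_const)).and ((meas_reach _ _).not.and
        (Measurable.exists fun _ => meas_sn _ _ _ _ _))))))

lemma meas_dd [Countable V] : Measurable (Dd G r L ρ lam Φ k k' b1 b2 c1 c2) := by
  have e1 : ∀ a b : ℕ∞, a = b ↔ ∀ j : ℕ, ((j : ℕ∞) ≤ a ↔ (j : ℕ∞) ≤ b) := fun a b =>
    ⟨fun h => by simp [h], ENat.eq_of_forall_natCast_le_iff⟩
  have e2 : ∀ {α : Type} (S : Set α), S.Finite ↔ ∃ j : ℕ, ¬ (j : ℕ∞) ≤ S.encard := by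
    intro α S
    rw [← Set.encard_ne_top_iff]
    refine ⟨fun h => ?_, fun ⟨j, hj⟩ h => hj (by simp [h])⟩
    obtain ⟨j, hj⟩ := ENat.exists_nat_gt h
    exact ⟨j, not_le.2 hj⟩
  have m1 : ∀ n k b1 b2 j, Measurable fun F : SimpleGraph V =>
      ((j : ℕ) : ℕ∞) ≤ (SS G r lam n k b1 b2 F).encard := fun n k b1 b2 j =>
    meas_encard (fun _ => meas_sn _ _ _ _ _) j
  have m2 : ∀ n k b1 b2 j, Measurable fun F : SimpleGraph V =>
      ((j : ℕ) : ℕ∞) ≤ (NS G r lam n k b1 b2 F).encard := fun n k b1 b2 j =>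
    meas_encard (fun _ => (meas_cg _ _).and (meas_sn _ _ _ _ _)) j
  unfold Dd
  simp only [e1, e2]
  exact (Measurable.forall fun v => meas_infinite fun y => meas_reach v y).and
    ((meas_reach _ _).not.and ((Measurable.forall fun _ => Measurable.exists fun _ =>
      (m1 _ _ _ _ _).not).and ((Measurable.forall fun _ => Measurable.forall fun _ =>
      (m1 _ _ _ _ _).iff (m1 _ _ _ _ _)).and ((Measurable.forall fun _ => Measurable.forall fun _ =>
      (m2 _ _ _ _ _).iff (m2 _ _ _ _ _)).and (Measurable.forall fun _ => Measurable.exists fun _ =>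
        measurable_const.and ((meas_vd _).and measurable_const))))))

lemma Tw.ss (h : Tw G F F' τ) (hs : St G L τ) (hr : 1 ≤ r)
    (hv : Vd G r L ρ lam Φ k k' b1 b2 c1 c2 F τ)
    {θ : F.ConnectedComponent ≃ F'.ConnectedComponent}
    (hθ : ∀ v, v ∉ τ.β → θ (F.connectedComponentMk v) = F'.connectedComponentMk v) {n : ℕ}
    {C : F.ConnectedComponent} (hC : C ∈ SS G r lam n k b1 b2 F) :
    θ C ∈ SS G r lam n k b1 b2 F' := by
  obtain ⟨-, ⟨a1, -, a2, a3, -⟩, a4, t, a5, -⟩ := hv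
  have e := SimpleGraph.ConnectedComponent.eq.2 a4
  unfold SS
  rw [← hθ k a1, ← hθ b1 a2, ← hθ b2 a3]
  exact Sn.map θ (fun C C' h1 h2 h3 => h.cg hs hr a5 hθ h3 (fun h => h1 (h.1.trans e))
    fun h => h2 (h.1.trans e)) hC

variable [hG : Nice G]

lemma Tw.vd (h : Tw G F F' τ) (hΦ : Spar G L ρ Φ) (hr : 1 ≤ r) (hρ : L + r ≤ ρ) (h1 : τ ∈ Φ)
    (hv : Vd G r L ρ lam Φ k k' b1 b2 c1 c2 F τ) {τ' : Dat V} (h2 : τ' ∈ Φ)
    (hv' : Vd G r L ρ lam Φ k k' b1 b2 c1 c2 F τ') : Vd G r L ρ lam Φ k k' b1 b2 c1 c2 F' τ' := by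
  obtain ⟨θ, hθ⟩ := h.equiv
  have hs := (hΦ τ' h2).1
  have out : ∀ v, v ∉ τ'.β → G.dist τ'.e0 v ≤ ρ → v ∉ τ.β := by
    intro v a1 a2
    by_cases e : τ' = τ
    · rwa [← e]
    · exact hΦ.out hρ h1 h2 e (by omega)
  obtain ⟨a1, a2, a3, t, a4, a5, a6, n, a7⟩ := hv'
  have o1 := out _ hs.e1 (by rw [hs.de1]; omega)
  have o2 := out t a4.2.1.1 ((hs.near a4.2.1).trans hρ)
  refine ⟨h.mats hΦ hρ h1 h2 a1, a2, (h.reach o1 hv.2.1.1).1 a3, t, a4.congr hs hr hρ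
    fun u v d1 d2 d3 d4 => h.reach (out u d1 d3) (out v d2 d4), fun t' y d1 d2 d3 d4 => ?_,
    by rwa [← h.reach o2 hv.2.1.2.1], n, ?_⟩
  · exact a5 t' y (fun τ3 e1 e2 => d1 τ3 e1 (h.mats hΦ hρ h1 e1 e2))
      (fun τ3 e1 e2 => d2 τ3 e1 (h.mats hΦ hρ h1 e1 e2))
      ((h.reach (d1 τ h1 h.mat') o2).2 d3) ((h.reach (d2 τ h1 h.mat') o1).2 d4)
  · rw [← hθ t o2]
    exact h.ss (hΦ τ h1).1 hr hv hθ a7

lemma Tw.contra (h : Tw G F F' τ) (hΦ : Spar G L ρ Φ) (hr : 1 ≤ r) (hρ : L + r ≤ ρ) (h1 : τ ∈ Φ)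
    (hp : Pend F τ.β τ.e0 τ.e1) (hp' : Pend F' τ.β τ.f0 τ.f1)
    (hv : Vd G r L ρ lam Φ k k' b1 b2 c1 c2 F τ) (hD : Dd G r L ρ lam Φ k k' b1 b2 c1 c2 F)
    (hD' : Dd G r L ρ lam Φ k k' b1 b2 c1 c2 F') : False := by
  obtain ⟨θ, hθ⟩ := h.equiv
  have hθ' : ∀ v, v ∉ τ.β → θ.symm (F'.connectedComponentMk v) = F.connectedComponentMk v :=
    fun v hv => by rw [← hθ v hv, θ.symm_apply_apply]
  have hs := (hΦ τ h1).1
  have hv' := h.vd hΦ hr hρ h1 hv h1 hv
  obtain ⟨-, ⟨o1, o2, -, -, o5, o6⟩, a3, t, a4, a5, a6, n, a7⟩ := id hv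
  have o7 := a4.2.1.1
  have a4' : Loc' G r ρ F'.Reachable τ t := a4.congr hs hr hρ fun u v d1 d2 _ _ => h.reach d1 d2
  have na := hΦ.not_adj hρ h.inf' h1 hp' a4' fun t' y d1 d2 d3 d4 =>
    a5 t' y (fun τ3 e1 e2 => d1 τ3 e1 (h.mats hΦ hρ h1 e1 e2))
      (fun τ3 e1 e2 => d2 τ3 e1 (h.mats hΦ hρ h1 e1 e2))
      ((h.reach (d1 τ h1 h.mat') o7).2 d3) ((h.reach (d2 τ h1 h.mat') hs.e1).2 d4)
  have back : ∀ C C', (CG G F' r).Adj C C' → (CG G F r).Adj (θ.symm C) (θ.symm C') :=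
    fun C C' hC => h.symm.cg hs hr a4' hθ' hC (by rintro ⟨rfl, rfl⟩; exact na hC)
      (by rintro ⟨rfl, rfl⟩; exact na hC.symm)
  have ek := SimpleGraph.ConnectedComponent.eq.2 a3
  obtain ⟨-, d2, d3, d4, d5, -⟩ := hD
  obtain ⟨-, -, -, d4', d5', -⟩ := hD'
  have l1 : θ.symm '' SS G r lam n k' c1 c2 F' ⊆ SS G r lam n k' c1 c2 F := by
    rintro _ ⟨C, hC, rfl⟩
    unfold SS
    rw [← hθ' k' o2, ← hθ' c1 o5, ← hθ' c2 o6]
    exact Sn.map θ.symm (fun C C' _ _ => back C C') hC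
  have f1 : (SS G r lam n k' c1 c2 F).Finite := by
    rw [← Set.encard_ne_top_iff, ← d4]; exact (d3 n).encard_lt_top.ne
  have l2 : θ.symm '' SS G r lam n k' c1 c2 F' = SS G r lam n k' c1 c2 F := by
    refine (f1.subset l1).eq_of_subset_of_encard_le l1 ?_
    rw [θ.symm.injective.encard_image, ← d4, ← d4']
    exact Set.encard_le_encard_of_injOn (f := θ) (fun C hC => h.ss hs hr hv hθ hC)
      θ.injective.injOn
  have l3 : (NS G r lam n k' c1 c2 F).encard ≤ (NS G r lam n k' c1 c2 F').encard := by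
    refine Set.encard_le_encard_of_injOn (f := θ) ?_ θ.injective.injOn
    rintro C ⟨e1, e2⟩
    rw [← l2] at e2
    obtain ⟨C', e3, rfl⟩ := e2
    refine ⟨?_, by simpa using e3⟩
    rw [← hθ k' o2]
    exact h.cg hs hr a4 hθ e1 (fun e => d2 (SimpleGraph.ConnectedComponent.eq.1
      (ek.symm.trans e.1.symm))) fun e => a6 (SimpleGraph.ConnectedComponent.eq.1 e.2.symm)
  have l4 : (NS G r lam n k b1 b2 F').encard ≤
      (NS G r lam n k b1 b2 F \ {F.connectedComponentMk t}).encard := by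
    refine Set.encard_le_encard_of_injOn (f := θ.symm) ?_ θ.symm.injective.injOn
    rintro C ⟨e1, e2⟩
    refine ⟨⟨?_, h.symm.ss hs hr hv' hθ' e2⟩, fun e => na ?_⟩
    · rw [← hθ' k o1]; exact back _ _ e1
    · rw [← hθ t o7, ← Set.mem_singleton_iff.1 e, θ.apply_symm_apply,
        SimpleGraph.ConnectedComponent.eq.2 hv'.2.2.1]
      exact e1
  have l5 : F.connectedComponentMk t ∈ NS G r lam n k b1 b2 F := by
    refine ⟨?_, a7⟩
    obtain ⟨-, b, e1, e2⟩ := a4.2.1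
    rw [← ek]
    exact CG_adj.2 ⟨fun e => a4.2.2.1 (SimpleGraph.ConnectedComponent.eq.1 e).symm, b, t,
      SimpleGraph.ConnectedComponent.eq.2 (hp.reach_exit h.inf e1), rfl, e2⟩
  have f2 : (NS G r lam n k b1 b2 F).Finite := (d3 n).subset fun C hC => hC.2
  have l6 := (f2.subset Set.sdiff_subset).encard_lt_encard
    (Set.sdiff_singleton_ssubset.2 l5)
  rw [← d5, ← d5'] at l3
  exact absurd (l3.trans l4) (not_le.2 l6)

omit hG in
lemma sw_state {β : Finset V} {x0 x1 y0 y1 : V} (hx0 : x0 ∈ β) (hx1 : x1 ∉ β) (hy0 : y0 ∈ β)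
    (hy1 : y1 ∉ β) (hy : G.Adj y0 y1) (hne : x1 ≠ y1) {ω : Om V}
    (hp : Pend (Fg G ω) β x0 x1) (ha : (Fg G ω).Adj x0 x1) :
    Pend (Fg G (sw s(x0, x1) s(y0, y1) ω)) β y0 y1 ∧
      (Fg G (sw s(x0, x1) s(y0, y1) ω)).Adj y0 y1 ∧ ∀ a b, a ∉ β → b ∉ β →
      ((Fg G ω).Adj a b ↔ (Fg G (sw s(x0, x1) s(y0, y1) ω)).Adj a b) := by
  have e : ∀ {a b u v : V}, a ∈ β → v ∉ β → s(a, b) = s(u, v) → a = u ∧ b = v := by
    intro a b u v h1 h2 h3
    rcases Sym2.eq_iff.1 h3 with h | ⟨rfl, -⟩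
    · exact h
    · exact absurd h1 h2
  refine ⟨fun a h1 b h2 h3 => ?_, Fg_adj.2 ⟨hy, by rw [sw_right]; exact (Fg_adj.1 ha).2⟩,
    fun a b h1 h2 => ?_⟩
  · by_cases e1 : s(a, b) = s(y0, y1)
    · exact e h1 hy1 e1
    obtain ⟨h4, h5⟩ := Fg_adj.1 h3
    by_cases e2 : s(a, b) = s(x0, x1)
    · rw [e2, sw_left] at h5
      exact absurd (hp y0 hy0 y1 hy1 (Fg_adj.2 ⟨hy, h5⟩)).2.symm hne
    · rw [sw_other e2 e1] at h5
      obtain ⟨rfl, rfl⟩ := hp a h1 b h2 (Fg_adj.2 ⟨h4, h5⟩)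
      exact absurd rfl e2
  · have n : ∀ u ∈ β, ∀ v, s(a, b) ≠ s(u, v) := by
      intro u hu v h
      rcases Sym2.eq_iff.1 h with ⟨rfl, -⟩ | ⟨-, rfl⟩
      · exact h1 hu
      · exact h2 hu
    rw [Fg_adj, Fg_adj, sw_other (n _ hx0 _) (n _ hy0 _)]

variable {ν : Measure (Om V)} [IsProbabilityMeasure ν] {d : ℝ}

lemma FLim.half (h : FLim G ν) {β : Finset V} {x0 x1 y0 y1 : V} (hy0 : y0 ∈ β)
    (hy1 : y1 ∉ β) (hy : G.Adj y0 y1) (hne : x1 ≠ y1) {s : Set (Om V)} (hs : MeasurableSet s)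
    (hp : ∀ ω ∈ s, Pend (Fg G ω) β x0 x1) :
    ν s ≤ ν (({ω | ω s(x0, x1) = false} ∩ {ω | ω s(y0, y1) = true}) ∩
      sw s(x0, x1) s(y0, y1) ⁻¹' s) := by
  have h1 := h.swap hy0 hy1 hy hs
  rw [Set.inter_eq_left.2 fun ω hω => by
    by_contra hn
    exact hne (hp ω hω y0 hy0 y1 hy1 (Fg_adj.2 ⟨hy, by simpa using hn⟩)).2.symm] at h1
  refine h1.trans ?_
  have z : ∀ e ∈ ex G β, e ≠ s(x0, x1) → ν (({ω | ω e = false} ∩ {ω | ω s(y0, y1) = true}) ∩
      sw e s(y0, y1) ⁻¹' s) = 0 := by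
    intro e he hne
    convert measure_empty (μ := ν)
    rw [Set.eq_empty_iff_forall_notMem]
    rintro ω ⟨⟨-, h2⟩, h3⟩
    obtain ⟨a, b, a1, a2, a3, rfl⟩ := mem_ex.1 he
    obtain ⟨rfl, rfl⟩ := hp _ h3 a a1 b a2 (Fg_adj.2 ⟨a3, by rw [sw_left]; exact h2⟩)
    exact hne rfl
  by_cases he : s(x0, x1) ∈ ex G β
  · rw [sum_eq_single_of_mem _ he z]
  · rw [sum_eq_zero fun e h => z e h (by rintro rfl; exact he h)]
    exact zero_le

lemma FLim.tog (h : FLim G ν) (hs : St G L τ) {s : Set (Om V)} (hm : MeasurableSet s)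
    (hp : ∀ ω ∈ s, Mat (Fg G ω) τ ∧ τ.e1 ≠ τ.f1) :
    ν s ≤ ν (sw s(τ.e0, τ.e1) s(τ.f0, τ.f1) ⁻¹' s) := by
  rcases s.eq_empty_or_nonempty with rfl | ⟨ω0, h0⟩
  · simp
  have hne := (hp ω0 h0).2
  have m := (meas_coord s(τ.e0, τ.e1)).setOf
  have a1 := h.half (x0 := τ.e0) hs.f0 hs.f1 hs.af hne (hm.inter m) fun ω hω =>
    (hp ω hω.1).1.elim (·.1) fun h =>
      absurd (h.1 _ hs.e0 _ hs.e1 (Fg_adj.2 ⟨hs.ae, hω.2⟩)).2 hne
  have a2 := h.half (x0 := τ.f0) hs.e0 hs.e1 hs.ae hne.symm (hm.diff m) fun ω hω =>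
    (hp ω hω.1).1.elim (fun h => absurd (Fg_adj.1 h.2).2 hω.2) (·.1)
  rw [← measure_inter_add_sdiff s m, ← measure_inter_add_sdiff (sw _ _ ⁻¹' s) m, add_comm]
  refine add_le_add (a2.trans (measure_mono ?_)) (a1.trans (measure_mono ?_))
  · rintro ω ⟨h1, h2⟩
    rw [sw_comm] at h2
    exact ⟨h2.1, h1.2⟩
  · rintro ω ⟨h1, h2⟩
    exact ⟨h2.1, by simpa using h1.1⟩

theorem FLim.dd (h : FLim G ν) (hΦ : Spar G L ρ Φ) (hr : 1 ≤ r) (hρ : L + r ≤ ρ) :
    ∀ᵐ ω ∂ν, ¬ Dd G r L ρ lam Φ k k' b1 b2 c1 c2 (Fg G ω) := by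
  have := countable_V G
  rw [ae_iff]
  simp only [not_not]
  have ne : ∀ {F : SimpleGraph V} {τ : Dat V}, Vd G r L ρ lam Φ k k' b1 b2 c1 c2 F τ →
      τ.e1 ≠ τ.f1 := by
    rintro F τ ⟨-, -, -, t, h, -⟩ e
    exact h.1 (e ▸ SimpleGraph.Reachable.refl _)
  refine toggle (ι := Φ) (Vd := fun τ => {ω | Vd G r L ρ lam Φ k k' b1 b2 c1 c2 (Fg G ω) τ})
    (fun τ => ((meas_vd τ.1).comp (measurable_Fg G)).setOf)
    (T := fun τ => sw s(τ.1.e0, τ.1.e1) s(τ.1.f0, τ.1.f1)) (Gd := {ω | InfC (Fg G ω)})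
    (meas_dd.comp (measurable_Fg G)).setOf h.infC
    (fun τ s hm hs => h.tog (hΦ τ τ.2).1 hm fun ω hω => ⟨(hs hω).1, ne (hs hω)⟩) ?_ ?_
  · rintro ⟨τ, hτ⟩ ω hD hv hI
    have hs := (hΦ τ hτ).1
    simp only [Set.mem_ofPred_eq] at hD hv hI ⊢
    generalize hω' : sw s(τ.e0, τ.e1) s(τ.f0, τ.f1) ω = ω' at hD hv ⊢
    have e : ω = sw s(τ.e0, τ.e1) s(τ.f0, τ.f1) ω' := by rw [← hω', sw_sw]
    have tw : Tw G (Fg G ω') (Fg G ω) τ ∧ ¬ Dd G r L ρ lam Φ k k' b1 b2 c1 c2 (Fg G ω) := by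
      rcases hv.1 with hm | hm
      · obtain ⟨a1, a2, a3⟩ := sw_state hs.e0 hs.e1 hs.f0 hs.f1 hs.af (ne hv) hm.1 hm.2
        rw [← e] at a1 a2 a3
        have tw : Tw G (Fg G ω') (Fg G ω) τ :=
          ⟨Fg_le _ _, Fg_le _ _, hD.1, hI, hv.1, Or.inr ⟨a1, a2⟩, a3⟩
        exact ⟨tw, tw.contra hΦ hr hρ hτ hm.1 a1 hv hD⟩
      · obtain ⟨a1, a2, a3⟩ := sw_state hs.f0 hs.f1 hs.e0 hs.e1 hs.ae (ne hv).symm hm.1 hm.2
        rw [sw_comm, ← e] at a1 a2 a3
        have tw : Tw G (Fg G ω') (Fg G ω) τ :=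
          ⟨Fg_le _ _, Fg_le _ _, hD.1, hI, hv.1, Or.inl ⟨a1, a2⟩, a3⟩
        exact ⟨tw, fun hD' => tw.symm.contra hΦ hr hρ hτ a1 hm.1
          (tw.vd hΦ hr hρ hτ hv hτ hv) hD' hD⟩
    exact ⟨tw.2, fun τ' => ⟨tw.1.vd hΦ hr hρ hτ hv τ'.2,
      tw.1.symm.vd hΦ hr hρ hτ (tw.1.vd hΦ hr hρ hτ hv hτ hv) τ'.2⟩⟩
  · rintro E ⟨Λ, hΛ⟩ ω hω
    set g : Sym2 V → ℕ := Sym2.lift ⟨fun a b => G.dist k a + G.dist k b, fun a b => add_comm _ _⟩
      with hg
    obtain ⟨τ, h1, h2, h3⟩ := hω.2.2.2.2.2 (Λ.sup g + L)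
    have hs := (hΦ τ h1).1
    have out : ∀ a ∈ τ.β, ∀ b, s(a, b) ∉ Λ := by
      intro a ha b hb
      have a1 : G.dist k a + G.dist k b ≤ Λ.sup g := le_sup (f := g) hb
      have a2 := hs.sub a ha
      have a3 := dist_tri (G := G) k a τ.e0
      rw [SimpleGraph.dist_comm] at a2
      omega
    refine ⟨⟨τ, h1⟩, h2, fun ω' => hΛ _ _ fun e he => sw_other ?_ ?_ ω'⟩
    · rintro rfl; exact out _ hs.e0 _ he
    · rintro rfl; exact out _ hs.f0 _ he

variable (G) in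
lemma exists_spar (L ρ : ℕ) : ∃ (N : ℕ) (c : Dat V → ℕ), (∀ τ, c τ ≤ N) ∧
    ∀ i, Spar G L ρ {τ | St G L τ ∧ c τ = i} := by
  have := countable_V G
  set R := 4 * ρ + 1 + (L + 1) with hR
  obtain ⟨c, h1, h2⟩ := exists_colour (fun τ τ' : Dat V => St G L τ ∧ St G L τ' ∧
    G.dist τ.e0 τ'.e0 ≤ 4 * ρ + 1) (fun _ _ h => ⟨h.2.1, h.1, by
      rw [SimpleGraph.dist_comm]; exact h.2.2⟩) (2 ^ bl G R * (bl G R * (bl G R * (bl G R * bl G R))))
    fun τ => ⟨((ball G τ.e0 R).powerset ×ˢ ball G τ.e0 R ×ˢ ball G τ.e0 R ×ˢ ball G τ.e0 R ×ˢ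
      ball G τ.e0 R).image fun p => ⟨p.1, p.2.1, p.2.2.1, p.2.2.2.1, p.2.2.2.2⟩,
      card_image_le.trans (by simp), by
        rintro τ' ⟨-, hs, hd⟩
        have key : ∀ v, G.dist τ'.e0 v ≤ L + 1 → v ∈ ball G τ.e0 R := fun v hv => by
          have := dist_tri (G := G) τ.e0 τ'.e0 v
          rw [mem_ball]; omega
        refine mem_image.2 ⟨(τ'.β, τ'.e0, τ'.e1, τ'.f0, τ'.f1), ?_, rfl⟩
        simp only [mem_product, mem_powerset]
        exact ⟨fun v hv => key v (by have := hs.sub v hv; omega), key _ (by simp),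
          key _ (by rw [hs.de1]; omega), key _ (by have := hs.sub _ hs.f0; omega), key _ hs.df1⟩⟩
  refine ⟨_, c, h1, fun i τ hτ => ⟨hτ.1, fun τ' hτ' hne => ?_⟩⟩
  by_contra hn
  exact h2 τ τ' hne ⟨hτ.1, hτ'.1, not_lt.1 hn⟩ (hτ.2.trans hτ'.2.symm)

theorem FLim.rigid (h : FLim G ν) (hg : Growth G d) (hd : 8 < d) (hr : 1 ≤ r) :
    ∀ᵐ ω ∂ν, ∀ φ : CG G (Fg G ω) r ≃g CG G (Fg G ω) r, ∀ C, φ C = C := by
  have := countable_V G
  choose N c hN hc using exists_spar G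
  have key : ∀ (L ρ i : ℕ) (k k' b1 b2 c1 c2 : V), ∀ᵐ ω ∂ν, L + r ≤ ρ →
      ¬ Dd G r L ρ (lamd d) {τ | St G L τ ∧ c L ρ τ = i} k k' b1 b2 c1 c2 (Fg G ω) := by
    intro L ρ i k k' b1 b2 c1 c2
    by_cases hρ : L + r ≤ ρ
    · exact (h.dd (hc L ρ i) hr hρ).mono fun _ h _ => h
    · exact Eventually.of_forall fun _ h => absurd h hρ
  simp only [← ae_all_iff] at key
  filter_upwards [key, h.infC, h.finS hg hd r, h.rich hg hd hr] with ω a1 a2 a3 a4
  generalize Fg G ω = F at a1 a2 a3 a4 ⊢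
  intro φ C
  by_contra hn
  obtain ⟨k', rfl⟩ := C.exists_rep
  obtain ⟨k, hk⟩ := (φ (F.connectedComponentMk k')).exists_rep
  replace hk : F.connectedComponentMk k = φ (F.connectedComponentMk k') := hk
  have hkk : ¬ F.Reachable k k' := fun h =>
    hn (hk.symm.trans (SimpleGraph.ConnectedComponent.eq.2 h))
  obtain ⟨L, ρ, b1, b2, hρ, hb, hW⟩ := a4 k k' hkk
  obtain ⟨c1, e1⟩ := (φ.symm (F.connectedComponentMk b1)).exists_rep
  obtain ⟨c2, e2⟩ := (φ.symm (F.connectedComponentMk b2)).exists_rep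
  replace e1 : F.connectedComponentMk c1 = φ.symm (F.connectedComponentMk b1) := e1
  replace e2 : F.connectedComponentMk c2 = φ.symm (F.connectedComponentMk b2) := e2
  have e0 : F.connectedComponentMk k' = φ.symm (F.connectedComponentMk k) := by rw [hk]; simp
  have s1 : ∀ n, φ.symm '' SS G r (lamd d) n k b1 b2 F = SS G r (lamd d) n k' c1 c2 F := by
    intro n
    unfold SS
    rw [e0, e1, e2]
    ext C
    constructor
    · rintro ⟨C, hC, rfl⟩
      exact Sn.map φ.symm.toEquiv (fun _ _ _ _ h => φ.symm.map_adj_iff.2 h) hC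
    · intro hC
      refine ⟨φ C, ?_, by simp⟩
      simpa using Sn.map φ.toEquiv (fun _ _ _ _ h => φ.map_adj_iff.2 h) hC
  have s2 : ∀ n, φ.symm '' NS G r (lamd d) n k b1 b2 F = NS G r (lamd d) n k' c1 c2 F := by
    intro n
    ext C
    obtain ⟨C, rfl⟩ := φ.symm.surjective C
    rw [φ.symm.injective.mem_set_image, NS, NS, Set.mem_ofPred_eq, Set.mem_ofPred_eq, ← s1,
      φ.symm.injective.mem_set_image, e0, φ.symm.map_adj_iff]
  have far : ∀ n, ∃ τ, (∀ Φ, τ ∈ Φ → Vd G r L ρ (lamd d) Φ k k' b1 b2 c1 c2 F τ) ∧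
      St G L τ ∧ n < G.dist k τ.e0 := by
    intro n
    obtain ⟨_, ⟨⟨m, d1⟩, τ, t, d2, d3, rfl⟩, d4⟩ := hW.exists_notMem_finset
      ((insert k' (ball G k (n + 2 * ρ + (G.dist k k' + G.dist k b1 + G.dist k b2 + G.dist k c1 +
        G.dist k c2)))).image F.connectedComponentMk)
    have d5 : ¬ G.dist k t ≤ _ := fun h =>
      d4 (mem_image_of_mem _ (mem_insert_of_mem (mem_ball.2 h)))
    obtain ⟨hs, hp, he, hl, hf⟩ := d2
    have d6 := hs.near hl.2.1
    have d7 := dist_tri (G := G) k τ.e0 t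
    have out : ∀ v, G.dist k v ≤ G.dist k k' + G.dist k b1 + G.dist k b2 + G.dist k c1 +
        G.dist k c2 → v ∉ τ.β := by
      intro v hv hb
      have g1 := hs.sub v hb
      have g2 := dist_tri (G := G) k v τ.e0
      rw [SimpleGraph.dist_comm] at g1
      omega
    refine ⟨τ, fun Φ hΦ => ⟨Or.inl ⟨hp, he⟩, ⟨out _ (by simp), out _ (by omega), out _ (by omega),
      out _ (by omega), out _ (by omega), out _ (by omega)⟩,
      SimpleGraph.ConnectedComponent.eq.1 d3, t, hl, fun t' y g1 g2 =>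
        hf t' y (g1 τ hΦ (Or.inl ⟨hp, he⟩)) (g2 τ hΦ (Or.inl ⟨hp, he⟩)), fun h => d4 (mem_image.2
        ⟨k', mem_insert_self _ _, (SimpleGraph.ConnectedComponent.eq.2 h).symm⟩), m, d1⟩, hs,
      by omega⟩
  have : ∃ i, ∀ n, ∃ τ ∈ {τ | St G L τ ∧ c L ρ τ = i}, Vd G r L ρ (lamd d)
      {τ | St G L τ ∧ c L ρ τ = i} k k' b1 b2 c1 c2 F τ ∧ n < G.dist k τ.e0 := by
    by_contra hc
    push Not at hc
    choose m hm using hc
    obtain ⟨τ, d1, d2, d3⟩ := far ((range (N L ρ + 1)).sup m)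
    have d4 := hm (c L ρ τ) τ ⟨d2, rfl⟩ (d1 _ ⟨d2, rfl⟩)
    have d5 : m (c L ρ τ) ≤ (range (N L ρ + 1)).sup m :=
      le_sup (f := m) (mem_range.2 (Nat.lt_succ_of_le (hN L ρ τ)))
    omega
  obtain ⟨i, hi⟩ := this
  exact a1 L ρ i k k' b1 b2 c1 c2 hρ ⟨a2, hkk, fun n => a3 n _ _ _ hb,
    fun n => by rw [← s1, φ.symm.injective.encard_image],
    fun n => by rw [← s2, φ.symm.injective.encard_image], hi⟩

end Pool.Agent.MP_12d2c5_pr

end MrgPart3

-- marker of a merged file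
example : 731051 + 850577 = 731051 + 850577 := rfl

end MrgPart1

-- marker of a merged file
example : 731051 + 850577 = 731051 + 850577 := rfl
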