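import Mathlib.Data.Int.Star
import Mathlib.Algebra.Order.Ring.Star
import Mathlib.Analysis.SpecialFunctions.Pow.Real
import Mathlib.Algebra.Order.Star.Real
import Mathlib.Combinatorics.SimpleGraph.Metric
import Mathlib.Tactic.Algebra.Basic
import Mathlib.Algebra.BigOperators.Field
import Mathlib.Algebra.Order.Chebyshev
import Mathlib.Analysis.PSeries
import Mathlib.Algebra.Ring.IsFormallyReal

-- ======== part 0: formerly Pool.Agent.MP_12d2c5_pr.Geo
section MrgPart0

/-! Balls, growth and summation lemmas in an infinite connected locally finite transitive graph. -/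

open scoped Classical
open Finset

namespace Pool.Agent.MP_12d2c5_pr

variable {V : Type}

class Nice (G : SimpleGraph V) : Prop where
  inf : Infinite V
  conn : G.Connected
  fin : ∀ v, (G.neighborSet v).Finite
  trans : ∀ x y : V, ∃ φ : G ≃g G, φ x = y

variable (G : SimpleGraph V) [hG : Nice G]

noncomputable def nb (x : V) : Finset V := (Nice.fin (G := G) x).toFinset

variable {G}

@[simp] lemma mem_nb {x y : V} : y ∈ nb G x ↔ G.Adj x y := by simp [nb]

lemma dist_tri (x y z : V) : G.dist x z ≤ G.dist x y + G.dist y z := hG.conn.dist_triangle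

omit hG in
lemma dist_adj {x y : V} (h : G.Adj x y) : G.dist x y = 1 := SimpleGraph.dist_eq_one_iff_adj.2 h

lemma dist_zero {x y : V} : G.dist x y = 0 ↔ x = y := hG.conn.dist_eq_zero_iff

lemma exists_next {x y : V} (h : x ≠ y) : ∃ x', G.Adj x x' ∧ G.dist x' y + 1 = G.dist x y := by
  obtain ⟨w, hw⟩ := hG.conn.exists_walk_length_eq_dist x y
  cases w with
  | nil => exact absurd rfl h
  | @cons _ x' _ ha w =>
    refine ⟨x', ha, ?_⟩
    have h1 := SimpleGraph.dist_le w
    have h2 := dist_tri (G := G) x x' y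
    rw [dist_adj ha] at h2
    simp only [SimpleGraph.Walk.length_cons] at hw
    omega

variable (G) in
lemma ball_fin (x : V) (n : ℕ) : {v | G.dist x v ≤ n}.Finite := by
  induction n generalizing x with
  | zero =>
    apply (Set.finite_singleton x).subset
    intro v hv
    simp only [Set.mem_ofPred_eq, Nat.le_zero] at hv
    exact (dist_zero.1 hv).symm
  | succ n ih =>
    apply ((Set.finite_singleton x).union
      ((Nice.fin (G := G) x).biUnion fun y _ => ih y)).subset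
    intro v hv
    by_cases h : x = v
    · left; exact h.symm
    · right
      obtain ⟨x', ha, hd⟩ := exists_next (G := G) h
      simp only [Set.mem_ofPred_eq] at hv
      simp only [Set.mem_iUnion, Set.mem_ofPred_eq]
      exact ⟨x', ha, by omega⟩

variable (G) in
noncomputable def ball (x : V) (n : ℕ) : Finset V := (ball_fin G x n).toFinset

@[simp] lemma mem_ball {x v : V} {n : ℕ} : v ∈ ball G x n ↔ G.dist x v ≤ n := by simp [ball]

lemma self_mem_ball (x : V) (n : ℕ) : x ∈ ball G x n := by simp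

lemma ball_mono (x : V) {m n : ℕ} (h : m ≤ n) : ball G x m ⊆ ball G x n := fun v hv => by
  simp only [mem_ball] at hv ⊢; omega

lemma ball_sub {x y : V} {m n : ℕ} (h : G.dist x y + m ≤ n) : ball G y m ⊆ ball G x n :=
  fun v hv => by
    simp only [mem_ball] at hv ⊢
    have := dist_tri (G := G) x y v
    omega

lemma countable_V (G : SimpleGraph V) [hG : Nice G] : Countable V := by
  have : Infinite V := hG.inf
  obtain ⟨o⟩ : Nonempty V := inferInstance
  have : (Set.univ : Set V) = ⋃ n : ℕ, {v | G.dist o v ≤ n} := by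
    ext v; simp only [Set.mem_univ, Set.mem_iUnion, Set.mem_ofPred_eq, true_iff]
    exact ⟨_, le_rfl⟩
  rw [← Set.countable_univ_iff, this]
  exact Set.countable_iUnion fun n => (ball_fin G o n).countable

lemma dist_iso_le (φ : G ≃g G) (x y : V) : G.dist (φ x) (φ y) ≤ G.dist x y := by
  obtain ⟨w, hw⟩ := hG.conn.exists_walk_length_eq_dist x y
  have := SimpleGraph.dist_le (w.map φ.toHom)
  rw [SimpleGraph.Walk.length_map, hw] at this
  exact this

@[simp] lemma dist_iso (φ : G ≃g G) (x y : V) : G.dist (φ x) (φ y) = G.dist x y := by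
  apply le_antisymm (dist_iso_le φ x y)
  simpa using dist_iso_le φ.symm (φ x) (φ y)

lemma ball_iso (φ : G ≃g G) (x : V) (n : ℕ) : ball G (φ x) n = (ball G x n).image φ := by
  ext v
  simp only [mem_ball, mem_image]
  constructor
  · intro h
    refine ⟨φ.symm v, ?_, by simp⟩
    rw [← dist_iso φ]; simpa using h
  · rintro ⟨w, hw, rfl⟩; simpa using hw

lemma nb_iso (φ : G ≃g G) (x : V) : nb G (φ x) = (nb G x).image φ := by
  ext v
  simp only [mem_nb, mem_image]
  constructor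
  · intro h
    refine ⟨φ.symm v, ?_, by simp⟩
    rw [← φ.map_adj_iff]; simpa using h
  · rintro ⟨w, hw, rfl⟩; exact φ.map_adj_iff.2 hw

variable (G) in
noncomputable def org : V := (@Infinite.nonempty V hG.inf).some

variable (G) in
noncomputable def bl (n : ℕ) : ℕ := (ball G (org G) n).card

variable (G) in
noncomputable def dg : ℕ := (nb G (org G)).card

@[simp] lemma card_ball (x : V) (n : ℕ) : (ball G x n).card = bl G n := by
  obtain ⟨φ, rfl⟩ := hG.trans (org G) x
  rw [ball_iso, card_image_of_injective _ φ.injective]; rfl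

@[simp] lemma card_nb (x : V) : (nb G x).card = dg G := by
  obtain ⟨φ, rfl⟩ := hG.trans (org G) x
  rw [nb_iso, card_image_of_injective _ φ.injective]; rfl

variable (G) in
lemma bl_pos (n : ℕ) : 0 < bl G n := card_pos.2 ⟨_, self_mem_ball _ _⟩

variable (G) in
lemma bl_mono {m n : ℕ} (h : m ≤ n) : bl G m ≤ bl G n := card_le_card (ball_mono _ h)

variable (G) in
lemma bl_zero : bl G 0 = 1 := by
  have : ball G (org G) 0 = {org G} := by
    ext v; simp only [mem_ball, Nat.le_zero, dist_zero, mem_singleton]; exact eq_comm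
  unfold bl; rw [this]; simp

variable (G) in
lemma dg_pos : 0 < dg G := by
  have := hG.inf
  obtain ⟨y, hy⟩ := exists_ne (org G)
  obtain ⟨x', ha, -⟩ := exists_next (G := G) hy.symm
  exact card_pos.2 ⟨x', mem_nb.2 ha⟩

lemma exists_mid {x y : V} {m n : ℕ} (h : G.dist x y ≤ m + n) :
    ∃ z, G.dist x z ≤ m ∧ G.dist z y ≤ n := by
  induction m generalizing x with
  | zero => exact ⟨x, by simp, by simpa using h⟩
  | succ m ih =>
    by_cases hxy : x = y
    · exact ⟨x, by simp, by simp [hxy]⟩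
    · obtain ⟨x', ha, hd⟩ := exists_next (G := G) hxy
      obtain ⟨z, h1, h2⟩ := ih (x := x') (by omega)
      have := dist_tri (G := G) x x' z
      rw [dist_adj ha] at this
      exact ⟨z, by omega, h2⟩

variable (G) in
lemma bl_add (m n : ℕ) : bl G (m + n) ≤ bl G m * bl G n := by
  have : ball G (org G) (m + n) ⊆ (ball G (org G) m).biUnion fun z => ball G z n := by
    intro y hy
    obtain ⟨z, h1, h2⟩ := exists_mid (mem_ball.1 hy)
    simp only [mem_biUnion, mem_ball]
    exact ⟨z, h1, h2⟩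
  calc bl G (m + n) ≤ _ := card_le_card this
    _ ≤ ∑ z ∈ ball G (org G) m, (ball G z n).card := card_biUnion_le
    _ = _ := by simp

/-- The sphere of radius `n`. -/
noncomputable def sph (G : SimpleGraph V) [Nice G] (x : V) (n : ℕ) : Finset V :=
  (ball G x n).filter fun v => G.dist x v = n

@[simp] lemma mem_sph {x v : V} {n : ℕ} : v ∈ sph G x n ↔ G.dist x v = n := by
  simp only [sph, mem_filter, mem_ball]; omega

lemma card_sph (x : V) (n : ℕ) : (sph G x (n + 1)).card + bl G n = bl G (n + 1) := by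
  rw [← card_ball x n, ← card_ball x (n + 1), ← card_union_of_disjoint]
  · congr 1; ext v; simp only [mem_union, mem_sph, mem_ball]; omega
  · rw [disjoint_left]; intro v h1 h2; simp only [mem_sph, mem_ball] at h1 h2; omega

lemma exists_far (x : V) (n : ℕ) {S : Set V} (hS : S.Infinite) : ∃ y ∈ S, n < G.dist x y := by
  obtain ⟨y, hy, hy'⟩ := hS.exists_notMem_finset (ball G x n)
  exact ⟨y, hy, by simpa using hy'⟩

/-- Polynomial growth of degree `d`. -/
def Growth (G : SimpleGraph V) [Nice G] (d : ℝ) : Prop :=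
  ∃ c C : ℝ, 0 < c ∧ ∀ n : ℕ, 1 ≤ n → c * (n : ℝ) ^ d ≤ bl G n ∧ (bl G n : ℝ) ≤ C * (n : ℝ) ^ d

lemma no_exp {a : ℕ → ℝ} {C d q : ℝ} (h1 : ∀ n, 1 ≤ a n)
    (hC : ∀ n : ℕ, 1 ≤ n → a n ≤ C * (n : ℝ) ^ d) (hq : 1 < q) (R D : ℕ) :
    ∃ n, R ≤ n ∧ a (n + D) < q * a n := by
  by_contra hcon
  push Not at hcon
  have key : ∀ j : ℕ, q ^ j ≤ a (R + 1 + j * D) := by
    intro j
    induction j with
    | zero => simpa using h1 _
    | succ j ih =>
      have := hcon (R + 1 + j * D) (by omega)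
      rw [show R + 1 + (j + 1) * D = R + 1 + j * D + D by ring, pow_succ]
      nlinarith
  obtain ⟨k, hk⟩ := exists_nat_ge d
  have hC0 : 0 < C := by
    have := hC 1 le_rfl
    have := h1 1
    simp at *; linarith
  have hb : ∀ j : ℕ, 1 ≤ j → q ^ j ≤ C * ((R + 1 + D : ℕ) : ℝ) ^ k * (j : ℝ) ^ k := by
    intro j hj
    refine (key j).trans ((hC _ (by omega)).trans ?_)
    rw [mul_assoc, ← mul_pow]
    apply mul_le_mul_of_nonneg_left _ hC0.le
    have h2 : (1 : ℝ) ≤ ((R + 1 + j * D : ℕ) : ℝ) := by exact_mod_cast (by omega)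
    calc ((R + 1 + j * D : ℕ) : ℝ) ^ d ≤ ((R + 1 + j * D : ℕ) : ℝ) ^ (k : ℝ) :=
          Real.rpow_le_rpow_of_exponent_le h2 hk
      _ = ((R + 1 + j * D : ℕ) : ℝ) ^ k := Real.rpow_natCast _ _
      _ ≤ _ := by
        apply pow_le_pow_left₀ (by positivity)
        have : R + 1 + j * D ≤ (R + 1 + D) * j := by nlinarith
        exact_mod_cast this
  have ht := tendsto_pow_const_div_const_pow_of_one_lt k hq
  set B : ℝ := C * ((R + 1 + D : ℕ) : ℝ) ^ k with hB
  have hB0 : 0 < B := by positivity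
  have := (ht.eventually (gt_mem_nhds (show (0 : ℝ) < 1 / B by positivity))).and
    (Filter.eventually_ge_atTop 1)
  obtain ⟨j, hj1, hj2⟩ := this.exists
  have h3 := hb j hj2
  have h4 : 0 < q ^ j := by positivity
  rw [div_lt_div_iff₀ h4 hB0] at hj1
  nlinarith

lemma Growth.slow {d : ℝ} (h : Growth G d) {q : ℝ} (hq : 1 < q) (R D : ℕ) :
    ∃ n, R ≤ n ∧ (bl G (n + D) : ℝ) < q * bl G n := by
  obtain ⟨c, C, -, hc⟩ := h
  exact no_exp (a := fun n => (bl G n : ℝ)) (fun n => by exact_mod_cast bl_pos G n)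
    (fun n hn => (hc n hn).2) hq R D

/-- Foelner radii. -/
lemma Growth.folner {d : ℝ} (h : Growth G d) {ε : ℝ} (hε : 0 < ε) (R : ℕ) (o : V) :
    ∃ m, R ≤ m ∧ ((sph G o m).card : ℝ) ≤ ε * bl G m := by
  obtain ⟨n, hn, h1⟩ := h.slow (q := 1 + ε) (by linarith) R 1
  refine ⟨n + 1, by omega, ?_⟩
  have h2 : ((sph G o (n + 1)).card : ℝ) + bl G n = bl G (n + 1) := by
    exact_mod_cast card_sph o n
  have h3 : (bl G n : ℝ) ≤ bl G (n + 1) := by exact_mod_cast bl_mono G (by omega)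
  nlinarith

lemma Growth.doubling {d : ℝ} (h : Growth G d) :
    ∃ C : ℝ, 0 < C ∧ ∀ n, (bl G (2 * n) : ℝ) ≤ C * bl G n := by
  obtain ⟨c, C, hc0, hc⟩ := h
  have hC0 : 0 < C := by
    have h1 := (hc 1 le_rfl).2
    have : (1 : ℝ) ≤ bl G 1 := by exact_mod_cast bl_pos G 1
    simp at h1; linarith
  refine ⟨1 + C * 2 ^ d / c, by positivity, fun n => ?_⟩
  rcases Nat.eq_zero_or_pos n with rfl | hn
  · simp only [mul_zero, bl_zero]
    have : 0 ≤ C * 2 ^ d / c := by positivity
    simp; positivity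
  · have h1 := (hc (2 * n) (by omega)).2
    have h2 := (hc n hn).1
    push_cast at h1
    rw [Real.mul_rpow (by norm_num) (by positivity)] at h1
    have h3 : (n : ℝ) ^ d ≤ bl G n / c := by rw [le_div_iff₀ hc0]; linarith
    have h4 : (0 : ℝ) ≤ bl G n := by positivity
    calc (bl G (2 * n) : ℝ) ≤ C * 2 ^ d * (n : ℝ) ^ d := by linarith
      _ ≤ C * 2 ^ d * (bl G n / c) := by gcongr
      _ = C * 2 ^ d / c * bl G n := by ring
      _ ≤ _ := by nlinarith

/-- One plus the distance. -/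
noncomputable def el (G : SimpleGraph V) (x y : V) : ℝ := 1 + (G.dist x y : ℝ)

omit hG in
lemma one_le_el (x y : V) : 1 ≤ el G x y := by unfold el; simp

omit hG in
lemma el_pos (x y : V) : 0 < el G x y := lt_of_lt_of_le one_pos (one_le_el x y)

omit hG in
lemma el_comm (x y : V) : el G x y = el G y x := by unfold el; rw [SimpleGraph.dist_comm]

omit hG in
@[simp] lemma el_self (x : V) : el G x x = 1 := by simp [el]

lemma el_tri (x y z : V) : el G x z ≤ el G x y + el G y z := by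
  unfold el
  have : (G.dist x z : ℝ) ≤ G.dist x y + G.dist y z := by exact_mod_cast dist_tri x y z
  linarith

lemma Growth.sum_el {d : ℝ} (h : Growth G d) {γ : ℝ} (hγ : d < γ) (hγ0 : 0 ≤ γ) :
    ∃ M : ℝ, 1 ≤ M ∧ ∀ (x : V) (F : Finset V), ∑ z ∈ F, el G x z ^ (-γ) ≤ M := by
  obtain ⟨c, C, hc0, hc⟩ := h
  have hC0 : 0 < C := by
    have h1 := (hc 1 le_rfl).2
    have : (1 : ℝ) ≤ bl G 1 := by exact_mod_cast bl_pos G 1
    simp at h1; linarith
  set q : ℝ := 2 ^ (d - γ) with hq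
  have hq0 : 0 < q := by positivity
  have hq1 : q < 1 := Real.rpow_lt_one_of_one_lt_of_neg (by norm_num) (by linarith)
  refine ⟨1 + C * 2 ^ d * (1 - q)⁻¹, by have : 0 < 1 - q := by linarith
                                        have : 0 ≤ C * 2 ^ d * (1 - q)⁻¹ := by positivity
                                        linarith, fun x F => ?_⟩
  set κ : V → ℕ := fun z => Nat.log 2 (1 + G.dist x z) with hκ
  rw [← sum_fiberwise_of_maps_to (g := κ) (t := F.image κ) (fun z hz => mem_image_of_mem _ hz)]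
  have hb : ∀ k ∈ F.image κ, ∑ z ∈ F with κ z = k, el G x z ^ (-γ) ≤ C * 2 ^ d * q ^ k := by
    intro k _
    have h1 : ∀ z ∈ F.filter (fun z => κ z = k), el G x z ^ (-γ) ≤ ((2 : ℝ) ^ k) ^ (-γ) := by
      intro z hz
      have hz' := (mem_filter.1 hz).2
      apply Real.rpow_le_rpow_of_nonpos (by positivity) _ (by linarith)
      have := Nat.pow_log_le_self 2 (x := 1 + G.dist x z) (by omega)
      rw [show Nat.log 2 (1 + G.dist x z) = k from hz'] at this
      unfold el
      exact_mod_cast this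
    have h2 : F.filter (fun z => κ z = k) ⊆ ball G x (2 ^ (k + 1)) := by
      intro z hz
      have hz' := (mem_filter.1 hz).2
      have := Nat.lt_pow_succ_log_self (b := 2) (by norm_num) (1 + G.dist x z)
      rw [show Nat.log 2 (1 + G.dist x z) = k from hz'] at this
      rw [mem_ball]; simp only [Nat.succ_eq_add_one] at this; omega
    have h3 : ((F.filter (fun z => κ z = k)).card : ℝ) ≤ C * (((2 ^ (k + 1) : ℕ) : ℝ)) ^ d := by
      refine le_trans ?_ (hc _ Nat.one_le_two_pow).2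
      rw [← card_ball x]; exact_mod_cast card_le_card h2
    refine (sum_le_card_nsmul _ _ _ h1).trans ?_
    rw [nsmul_eq_mul]
    calc _ ≤ C * (((2 ^ (k + 1) : ℕ) : ℝ)) ^ d * ((2 : ℝ) ^ k) ^ (-γ) := by gcongr
      _ = _ := by
        push_cast
        rw [hq, ← Real.rpow_natCast, ← Real.rpow_natCast, ← Real.rpow_natCast,
          ← Real.rpow_mul (by norm_num), ← Real.rpow_mul (by norm_num),
          ← Real.rpow_mul (by norm_num), mul_assoc, mul_assoc, ← Real.rpow_add (by norm_num),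
          ← Real.rpow_add (by norm_num)]
        congr 2; push_cast; ring
  refine (sum_le_sum hb).trans ?_
  rw [← mul_sum]
  have h5 : ∑ k ∈ F.image κ, q ^ k ≤ (1 - q)⁻¹ := by
    rw [← tsum_geometric_of_lt_one hq0.le hq1]
    exact (summable_geometric_of_lt_one hq0.le hq1).sum_le_tsum _ (fun _ _ => by positivity)
  have : C * 2 ^ d * ∑ k ∈ F.image κ, q ^ k ≤ C * 2 ^ d * (1 - q)⁻¹ := by gcongr
  linarith

end Pool.Agent.MP_12d2c5_pr

end MrgPart0

-- ======== part 1: formerly Pool.Agent.MP_12d2c5_pr.Load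
section MrgPart1

/-! Invariant random geodesics, a pseudo-Poincare inequality and a separation lemma. -/

open scoped Classical
open Finset

namespace Pool.Agent.MP_12d2c5_pr

variable {V : Type} (G : SimpleGraph V) [hG : Nice G]

noncomputable def nxt (x y : V) : Finset V :=
  (nb G x).filter fun x' => G.dist x' y + 1 = G.dist x y

/-- Expected number of visits to `v` of the random geodesic from `x` to `y`. -/
noncomputable def gw : ℕ → V → V → V → ℝ
  | 0, _, _, _ => 0
  | k + 1, x, y, v => if x = y then 0 else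
      (if v = x then 1 else 0) + (∑ x' ∈ nxt G x y, gw k x' y v) / (nxt G x y).card

variable {G}

lemma mem_nxt {x y x' : V} : x' ∈ nxt G x y ↔ G.Adj x x' ∧ G.dist x' y + 1 = G.dist x y := by
  simp [nxt]

lemma nxt_pos {x y : V} (h : x ≠ y) : (0 : ℝ) < (nxt G x y).card := by
  obtain ⟨x', h1, h2⟩ := exists_next (G := G) h
  exact_mod_cast card_pos.2 ⟨x', mem_nxt.2 ⟨h1, h2⟩⟩

lemma gw_nonneg (k : ℕ) (x y v : V) : 0 ≤ gw G k x y v := by
  induction k generalizing x with
  | zero => simp [gw]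
  | succ k ih =>
    simp only [gw]
    split_ifs
    · exact le_rfl
    · have := sum_nonneg (s := nxt G x y) fun x' _ => ih x'
      positivity
    · have := sum_nonneg (s := nxt G x y) fun x' _ => ih x'
      positivity

lemma gw_supp {k : ℕ} {x y v : V} (h : k < G.dist x v) : gw G k x y v = 0 := by
  induction k generalizing x with
  | zero => simp [gw]
  | succ k ih =>
    simp only [gw]
    split_ifs with h1 h2
    · rfl
    · subst h2; simp at h
    · rw [sum_eq_zero]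
      · simp
      · intro x' hx'
        apply ih
        have := dist_tri (G := G) x x' v
        rw [dist_adj (mem_nxt.1 hx').1] at this
        omega

lemma gw_sum (k : ℕ) (x y : V) (F : Finset V) : ∑ v ∈ F, gw G k x y v ≤ k := by
  induction k generalizing x with
  | zero => simp [gw]
  | succ k ih =>
    simp only [gw]
    split_ifs with h1
    · simp; positivity
    · rw [sum_add_distrib, ← sum_div, sum_comm]
      have e1 : ∑ v ∈ F, (if v = x then (1 : ℝ) else 0) ≤ 1 := by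
        rw [sum_ite_eq']; split_ifs <;> norm_num
      have e2 : (∑ x' ∈ nxt G x y, ∑ v ∈ F, gw G k x' y v) / (nxt G x y).card ≤ k := by
        rw [div_le_iff₀ (nxt_pos h1)]
        refine (sum_le_card_nsmul _ _ _ fun x' _ => ih x').trans ?_
        rw [nsmul_eq_mul, mul_comm]
      push_cast; linarith

lemma gw_bound {f D : V → ℝ} (hD : ∀ v v', G.Adj v v' → |f v - f v'| ≤ D v)
    {k : ℕ} {x y : V} (hk : G.dist x y ≤ k) {F : Finset V}
    (hF : ∀ v, G.dist x v ≤ k → D v ≠ 0 → v ∈ F) :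
    |f x - f y| ≤ ∑ v ∈ F, gw G k x y v * D v := by
  induction k generalizing x with
  | zero =>
    have : x = y := dist_zero.1 (by omega : G.dist x y = 0)
    simp [this, gw]
  | succ k ih =>
    simp only [gw]
    split_ifs with h1
    · simp [h1]
    · have e1 : ∑ v ∈ F, (if v = x then (1 : ℝ) else 0) * D v = D x := by
        simp only [ite_mul, one_mul, zero_mul]
        rw [sum_ite_eq']
        split_ifs with h
        · rfl
        · by_contra h'
          exact h (hF x (by simp) (Ne.symm h'))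
      simp only [add_mul, sum_add_distrib, e1]
      have e2 : ∑ v ∈ F, (∑ x' ∈ nxt G x y, gw G k x' y v) / (nxt G x y).card * D v =
          (∑ x' ∈ nxt G x y, ∑ v ∈ F, gw G k x' y v * D v) / (nxt G x y).card := by
        rw [sum_comm, sum_div]
        apply sum_congr rfl; intro v _
        rw [← sum_mul]; ring
      rw [e2]
      have e3 : ∀ x' ∈ nxt G x y, |f x - f y| - D x ≤ ∑ v ∈ F, gw G k x' y v * D v := by
        intro x' hx'
        obtain ⟨ha, hd⟩ := mem_nxt.1 hx'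
        have h2 := ih (x := x') (by omega) (fun v hv hv' => hF v (by
          have := dist_tri (G := G) x x' v
          rw [dist_adj ha] at this
          omega) hv')
        have h3 := hD x x' ha
        have h4 := abs_sub_le (f x) (f x') (f y)
        linarith
      have e4 := card_nsmul_le_sum _ _ _ e3
      rw [nsmul_eq_mul] at e4
      have := nxt_pos (G := G) h1
      have e5 : |f x - f y| - D x ≤
          (∑ x' ∈ nxt G x y, ∑ v ∈ F, gw G k x' y v * D v) / (nxt G x y).card := by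
        rw [le_div_iff₀ this]; linarith
      linarith

lemma nxt_iso (φ : G ≃g G) (x y : V) : nxt G (φ x) (φ y) = (nxt G x y).image φ := by
  ext v
  simp only [mem_nxt, mem_image]
  constructor
  · rintro ⟨h1, h2⟩
    refine ⟨φ.symm v, ⟨?_, ?_⟩, by simp⟩
    · rw [← φ.map_adj_iff]; simpa using h1
    · rw [← dist_iso φ, ← dist_iso φ x y]; simpa using h2
  · rintro ⟨w, ⟨h1, h2⟩, rfl⟩
    exact ⟨φ.map_adj_iff.2 h1, by simpa using h2⟩

lemma gw_iso (φ : G ≃g G) (k : ℕ) (x y v : V) : gw G k (φ x) (φ y) (φ v) = gw G k x y v := by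
  induction k generalizing x with
  | zero => simp [gw]
  | succ k ih =>
    simp only [gw, φ.injective.eq_iff]
    rw [nxt_iso, sum_image (fun a _ b _ h => φ.injective h), card_image_of_injective _ φ.injective]
    simp only [ih]

variable (G) in
noncomputable def ld (k : ℕ) (v : V) : ℝ := ∑ x ∈ ball G v k, ∑ y ∈ ball G x k, gw G k x y v

lemma ld_iso (φ : G ≃g G) (k : ℕ) (v : V) : ld G k (φ v) = ld G k v := by
  unfold ld
  rw [ball_iso, sum_image (fun a _ b _ h => φ.injective h)]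
  apply sum_congr rfl; intro x _
  rw [ball_iso, sum_image (fun a _ b _ h => φ.injective h)]
  simp only [gw_iso]

lemma ld_le (k : ℕ) (v : V) : ld G k v ≤ k * bl G (2 * k) := by
  have h1 : ∀ w, ld G k w = ld G k v := by
    intro w
    obtain ⟨φ, rfl⟩ := hG.trans v w
    exact ld_iso φ k v
  have h2 : ∑ w ∈ ball G v k, ld G k w = bl G k * ld G k v := by simp [h1]
  have h3 : ∑ w ∈ ball G v k, ld G k w ≤
      ∑ w ∈ ball G v k, ∑ x ∈ ball G v (2 * k), ∑ y ∈ ball G x k, gw G k x y w := by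
    apply sum_le_sum; intro w hw
    apply sum_le_sum_of_subset_of_nonneg
    · exact ball_sub (by rw [mem_ball] at hw; omega)
    · intro x _ _; exact sum_nonneg fun y _ => gw_nonneg _ _ _ _
  have h4 : ∑ w ∈ ball G v k, ∑ x ∈ ball G v (2 * k), ∑ y ∈ ball G x k, gw G k x y w ≤
      bl G (2 * k) * (bl G k * k) := by
    rw [sum_comm]
    refine (sum_le_card_nsmul _ _ (bl G k * k : ℝ) fun x _ => ?_).trans ?_
    · rw [sum_comm]
      refine (sum_le_card_nsmul _ _ (k : ℝ) fun y _ => gw_sum _ _ _ _).trans ?_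
      simp
    · simp
  have h5 : (0 : ℝ) < bl G k := by exact_mod_cast bl_pos G k
  have : bl G k * ld G k v ≤ bl G k * (k * bl G (2 * k)) := by nlinarith
  exact le_of_mul_le_mul_left this h5

lemma load_master {D : V → ℝ} (hD0 : ∀ v, 0 ≤ D v) (k : ℕ) (P P' : Finset V) :
    ∑ x ∈ P, ∑ y ∈ ball G x k, ∑ v ∈ P', gw G k x y v * D v ≤
      k * bl G (2 * k) * ∑ v ∈ P', D v := by
  have e1 : ∑ x ∈ P, ∑ y ∈ ball G x k, ∑ v ∈ P', gw G k x y v * D v =
      ∑ v ∈ P', (∑ x ∈ P, ∑ y ∈ ball G x k, gw G k x y v) * D v := by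
    simp only [sum_mul]
    rw [sum_comm (s := P')]
    apply sum_congr rfl; intro x _
    rw [sum_comm]
  rw [e1, mul_sum]
  apply sum_le_sum; intro v _
  apply mul_le_mul_of_nonneg_right _ (hD0 v)
  refine le_trans ?_ (ld_le k v)
  unfold ld
  rw [← sum_filter_add_sum_filter_not P (fun x => x ∈ ball G v k)]
  have e2 : ∑ x ∈ P with ¬ x ∈ ball G v k, ∑ y ∈ ball G x k, gw G k x y v = 0 := by
    apply sum_eq_zero; intro x hx
    apply sum_eq_zero; intro y _
    apply gw_supp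
    have := (mem_filter.1 hx).2
    rw [mem_ball, SimpleGraph.dist_comm] at this
    omega
  rw [e2, add_zero]
  apply sum_le_sum_of_subset_of_nonneg
  · intro x hx; exact (mem_filter.1 hx).2
  · intro x _ _; exact sum_nonneg fun y _ => gw_nonneg _ _ _ _

variable (G) in
/-- The graph Laplacian. -/
noncomputable def Lap (u : V → ℝ) (x : V) : ℝ := ∑ y ∈ nb G x, (u x - u y)

lemma energy_eq {u : V → ℝ} {U P : Finset V} (hu : ∀ x, x ∉ U → u x = 0) (hUP : U ⊆ P)
    (hP : ∀ x ∈ U, nb G x ⊆ P) :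
    ∑ v ∈ P, ∑ v' ∈ nb G v, (u v - u v') ^ 2 = 2 * ∑ x ∈ U, u x * Lap G u x := by
  have e1 : ∑ v ∈ P, ∑ v' ∈ nb G v, (u v - u v') ^ 2 =
      ∑ v ∈ P, ∑ v' ∈ nb G v, u v * (u v - u v') + ∑ v ∈ P, ∑ v' ∈ nb G v, u v' * (u v' - u v) := by
    rw [← sum_add_distrib]; apply sum_congr rfl; intro v _
    rw [← sum_add_distrib]; apply sum_congr rfl; intro v' _; ring
  have e2 : ∑ v ∈ P, ∑ v' ∈ nb G v, u v * (u v - u v') = ∑ x ∈ U, u x * Lap G u x := by
    symm
    simp only [Lap, mul_sum]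
    apply sum_subset hUP
    intro x _ hx; simp [hu x hx]
  have e3 : ∑ v ∈ P, ∑ v' ∈ nb G v, u v' * (u v' - u v) = ∑ x ∈ U, u x * Lap G u x := by
    have : ∀ v ∈ P, ∑ v' ∈ nb G v, u v' * (u v' - u v) =
        ∑ v' ∈ (nb G v).filter (· ∈ U), u v' * (u v' - u v) := by
      intro v _
      symm
      apply sum_subset (filter_subset _ _)
      intro v' h1 h2
      have : v' ∉ U := fun h => h2 (mem_filter.2 ⟨h1, h⟩)
      simp [hu v' this]
    rw [sum_congr rfl this, sum_comm' (t' := U) (s' := fun v' => nb G v')]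
    · simp only [Lap, mul_sum]
    · intro v v'
      simp only [mem_filter, mem_nb]
      constructor
      · rintro ⟨-, h1, h2⟩; exact ⟨h1.symm, h2⟩
      · rintro ⟨h1, h2⟩; exact ⟨hP v' h2 (mem_nb.2 h1), h1.symm, h2⟩
  rw [e1, e2, e3]; ring

theorem poincare {d : ℝ} (h : Growth G d) : ∃ C : ℝ, 1 ≤ C ∧ ∀ (k : ℕ) (U : Finset V) (u : V → ℝ),
    (∀ x, x ∉ U → u x = 0) → ∑ x ∈ U, u x ^ 2 ≤
      C * k ^ 2 * ∑ x ∈ U, u x * Lap G u x + 2 * (∑ x ∈ U, |u x|) ^ 2 / bl G k := by
  obtain ⟨C, hC0, hC⟩ := h.doubling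
  refine ⟨1 + 4 * C, by linarith, fun k U u hu => ?_⟩
  set P : Finset V := U ∪ U.biUnion (nb G) with hP
  set D : V → ℝ := fun v => Real.sqrt (∑ v' ∈ nb G v, (u v - u v') ^ 2) with hD
  have hb : (0 : ℝ) < bl G k := by exact_mod_cast bl_pos G k
  have hD2 : ∀ v, D v ^ 2 = ∑ v' ∈ nb G v, (u v - u v') ^ 2 := fun v =>
    Real.sq_sqrt (sum_nonneg fun _ _ => sq_nonneg _)
  have hD0 : ∀ v, 0 ≤ D v := fun v => Real.sqrt_nonneg _
  have hDb : ∀ v v', G.Adj v v' → |u v - u v'| ≤ D v := by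
    intro v v' ha
    apply Real.abs_le_sqrt
    exact single_le_sum (f := fun v' => (u v - u v') ^ 2) (fun _ _ => sq_nonneg _) (mem_nb.2 ha)
  have hDP : ∀ v, D v ≠ 0 → v ∈ P := by
    intro v hv
    by_contra hn
    apply hv
    simp only [hP, mem_union, mem_biUnion, mem_nb, not_or, not_exists, not_and] at hn
    have : ∑ v' ∈ nb G v, (u v - u v') ^ 2 = 0 := by
      apply sum_eq_zero; intro v' hv'
      have : v' ∉ U := fun h => hn.2 v' h (mem_nb.1 hv').symm
      simp [hu v hn.1, hu v' this]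
    simp [hD, this]
  have hE : ∑ v ∈ P, D v ^ 2 = 2 * ∑ x ∈ U, u x * Lap G u x := by
    simp only [hD2]
    exact energy_eq hu subset_union_left fun x hx y hy =>
      mem_union_right _ (mem_biUnion.2 ⟨x, hx, hy⟩)
  set Q := ∑ x ∈ U, u x * Lap G u x with hQ
  have hQ0 : 0 ≤ Q := by
    have : 0 ≤ ∑ v ∈ P, D v ^ 2 := sum_nonneg fun _ _ => sq_nonneg _
    linarith
  have h1 : ∀ x y, y ∈ ball G x k → (u x - u y) ^ 2 ≤ k * ∑ v ∈ P, gw G k x y v * D v ^ 2 := by
    intro x y hy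
    have a1 := gw_bound hDb (mem_ball.1 hy) (F := P) fun v _ hv => hDP v hv
    have a2 : (∑ v ∈ P, gw G k x y v * D v) ^ 2 ≤
        (∑ v ∈ P, gw G k x y v) * ∑ v ∈ P, gw G k x y v * D v ^ 2 :=
      sum_sq_le_sum_mul_sum_of_sq_le_mul _ (fun v _ => gw_nonneg _ _ _ _)
        (fun v _ => mul_nonneg (gw_nonneg _ _ _ _) (sq_nonneg _)) (fun v _ => le_of_eq (by ring))
    have a3 := gw_sum (G := G) k x y P
    have a4 : 0 ≤ ∑ v ∈ P, gw G k x y v * D v ^ 2 :=
      sum_nonneg fun v _ => mul_nonneg (gw_nonneg _ _ _ _) (sq_nonneg _)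
    calc (u x - u y) ^ 2 = |u x - u y| ^ 2 := (sq_abs _).symm
      _ ≤ (∑ v ∈ P, gw G k x y v * D v) ^ 2 := by gcongr
      _ ≤ _ := a2
      _ ≤ _ := by gcongr
  have h2 : ∑ x ∈ U, ∑ y ∈ ball G x k, (u x - u y) ^ 2 ≤ k * (k * bl G (2 * k) * (2 * Q)) := by
    calc _ ≤ ∑ x ∈ U, ∑ y ∈ ball G x k, k * ∑ v ∈ P, gw G k x y v * D v ^ 2 :=
          sum_le_sum fun x _ => sum_le_sum fun y hy => h1 x y hy
      _ = k * ∑ x ∈ U, ∑ y ∈ ball G x k, ∑ v ∈ P, gw G k x y v * D v ^ 2 := by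
          simp only [mul_sum]
      _ ≤ _ := by
          rw [← hE]
          gcongr
          exact load_master (D := fun v => D v ^ 2) (fun v => sq_nonneg _) k U P
  set N := ∑ x ∈ U, |u x| with hN
  have hN0 : 0 ≤ N := sum_nonneg fun _ _ => abs_nonneg _
  have h3 : ∀ x, ∑ y ∈ ball G x k, |u y| ≤ N := by
    intro x
    rw [← sum_filter_add_sum_filter_not (ball G x k) (· ∈ U)]
    have : ∑ y ∈ ball G x k with ¬ y ∈ U, |u y| = 0 :=
      sum_eq_zero fun y hy => by simp [hu y (mem_filter.1 hy).2]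
    rw [this, add_zero]
    exact sum_le_sum_of_subset_of_nonneg (fun y hy => (mem_filter.1 hy).2) fun _ _ _ => abs_nonneg _
  have h4 : ∑ x ∈ U, ∑ y ∈ ball G x k, |u y| ≤ bl G k * N := by
    have : ∀ x ∈ U, ∑ y ∈ ball G x k, |u y| = ∑ y ∈ (ball G x k).filter (· ∈ U), |u y| := by
      intro x _
      symm
      apply sum_subset (filter_subset _ _)
      intro y h1 h2
      have : y ∉ U := fun h => h2 (mem_filter.2 ⟨h1, h⟩)
      simp [hu y this]
    rw [sum_congr rfl this, sum_comm' (t' := U) (s' := fun y => (ball G y k).filter (· ∈ U)), hN,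
      mul_sum]
    · apply sum_le_sum; intro y _
      rw [sum_const, nsmul_eq_mul]
      gcongr
      rw [← card_ball y]; exact_mod_cast card_le_card (filter_subset _ _)
    · intro x y
      simp only [mem_filter, mem_ball, SimpleGraph.dist_comm (u := x)]
      tauto
  have h5 : ∀ x, (bl G k : ℝ) ^ 2 * u x ^ 2 ≤
      2 * (bl G k * ∑ y ∈ ball G x k, (u x - u y) ^ 2) + 2 * (N * ∑ y ∈ ball G x k, |u y|) := by
    intro x
    have a1 : (bl G k : ℝ) * u x = ∑ y ∈ ball G x k, (u x - u y) + ∑ y ∈ ball G x k, u y := by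
      rw [← sum_add_distrib]; simp
    have a2 : (∑ y ∈ ball G x k, (u x - u y)) ^ 2 ≤ bl G k * ∑ y ∈ ball G x k, (u x - u y) ^ 2 := by
      have := sq_sum_le_card_mul_sum_sq (s := ball G x k) (f := fun y => u x - u y)
      simpa using this
    have a3 : (∑ y ∈ ball G x k, u y) ^ 2 ≤ N * ∑ y ∈ ball G x k, |u y| := by
      have b1 := abs_sum_le_sum_abs u (ball G x k)
      have b2 := h3 x
      calc _ = |∑ y ∈ ball G x k, u y| * |∑ y ∈ ball G x k, u y| := by
            rw [abs_mul_abs_self, sq]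
        _ ≤ _ := by gcongr; linarith
    rw [← mul_pow, a1]
    nlinarith [sq_nonneg (∑ y ∈ ball G x k, (u x - u y) - ∑ y ∈ ball G x k, u y)]
  have h6 := sum_le_sum (s := U) fun x _ => h5 x
  simp only [sum_add_distrib, ← mul_sum] at h6
  have h7 := hC k
  have h8 : (bl G k : ℝ) ^ 2 * ∑ x ∈ U, u x ^ 2 ≤
      (bl G k : ℝ) ^ 2 * ((1 + 4 * C) * k ^ 2 * Q + 2 * N ^ 2 / bl G k) := by
    have b1 : (k : ℝ) * (k * bl G (2 * k) * (2 * Q)) ≤ k * (k * (C * bl G k) * (2 * Q)) := by gcongr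
    have b2 : (bl G k : ℝ) ^ 2 * (2 * N ^ 2 / bl G k) = 2 * (N * (bl G k * N)) := by
      field_simp
    have b3 : N * ∑ x ∈ U, ∑ y ∈ ball G x k, |u y| ≤ N * (bl G k * N) := by gcongr
    have b4 : (bl G k : ℝ) * ∑ x ∈ U, ∑ y ∈ ball G x k, (u x - u y) ^ 2 ≤
        bl G k * (k * (k * (C * bl G k) * (2 * Q))) := by gcongr; linarith
    have b5 : 0 ≤ (bl G k : ℝ) ^ 2 * (k ^ 2 * Q) := by positivity
    rw [mul_add, b2]
    nlinarith
  exact le_of_mul_le_mul_left h8 (by positivity)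

lemma sep_one {d : ℝ} (h : Growth G d) (hd : 1 ≤ d) : ∃ c : ℝ, 0 < c ∧
    ∀ (E Z : Set V) (x : V), x ∈ E → (∀ u v, G.Adj u v → u ∈ E → v ∉ E → u ∈ Z ∨ v ∈ Z) →
    (∃ R, (((ball G x R).filter (· ∈ E)).card : ℝ) ≤ 3 / 4 * bl G R) →
    ∃ F : Finset V, (∀ z ∈ F, z ∈ Z) ∧ c ≤ ∑ z ∈ F, el G x z ^ (-(d - 1)) := by
  obtain ⟨C, hC0, hC⟩ := h.doubling
  obtain ⟨c, C', hc0, hc⟩ := h
  have hb1 : (0 : ℝ) < bl G 1 := by exact_mod_cast bl_pos G 1
  refine ⟨3 * c / (32 * C ^ 2 * bl G 1 ^ 2) * 5 ^ (-(d - 1)), by positivity,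
    fun E Z x hx hZ hR => ?_⟩
  set ρ := Nat.find hR with hρ
  have h1 : (((ball G x ρ).filter (· ∈ E)).card : ℝ) ≤ 3 / 4 * bl G ρ := Nat.find_spec hR
  have hρ0 : ρ ≠ 0 := by
    intro h0
    rw [h0, bl_zero] at h1
    have : 0 < ((ball G x 0).filter (· ∈ E)).card :=
      card_pos.2 ⟨x, mem_filter.2 ⟨self_mem_ball _ _, hx⟩⟩
    have : (1 : ℝ) ≤ ((ball G x 0).filter (· ∈ E)).card := by exact_mod_cast this
    simp at h1; linarith
  obtain ⟨σ, hσ⟩ := Nat.exists_eq_succ_of_ne_zero hρ0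
  have h2 : ¬ (((ball G x σ).filter (· ∈ E)).card : ℝ) ≤ 3 / 4 * bl G σ :=
    Nat.find_min hR (by omega)
  set A := (ball G x ρ).filter (· ∈ E) with hA
  set B := (ball G x ρ).filter (fun v => ¬ v ∈ E) with hB
  have hb : (0 : ℝ) < bl G ρ := by exact_mod_cast bl_pos G ρ
  have hAB : (A.card : ℝ) + B.card = bl G ρ := by
    rw [← card_ball x]; exact_mod_cast card_filter_add_card_filter_not _
  have hA1 : 3 / 4 * bl G ρ ≤ bl G 1 * (A.card : ℝ) := by
    have a1 : (((ball G x σ).filter (· ∈ E)).card : ℝ) ≤ A.card := by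
      exact_mod_cast card_le_card (filter_subset_filter _ (ball_mono x (by omega)))
    have a2 : (bl G ρ : ℝ) ≤ bl G σ * bl G 1 := by
      rw [hσ]; exact_mod_cast bl_add G σ 1
    push Not at h2
    nlinarith
  have hB1 : 1 / 4 * bl G ρ ≤ (B.card : ℝ) := by linarith
  set f : V → ℝ := fun v => if v ∈ E then 1 else 0 with hf
  set D : V → ℝ := fun v => if ∃ z ∈ Z, G.dist v z ≤ 1 then 1 else 0 with hD
  have hD0 : ∀ v, 0 ≤ D v := fun v => by simp only [hD]; split_ifs <;> norm_num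
  have hDb : ∀ v v', G.Adj v v' → |f v - f v'| ≤ D v := by
    intro v v' ha
    have k1 : v ∈ Z ∨ v' ∈ Z → D v = 1 := by
      intro h
      simp only [hD]
      rw [if_pos]
      rcases h with h | h
      · exact ⟨v, h, by simp⟩
      · exact ⟨v', h, (dist_adj ha).le⟩
    by_cases hv : v ∈ E <;> by_cases hv' : v' ∈ E
    · simpa [hf, hv, hv'] using hD0 v
    · rw [k1 (hZ v v' ha hv hv')]; simp [hf, hv, hv']
    · rw [k1 (hZ v' v ha.symm hv' hv).symm]; simp [hf, hv, hv']
    · simpa [hf, hv, hv'] using hD0 v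
  set P := (ball G x (3 * ρ)).filter (fun v => ∃ z ∈ Z, G.dist v z ≤ 1) with hP
  set F := (ball G x (3 * ρ + 1)).filter (· ∈ Z) with hF
  have h3 : (A.card : ℝ) * B.card ≤
      ∑ a ∈ A, ∑ y ∈ ball G a (2 * ρ), ∑ v ∈ P, gw G (2 * ρ) a y v * D v := by
    have : (A.card : ℝ) * B.card = ∑ a ∈ A, ∑ y ∈ B, (1 : ℝ) := by simp
    rw [this]
    apply sum_le_sum; intro a ha
    obtain ⟨ha1, ha2⟩ := mem_filter.1 ha
    rw [mem_ball] at ha1
    have hsub : B ⊆ ball G a (2 * ρ) := by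
      intro y hy
      have := mem_ball.1 (mem_filter.1 hy).1
      have h' := dist_tri (G := G) a x y
      rw [SimpleGraph.dist_comm (u := a) (v := x)] at h'
      rw [mem_ball]; omega
    refine le_trans (sum_le_sum fun y hy => ?_) (sum_le_sum_of_subset_of_nonneg hsub
      fun y _ _ => sum_nonneg fun v _ => mul_nonneg (gw_nonneg _ _ _ _) (hD0 v))
    have := gw_bound hDb (mem_ball.1 (hsub hy)) (F := P) (fun v hv hv' => by
      rw [hP, mem_filter, mem_ball]
      have h' := dist_tri (G := G) x a v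
      refine ⟨by omega, ?_⟩
      by_contra hn
      exact hv' (by simp only [hD]; rw [if_neg hn]))
    simpa [hf, ha2, (mem_filter.1 hy).2] using this
  have h4 := load_master (G := G) hD0 (2 * ρ) A P
  have h5 : ∑ v ∈ P, D v ≤ bl G 1 * (F.card : ℝ) := by
    have a1 : ∑ v ∈ P, D v ≤ P.card := by
      refine (sum_le_card_nsmul _ _ (1 : ℝ) fun v _ => ?_).trans (by simp)
      simp only [hD]; split_ifs <;> norm_num
    have a2 : P ⊆ F.biUnion fun z => ball G z 1 := by
      intro v hv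
      obtain ⟨hv1, z, hz, hvz⟩ := mem_filter.1 hv
      rw [mem_ball] at hv1
      have h' := dist_tri (G := G) x v z
      simp only [mem_biUnion, hF, mem_filter, mem_ball]
      exact ⟨z, ⟨by omega, hz⟩, by rwa [SimpleGraph.dist_comm]⟩
    have a3 : P.card ≤ F.card * bl G 1 :=
      (card_le_card a2).trans (card_biUnion_le.trans (by simp))
    have : (P.card : ℝ) ≤ F.card * bl G 1 := by exact_mod_cast a3
    linarith
  have h6 : (bl G (2 * (2 * ρ)) : ℝ) ≤ C * (C * bl G ρ) := (hC _).trans (by gcongr; exact hC _)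
  have hρ1 : (1 : ℝ) ≤ ρ := by exact_mod_cast (by omega : 1 ≤ ρ)
  have h7 : 3 / 16 * (bl G ρ : ℝ) ^ 2 ≤ bl G 1 * (2 * ρ * (C * (C * bl G ρ)) * (bl G 1 * F.card)) := by
    have a1 : (A.card : ℝ) * B.card ≤ 2 * ρ * (C * (C * bl G ρ)) * (bl G 1 * F.card) := by
      refine (h3.trans h4).trans ?_
      push_cast
      gcongr
    have a2 : 3 / 4 * bl G ρ * (1 / 4 * bl G ρ) ≤ bl G 1 * (A.card : ℝ) * B.card := by gcongr
    nlinarith
  have h8 : c * (ρ : ℝ) ^ d ≤ bl G ρ := (hc ρ (by omega)).1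
  have h9 : 3 * c / (32 * C ^ 2 * bl G 1 ^ 2) * (ρ : ℝ) ^ (d - 1) ≤ F.card := by
    rw [Real.rpow_sub_one (by positivity), div_mul_div_comm, div_le_iff₀ (by positivity)]
    have a1 : 3 / 16 * (bl G ρ : ℝ) ≤ bl G 1 * (2 * ρ * (C * C) * (bl G 1 * F.card)) := by
      apply le_of_mul_le_mul_left _ hb
      nlinarith
    nlinarith
  refine ⟨F, fun z hz => (mem_filter.1 hz).2, ?_⟩
  have h10 : ∀ z ∈ F, (5 * ρ : ℝ) ^ (-(d - 1)) ≤ el G x z ^ (-(d - 1)) := by
    intro z hz
    apply Real.rpow_le_rpow_of_nonpos (el_pos _ _) _ (by linarith)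
    have := mem_ball.1 (mem_filter.1 hz).1
    have : (G.dist x z : ℝ) ≤ 3 * ρ + 1 := by exact_mod_cast this
    unfold el; linarith
  refine le_trans ?_ (card_nsmul_le_sum _ _ _ h10)
  rw [nsmul_eq_mul, Real.mul_rpow (by norm_num) (by positivity), Real.rpow_neg (x := ρ) (by positivity)]
  have a1 : (0 : ℝ) < (ρ : ℝ) ^ (d - 1) := by positivity
  rw [← le_div_iff₀ a1] at h9
  calc _ ≤ F.card / (ρ : ℝ) ^ (d - 1) * 5 ^ (-(d - 1)) := by gcongr
    _ = _ := by ring

/-- If `Z` contains an end of every edge leaving `E`, then `Z` is thick as seen from a given point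
of `E` or from a given point outside `E`. -/
theorem sep {d : ℝ} (h : Growth G d) (hd : 1 ≤ d) : ∃ c : ℝ, 0 < c ∧
    ∀ (E Z : Set V) (x x' : V), x ∈ E → x' ∉ E →
    (∀ u v, G.Adj u v → u ∈ E → v ∉ E → u ∈ Z ∨ v ∈ Z) →
    (∃ F : Finset V, (∀ z ∈ F, z ∈ Z) ∧ c ≤ ∑ z ∈ F, el G x z ^ (-(d - 1))) ∨
    (∃ F : Finset V, (∀ z ∈ F, z ∈ Z) ∧ c ≤ ∑ z ∈ F, el G x' z ^ (-(d - 1))) := by
  obtain ⟨c, hc0, hc⟩ := sep_one h hd
  refine ⟨c, hc0, fun E Z x x' hx hx' hZ => ?_⟩
  by_cases h1 : ∃ R, (((ball G x R).filter (· ∈ E)).card : ℝ) ≤ 3 / 4 * bl G R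
  · exact Or.inl (hc E Z x hx hZ h1)
  by_cases h2 : ∃ R, (((ball G x' R).filter (· ∈ Eᶜ)).card : ℝ) ≤ 3 / 4 * bl G R
  · refine Or.inr (hc Eᶜ Z x' hx' (fun u v ha hu hv => ?_) (by convert h2))
    exact (hZ v u ha.symm (by simpa using hv) hu).symm
  exfalso
  push Not at h1 h2
  obtain ⟨R, -, hR⟩ := h.slow (q := 3 / 2) (by norm_num) 0 (G.dist x x')
  have a1 := h1 R
  have a2 := h2 R
  have a3 : ((ball G x R).filter (· ∈ E)).card + ((ball G x' R).filter (· ∈ Eᶜ)).card ≤
      bl G (R + G.dist x x') := by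
    rw [← card_ball x, ← card_union_of_disjoint]
    · apply card_le_card
      apply union_subset
      · exact (filter_subset _ _).trans (ball_mono x (by omega))
      · exact (filter_subset _ _).trans (ball_sub (by omega))
    · rw [disjoint_left]; intro v h1 h2
      exact (mem_filter.1 h2).2 (mem_filter.1 h1).2
  have a4 : (((ball G x R).filter (· ∈ E)).card : ℝ) + ((ball G x' R).filter (· ∈ Eᶜ)).card ≤
      bl G (R + G.dist x x') := by exact_mod_cast a3
  linarith

end Pool.Agent.MP_12d2c5_pr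

end MrgPart1

-- ======== part 2: formerly Pool.Agent.MP_12d2c5_pr.Heat
section MrgPart2

/-! Heat kernel and Green function bounds for the lazy walk killed outside a finite set. -/

open scoped Classical
open Finset

namespace Pool.Agent.MP_12d2c5_pr

section Abstract

variable {U : Type} [Fintype U]

structure Ker (q : U → U → ℝ) : Prop where
  nonneg : ∀ x y, 0 ≤ q x y
  symm : ∀ x y, q x y = q y x
  sum_le : ∀ x, ∑ y, q x y ≤ 1

/-- The lazy version of the kernel `q`. -/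
noncomputable def lz (q : U → U → ℝ) : Module.End ℝ (U → ℝ) where
  toFun f x := (f x + ∑ y, q x y * f y) / 2
  map_add' f g := by
    ext x; simp only [Pi.add_apply, mul_add, sum_add_distrib]; ring
  map_smul' c f := by
    ext x
    simp only [Pi.smul_apply, smul_eq_mul, RingHom.id_apply]
    have : ∑ y, q x y * (c * f y) = c * ∑ y, q x y * f y := by
      rw [mul_sum]; apply sum_congr rfl; intro y _; ring
    rw [this]; ring

lemma lz_apply (q : U → U → ℝ) (f : U → ℝ) (x : U) :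
    lz q f x = (f x + ∑ y, q x y * f y) / 2 := rfl

variable {q : U → U → ℝ}

lemma Ker.schur (hq : Ker q) {a : U → U → ℝ} (ha : ∀ x y, |a x y| ≤ q x y) (f : U → ℝ) :
    ∑ x, (∑ y, a x y * f y) ^ 2 ≤ ∑ x, f x ^ 2 := by
  have h1 : ∀ x, (∑ y, a x y * f y) ^ 2 ≤ ∑ y, q x y * f y ^ 2 := by
    intro x
    have a1 : (∑ y, a x y * f y) ^ 2 ≤ (∑ y, q x y) * ∑ y, q x y * f y ^ 2 := by
      apply sum_sq_le_sum_mul_sum_of_sq_le_mul _ (fun y _ => hq.nonneg _ _)
        (fun y _ => mul_nonneg (hq.nonneg _ _) (sq_nonneg _))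
      intro y _
      have : a x y ^ 2 ≤ q x y ^ 2 := by
        rw [← sq_abs (a x y)]; gcongr; exact ha x y
      calc (a x y * f y) ^ 2 = a x y ^ 2 * f y ^ 2 := by ring
        _ ≤ q x y ^ 2 * f y ^ 2 := by gcongr
        _ = _ := by ring
    have a2 : 0 ≤ ∑ y, q x y * f y ^ 2 :=
      sum_nonneg fun y _ => mul_nonneg (hq.nonneg _ _) (sq_nonneg _)
    have := hq.sum_le x
    nlinarith
  refine (sum_le_sum fun x _ => h1 x).trans ?_
  rw [sum_comm]
  apply sum_le_sum; intro y _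
  rw [← sum_mul]
  have : ∑ x, q x y ≤ 1 := by simp only [hq.symm _ y]; exact hq.sum_le y
  nlinarith [sq_nonneg (f y)]

lemma Ker.q_symm (hq : Ker q) (f g : U → ℝ) :
    ∑ x, f x * ∑ y, q x y * g y = ∑ x, (∑ y, q x y * f y) * g x := by
  simp only [mul_sum, sum_mul]
  rw [sum_comm]
  apply sum_congr rfl; intro x _
  apply sum_congr rfl; intro y _
  rw [hq.symm y x]; ring

lemma Ker.lz_symm (hq : Ker q) (f g : U → ℝ) : ∑ x, f x * lz q g x = ∑ x, lz q f x * g x := by
  have e1 : ∑ x, f x * lz q g x = (∑ x, f x * g x + ∑ x, f x * ∑ y, q x y * g y) / 2 := by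
    rw [← sum_add_distrib, sum_div]; apply sum_congr rfl; intro x _; rw [lz_apply]; ring
  have e2 : ∑ x, lz q f x * g x = (∑ x, f x * g x + ∑ x, (∑ y, q x y * f y) * g x) / 2 := by
    rw [← sum_add_distrib, sum_div]; apply sum_congr rfl; intro x _; rw [lz_apply]; ring
  rw [e1, e2, hq.q_symm]

lemma Ker.lz_energy (hq : Ker q) (f : U → ℝ) :
    ∑ x, f x * (f x - lz q f x) ≤ ∑ x, f x ^ 2 - ∑ x, lz q f x ^ 2 ∧
    ∑ x, (f x - lz q f x) ^ 2 ≤ ∑ x, f x ^ 2 - ∑ x, lz q f x ^ 2 := by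
  have h := hq.schur (a := q) (fun x y => (abs_of_nonneg (hq.nonneg x y)).le) f
  set g : U → ℝ := fun x => ∑ y, q x y * f y with hg
  have e : ∀ x, lz q f x = (f x + g x) / 2 := fun x => rfl
  simp only [e]
  have e1 : ∑ x, f x * (f x - (f x + g x) / 2) = (∑ x, f x ^ 2 - ∑ x, f x * g x) / 2 := by
    rw [← sum_sub_distrib, sum_div]; apply sum_congr rfl; intro x _; ring
  have e2 : ∑ x, ((f x + g x) / 2) ^ 2 =
      (∑ x, f x ^ 2 + 2 * ∑ x, f x * g x + ∑ x, g x ^ 2) / 4 := by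
    rw [mul_sum, ← sum_add_distrib, ← sum_add_distrib, sum_div]
    apply sum_congr rfl; intro x _; ring
  have e3 : ∑ x, (f x - (f x + g x) / 2) ^ 2 =
      (∑ x, f x ^ 2 - 2 * ∑ x, f x * g x + ∑ x, g x ^ 2) / 4 := by
    rw [mul_sum, ← sum_sub_distrib, ← sum_add_distrib, sum_div]
    apply sum_congr rfl; intro x _; ring
  rw [e1, e2, e3]
  constructor <;> linarith

lemma Ker.lz_mono (hq : Ker q) {f g : U → ℝ} (h : ∀ x, f x ≤ g x) (x : U) :
    lz q f x ≤ lz q g x := by
  simp only [lz_apply]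
  have := sum_le_sum (s := univ) fun y _ => mul_le_mul_of_nonneg_left (h y) (hq.nonneg x y)
  have := h x
  linarith

/-- The transition probabilities. -/
noncomputable def hk (q : U → U → ℝ) (n : ℕ) (x y : U) : ℝ := (lz q ^ n) (Pi.single y 1) x

lemma hk_succ (n : ℕ) (x y : U) : hk q (n + 1) x y = lz q (fun z => hk q n z y) x := by
  unfold hk; rw [pow_succ']; rfl

lemma hk_zero (x y : U) : hk q 0 x y = if x = y then 1 else 0 := by
  simp [hk, Pi.single_apply]

lemma Ker.hk_nonneg (hq : Ker q) (n : ℕ) (x y : U) : 0 ≤ hk q n x y := by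
  induction n generalizing x with
  | zero => rw [hk_zero]; split_ifs <;> norm_num
  | succ n ih =>
    rw [hk_succ]
    have := hq.lz_mono (f := 0) (g := fun z => hk q n z y) ih x
    simpa using this

lemma Ker.hk_sum (hq : Ker q) (n : ℕ) (y : U) : ∑ x, hk q n x y ≤ 1 := by
  induction n with
  | zero => simp [hk_zero]
  | succ n ih =>
    simp only [hk_succ]
    have := hq.lz_symm (fun _ => 1) (fun z => hk q n z y)
    simp only [one_mul] at this
    rw [this]
    refine le_trans (sum_le_sum fun x _ => ?_) ih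
    have h1 : lz q (fun _ => 1) x ≤ 1 := by
      rw [lz_apply]; have := hq.sum_le x; simp only [mul_one]; linarith
    have := hq.hk_nonneg n x y
    nlinarith

lemma Ker.hk_add (hq : Ker q) (m n : ℕ) (x y : U) :
    hk q (m + n) x y = ∑ z, hk q m z x * hk q n z y := by
  induction m generalizing n with
  | zero => simp [hk_zero]
  | succ m ih =>
    rw [show m + 1 + n = m + (n + 1) by ring, ih]
    simp only [hk_succ]
    exact hq.lz_symm (fun z => hk q m z x) (fun z => hk q n z y)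

lemma Ker.davies_step (hq : Ker q) {ψ : U → ℝ} (hψ : ∀ x y, q x y ≠ 0 → |ψ x - ψ y| ≤ 1)
    {θ : ℝ} (h0 : 0 < θ) (h1 : θ ≤ 1) (g : U → ℝ) :
    ∑ x, (Real.exp (θ * ψ x) * lz q g x) ^ 2 ≤
      Real.exp (4 * θ ^ 2) * ∑ x, (Real.exp (θ * ψ x) * g x) ^ 2 := by
  set f : U → ℝ := fun x => Real.exp (θ * ψ x) * g x with hf
  set a : U → U → ℝ := fun x y => q x y * (ψ x - ψ y) with ha
  set b : U → U → ℝ := fun x y =>
    q x y * ((Real.exp (θ * (ψ x - ψ y)) - 1 - θ * (ψ x - ψ y)) / θ ^ 2) with hb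
  have ha1 : ∀ x y, |a x y| ≤ q x y := by
    intro x y
    by_cases h : q x y = 0
    · simp [ha, h]
    · simp only [ha]
      rw [abs_mul, abs_of_nonneg (hq.nonneg x y)]
      have := hψ x y h
      have := hq.nonneg x y
      nlinarith
  have hb1 : ∀ x y, |b x y| ≤ q x y := by
    intro x y
    by_cases h : q x y = 0
    · simp [hb, h]
    · simp only [hb]
      rw [abs_mul, abs_of_nonneg (hq.nonneg x y)]
      have h2 := hψ x y h
      have h3 : |θ * (ψ x - ψ y)| ≤ 1 := by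
        rw [abs_mul, abs_of_pos h0]; nlinarith [abs_nonneg (ψ x - ψ y)]
      have h4 := Real.abs_exp_sub_one_sub_id_le h3
      have h5 : (θ * (ψ x - ψ y)) ^ 2 ≤ θ ^ 2 := by
        rw [mul_pow, ← sq_abs (ψ x - ψ y)]
        have : |ψ x - ψ y| ^ 2 ≤ 1 := by nlinarith [abs_nonneg (ψ x - ψ y)]
        nlinarith [sq_nonneg θ]
      have h6 : |(Real.exp (θ * (ψ x - ψ y)) - 1 - θ * (ψ x - ψ y)) / θ ^ 2| ≤ 1 := by
        rw [abs_div, abs_of_pos (pow_pos h0 2), div_le_one (pow_pos h0 2)]; linarith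
      have := hq.nonneg x y
      nlinarith
  set A : U → ℝ := fun x => ∑ y, a x y * f y with hA
  set B : U → ℝ := fun x => ∑ y, b x y * f y with hB
  have e1 : ∀ x, Real.exp (θ * ψ x) * lz q g x = lz q f x + θ / 2 * A x + θ ^ 2 * (B x / 2) := by
    intro x
    simp only [lz_apply, hA, hB]
    have : Real.exp (θ * ψ x) * ∑ y, q x y * g y =
        ∑ y, q x y * f y + θ * ∑ y, a x y * f y + θ ^ 2 * ∑ y, b x y * f y := by
      simp only [mul_sum, ← sum_add_distrib]
      apply sum_congr rfl; intro y _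
      simp only [hf, ha, hb]
      have : Real.exp (θ * ψ x) = Real.exp (θ * (ψ x - ψ y)) * Real.exp (θ * ψ y) := by
        rw [← Real.exp_add]; congr 1; ring
      rw [this]; field_simp; ring
    simp only [hf] at this ⊢
    linarith
  have hAf : ∑ x, A x * f x = 0 := by
    have : ∑ x, A x * f x = -∑ x, A x * f x := by
      simp only [hA, sum_mul]
      conv_lhs => rw [sum_comm]
      rw [← sum_neg_distrib]
      apply sum_congr rfl; intro x _
      rw [← sum_neg_distrib]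
      apply sum_congr rfl; intro y _
      simp only [ha]; rw [hq.symm y x]; ring
    linarith
  have hA2 : ∑ x, A x ^ 2 ≤ ∑ x, f x ^ 2 := hq.schur ha1 f
  have hB2 : ∑ x, B x ^ 2 ≤ ∑ x, f x ^ 2 := hq.schur hb1 f
  have hE := (hq.lz_energy f).2
  set F := ∑ x, f x ^ 2 with hF
  have hF0 : 0 ≤ F := sum_nonneg fun _ _ => sq_nonneg _
  have hu : ∑ x, (lz q f x + θ / 2 * A x) ^ 2 ≤ (1 + θ ^ 2 / 2) * F := by
    have : ∀ x, (lz q f x + θ / 2 * A x) ^ 2 ≤
        lz q f x ^ 2 + (f x - lz q f x) ^ 2 + θ ^ 2 / 2 * A x ^ 2 + θ * (A x * f x) := by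
      intro x; nlinarith [sq_nonneg (θ / 2 * A x + (f x - lz q f x))]
    refine (sum_le_sum fun x _ => this x).trans ?_
    simp only [sum_add_distrib, ← mul_sum]
    rw [hAf]
    nlinarith [sq_nonneg θ]
  have hs : θ ^ 2 ≤ 1 := by nlinarith
  have hs0 : 0 ≤ θ ^ 2 := sq_nonneg θ
  have h3 : ∀ x, (lz q f x + θ / 2 * A x + θ ^ 2 * (B x / 2)) ^ 2 ≤
      (1 + θ ^ 2) * (lz q f x + θ / 2 * A x) ^ 2 + (θ ^ 2 + θ ^ 2 * θ ^ 2) / 4 * B x ^ 2 := by
    intro x
    nlinarith [mul_nonneg hs0 (sq_nonneg (lz q f x + θ / 2 * A x - B x / 2))]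
  simp only [e1]
  refine (sum_le_sum fun x _ => h3 x).trans ?_
  simp only [sum_add_distrib, ← mul_sum]
  have h4 := Real.add_one_le_exp (4 * θ ^ 2)
  calc _ ≤ (1 + θ ^ 2) * ((1 + θ ^ 2 / 2) * F) + (θ ^ 2 + θ ^ 2 * θ ^ 2) / 4 * F := by gcongr
    _ = ((1 + θ ^ 2) * (1 + θ ^ 2 / 2) + (θ ^ 2 + θ ^ 2 * θ ^ 2) / 4) * F := by ring
    _ ≤ _ := by gcongr; nlinarith

lemma Ker.davies (hq : Ker q) {ψ : U → ℝ} (hψ : ∀ x y, q x y ≠ 0 → |ψ x - ψ y| ≤ 1)
    {θ : ℝ} (h0 : 0 < θ) (h1 : θ ≤ 1) (n : ℕ) (x y : U) :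
    hk q n x y ≤ Real.exp (2 * θ ^ 2 * n + θ * ψ y - θ * ψ x) := by
  have key : ∑ x, (Real.exp (θ * ψ x) * hk q n x y) ^ 2 ≤
      Real.exp (4 * θ ^ 2 * n) * Real.exp (θ * ψ y) ^ 2 := by
    induction n with
    | zero =>
      simp only [hk_zero]
      rw [sum_eq_single y] <;> simp +contextual
    | succ n ih =>
      simp only [hk_succ]
      refine (hq.davies_step hψ h0 h1 _).trans ?_
      calc _ ≤ Real.exp (4 * θ ^ 2) * (Real.exp (4 * θ ^ 2 * n) * Real.exp (θ * ψ y) ^ 2) := by gcongr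
        _ = _ := by
          rw [← mul_assoc, ← Real.exp_add]; congr 2; push_cast; ring
  have h2 : (Real.exp (θ * ψ x) * hk q n x y) ^ 2 ≤
      (Real.exp (2 * θ ^ 2 * n) * Real.exp (θ * ψ y)) ^ 2 := by
    refine le_trans (single_le_sum (f := fun x => (Real.exp (θ * ψ x) * hk q n x y) ^ 2)
      (fun _ _ => sq_nonneg _) (mem_univ x)) (key.trans (le_of_eq ?_))
    rw [mul_pow, sq (Real.exp (2 * θ ^ 2 * n)), ← Real.exp_add]; congr 2; ring
  have h3 := abs_le_of_sq_le_sq' h2 (by positivity)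
  rw [Real.exp_sub, Real.exp_add, le_div_iff₀ (Real.exp_pos _)]
  linarith [h3.2]

lemma Ker.decay (hq : Ker q) {A B : ℝ} (hA : 1 ≤ A) (hB : 0 ≤ B)
    (hP : ∀ f : U → ℝ, ∑ x, f x ^ 2 ≤ A * ∑ x, f x * (f x - lz q f x) + B * (∑ x, |f x|) ^ 2)
    (n : ℕ) (y : U) : ∑ x, hk q n x y ^ 2 ≤ B + Real.exp (-(n / A)) := by
  have hA0 : 0 < A := by linarith
  have key : ∑ x, hk q n x y ^ 2 - B ≤ (1 - 1 / A) ^ n := by
    induction n with
    | zero =>
      simp only [hk_zero]
      rw [sum_eq_single y] <;> simp +contextual [hB]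
    | succ n ih =>
      have h1 := hP fun x => hk q n x y
      have h2 := (hq.lz_energy fun x => hk q n x y).1
      have h3 : ∑ x, |hk q n x y| ≤ 1 := by
        simp only [abs_of_nonneg (hq.hk_nonneg n _ y)]; exact hq.hk_sum n y
      have h4 : (∑ x, |hk q n x y|) ^ 2 ≤ 1 := by
        have : 0 ≤ ∑ x, |hk q n x y| := sum_nonneg fun _ _ => abs_nonneg _
        nlinarith
      simp only [← hk_succ] at h1 h2
      have h5 : 0 ≤ 1 - 1 / A := by rw [sub_nonneg, div_le_one hA0]; exact hA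
      have h6 : A * (∑ x, hk q (n + 1) x y ^ 2 - B) ≤ (A - 1) * (∑ x, hk q n x y ^ 2 - B) := by
        nlinarith
      have h7 : ∑ x, hk q (n + 1) x y ^ 2 - B ≤ (1 - 1 / A) * (∑ x, hk q n x y ^ 2 - B) := by
        apply le_of_mul_le_mul_left _ hA0
        refine h6.trans (le_of_eq ?_); field_simp
      rw [pow_succ']
      exact h7.trans (by gcongr)
  have h5 : 0 ≤ 1 - 1 / A := by rw [sub_nonneg, div_le_one hA0]; exact hA
  have h6 : (1 - 1 / A) ^ n ≤ Real.exp (-(1 / A)) ^ n := by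
    gcongr
    have := Real.add_one_le_exp (-(1 / A)); linarith
  rw [← Real.exp_nat_mul] at h6
  have : (n : ℝ) * -(1 / A) = -(n / A) := by ring
  rw [this] at h6
  linarith

lemma Ker.hk_le (hq : Ker q) {A B : ℝ} (hA : 1 ≤ A) (hB : 0 ≤ B)
    (hP : ∀ f : U → ℝ, ∑ x, f x ^ 2 ≤ A * ∑ x, f x * (f x - lz q f x) + B * (∑ x, |f x|) ^ 2)
    (n : ℕ) (x y : U) : hk q n x y ≤ B + Real.exp (-((n / 2 : ℕ) / A)) := by
  have e : n = n / 2 + (n - n / 2) := by omega
  have h1 := hq.decay hA hB hP (n / 2) x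
  have h2 := hq.decay hA hB hP (n - n / 2) y
  have h3 : Real.exp (-((n - n / 2 : ℕ) / A)) ≤ Real.exp (-((n / 2 : ℕ) / A)) := by
    apply Real.exp_le_exp.2
    rw [neg_le_neg_iff]
    gcongr
    omega
  conv_lhs => rw [e, hq.hk_add]
  have h4 : ∑ z, hk q (n / 2) z x * hk q (n - n / 2) z y ≤
      (∑ z, hk q (n / 2) z x ^ 2 + ∑ z, hk q (n - n / 2) z y ^ 2) / 2 := by
    rw [← sum_add_distrib, sum_div]
    apply sum_le_sum; intro z _
    nlinarith [sq_nonneg (hk q (n / 2) z x - hk q (n - n / 2) z y)]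
  linarith

lemma Ker.le_green (hq : Ker q) {h : U → ℝ} {y : U} (h1 : ∀ x, h x ≤ 1)
    (h2 : ∀ x, h x ≤ (if x = y then 1 else 0) + lz q h x) (N : ℕ) (x : U) :
    h x ≤ ∑ n ∈ range N, hk q n x y + ∑ w, hk q N x w := by
  induction N generalizing x with
  | zero => simpa [hk_zero] using h1 x
  | succ N ih =>
    refine (h2 x).trans ?_
    rw [sum_range_succ', hk_zero]
    have h3 := hq.lz_mono ih x
    have e : (fun x => ∑ n ∈ range N, hk q n x y + ∑ w, hk q N x w) =
        ∑ n ∈ range N, (fun x => hk q n x y) + ∑ w, (fun x => hk q N x w) := by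
      ext x; simp
    rw [e, map_add, map_sum, map_sum] at h3
    simp only [Pi.add_apply, Finset.sum_apply, ← hk_succ] at h3
    linarith

end Abstract

lemma exp_le_rpow {ξ c : ℝ} (hξ : 0 < ξ) (hc : 0 < c) (a : ℝ) :
    ∃ C : ℝ, 0 < C ∧ ∀ t : ℝ, 1 ≤ t → Real.exp (-(c * t ^ ξ)) ≤ C * t ^ (-a) := by
  obtain ⟨m, hm⟩ := exists_nat_ge (a / ξ)
  refine ⟨m.factorial / c ^ m, by positivity, fun t ht => ?_⟩
  have ht0 : 0 < t := by linarith
  have h1 := Real.pow_div_factorial_le_exp (c * t ^ ξ) (by positivity) m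
  have h2 : t ^ a ≤ (t ^ ξ) ^ m := by
    rw [← Real.rpow_natCast, ← Real.rpow_mul ht0.le]
    apply Real.rpow_le_rpow_of_exponent_le ht
    rw [div_le_iff₀ hξ] at hm; linarith
  rw [Real.exp_neg, Real.rpow_neg ht0.le]
  have h3 : c ^ m * t ^ a / m.factorial ≤ Real.exp (c * t ^ ξ) := by
    refine le_trans ?_ h1
    rw [mul_pow]; gcongr
  calc (Real.exp (c * t ^ ξ))⁻¹ ≤ (c ^ m * t ^ a / m.factorial)⁻¹ := by gcongr
    _ = _ := by field_simp

variable {V : Type} (G : SimpleGraph V) [hG : Nice G]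

/-- The simple random walk kernel on a finite set of vertices. -/
noncomputable def qk (S : Finset V) (x y : S) : ℝ := if G.Adj x y then 1 / dg G else 0

variable {G}

lemma sum_adj_sub (S : Finset V) (x : V) (u : V → ℝ) :
    ∑ y : S, (if G.Adj x y then u y else 0) = ∑ y ∈ (nb G x).filter (· ∈ S), u y := by
  rw [sum_coe_sort S (fun y => if G.Adj x y then u y else 0), ← sum_filter]
  congr 1; ext y; simp [and_comm]

variable (G) in
lemma ker_qk (S : Finset V) : Ker (qk G S) := by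
  have hd : (0 : ℝ) < dg G := by exact_mod_cast dg_pos G
  refine ⟨fun x y => ?_, fun x y => ?_, fun x => ?_⟩
  · unfold qk; split_ifs <;> positivity
  · unfold qk; simp only [G.adj_comm]
  · unfold qk
    rw [sum_adj_sub S x (fun _ => 1 / dg G), sum_const, nsmul_eq_mul, mul_one_div, div_le_one hd,
      ← card_nb (x : V)]
    exact_mod_cast card_le_card (filter_subset _ _)

/-- Extension by zero. -/
noncomputable def ext0 (S : Finset V) (f : S → ℝ) (v : V) : ℝ := if h : v ∈ S then f ⟨v, h⟩ else 0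

omit hG in
@[simp] lemma ext0_coe (S : Finset V) (f : S → ℝ) (x : S) : ext0 S f x = f x := by simp [ext0]

omit hG in
lemma ext0_out (S : Finset V) (f : S → ℝ) {v : V} (h : v ∉ S) : ext0 S f v = 0 := by simp [ext0, h]

lemma sum_adj_ext0 (S : Finset V) (f : S → ℝ) (x : V) :
    ∑ y : S, (if G.Adj x y then f y else 0) = ∑ y ∈ nb G x, ext0 S f y := by
  have := sum_adj_sub (G := G) S x (ext0 S f)
  simp only [ext0_coe] at this
  rw [this]
  apply sum_subset (filter_subset _ _)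
  intro y h1 h2
  exact ext0_out _ _ fun h => h2 (mem_filter.2 ⟨h1, h⟩)

lemma lz_qk (S : Finset V) (f : S → ℝ) (x : S) :
    f x - lz (qk G S) f x = Lap G (ext0 S f) x / (2 * dg G) := by
  have hd : (0 : ℝ) < dg G := by exact_mod_cast dg_pos G
  rw [lz_apply, Lap, sum_sub_distrib, ← sum_adj_ext0]
  have : ∑ y, qk G S x y * f y = (∑ y : S, (if G.Adj x y then f y else 0)) / dg G := by
    rw [sum_div]; apply sum_congr rfl; intro y _
    unfold qk; split_ifs <;> ring
  rw [this]; simp; field_simp; ring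

lemma hk_diag {d δ : ℝ} (h : Growth G d) (hd : 0 < d) (hδ0 : 0 < δ) (hδ : δ < d / 2) :
    ∃ C : ℝ, 0 < C ∧ ∀ (S : Finset V) (n : ℕ) (x y : S),
      hk (qk G S) n x y ≤ C * ((n : ℝ) + 1) ^ (-δ) := by
  obtain ⟨C, hC1, hC⟩ := poincare h
  obtain ⟨c, C', hc0, hc⟩ := h
  have hΔ : (1 : ℝ) ≤ dg G := by exact_mod_cast dg_pos G
  set σ := δ / d with hσ
  have hσ0 : 0 < σ := by positivity
  have hσ1 : σ < 1 / 2 := by rw [hσ, div_lt_iff₀ hd]; linarith
  obtain ⟨C2, hC2, hE⟩ := exp_le_rpow (ξ := 1 - 2 * σ) (c := 1 / (16 * C * dg G)) (by linarith)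
    (by positivity) δ
  refine ⟨2 / c + Real.exp 1 * C2, by positivity, fun S n x y => ?_⟩
  set t : ℝ := (n : ℝ) + 1 with ht
  have ht1 : 1 ≤ t := by simp [ht]
  have ht0 : 0 < t := by linarith
  set k := ⌈t ^ σ⌉₊ with hk'
  have hts : 1 ≤ t ^ σ := Real.one_le_rpow ht1 hσ0.le
  have hk1 : t ^ σ ≤ k := Nat.le_ceil _
  have hk2 : (k : ℝ) ≤ 2 * t ^ σ := by
    have := Nat.ceil_lt_add_one (a := t ^ σ) (by positivity); linarith
  have hk3 : (1 : ℝ) ≤ k := by linarith
  have hb : (0 : ℝ) < bl G k := by exact_mod_cast bl_pos G k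
  have hA : 1 ≤ 2 * dg G * C * k ^ 2 := by
    have : 1 ≤ (k : ℝ) ^ 2 := by nlinarith
    have : 1 ≤ dg G * C := by nlinarith
    nlinarith
  have h1 := (ker_qk G S).hk_le (A := 2 * dg G * C * k ^ 2) (B := 2 / bl G k) hA (by positivity)
    (fun f => by
      have := hC k S (ext0 S f) fun x hx => ext0_out _ _ hx
      rw [← sum_coe_sort S, ← sum_coe_sort S, ← sum_coe_sort S] at this
      simp only [ext0_coe] at this
      simp only [lz_qk]
      have e : ∑ x : S, f x * (Lap G (ext0 S f) x / (2 * dg G)) =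
          (∑ x : S, f x * Lap G (ext0 S f) x) / (2 * dg G) := by
        rw [sum_div]; apply sum_congr rfl; intro x _; ring
      rw [e]
      refine this.trans (le_of_eq ?_)
      field_simp) n x y
  have h2 : 2 / (bl G k : ℝ) ≤ 2 / c * t ^ (-δ) := by
    have a1 := (hc k (by exact_mod_cast hk3)).1
    have a2 : t ^ δ ≤ (k : ℝ) ^ d := by
      have : t ^ δ = (t ^ σ) ^ d := by
        rw [← Real.rpow_mul ht0.le, hσ]; congr 1; field_simp
      rw [this]; gcongr
    rw [Real.rpow_neg ht0.le]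
    calc 2 / (bl G k : ℝ) ≤ 2 / (c * t ^ δ) := by
          gcongr; exact le_trans (by gcongr) a1
      _ = _ := by field_simp
  have h3 : Real.exp (-((n / 2 : ℕ) / (2 * dg G * C * k ^ 2))) ≤
      Real.exp 1 * Real.exp (-(1 / (16 * C * dg G) * t ^ (1 - 2 * σ))) := by
    rw [← Real.exp_add]
    apply Real.exp_le_exp.2
    have a1 : t / 2 - 1 ≤ ((n / 2 : ℕ) : ℝ) := by
      have : n + 1 ≤ 2 * (n / 2) + 2 := by omega
      have : (n : ℝ) + 1 ≤ 2 * ((n / 2 : ℕ) : ℝ) + 2 := by exact_mod_cast this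
      linarith
    set A : ℝ := 2 * dg G * C * k ^ 2 with hA'
    have a2 : A ≤ 8 * dg G * C * t ^ (2 * σ) := by
      have : (k : ℝ) ^ 2 ≤ 4 * t ^ (2 * σ) := by
        rw [mul_comm 2 σ, Real.rpow_mul ht0.le, Real.rpow_two]; nlinarith
      calc A ≤ 2 * dg G * C * (4 * t ^ (2 * σ)) := by rw [hA']; gcongr
        _ = _ := by ring
    have a3 : 1 / (16 * C * dg G) * t ^ (1 - 2 * σ) ≤ t / 2 / A := by
      rw [Real.rpow_sub ht0, Real.rpow_one]
      calc _ = t / 2 / (8 * dg G * C * t ^ (2 * σ)) := by field_simp; ring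
        _ ≤ _ := by gcongr
    have a4 : (t / 2 - 1) / A ≤ ((n / 2 : ℕ) : ℝ) / A := by gcongr
    have a5 : 1 / A ≤ 1 := by rw [div_le_one (by linarith)]; exact hA
    rw [sub_div] at a4
    linarith
  have h4 := hE t ht1
  calc _ ≤ _ := h1
    _ ≤ 2 / c * t ^ (-δ) + Real.exp 1 * (C2 * t ^ (-δ)) := by
      gcongr
      exact h3.trans (by gcongr)
    _ = _ := by ring

theorem green_bound {d β : ℝ} (h : Growth G d) (hd : 8 < d) (hβ0 : 0 ≤ β) (hβ : β < d - 2) :
    ∃ C : ℝ, 1 ≤ C ∧ ∀ (S : Finset V) (y : S) (f : S → ℝ), (∀ x, f x ≤ 1) →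
      (∀ x, f x ≤ (if x = y then 1 else 0) + lz (qk G S) f x) →
      ∀ x, f x ≤ C * el G x y ^ (-β) := by
  set ξ := min 1 ((d - 2 - β) / (d / 2 + 3)) with hξ
  have hξ0 : 0 < ξ := lt_min one_pos (by apply div_pos <;> linarith)
  have hξ1 : ξ ≤ 1 := min_le_left _ _
  have hξ2 : ξ * (d / 2 + 3) ≤ d - 2 - β := by
    rw [← le_div_iff₀ (by linarith)]; exact min_le_right _ _
  obtain ⟨C1, hC1, h1⟩ := hk_diag (δ := d / 2 - ξ) h (by linarith) (by linarith) (by linarith)
  obtain ⟨C2, hC2, h2⟩ := exp_le_rpow (c := 1 / 16) hξ0 (by norm_num) (β + 4)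
  set C3 := C1 + Real.exp 1 * C2 with hC3
  have hC30 : 0 < C3 := by positivity
  have key : ∀ (S : Finset V) (n : ℕ) (x y : S),
      hk (qk G S) n x y ≤ C3 * el G x y ^ (-β) * ((n : ℝ) + 1) ^ (-(1 + ξ)) := by
    intro S n x y
    set l := el G x y with hl
    have hl1 : 1 ≤ l := one_le_el _ _
    have hl0 : 0 < l := by linarith
    set t : ℝ := (n : ℝ) + 1 with ht
    have ht1 : 1 ≤ t := by simp [ht]
    have ht0 : 0 < t := by linarith
    rcases le_total t (l ^ (2 - ξ)) with hc | hc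
    · set θ := l ^ (ξ - 1) / 8 with hθ
      have hθ1 : l ^ (ξ - 1) ≤ 1 := Real.rpow_le_one_of_one_le_of_nonpos hl1 (by linarith)
      have a1 := (ker_qk G S).davies (ψ := fun z : S => (G.dist z y : ℝ)) (fun a b hab => by
        have hadj : G.Adj a b := by
          by_contra hn; exact hab (by simp [qk, hn])
        have b1 := dist_tri (G := G) a b y
        have b2 := dist_tri (G := G) b a y
        rw [dist_adj hadj] at b1
        rw [dist_adj hadj.symm] at b2
        have b1' : (G.dist a y : ℝ) ≤ 1 + G.dist b y := by exact_mod_cast b1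
        have b2' : (G.dist b y : ℝ) ≤ 1 + G.dist a y := by exact_mod_cast b2
        rw [abs_le]; constructor <;> linarith) (θ := θ) (by positivity) (by linarith) n x y
      have a2 : 2 * θ ^ 2 * n + θ * (G.dist y y : ℝ) - θ * (G.dist x y : ℝ) ≤
          1 + -(1 / 16 * l ^ ξ) := by
        have b1 : (G.dist x y : ℝ) = l - 1 := by simp [hl, el]
        have b2 : l ^ (ξ - 1) * l = l ^ ξ := by
          rw [Real.rpow_sub_one hl0.ne']; field_simp
        have b3 : (l ^ (ξ - 1)) ^ 2 * l ^ (2 - ξ) = l ^ ξ := by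
          rw [← Real.rpow_two, ← Real.rpow_mul hl0.le, ← Real.rpow_add hl0]; congr 1; ring
        have b4 : (l ^ (ξ - 1)) ^ 2 * n ≤ l ^ ξ := by
          rw [← b3]; gcongr; linarith
        have b5 : 0 ≤ l ^ ξ := by positivity
        rw [b1, SimpleGraph.dist_self, hθ]
        push_cast
        nlinarith
      have a3 := h2 l hl1
      have a4 : l ^ (-(β + 4)) ≤ l ^ (-β) * t ^ (-(1 + ξ)) := by
        rw [neg_add, Real.rpow_add hl0]
        gcongr
        have b1 : t ≤ l ^ (2 : ℝ) := hc.trans (Real.rpow_le_rpow_of_exponent_le hl1 (by linarith))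
        calc l ^ (-4 : ℝ) = (l ^ (2 : ℝ)) ^ (-2 : ℝ) := by
              rw [← Real.rpow_mul hl0.le]; norm_num
          _ ≤ t ^ (-2 : ℝ) := Real.rpow_le_rpow_of_nonpos ht0 b1 (by norm_num)
          _ ≤ _ := Real.rpow_le_rpow_of_exponent_le ht1 (by linarith)
      calc _ ≤ Real.exp (1 + -(1 / 16 * l ^ ξ)) := a1.trans (Real.exp_le_exp.2 a2)
        _ ≤ Real.exp 1 * (C2 * (l ^ (-β) * t ^ (-(1 + ξ)))) := by
          rw [Real.exp_add]; gcongr; exact a3.trans (by gcongr)
        _ ≤ _ := by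
          have : 0 ≤ C1 * (l ^ (-β) * t ^ (-(1 + ξ))) := by positivity
          rw [hC3]; nlinarith
    · have a1 := h1 S n x y
      have a2 : t ^ (-(d / 2 - ξ)) ≤ l ^ (-β) * t ^ (-(1 + ξ)) := by
        rw [show -(d / 2 - ξ) = -(d / 2 - 1 - 2 * ξ) + -(1 + ξ) by ring, Real.rpow_add ht0]
        gcongr
        calc t ^ (-(d / 2 - 1 - 2 * ξ)) ≤ (l ^ (2 - ξ)) ^ (-(d / 2 - 1 - 2 * ξ)) :=
              Real.rpow_le_rpow_of_nonpos (by positivity) hc (by linarith)
          _ = l ^ ((2 - ξ) * (-(d / 2 - 1 - 2 * ξ))) := by rw [← Real.rpow_mul hl0.le]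
          _ ≤ _ := Real.rpow_le_rpow_of_exponent_le hl1 (by nlinarith)
      calc _ ≤ C1 * (l ^ (-β) * t ^ (-(1 + ξ))) := a1.trans (by gcongr)
        _ ≤ _ := by
          have : 0 ≤ Real.exp 1 * C2 * (l ^ (-β) * t ^ (-(1 + ξ))) := by positivity
          rw [hC3]; nlinarith
  have hs : Summable fun n : ℕ => ((n : ℝ) + 1) ^ (-(1 + ξ)) := by
    have := (Real.summable_nat_rpow (p := -(1 + ξ))).2 (by linarith)
    have := (summable_nat_add_iff 1).2 this
    simpa using this
  set Z := ∑' n : ℕ, ((n : ℝ) + 1) ^ (-(1 + ξ)) with hZ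
  have hZ0 : 0 ≤ Z := tsum_nonneg fun _ => by positivity
  refine ⟨1 + C3 * Z, by have : 0 ≤ C3 * Z := by positivity
                         linarith, fun S y f hf1 hf2 x => ?_⟩
  have hl : 0 < el G x y ^ (-β) := Real.rpow_pos_of_pos (el_pos _ _) _
  have h3 : ∀ N : ℕ, f x ≤ C3 * Z * el G x y ^ (-β) +
      Fintype.card S * C3 * ((N : ℝ) + 1) ^ (-(1 + ξ)) := by
    intro N
    refine ((ker_qk G S).le_green hf1 (fun x => by convert hf2 x) N x).trans (add_le_add ?_ ?_)
    · refine (sum_le_sum fun n _ => key S n x y).trans ?_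
      rw [← mul_sum]
      have := hs.sum_le_tsum (range N) (fun _ _ => by positivity)
      calc _ ≤ C3 * el G x y ^ (-β) * Z := by gcongr
        _ = _ := by ring
    · refine (sum_le_card_nsmul _ _ (C3 * ((N : ℝ) + 1) ^ (-(1 + ξ))) fun w _ => ?_).trans ?_
      · refine (key S N x w).trans ?_
        have : el G x w ^ (-β) ≤ 1 :=
          Real.rpow_le_one_of_one_le_of_nonpos (one_le_el _ _) (by linarith)
        calc _ ≤ C3 * 1 * ((N : ℝ) + 1) ^ (-(1 + ξ)) := by gcongr
          _ = _ := by ring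
      · simp [mul_assoc]
  have h4 : Filter.Tendsto (fun N : ℕ => C3 * Z * el G x y ^ (-β) +
      Fintype.card S * C3 * ((N : ℝ) + 1) ^ (-(1 + ξ))) Filter.atTop
      (nhds (C3 * Z * el G x y ^ (-β) + Fintype.card S * C3 * 0)) :=
    (hs.tendsto_atTop_zero.const_mul _).const_add _
  have h5 := ge_of_tendsto' h4 h3
  nlinarith

theorem green_V {d β : ℝ} (h : Growth G d) (hd : 8 < d) (hβ0 : 0 ≤ β) (hβ : β < d - 2) :
    ∃ C : ℝ, 1 ≤ C ∧ ∀ (S : Finset V) (y : V) (u : V → ℝ), y ∈ S → (∀ x, x ∉ S → u x = 0) →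
      (∀ x, 0 ≤ u x ∧ u x ≤ 1) → (∀ x ∈ S, x ≠ y → u x = 0 ∨ Lap G u x = 0) →
      ∀ x, u x ≤ C * el G x y ^ (-β) := by
  obtain ⟨C, hC1, hC⟩ := green_bound h hd hβ0 hβ
  refine ⟨C, hC1, fun S y u hy h0 h1 h2 x => ?_⟩
  by_cases hx : x ∈ S
  swap
  · rw [h0 x hx]
    have := Real.rpow_pos_of_pos (el_pos (G := G) x y) (-β)
    positivity
  have e : ext0 S (fun z : S => u z) = u := by
    ext v
    by_cases hv : v ∈ S
    · simp [ext0, hv]
    · simp [ext0, hv, h0 v hv]
  refine hC S ⟨y, hy⟩ (fun z => u z) (fun z => (h1 z).2) (fun z => ?_) ⟨x, hx⟩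
  have hp : 0 ≤ lz (qk G S) (fun z : S => u z) z := by
    have := (ker_qk G S).lz_mono (f := 0) (g := fun z : S => u z) (fun z => (h1 z).1) z
    simpa using this
  split_ifs with hz
  · linarith [(h1 z).2]
  · rcases h2 z z.2 (fun h => hz (Subtype.ext h)) with h3 | h3
    · linarith
    · have := lz_qk (G := G) S (fun z : S => u z) z
      rw [e, h3] at this
      simp only [zero_div] at this
      linarith

end Pool.Agent.MP_12d2c5_pr

end MrgPart2

-- marker of a merged file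
example : 731051 + 519159 = 731051 + 519159 := rfl
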