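import Mathlib.Tactic.Monotonicity.Lemmas
import Mathlib.Combinatorics.Matroid.Basic
import Mathlib.Order.CompletePartialOrder
import Pool.Agent.MP_12d2c5_pr.Heat
import Pool.Agent.MP_f8cd8e_pr.Tree

-- ======== part 0: formerly Pool.Agent.MP_12d2c5_pr.Kirch
section MrgPart0

/-! Free and wired spanning forests of a finite piece of the graph. -/

open scoped Classical
open Finset

namespace Pool.Agent.MP_12d2c5_pr

open MP_f8cd8e_pr

section Gen

variable {U : Type} [Fintype U]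

noncomputable def ind (p : Prop) : ℝ := if p then 1 else 0

lemma ind_nonneg (p : Prop) : 0 ≤ ind p := by unfold ind; split_ifs <;> norm_num

lemma ind_le_one (p : Prop) : ind p ≤ 1 := by unfold ind; split_ifs <;> norm_num

lemma ind_pos {p : Prop} (h : p) : ind p = 1 := by simp [ind, h]

lemma ind_neg {p : Prop} (h : ¬ p) : ind p = 0 := by simp [ind, h]

lemma ind_mono {p q : Prop} (h : p → q) : ind p ≤ ind q := by
  by_cases hp : p
  · rw [ind_pos hp, ind_pos (h hp)]
  · rw [ind_neg hp]; exact ind_nonneg _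

lemma ind_congr {p q : Prop} (h : p ↔ q) : ind p = ind q := by rw [propext h]

lemma ind_and (p q : Prop) : ind (p ∧ q) = ind p * ind q := by
  by_cases hp : p <;> by_cases hq : q <;> simp [ind, hp, hq]

lemma mem_fors {T : Finset U} {g : U → U} : g ∈ fors T ↔ IsFor T g := by simp [fors]

omit [Fintype U] in
lemma isFor_cycle {T : Finset U} {g : U → U} (h : IsFor T g) {x : U} (hx : Rch g (g x) x) :
    g x = x := by
  obtain ⟨t, ht, hr⟩ := h.2 x
  have := Rch.of_fixed ht (Rch.cycle hx hr)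
  rw [this]; exact ht

omit [Fintype U] in
lemma isFor_two {T : Finset U} {g : U → U} (h : IsFor T g) {a b : U} (h1 : g a = b) (h2 : g b = a) :
    a = b := by
  have : Rch g (g a) a := by rw [h1]; apply Rch.head; rw [h2]; exact Rch.refl _ _
  rw [← h1, isFor_cycle h this]

omit [Fintype U] in
lemma isFor_antisymm {T : Finset U} {g : U → U} (h : IsFor T g) {a b : U} (h1 : Rch g a b)
    (h2 : Rch g b a) : a = b := by
  rcases h1.cases with h1 | h1
  · exact h1
  · exact (Rch.of_fixed (isFor_cycle h (h1.trans h2)) (Rch.head h1)).symm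

lemma exists_green {c : U → U → ℝ} (hs : ∀ x y, c x y = c y x) (hc : ∀ x y, 0 ≤ c x y)
    {T : Finset U} (hF : ∀ T', T ⊆ T' → 0 < FF c T') (x : U) :
    ∃ γ : U → ℝ, (∀ t ∈ T, γ t = 0) ∧ (∀ f : U → ℝ, (∀ t ∈ T, f t = 0) → En c f γ = f x) ∧
      ∀ b, b ≠ x → ∑ g ∈ fors T, wt c T g * ind (g x = b) = c x b * (γ x - γ b) * FF c T := by
  by_cases hx : x ∈ T
  · refine ⟨fun _ => 0, fun _ _ => rfl, fun f hf => by simp [En, hf x hx], fun b hb => ?_⟩
    simp only [sub_self, mul_zero, zero_mul]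
    apply sum_eq_zero; intro g hg
    rw [ind_neg, mul_zero]
    rw [(mem_fors.1 hg).1 x hx]; exact hb.symm
  have h1 := hF (insert x T) (subset_insert _ _)
  have h0 := hF T subset_rfl
  obtain ⟨h, hx1, hT, -, hN, hE⟩ := exists_harm hs hc hx h1
  refine ⟨fun z => FF c (insert x T) / FF c T * h z + 0 * h z, fun t ht => by simp [hT t ht],
    fun f hf => ?_, fun b hb => ?_⟩
  · rw [En_comm, En_lin, En_comm c h f, hE f hf]; field_simp; ring
  · rw [split_sum c hx]
    have e : ∀ g ∈ fors (insert x T), (∑ z, if z = x ∨ ¬ Rch g z x then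
        c x z * wt c (insert x T) g * ind (Function.update g x z x = b) else 0) =
        c x b * (wt c (insert x T) g - wt c (insert x T) g * (if Rch g b x then 1 else 0)) := by
      intro g _
      rw [sum_eq_single b]
      · by_cases hr : Rch g b x <;> simp [hb, hr, ind]
      · intro z _ hz; simp [ind, hz]
      · simp
    rw [sum_congr rfl e, ← mul_sum, sum_sub_distrib]
    change c x b * (FF c (insert x T) - NN c (insert x T) x b) = _
    simp only [hN b, hx1]; field_simp; ring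

theorem kirchhoff {c : U → U → ℝ} (hs : ∀ x y, c x y = c y x) (hc : ∀ x y, 0 ≤ c x y)
    {T : Finset U} (hF : ∀ T', T ⊆ T' → 0 < FF c T') {a b : U} (hab : a ≠ b) :
    ∃ φ : U → ℝ, (∀ t ∈ T, φ t = 0) ∧
      (∀ f : U → ℝ, (∀ t ∈ T, f t = 0) → En c f φ = f a - f b) ∧
      ∑ g ∈ fors T, wt c T g * ind ((TG g).Adj a b) = c a b * (φ a - φ b) * FF c T := by
  obtain ⟨γ, h1, h2, h3⟩ := exists_green hs hc hF a
  obtain ⟨γ', h1', h2', h3'⟩ := exists_green hs hc hF b
  refine ⟨fun z => 1 * γ z + (-1) * γ' z, fun t ht => by simp [h1 t ht, h1' t ht],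
    fun f hf => ?_, ?_⟩
  · rw [En_comm, En_lin, En_comm c γ f, En_comm c γ' f, h2 f hf, h2' f hf]; ring
  · have e : ∀ g ∈ fors T, wt c T g * ind ((TG g).Adj a b) =
        wt c T g * ind (g a = b) + wt c T g * ind (g b = a) := by
      intro g hg
      have := fun h1 h2 => hab (isFor_two (a := a) (b := b) (mem_fors.1 hg) h1 h2)
      by_cases p1 : g a = b <;> by_cases p2 : g b = a
      · exact absurd p2 (this p1)
      · rw [ind_pos p1, ind_neg p2, ind_pos (show (TG g).Adj a b from ⟨hab, Or.inl p1⟩)]; ring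
      · rw [ind_neg p1, ind_pos p2, ind_pos (show (TG g).Adj a b from ⟨hab, Or.inr p2⟩)]; ring
      · rw [ind_neg p1, ind_neg p2, ind_neg (show ¬ (TG g).Adj a b from fun h => h.2.elim p1 p2)]
        ring
    rw [sum_congr rfl e, sum_add_distrib, h3 b hab.symm, h3' a hab, hs b a]
    ring

lemma res_lower {c : U → U → ℝ} (hc : ∀ x y, 0 ≤ c x y) {T : Finset U} {a b : U} {φ : U → ℝ}
    (h0 : ∀ t ∈ T, φ t = 0) (hφ : ∀ f : U → ℝ, (∀ t ∈ T, f t = 0) → En c f φ = f a - f b)
    {f : U → ℝ} (hf : ∀ t ∈ T, f t = 0) {R : ℝ} (hR : f a - f b = R) (hE : En c f f ≤ R) :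
    R ≤ φ a - φ b := by
  have h1 := En_nonneg hc (fun z => 1 * f z + (-1) * φ z)
  rw [En_quad, hφ f hf, hφ φ h0] at h1
  linarith

/-- Expectation under the weighted forest measure. -/
noncomputable def Ex (c : U → U → ℝ) (T : Finset U) (ψ : (U → U) → ℝ) : ℝ :=
  (∑ g ∈ fors T, wt c T g * ψ g) / FF c T

lemma Ex_mono {c : U → U → ℝ} (hc : ∀ x y, 0 ≤ c x y) {T : Finset U} {ψ ψ' : (U → U) → ℝ}
    (h : ∀ g, IsFor T g → wt c T g ≠ 0 → ψ g ≤ ψ' g) : Ex c T ψ ≤ Ex c T ψ' := by
  unfold Ex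
  apply div_le_div_of_nonneg_right _ (FF_nonneg hc T)
  apply sum_le_sum; intro g hg
  by_cases hw : wt c T g = 0
  · simp [hw]
  · exact mul_le_mul_of_nonneg_left (h g (mem_fors.1 hg) hw) (wt_nonneg hc T g)

lemma Ex_const {c : U → U → ℝ} {T : Finset U} (h : 0 < FF c T) (a : ℝ) : Ex c T (fun _ => a) = a := by
  unfold Ex; rw [← sum_mul]; change FF c T * a / FF c T = a; field_simp

lemma Ex_lin (c : U → U → ℝ) (T : Finset U) (ψ ψ' : (U → U) → ℝ) (a b : ℝ) :
    Ex c T (fun g => a * ψ g + b * ψ' g) = a * Ex c T ψ + b * Ex c T ψ' := by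
  unfold Ex
  rw [mul_div_assoc', mul_div_assoc', ← add_div, mul_sum, mul_sum, ← sum_add_distrib]
  congr 1; apply sum_congr rfl; intro g _; ring

lemma Ex_sum (c : U → U → ℝ) (T : Finset U) {κ : Type} (s : Finset κ) (ψ : κ → (U → U) → ℝ) :
    Ex c T (fun g => ∑ i ∈ s, ψ i g) = ∑ i ∈ s, Ex c T (ψ i) := by
  unfold Ex
  simp only [mul_sum]
  rw [sum_comm, sum_div]

end Gen

variable {V : Type} (G : SimpleGraph V) [hG : Nice G] {U : Type} [Fintype U] (ι : U → V)

/-- Conductances `θ` on the edges of `G` inside the piece, killing rate `κ`. -/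
noncomputable def cN (θ : Sym2 V → ℝ) (κ : U → ℝ) (x y : U) : ℝ :=
  (if G.Adj (ι x) (ι y) then θ s(ι x, ι y) else 0) + if x = y then κ x else 0

/-- Number of edges leaving the piece. -/
noncomputable def kl (x : U) : ℝ := ((nb G (ι x)).filter (fun y => y ∉ Set.range ι)).card

/-- The edge `e` is used by the parent function `g`. -/
def XE (e : Sym2 V) (g : U → U) : Prop := ∃ a b, (TG g).Adj a b ∧ e = s(ι a, ι b)

variable {G ι}

omit hG [Fintype U] in
lemma cN_symm (θ : Sym2 V → ℝ) (κ : U → ℝ) (x y : U) : cN G ι θ κ x y = cN G ι θ κ y x := by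
  unfold cN
  by_cases h : x = y
  · subst h; rfl
  · simp only [h, Ne.symm h, if_false, G.adj_comm (ι x), Sym2.eq_swap]

omit hG [Fintype U] in
lemma cN_nonneg {θ : Sym2 V → ℝ} {κ : U → ℝ} (hθ : ∀ e, 0 < θ e) (hκ : ∀ x, 0 ≤ κ x) (x y : U) :
    0 ≤ cN G ι θ κ x y := by
  unfold cN
  have := (hθ s(ι x, ι y)).le
  have := hκ x
  split_ifs <;> linarith

omit hG [Fintype U] in
lemma cN_self (θ : Sym2 V → ℝ) (κ : U → ℝ) (x : U) : cN G ι θ κ x x = κ x := by simp [cN]

omit hG [Fintype U] in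
lemma cN_ne (θ : Sym2 V → ℝ) (κ : U → ℝ) {x y : U} (h : x ≠ y) :
    cN G ι θ κ x y = if G.Adj (ι x) (ι y) then θ s(ι x, ι y) else 0 := by simp [cN, h]

lemma kl_nonneg (x : U) : 0 ≤ kl G ι x := by unfold kl; positivity

omit hG in
lemma adj_of_wt {θ : Sym2 V → ℝ} {κ : U → ℝ} {T : Finset U} {g : U → U} (hg : IsFor T g)
    (hw : wt (cN G ι θ κ) T g ≠ 0) {x : U} (hx : g x ≠ x) : G.Adj (ι x) (ι (g x)) := by
  by_contra hn
  apply hw
  apply prod_eq_zero (i := x)
  · rw [mem_compl]; intro h; exact hx (hg.1 x h)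
  · rw [cN_ne _ _ hx.symm, if_neg hn]

omit hG in
lemma adj_of_TG {θ : Sym2 V → ℝ} {κ : U → ℝ} {T : Finset U} {g : U → U} (hg : IsFor T g)
    (hw : wt (cN G ι θ κ) T g ≠ 0) {a b : U} (h : (TG g).Adj a b) : G.Adj (ι a) (ι b) := by
  obtain ⟨h1, h2 | h2⟩ := h
  · have := adj_of_wt hg hw (x := a) (by rw [h2]; exact h1.symm)
    rwa [h2] at this
  · have := adj_of_wt hg hw (x := b) (by rw [h2]; exact h1)
    rw [h2] at this; exact this.symm

omit [Fintype U] in
lemma XE_iff (hι : Function.Injective ι) {g : U → U} {a b : U} :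
    XE ι s(ι a, ι b) g ↔ (TG g).Adj a b := by
  constructor
  · rintro ⟨a', b', h, e⟩
    rcases Sym2.eq_iff.1 e with ⟨e1, e2⟩ | ⟨e1, e2⟩
    · rw [hι e1, hι e2]; exact h
    · rw [hι e1, hι e2]; exact h.symm
  · intro h; exact ⟨a, b, h, rfl⟩

/-- Multiply the conductance of `e` by `t`. -/
noncomputable def tilt (θ : Sym2 V → ℝ) (e : Sym2 V) (t : ℝ) (e' : Sym2 V) : ℝ :=
  θ e' * if e' = e then t else 1

lemma tilt_pos {θ : Sym2 V → ℝ} (hθ : ∀ e, 0 < θ e) (e : Sym2 V) {t : ℝ} (ht : 0 < t)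
    (e' : Sym2 V) : 0 < tilt θ e t e' := by
  unfold tilt; have := hθ e'; split_ifs <;> positivity

omit hG in
lemma wt_tilt (hι : Function.Injective ι) (θ : Sym2 V → ℝ) (κ : U → ℝ) (e : Sym2 V) (t : ℝ)
    {T : Finset U} {g : U → U} (hg : IsFor T g) :
    wt (cN G ι (tilt θ e t) κ) T g = wt (cN G ι θ κ) T g * (1 + (t - 1) * ind (XE ι e g)) := by
  have e1 : ∀ x, cN G ι (tilt θ e t) κ x (g x) =
      cN G ι θ κ x (g x) * if g x ≠ x ∧ s(ι x, ι (g x)) = e then t else 1 := by
    intro x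
    by_cases hx : g x = x
    · simp [hx, cN_self]
    · rw [cN_ne _ _ (Ne.symm hx), cN_ne _ _ (Ne.symm hx)]
      simp only [tilt, ne_eq, hx, not_false_eq_true, true_and]
      split_ifs <;> simp
  unfold wt
  simp only [e1, prod_mul_distrib]
  congr 1
  by_cases hX : XE ι e g
  · have : ∃ a, g a ≠ a ∧ s(ι a, ι (g a)) = e := by
      obtain ⟨a, b, ⟨h1, h2 | h2⟩, rfl⟩ := hX
      · exact ⟨a, by rw [h2]; exact h1.symm, by rw [h2]⟩
      · exact ⟨b, by rw [h2]; exact h1, by rw [h2, Sym2.eq_swap]⟩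
    obtain ⟨a, ha1, ha2⟩ := this
    rw [ind_pos hX, prod_eq_single a]
    · rw [if_pos ⟨ha1, ha2⟩]; ring
    · intro x _ hxa
      rw [if_neg]
      rintro ⟨h1, h2⟩
      rw [← ha2] at h2
      rcases Sym2.eq_iff.1 h2 with ⟨e1, -⟩ | ⟨e1, e2⟩
      · exact hxa (hι e1)
      · exact hxa (isFor_two hg (hι e2) (hι e1).symm)
    · intro h
      exact absurd (mem_compl.2 fun h' => ha1 (hg.1 a h')) h
  · rw [ind_neg hX, prod_eq_one]
    · ring
    · intro x _
      rw [if_neg]
      rintro ⟨h1, h2⟩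
      exact hX ⟨x, g x, ⟨h1.symm, Or.inl rfl⟩, h2.symm⟩

omit hG in
lemma Ex_tilt (hι : Function.Injective ι) (θ : Sym2 V → ℝ) (κ : U → ℝ) (e : Sym2 V) (t : ℝ)
    {T : Finset U} (h0 : 0 < FF (cN G ι θ κ) T) (h1 : 0 < FF (cN G ι (tilt θ e t) κ) T)
    (ψ : (U → U) → ℝ) :
    Ex (cN G ι θ κ) T (fun g => (1 + (t - 1) * ind (XE ι e g)) * ψ g) =
      (1 + (t - 1) * Ex (cN G ι θ κ) T (fun g => ind (XE ι e g))) *
        Ex (cN G ι (tilt θ e t) κ) T ψ := by
  have e1 : ∀ ψ : (U → U) → ℝ, ∑ g ∈ fors T, wt (cN G ι (tilt θ e t) κ) T g * ψ g =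
      ∑ g ∈ fors T, wt (cN G ι θ κ) T g * ((1 + (t - 1) * ind (XE ι e g)) * ψ g) := by
    intro ψ
    apply sum_congr rfl; intro g hg
    rw [wt_tilt hι θ κ e t (mem_fors.1 hg)]; ring
  have e2 : FF (cN G ι (tilt θ e t) κ) T = FF (cN G ι θ κ) T *
      (1 + (t - 1) * Ex (cN G ι θ κ) T (fun g => ind (XE ι e g))) := by
    have := Ex_lin (cN G ι θ κ) T (fun _ => 1) (fun g => ind (XE ι e g)) 1 (t - 1)
    rw [Ex_const h0] at this
    simp only [mul_one] at this
    rw [← this]
    have h2 := e1 fun _ => 1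
    simp only [mul_one] at h2
    unfold Ex
    rw [← h2]; field_simp; rfl
  have h3 : 1 + (t - 1) * Ex (cN G ι θ κ) T (fun g => ind (XE ι e g)) ≠ 0 := by
    intro h; rw [e2, h] at h1; simp at h1
  generalize 1 + (t - 1) * Ex (cN G ι θ κ) T (fun g => ind (XE ι e g)) = w at e2 h3
  unfold Ex
  rw [← e1, e2]
  field_simp

/-- The piece is connected to `v` inside itself. -/
def ConnTo (G : SimpleGraph V) (ι : U → V) (v : U) : Prop :=
  ∀ z, Relation.ReflTransGen (fun a b => G.Adj (ι a) (ι b)) z v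

omit hG in
lemma FF_free {θ : Sym2 V → ℝ} (hθ : ∀ e, 0 < θ e) {v : U} (hv : ConnTo G ι v) (T : Finset U)
    (hT : {v} ⊆ T) : 0 < FF (cN G ι θ 0) T := by
  apply FF_pos (cN_nonneg hθ fun _ => le_rfl)
  intro z
  refine ⟨v, Or.inl (hT (mem_singleton_self _)), rtg_mono (fun a b h => ?_) (hv z)⟩
  have : a ≠ b := by rintro rfl; exact h.ne rfl
  rw [cN_ne _ _ this, if_pos h]; exact hθ _

lemma FF_wired {θ : Sym2 V → ℝ} (hθ : ∀ e, 0 < θ e) (T : Finset U) :
    0 < FF (cN G ι θ (kl G ι)) T := by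
  apply FF_pos (cN_nonneg hθ kl_nonneg)
  intro z
  have := hG.inf
  obtain ⟨y, hy⟩ := (Set.finite_range ι).exists_notMem
  induction hn : G.dist (ι z) y generalizing z with
  | zero => exact absurd ⟨z, dist_zero.1 hn⟩ hy
  | succ n ih =>
    obtain ⟨x', ha, hd⟩ := exists_next (G := G) (x := ι z) (y := y) (fun h => hy ⟨z, h⟩)
    by_cases hx : x' ∈ Set.range ι
    · obtain ⟨z', rfl⟩ := hx
      obtain ⟨t, ht, hr⟩ := ih z' (by omega)
      refine ⟨t, ht, Relation.ReflTransGen.head ?_ hr⟩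
      have : z ≠ z' := by rintro rfl; exact ha.ne rfl
      rw [cN_ne _ _ this, if_pos ha]; exact hθ _
    · refine ⟨z, Or.inr ?_, Relation.ReflTransGen.refl⟩
      rw [cN_self]
      unfold kl
      exact_mod_cast card_pos.2 ⟨x', mem_filter.2 ⟨mem_nb.2 ha, hx⟩⟩

variable (G ι) in
/-- Free expectation. -/
noncomputable def EF (v : U) (θ : Sym2 V → ℝ) (ψ : (U → U) → ℝ) : ℝ := Ex (cN G ι θ 0) {v} ψ

variable (G ι) in
/-- Wired expectation. -/
noncomputable def EW (θ : Sym2 V → ℝ) (ψ : (U → U) → ℝ) : ℝ := Ex (cN G ι θ (kl G ι)) ∅ ψ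

lemma edge_compare (hι : Function.Injective ι) {θ : Sym2 V → ℝ} (hθ : ∀ e, 0 < θ e) {v : U}
    (hv : ConnTo G ι v) (e : Sym2 V) :
    EW G ι θ (fun g => ind (XE ι e g)) ≤ EF G ι v θ (fun g => ind (XE ι e g)) := by
  by_cases he : ∃ a b, a ≠ b ∧ e = s(ι a, ι b)
  swap
  · have : ∀ g : U → U, ind (XE ι e g) = 0 := fun g =>
      ind_neg fun ⟨a, b, h1, h2⟩ => he ⟨a, b, h1.ne, h2⟩
    simp [EW, EF, Ex, this]
  obtain ⟨a, b, hab, rfl⟩ := he
  have c1 := cN_nonneg (G := G) (ι := ι) (κ := 0) hθ fun _ => le_rfl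
  have c2 := cN_nonneg (G := G) (ι := ι) hθ (kl_nonneg (G := G) (ι := ι))
  obtain ⟨φ, h0, h1, h2⟩ := kirchhoff (cN_symm θ 0) c1 (FF_free hθ hv) hab
  obtain ⟨φ', h0', h1', h2'⟩ := kirchhoff (T := ∅) (cN_symm θ (kl G ι)) c2
    (fun T _ => FF_wired hθ T) hab
  simp only [XE_iff hι, EW, EF, Ex]
  rw [h2, h2', mul_div_cancel_right₀ _ (FF_free hθ hv _ subset_rfl).ne',
    mul_div_cancel_right₀ _ (FF_wired hθ _).ne', cN_ne _ _ hab, cN_ne _ _ hab]
  have : φ' a - φ' b ≤ φ a - φ b := by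
    apply res_lower c1 h0 h1 (f := fun z => φ' z - φ' v) (by simp) (by ring)
    rw [← h1' φ' h0']
    apply En_le_of
    · intro x y
      by_cases hxy : x = y
      · simp [hxy]
      · rw [cN_ne _ _ hxy, cN_ne _ _ hxy]; apply le_of_eq; ring
    · intro x
      simp only [cN_self, Pi.zero_apply, zero_mul]
      exact mul_nonneg (kl_nonneg _) (mul_self_nonneg _)
  have h3 := (hθ s(ι a, ι b)).le
  split_ifs
  · gcongr
  · simp

variable (ι) in
noncomputable def YE (A : Finset (Sym2 V)) (g : U → U) : ℝ := ∏ e ∈ A, (1 + ind (XE ι e g))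

omit [Fintype U] in
lemma YE_nonneg (A : Finset (Sym2 V)) (g : U → U) : 0 ≤ YE ι A g :=
  prod_nonneg fun e _ => by have := ind_nonneg (XE ι e g); linarith

omit [Fintype U] in
lemma YE_le (A : Finset (Sym2 V)) (g : U → U) : YE ι A g ≤ 2 ^ A.card := by
  rw [← prod_const]
  apply prod_le_prod
  · intro e _; have := ind_nonneg (XE ι e g); linarith
  · intro e _; have := ind_le_one (XE ι e g); linarith

lemma Y_compare (hι : Function.Injective ι) {v : U} (hv : ConnTo G ι v) (A : Finset (Sym2 V))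
    {θ : Sym2 V → ℝ} (hθ : ∀ e, 0 < θ e) : EW G ι θ (YE ι A) ≤ EF G ι v θ (YE ι A) := by
  induction A using Finset.induction_on generalizing θ with
  | empty =>
    have : YE ι (∅ : Finset (Sym2 V)) = fun _ : U → U => 1 := by ext; simp [YE]
    rw [this, EW, EF, Ex_const (FF_wired hθ _), Ex_const (FF_free hθ hv _ subset_rfl)]
  | insert e A he ih =>
    have : YE ι (insert e A) = fun g : U → U => (1 + (2 - 1) * ind (XE ι e g)) * YE ι A g := by
      ext g; unfold YE; rw [prod_insert he]; norm_num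
    have hθ' := tilt_pos hθ e (t := 2) two_pos
    rw [this, EW, EF, Ex_tilt hι _ _ _ _ (FF_wired hθ _) (FF_wired hθ' _),
      Ex_tilt hι _ _ _ _ (FF_free hθ hv _ subset_rfl) (FF_free hθ' hv _ subset_rfl)]
    have h1 := edge_compare hι hθ hv e
    have h2 := ih hθ'
    have h3 : 0 ≤ EW G ι (tilt θ e 2) (YE ι A) := by
      have := Ex_mono (cN_nonneg (G := G) (ι := ι) hθ' (kl_nonneg (G := G) (ι := ι))) (T := ∅)
        (ψ := fun _ => 0) (ψ' := YE ι A) fun g _ _ => YE_nonneg A g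
      rwa [Ex_const (FF_wired hθ' _)] at this
    have h4 : 0 ≤ EW G ι θ (fun g => ind (XE ι e g)) := by
      have := Ex_mono (cN_nonneg (G := G) (ι := ι) hθ (kl_nonneg (G := G) (ι := ι))) (T := ∅)
        (ψ := fun _ => 0) (ψ' := fun g => ind (XE ι e g)) fun g _ _ => ind_nonneg _
      rwa [Ex_const (FF_wired hθ _)] at this
    unfold EW EF at *
    apply mul_le_mul <;> linarith

lemma Y_step (hι : Function.Injective ι) {v : U} (hv : ConnTo G ι v) {A : Finset (Sym2 V)}
    {e : Sym2 V} (he : e ∉ A) {θ : Sym2 V → ℝ} (hθ : ∀ e, 0 < θ e) :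
    EF G ι v θ (YE ι (insert e A)) - EW G ι θ (YE ι (insert e A)) ≤
      3 * (EF G ι v θ (YE ι A) - EW G ι θ (YE ι A)) +
      2 ^ A.card * (EF G ι v θ (fun g => ind (XE ι e g)) - EW G ι θ (fun g => ind (XE ι e g))) := by
  have : YE ι (insert e A) = fun g : U → U =>
      3 * YE ι A g + (-2) * ((1 + (1 / 2 - 1) * ind (XE ι e g)) * YE ι A g) := by
    ext g; unfold YE; rw [prod_insert he]; ring
  have hθ' := tilt_pos hθ e (t := 1 / 2) (by norm_num)
  have h1 := edge_compare hι hθ hv e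
  have h2 := Y_compare hι hv A hθ'
  have h3 : EW G ι (tilt θ e (1 / 2)) (YE ι A) ≤ 2 ^ A.card := by
    have := Ex_mono (cN_nonneg (G := G) (ι := ι) hθ' (kl_nonneg (G := G) (ι := ι))) (T := ∅)
      (ψ' := fun _ => 2 ^ A.card) (ψ := YE ι A) fun g _ _ => YE_le A g
    rwa [Ex_const (FF_wired hθ' _)] at this
  have h4 : EF G ι v θ (fun g => ind (XE ι e g)) ≤ 1 := by
    have := Ex_mono (cN_nonneg (G := G) (ι := ι) (κ := 0) hθ fun _ => le_rfl) (T := {v})
      (ψ' := fun _ => 1) (ψ := fun g => ind (XE ι e g)) fun g _ _ => ind_le_one _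
    rwa [Ex_const (FF_free hθ hv _ subset_rfl)] at this
  rw [this]
  unfold EW EF at *
  rw [Ex_lin, Ex_lin, Ex_tilt hι _ _ _ _ (FF_wired hθ _) (FF_wired hθ' _),
    Ex_tilt hι _ _ _ _ (FF_free hθ hv _ subset_rfl) (FF_free hθ' hv _ subset_rfl)]
  nlinarith [mul_nonneg (sub_nonneg.2 h2) (sub_nonneg.2 h4),
    mul_nonneg (sub_nonneg.2 h1) (sub_nonneg.2 h3)]

lemma lap_ext (hι : Function.Injective ι) (f : U → ℝ) (x : U) :
    ∑ z, cN G ι 1 (kl G ι) x z * (f x - f z) + cN G ι 1 (kl G ι) x x * f x =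
      Lap G (Function.extend ι f 0) (ι x) := by
  rw [cN_self, Lap, ← sum_filter_add_sum_filter_not (nb G (ι x)) (fun y => y ∈ Set.range ι)]
  congr 1
  · have e : (nb G (ι x)).filter (fun y => y ∈ Set.range ι) =
        (univ.filter fun z => G.Adj (ι x) (ι z)).image ι := by
      ext y
      simp only [mem_filter, mem_nb, Set.mem_range, mem_image, mem_univ, true_and]
      constructor
      · rintro ⟨h, z, rfl⟩; exact ⟨z, h, rfl⟩
      · rintro ⟨z, h, rfl⟩; exact ⟨h, z, rfl⟩
    rw [e, sum_image (fun a _ b _ h => hι h), sum_filter]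
    apply sum_congr rfl; intro z _
    by_cases hz : x = z
    · simp [hz]
    · rw [cN_ne _ _ hz]
      simp only [hι.extend_apply, Pi.one_apply]
      split_ifs <;> simp
  · unfold kl
    rw [← nsmul_eq_mul, ← sum_const]
    apply sum_congr rfl; intro y hy
    rw [hι.extend_apply, Function.extend_apply' _ _ _ (mem_filter.1 hy).2]; simp

lemma En_ext (hι : Function.Injective ι) (f : U → ℝ) :
    En (cN G ι 1 (kl G ι)) f f = ∑ x ∈ univ.image ι,
      Function.extend ι f 0 x * Lap G (Function.extend ι f 0) x := by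
  rw [En_eq (cN_symm _ _), sum_image (fun a _ b _ h => hι h)]
  simp only [lap_ext hι, hι.extend_apply]

variable (G) in
/-- A finitely supported test function certifying the resistance bound `R`. -/
def Low (D : Finset V) (a b : V) (R : ℝ) : Prop :=
  ∃ u : V → ℝ, (∀ x, x ∉ D → u x = 0) ∧ u a - u b = R ∧ ∑ x ∈ D, u x * Lap G u x ≤ R

lemma one_pos' : ∀ e : Sym2 V, (0 : ℝ) < (1 : Sym2 V → ℝ) e := fun _ => one_pos

lemma low_wired (hι : Function.Injective ι) {a b : U} (hab : G.Adj (ι a) (ι b)) :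
    Low G (univ.image ι) (ι a) (ι b) (EW G ι 1 fun g => ind (XE ι s(ι a, ι b) g)) := by
  have hne : a ≠ b := by rintro rfl; exact hab.ne rfl
  have c2 := cN_nonneg (G := G) (ι := ι) one_pos' (kl_nonneg (G := G) (ι := ι))
  obtain ⟨φ, h0, h1, h2⟩ := kirchhoff (T := ∅) (cN_symm 1 (kl G ι)) c2
    (fun T _ => FF_wired one_pos' T) hne
  simp only [XE_iff hι, EW, Ex]
  rw [h2, mul_div_cancel_right₀ _ (FF_wired one_pos' _).ne', cN_ne _ _ hne, if_pos hab]
  refine ⟨Function.extend ι φ 0, fun x hx => ?_, by simp [hι.extend_apply], ?_⟩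
  · rw [Function.extend_apply' _ _ _ (by simpa using hx)]; rfl
  · rw [← En_ext hι, h1 φ h0]; simp

lemma le_wired (hι : Function.Injective ι) {a b : U} (hab : G.Adj (ι a) (ι b)) {D : Finset V}
    (hD : D ⊆ univ.image ι) {R : ℝ} (h : Low G D (ι a) (ι b) R) :
    R ≤ EW G ι 1 fun g => ind (XE ι s(ι a, ι b) g) := by
  have hne : a ≠ b := by rintro rfl; exact hab.ne rfl
  have c2 := cN_nonneg (G := G) (ι := ι) one_pos' (kl_nonneg (G := G) (ι := ι))
  obtain ⟨φ, h0, h1, h2⟩ := kirchhoff (T := ∅) (cN_symm 1 (kl G ι)) c2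
    (fun T _ => FF_wired one_pos' T) hne
  simp only [XE_iff hι, EW, Ex]
  rw [h2, mul_div_cancel_right₀ _ (FF_wired one_pos' _).ne', cN_ne _ _ hne, if_pos hab]
  obtain ⟨u, hu0, hu1, hu2⟩ := h
  have e : Function.extend ι (fun z => u (ι z)) 0 = u := by
    ext x
    by_cases hx : ∃ z, ι z = x
    · obtain ⟨z, rfl⟩ := hx; rw [hι.extend_apply]
    · rw [Function.extend_apply' _ _ _ hx, hu0 x]
      · rfl
      · intro h; exact hx (by simpa using hD h)
  have := res_lower c2 h0 h1 (f := fun z => u (ι z)) (by simp) hu1 (by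
    rw [En_ext hι, e]
    refine le_trans (le_of_eq ?_) hu2
    symm; apply sum_subset hD
    intro x _ hx; simp [hu0 x hx])
  simpa using this

lemma Low.iso {D : Finset V} {a b : V} {R : ℝ} (h : Low G D a b R) (φ : G ≃g G) :
    Low G (D.image φ) (φ a) (φ b) R := by
  obtain ⟨u, hu0, hu1, hu2⟩ := h
  refine ⟨fun x => u (φ.symm x), fun x hx => hu0 _ fun h => hx ?_, by simpa using hu1, ?_⟩
  · exact mem_image.2 ⟨_, h, by simp⟩
  · rw [sum_image (fun a _ b _ h => φ.injective h)]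
    refine le_trans (le_of_eq ?_) hu2
    apply sum_congr rfl; intro x _
    simp only [Lap]
    rw [nb_iso, sum_image (fun a _ b _ h => φ.injective h)]
    simp

lemma wired_avg (hι : Function.Injective ι) :
    2 * ((univ.filter fun x : U => kl G ι x = 0).card : ℝ) ≤
      ∑ x : U, ∑ y : U with G.Adj (ι x) (ι y), EW G ι 1 fun g => ind (XE ι s(ι x, ι y) g) := by
  unfold EW
  simp only [← Ex_sum]
  rw [← Ex_const (FF_wired (G := G) (ι := ι) one_pos' ∅) (2 * _)]
  apply Ex_mono (cN_nonneg one_pos' kl_nonneg)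
  intro g hg hw
  simp only [XE_iff hι]
  have h1 : ∀ x y, G.Adj (ι x) (ι y) → ind (g x = y) + ind (g y = x) ≤ ind ((TG g).Adj x y) := by
    intro x y h
    have hne : x ≠ y := by rintro rfl; exact h.ne rfl
    by_cases p1 : g x = y <;> by_cases p2 : g y = x
    · exact absurd (isFor_two hg p1 p2) hne
    · rw [ind_pos p1, ind_neg p2, ind_pos (show (TG g).Adj x y from ⟨hne, Or.inl p1⟩)]; norm_num
    · rw [ind_neg p1, ind_pos p2, ind_pos (show (TG g).Adj x y from ⟨hne, Or.inr p2⟩)]; norm_num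
    · rw [ind_neg p1, ind_neg p2]; simpa using ind_nonneg _
  refine le_trans ?_ (sum_le_sum fun x _ => sum_le_sum fun y hy => h1 x y (mem_filter.1 hy).2)
  simp only [sum_add_distrib]
  have h2 : ∑ x : U, ∑ y : U with G.Adj (ι x) (ι y), ind (g y = x) =
      ∑ x : U, ∑ y : U with G.Adj (ι x) (ι y), ind (g x = y) := by
    simp only [sum_filter]
    rw [sum_comm]
    simp only [G.adj_comm]
  have h3 : ((univ.filter fun x : U => kl G ι x = 0).card : ℝ) ≤
      ∑ x : U, ∑ y : U with G.Adj (ι x) (ι y), ind (g x = y) := by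
    rw [card_eq_sum_ones, Nat.cast_sum]
    refine le_trans (sum_le_sum fun x hx => ?_) (sum_le_sum_of_subset_of_nonneg (subset_univ _)
      fun x _ _ => sum_nonneg fun y _ => ind_nonneg _)
    have hx0 := (mem_filter.1 hx).2
    have hgx : g x ≠ x := by
      intro h
      apply hw
      apply prod_eq_zero (i := x) (by simp)
      rw [h, cN_self, hx0]
    have := single_le_sum (s := univ.filter fun y => G.Adj (ι x) (ι y))
      (f := fun y => ind (g x = y)) (fun y _ => ind_nonneg _)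
      (mem_filter.2 ⟨mem_univ (g x), adj_of_wt hg hw hgx⟩)
    simpa [ind] using this
  rw [h2]; linarith

theorem hit_bound {d β : ℝ} (h : Growth G d) (hd : 8 < d) (hβ0 : 0 ≤ β) (hβ : β < d - 2) :
    ∃ C : ℝ, 1 ≤ C ∧ ∀ (U : Type) [Fintype U] (ι : U → V), Function.Injective ι →
      ∀ (T : Finset U) (y z : U), y ∈ T →
      NN (cN G ι 1 (kl G ι)) T y z ≤ C * el G (ι z) (ι y) ^ (-β) * FF (cN G ι 1 (kl G ι)) T := by
  obtain ⟨C, hC1, hC⟩ := green_V h hd hβ0 hβ
  refine ⟨C, hC1, fun U _ ι hι T y z hy => ?_⟩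
  have hF := FF_wired (G := G) (ι := ι) one_pos' T
  have c2 := cN_nonneg (G := G) (ι := ι) one_pos' (kl_nonneg (G := G) (ι := ι))
  set c := cN G ι 1 (kl G ι) with hc
  have := hC (univ.image ι) (ι y) (Function.extend ι (fun z => NN c T y z / FF c T) 0) (by simp)
    (fun x hx => by rw [Function.extend_apply' _ _ _ (by simpa using hx)]; rfl)
    (fun x => by
      by_cases hx : ∃ z, ι z = x
      · obtain ⟨z, rfl⟩ := hx
        rw [hι.extend_apply]
        exact ⟨div_nonneg (NN_nonneg c2 _ _ _) hF.le, (div_le_one hF).2 (NN_le c2 _ _ _)⟩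
      · rw [Function.extend_apply' _ _ _ hx]; simp)
    (fun x hx hxy => by
      obtain ⟨w, -, rfl⟩ := mem_image.1 hx
      by_cases hw : w ∈ T
      · left; rw [hι.extend_apply, NN_root c hw (fun h => hxy (by rw [h])), zero_div]
      · right
        rw [← lap_ext hι]
        have := NN_harm c hy hw
        have e : ∑ z, c w z * (NN c T y w / FF c T - NN c T y z / FF c T) +
            c w w * (NN c T y w / FF c T) =
            (∑ z, c w z * (NN c T y w - NN c T y z) + c w w * NN c T y w) / FF c T := by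
          rw [add_div, sum_div]
          congr 1
          · apply sum_congr rfl; intro y _; ring
          · ring
        rw [e, this, zero_div]) (ι z)
  rwa [hι.extend_apply, div_le_iff₀ hF] at this

end Pool.Agent.MP_12d2c5_pr

end MrgPart0

-- ======== part 1: formerly Pool.Agent.MP_12d2c5_pr.Multi
section MrgPart1

/-! Multi-point connection bounds for the wired forest. -/

open scoped Classical
open Finset

namespace Pool.Agent.MP_12d2c5_pr

open MP_f8cd8e_pr

section Gen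

variable {U : Type}

/-- `y` is reached from `x` by steps starting in `A`. -/
def RI (A : Set U) (g : U → U) (x y : U) : Prop :=
  Relation.ReflTransGen (fun a b => a ∈ A ∧ g a = b) x y

lemma RI.refl (A : Set U) (g : U → U) (x : U) : RI A g x x := Relation.ReflTransGen.refl

lemma RI.head {A : Set U} {g : U → U} {x y : U} (hx : x ∈ A) (h : RI A g (g x) y) : RI A g x y :=
  Relation.ReflTransGen.head ⟨hx, rfl⟩ h

lemma RI.trans {A : Set U} {g : U → U} {x y z : U} (h : RI A g x y) (h' : RI A g y z) :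
    RI A g x z := Relation.ReflTransGen.trans h h'

lemma RI.ind {A : Set U} {g : U → U} {y : U} {P : U → Prop} (h0 : P y)
    (hs : ∀ x, x ∈ A → RI A g (g x) y → P (g x) → P x) {x : U} (h : RI A g x y) : P x := by
  induction h using Relation.ReflTransGen.head_induction_on with
  | refl => exact h0
  | head h1 h2 ih => obtain ⟨h1, rfl⟩ := h1; exact hs _ h1 h2 ih

lemma RI.rch {A : Set U} {g : U → U} {x y : U} (h : RI A g x y) : Rch g x y :=
  rtg_mono (fun _ _ h => h.2) h

lemma RI.mono {A B : Set U} {g : U → U} {x y : U} (h : RI A g x y) (hAB : A ⊆ B) : RI B g x y :=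
  rtg_mono (fun _ _ h => ⟨hAB h.1, h.2⟩) h

lemma RI.congr {A : Set U} {g g' : U → U} {x y : U} (h : RI A g x y)
    (hg : ∀ w ∈ A, g' w = g w) : RI A g' x y :=
  rtg_mono (fun a _ h => ⟨h.1, (hg a h.1).trans h.2⟩) h

lemma RI.restrict {A P : Set U} {g : U → U} {x z : U} (h : RI A g x z)
    (hP : ∀ w ∈ A, Rch g x w → Rch g w z → w ≠ z → w ∈ P) : RI P g x z := by
  revert hP
  refine RI.ind (P := fun x => (∀ w ∈ A, Rch g x w → Rch g w z → w ≠ z → w ∈ P) → RI P g x z)
    (fun _ => RI.refl _ _ _) ?_ h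
  intro x hx h1 ih hP
  by_cases hxz : x = z
  · rw [hxz]; exact RI.refl _ _ _
  · exact RI.head (hP x hx (Rch.refl _ _) (Rch.head h1.rch) hxz)
      (ih fun w hw h2 h3 h4 => hP w hw (Rch.head h2) h3 h4)

lemma RI.orbit {A : Set U} {g : U → U} {x y w : U} (h : RI A g x y) (hw : Rch g x w) :
    w ∈ A ∨ Rch g y w := by
  revert hw
  refine RI.ind (P := fun x => Rch g x w → w ∈ A ∨ Rch g y w) Or.inr ?_ h
  intro x hx _ ih hw
  rcases hw.cases with rfl | hw
  · exact Or.inl hx
  · exact ih hw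

lemma RI.mid {T : Finset U} {A : Set U} {g : U → U} (hg : IsFor T g) {x z c : U} (h : RI A g x z)
    (h1 : Rch g x c) (h2 : Rch g c z) : RI A g x c := by
  revert h1
  refine RI.ind (P := fun x => Rch g x c → RI A g x c) ?_ ?_ h
  · intro h1; rw [isFor_antisymm hg h1 h2]; exact RI.refl _ _ _
  · intro x hx _ ih h1
    rcases h1.cases with rfl | h1
    · exact RI.refl _ _ _
    · exact RI.head hx (ih h1)

lemma RI.child {A : Set U} {g : U → U} {x z : U} (h : RI A g x z) (hx : x ≠ z) :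
    ∃ c ∈ A, c ≠ z ∧ g c = z ∧ RI A g x c := by
  revert hx
  refine RI.ind (P := fun x => x ≠ z → ∃ c ∈ A, c ≠ z ∧ g c = z ∧ RI A g x c)
    (fun h => absurd rfl h) ?_ h
  intro x hxA _ ih hx
  by_cases h1 : g x = z
  · exact ⟨x, hxA, hx, h1, RI.refl _ _ _⟩
  · obtain ⟨c, h2, h3, h4, h5⟩ := ih h1
    exact ⟨c, h2, h3, h4, RI.head hxA h5⟩

variable [Fintype U]

noncomputable def orb (g : U → U) (z : U) : Finset U := univ.filter (Rch g z)

lemma orb_lt {T : Finset U} {g : U → U} (hg : IsFor T g) {a b : U} (h : Rch g a b) (hab : a ≠ b) :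
    (orb g b).card < (orb g a).card := by
  apply card_lt_card
  constructor
  · intro w hw
    simp only [orb, mem_filter, mem_univ, true_and] at hw ⊢
    exact h.trans hw
  · intro hs
    have : a ∈ orb g b := hs (by simp [orb, Rch.refl])
    simp only [orb, mem_filter, mem_univ, true_and] at this
    exact hab (isFor_antisymm hg h this)

lemma split_top {L : Type} {T : Finset U} {g : U → U} (hg : IsFor T g) {pos : L → U}
    {X : Finset L} (hX : 2 ≤ X.card) {A : Set U} {m : U} (h : ∀ i ∈ X, RI A g (pos i) m) :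
    ∃ (z : U) (X1 : Finset L) (A1 A2 : Set U), X1 ⊆ X ∧ X1.Nonempty ∧ (X \ X1).Nonempty ∧
      A1 ⊆ A ∧ A2 ⊆ A ∧ Disjoint A1 A2 ∧ (∀ w ∈ A1, ¬ Rch g z w) ∧ (∀ w ∈ A2, ¬ Rch g z w) ∧
      (∀ i ∈ X1, RI A1 g (pos i) z) ∧ (∀ i ∈ X \ X1, RI A2 g (pos i) z) ∧ RI A g z m := by
  obtain ⟨z, hz, hmax⟩ := exists_max_image
    (univ.filter fun z => (∀ i ∈ X, RI A g (pos i) z) ∧ RI A g z m) (fun z => (orb g z).card)
    ⟨m, by simp only [mem_filter, mem_univ, true_and]; exact ⟨h, RI.refl _ _ _⟩⟩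
  simp only [mem_filter, mem_univ, true_and] at hz hmax
  obtain ⟨i1, hi1⟩ : X.Nonempty := card_pos.1 (by omega)
  by_cases h1 : pos i1 = z
  · refine ⟨z, {i1}, ∅, {w | w ∈ A ∧ ¬ Rch g z w}, by simpa using hi1, by simp, ?_, by simp,
      fun w hw => hw.1, by simp, by simp, fun w hw => hw.2, ?_, ?_, hz.2⟩
    · rw [← card_pos, card_sdiff_of_subset (by simpa using hi1), card_singleton]; omega
    · intro i hi; rw [mem_singleton.1 hi, h1]; exact RI.refl _ _ _
    · intro i hi
      exact (hz.1 i (mem_sdiff.1 hi).1).restrict fun w hw _ h3 h4 =>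
        ⟨hw, fun h5 => h4 (isFor_antisymm hg h3 h5)⟩
  · obtain ⟨c, hcA, hcz, hgc, hc⟩ := (hz.1 i1 hi1).child h1
    have hcz' : Rch g c z := by apply Rch.head; rw [hgc]; exact Rch.refl _ _
    refine ⟨z, X.filter fun i => Rch g (pos i) c, {w | w ∈ A ∧ Rch g w c},
      {w | w ∈ A ∧ ¬ Rch g w c ∧ ¬ Rch g z w}, filter_subset _ _,
      ⟨i1, mem_filter.2 ⟨hi1, hc.rch⟩⟩, ?_, fun w hw => hw.1, fun w hw => hw.1, ?_, ?_,
      fun w hw => hw.2.2, ?_, ?_, hz.2⟩
    · by_contra hn
      rw [not_nonempty_iff_eq_empty, sdiff_eq_empty_iff_subset] at hn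
      have := hmax c ⟨fun i hi => (hz.1 i hi).mid hg (mem_filter.1 (hn hi)).2 hcz',
        RI.head hcA (by rw [hgc]; exact hz.2)⟩
      have := orb_lt hg hcz' hcz
      omega
    · rw [Set.disjoint_left]; intro w h1 h2; exact h2.2.1 h1.2
    · intro w hw h2
      exact hcz (isFor_antisymm hg hcz' (h2.trans hw.2))
    · intro i hi
      obtain ⟨hi, hi'⟩ := mem_filter.1 hi
      refine (((hz.1 i hi).mid hg hi' hcz').restrict (P := {w | w ∈ A ∧ Rch g w c})
        fun w hw _ h3 _ => ⟨hw, h3⟩).trans ?_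
      exact RI.head ⟨hcA, Rch.refl _ _⟩ (by rw [hgc]; exact RI.refl _ _ _)
    · intro i hi
      obtain ⟨hi, hi'⟩ := mem_sdiff.1 hi
      exact (hz.1 i hi).restrict fun w hw h2 h3 h4 =>
        ⟨hw, fun h5 => hi' (mem_filter.2 ⟨hi, h2.trans h5⟩),
          fun h5 => h4 (isFor_antisymm hg h3 h5)⟩

/-- The event is determined by the parent function on its territory. -/
def Loc (Ev : Set U → (U → U) → Prop) : Prop :=
  ∀ A g g', Ev A g → (∀ w ∈ A, g' w = g w) → Ev A g'

def Bd (c : U → U → ℝ) (Ev : Set U → (U → U) → Prop) (T0 : Finset U) (b : ℝ) : Prop :=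
  ∀ T, T0 ⊆ T → ∑ g ∈ fors T, wt c T g * ind (∃ A, Ev A g ∧ ∀ w ∈ A, w ∉ T) ≤ b * FF c T

lemma Bd.mono {c : U → U → ℝ} {Ev : Set U → (U → U) → Prop} {T0 T1 : Finset U} {b : ℝ}
    (h : Bd c Ev T0 b) (h1 : T0 ⊆ T1) : Bd c Ev T1 b := fun T hT => h T (h1.trans hT)

def Term (g : U → U) (z : U) (π : U → Prop) : Prop := ∃ t, g t = t ∧ Rch g z t ∧ π t

omit [Fintype U] in
lemma term_fixed {g : U → U} {z : U} (hz : g z = z) (π : U → Prop) : Term g z π ↔ π z := by
  constructor
  · rintro ⟨t, -, h2, h3⟩; rwa [Rch.of_fixed hz h2] at h3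
  · intro h; exact ⟨z, hz, Rch.refl _ _, h⟩

lemma cond_root {c : U → U → ℝ} (hc : ∀ x y, 0 ≤ c x y) {Ev : Set U → (U → U) → Prop}
    {T0 : Finset U} {b : ℝ} (hB : Bd c Ev T0 b) {T : Finset U} {z : U} (hz : z ∈ T) (hT : T0 ⊆ T)
    (π : U → Prop) (P : (U → U) → Prop) (hP : ∀ g, P g → ∃ A, Ev A g ∧ ∀ w ∈ A, w ∉ T) :
    ∑ g ∈ fors T, wt c T g * ind (Term g z π ∧ P g) ≤
      b * ∑ g ∈ fors T, wt c T g * ind (Term g z π) := by
  by_cases hπ : π z
  · have e : ∑ g ∈ fors T, wt c T g * ind (Term g z π) = FF c T := by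
      apply sum_congr rfl; intro g hg
      rw [ind_pos ((term_fixed ((mem_fors.1 hg).1 z hz) π).2 hπ), mul_one]
    rw [e]
    refine le_trans (sum_le_sum fun g _ => ?_) (hB T hT)
    exact mul_le_mul_of_nonneg_left (ind_mono fun h => hP g h.2) (wt_nonneg hc _ _)
  · have e : ∀ Q : (U → U) → Prop, ∑ g ∈ fors T, wt c T g * ind (Term g z π ∧ Q g) = 0 := by
      intro Q
      apply sum_eq_zero; intro g hg
      rw [ind_neg fun h => hπ ((term_fixed ((mem_fors.1 hg).1 z hz) π).1 h.1), mul_zero]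
    have e' := e fun _ => True
    simp only [and_true] at e'
    rw [e, e', mul_zero]

lemma cond_path {c : U → U → ℝ} (hc : ∀ x y, 0 ≤ c x y) {Ev : Set U → (U → U) → Prop}
    (hL : Loc Ev) {T0 : Finset U} {b : ℝ} (hB : Bd c Ev T0 b) (T : Finset U) (z : U)
    (π : U → Prop) (hT : T0 ⊆ insert z T) :
    ∑ g ∈ fors T, wt c T g *
      ind (Term g z π ∧ ∃ A, Ev A g ∧ (∀ w ∈ A, w ∉ T) ∧ ∀ w ∈ A, ¬ Rch g z w) ≤
      b * ∑ g ∈ fors T, wt c T g * ind (Term g z π) := by
  induction hn : Tᶜ.card generalizing T z π with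
  | zero =>
    have : T = univ := by
      rw [card_eq_zero] at hn
      exact (compl_eq_empty_iff _).1 hn
    subst this
    exact cond_root hc hB (mem_univ z) (subset_univ _) π _ fun g ⟨A, h1, h2, _⟩ => ⟨A, h1, h2⟩
  | succ n ih =>
    by_cases hz : z ∈ T
    · exact cond_root hc hB hz (by rwa [insert_eq_of_mem hz] at hT) π _
        fun g ⟨A, h1, h2, _⟩ => ⟨A, h1, h2⟩
    rw [split_sum c hz, split_sum c hz, sum_comm, sum_comm (s := fors _), mul_sum]
    apply sum_le_sum
    intro w _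
    by_cases hw : w = z
    · subst hw
      have e : ∀ g ∈ fors (insert w T), Function.update g w w = g := by
        intro g hg
        have := (mem_fors.1 hg).1 w (mem_insert_self _ _)
        conv_lhs => rw [← this]
        rw [this]; conv_lhs => arg 3; rw [← this]
        exact Function.update_eq_self _ _
      simp only [true_or, if_true]
      have e' : ∀ Q : (U → U) → Prop, ∑ g ∈ fors (insert w T),
          c w w * wt c (insert w T) g * ind (Q (Function.update g w w)) =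
          c w w * ∑ g ∈ fors (insert w T), wt c (insert w T) g * ind (Q g) := by
        intro Q
        rw [mul_sum]
        exact sum_congr rfl fun g hg => by rw [e g hg, mul_assoc]
      rw [e' fun g => Term g w π, e' fun g =>
        Term g w π ∧ ∃ A, Ev A g ∧ (∀ w ∈ A, w ∉ T) ∧ ∀ x ∈ A, ¬ Rch g w x, mul_left_comm]
      apply mul_le_mul_of_nonneg_left _ (hc _ _)
      apply cond_root hc hB (mem_insert_self _ _) hT
      rintro g ⟨A, h1, h2, h3⟩
      refine ⟨A, h1, fun x hx hx' => ?_⟩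
      rcases mem_insert.1 hx' with rfl | hx'
      · exact h3 _ hx (Rch.refl _ _)
      · exact h2 x hx hx'
    · have key : ∀ g, IsFor (insert z T) g → ¬ Rch g w z →
          (Term (Function.update g z w) z π ↔ Term g w fun t => π t ∧ t ≠ z) := by
        intro g hg hr
        constructor
        · rintro ⟨t, h1, h2, h3⟩
          have htz : t ≠ z := by
            rintro rfl; rw [Function.update_self] at h1; exact hw h1
          rw [Function.update_of_ne htz] at h1
          rcases h2.cases with h2 | h2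
          · exact absurd h2.symm htz
          · rw [Function.update_self] at h2
            exact ⟨t, h1, Rch.of_update_of_not hr h2, h3, htz⟩
        · rintro ⟨t, h1, h2, h3, h4⟩
          refine ⟨t, by rw [Function.update_of_ne h4]; exact h1, ?_, h3⟩
          apply Rch.head; rw [Function.update_self]
          exact Rch.update_of_not w hr h2
      have e2 : ∑ g ∈ fors (insert z T), (if w = z ∨ ¬ Rch g w z then
          c z w * wt c (insert z T) g * ind (Term (Function.update g z w) z π) else 0) =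
          c z w * ∑ g ∈ fors (insert z T), wt c (insert z T) g *
            ind (Term g w fun t => π t ∧ t ≠ z) := by
        rw [mul_sum]
        apply sum_congr rfl; intro g hg
        have hg := mem_fors.1 hg
        by_cases hr : Rch g w z
        · rw [if_neg (by simp [hw, hr]), ind_neg]
          · simp
          · rintro ⟨t, h1, h2, -, h4⟩
            exact h4 (Rch.unique h1 (hg.1 z (mem_insert_self _ _)) h2 hr)
        · rw [if_pos (Or.inr hr), ind_congr (key g hg hr), mul_assoc]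
      rw [e2, mul_left_comm]
      have h3 := ih (insert z T) w (fun t => π t ∧ t ≠ z) (hT.trans (subset_insert _ _))
        (by rw [compl_insert, card_erase_of_mem (mem_compl.2 hz), hn]; rfl)
      refine le_trans ?_ (mul_le_mul_of_nonneg_left h3 (hc z w))
      rw [mul_sum]
      apply sum_le_sum; intro g hg
      have hg := mem_fors.1 hg
      split_ifs with hr
      · have hr : ¬ Rch g w z := hr.resolve_left hw
        rw [mul_assoc]
        apply mul_le_mul_of_nonneg_left _ (hc z w)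
        apply mul_le_mul_of_nonneg_left _ (wt_nonneg hc _ _)
        apply ind_mono
        rintro ⟨h1, A, h2, h3, h4⟩
        have hzA : z ∉ A := fun h => h4 z h (Rch.refl _ _)
        refine ⟨(key g hg hr).1 h1, A, hL A _ g h2 fun x hx => ?_, fun x hx hx' => ?_,
          fun x hx hx' => h4 x hx ?_⟩
        · rw [Function.update_of_ne (by rintro rfl; exact hzA hx)]
        · rcases mem_insert.1 hx' with rfl | hx'
          · exact hzA hx
          · exact h3 x hx hx'
        · apply Rch.head; rw [Function.update_self]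
          exact Rch.update_of_not w hr hx'
      · exact mul_nonneg (hc _ _) (mul_nonneg (wt_nonneg hc _ _) (ind_nonneg _))

variable {L : Type} (pos : L → U)

/-- All points of `X` reach `y` in a territory disjoint from that of `Ev`. -/
def Tg (X : Finset L) (y : U) (Ev : Set U → (U → U) → Prop) (A : Set U) (g : U → U) : Prop :=
  ∃ A1 A2, A1 ⊆ A ∧ A2 ⊆ A ∧ Disjoint A1 A2 ∧ Ev A2 g ∧ ∀ i ∈ X, RI A1 g (pos i) y

omit [Fintype U] in
lemma Loc.tg {Ev : Set U → (U → U) → Prop} (h : Loc Ev) (X : Finset L) (y : U) :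
    Loc (Tg pos X y Ev) := by
  rintro A g g' ⟨A1, A2, h1, h2, h3, h4, h5⟩ hg
  exact ⟨A1, A2, h1, h2, h3, h _ _ _ h4 fun w hw => hg w (h2 hw),
    fun i hi => (h5 i hi).congr fun w hw => hg w (h1 hw)⟩

noncomputable def splits (X : Finset L) : Finset (Finset L) :=
  X.powerset.filter fun X1 => X1.Nonempty ∧ (X \ X1).Nonempty

lemma term_le {c : U → U → ℝ} {T : Finset U} {y z : U} :
    ∑ g ∈ fors T, wt c T g * ind (Term g z (· = y)) ≤ NN c T y z ∨ ¬ ∀ x y, 0 ≤ c x y := by
  by_cases hc : ∀ x y, 0 ≤ c x y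
  · left
    apply sum_le_sum; intro g _
    apply mul_le_mul_of_nonneg_left _ (wt_nonneg hc _ _)
    apply ind_mono
    rintro ⟨t, -, h, rfl⟩; exact h
  · exact Or.inr hc

lemma ind_le_sum2 {α β : Type} {s : Finset α} {t : Finset β} {p : Prop} {q : α → β → Prop}
    (h : p → ∃ a ∈ s, ∃ b ∈ t, q a b) : ind p ≤ ∑ a ∈ s, ∑ b ∈ t, ind (q a b) := by
  by_cases hp : p
  · obtain ⟨a, ha, b, hb, hq⟩ := h hp
    rw [ind_pos hp, ← ind_pos hq]
    refine le_trans ?_ (single_le_sum (f := fun a => ∑ b ∈ t, ind (q a b))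
      (fun a _ => sum_nonneg fun b _ => ind_nonneg _) ha)
    exact single_le_sum (f := fun b => ind (q a b)) (fun b _ => ind_nonneg _) hb
  · rw [ind_neg hp]
    exact sum_nonneg fun a _ => sum_nonneg fun b _ => ind_nonneg _

variable {pos}

lemma bd_tg {c : U → U → ℝ} (hc : ∀ x y, 0 ≤ c x y) {gr : U → U → ℝ}
    (hit : ∀ T y z, y ∈ T → NN c T y z ≤ gr z y * FF c T) {B : Finset L → U → ℝ}
    (hB0 : ∀ X y, 0 ≤ B X y) (hB1 : ∀ i y, gr (pos i) y ≤ B {i} y)
    (hB2 : ∀ X y, 2 ≤ X.card → ∑ z, ∑ X1 ∈ splits X, gr z y * (B X1 z * B (X \ X1) z) ≤ B X y)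
    (X : Finset L) (hX : X.Nonempty) (y : U) (Ev : Set U → (U → U) → Prop) (hL : Loc Ev)
    (T0 : Finset U) (hy : y ∈ T0) (b : ℝ) (hb : 0 ≤ b) (hE : Bd c Ev T0 b) :
    Bd c (Tg pos X y Ev) T0 (B X y * b) := by
  induction hn : X.card using Nat.strong_induction_on generalizing X y Ev T0 b with
  | _ n ih =>
  intro T hT
  have hterm : ∀ z, ∑ g ∈ fors T, wt c T g * ind (Term g z (· = y)) ≤ gr z y * FF c T :=
    fun z => (term_le.resolve_right (not_not.2 hc)).trans (hit T y z (hT hy))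
  by_cases h2 : 2 ≤ X.card
  · have h3 : ∀ g ∈ fors T, wt c T g * ind (∃ A, Tg pos X y Ev A g ∧ ∀ w ∈ A, w ∉ T) ≤
        ∑ z, ∑ X1 ∈ splits X, wt c T g * ind (Term g z (· = y) ∧
          ∃ A, Tg pos X1 z (Tg pos (X \ X1) z Ev) A g ∧ (∀ w ∈ A, w ∉ T) ∧
            ∀ w ∈ A, ¬ Rch g z w) := by
      intro g hg
      have hg := mem_fors.1 hg
      simp only [← mul_sum]
      apply mul_le_mul_of_nonneg_left _ (wt_nonneg hc _ _)
      apply ind_le_sum2
      rintro ⟨A, ⟨A1, A2, a1, a2, a3, a4, a5⟩, a6⟩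
      obtain ⟨z, X1, B1, B2, b1, b2, b3, b4, b5, b6, b7, b8, b9, b10, b11⟩ := split_top hg h2 a5
      have hgy : g y = y := hg.1 y (hT hy)
      refine ⟨z, mem_univ _, X1, mem_filter.2 ⟨mem_powerset.2 b1, b2, b3⟩,
        ⟨y, hgy, b11.rch, rfl⟩, B1 ∪ (B2 ∪ A2), ⟨B1, B2 ∪ A2, Set.subset_union_left,
          Set.subset_union_right, ?_, ⟨B2, A2, Set.subset_union_left, Set.subset_union_right,
            a3.mono_left b5, a4, b10⟩, b9⟩, ?_, ?_⟩
      · exact Set.disjoint_union_right.2 ⟨b6, a3.mono_left b4⟩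
      · rintro w (hw | hw | hw)
        exacts [a6 w (a1 (b4 hw)), a6 w (a1 (b5 hw)), a6 w (a2 hw)]
      · rintro w (hw | hw | hw)
        · exact b7 w hw
        · exact b8 w hw
        · intro hr
          rcases b11.orbit hr with h | h
          · exact Set.disjoint_left.1 a3 h hw
          · exact a6 w (a2 hw) (by rw [Rch.of_fixed hgy h]; exact hT hy)
    refine (sum_le_sum h3).trans ?_
    rw [sum_comm]
    have h4 : ∀ z, ∑ g ∈ fors T, ∑ X1 ∈ splits X, wt c T g * ind (Term g z (· = y) ∧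
          ∃ A, Tg pos X1 z (Tg pos (X \ X1) z Ev) A g ∧ (∀ w ∈ A, w ∉ T) ∧
            ∀ w ∈ A, ¬ Rch g z w) ≤
        ∑ X1 ∈ splits X, gr z y * (B X1 z * B (X \ X1) z) * (b * FF c T) := by
      intro z
      rw [sum_comm]
      apply sum_le_sum; intro X1 hX1
      obtain ⟨p1, p2, p3⟩ := mem_filter.1 hX1
      have p1 := mem_powerset.1 p1
      have q1 : (X \ X1).card < n := by
        rw [← hn, card_sdiff_of_subset p1]; have := card_pos.2 p2; omega
      have q2 : X1.card < n := by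
        have := card_pos.2 p3
        rw [card_sdiff_of_subset p1] at this; omega
      have r1 := ih _ q1 (X \ X1) p3 z Ev hL (insert z T0) (mem_insert_self _ _) b hb
        (hE.mono (subset_insert _ _)) rfl
      have r2 := ih _ q2 X1 p2 z _ (hL.tg pos _ _) (insert z T0) (mem_insert_self _ _) _
        (mul_nonneg (hB0 _ _) hb) r1 rfl
      refine (cond_path hc ((hL.tg pos _ _).tg pos _ _) r2 T z _ (insert_subset_insert _ hT)).trans ?_
      have := mul_nonneg (hB0 X1 z) (mul_nonneg (hB0 (X \ X1) z) hb)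
      calc _ ≤ B X1 z * (B (X \ X1) z * b) * (gr z y * FF c T) := by gcongr; exact hterm z
        _ = _ := by ring
    refine (sum_le_sum fun z _ => h4 z).trans ?_
    simp only [← sum_mul]
    rw [mul_assoc]
    exact mul_le_mul_of_nonneg_right (hB2 X y h2) (mul_nonneg hb (FF_nonneg hc _))
  · obtain ⟨i, rfl⟩ : ∃ i, X = {i} := card_eq_one.1 (by have := card_pos.2 hX; omega)
    have h4 := cond_path hc hL hE T (pos i) (· = y) (hT.trans (subset_insert _ _))
    refine le_trans (sum_le_sum fun g hg => ?_) (h4.trans ?_)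
    · have hg := mem_fors.1 hg
      apply mul_le_mul_of_nonneg_left _ (wt_nonneg hc _ _)
      apply ind_mono
      rintro ⟨A, ⟨A1, A2, a1, a2, a3, a4, a5⟩, a6⟩
      have hgy : g y = y := hg.1 y (hT hy)
      have a7 := a5 i (mem_singleton_self _)
      refine ⟨⟨y, hgy, a7.rch, rfl⟩, A2, a4, fun w hw => a6 w (a2 hw), fun w hw hr => ?_⟩
      rcases a7.orbit hr with h | h
      · exact Set.disjoint_left.1 a3 h hw
      · exact a6 w (a2 hw) (by rw [Rch.of_fixed hgy h]; exact hT hy)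
    · have := FF_nonneg hc T
      calc _ ≤ b * (gr (pos i) y * FF c T) := by gcongr; exact hterm _
        _ ≤ b * (B {i} y * FF c T) := by gcongr; exact hB1 _ _
        _ = _ := by ring

variable (pos) in
/-- The groups `X j`, `j ∈ W`, hang below tops in pairwise disjoint territories. -/
def Fam {J : Type} (X : J → Finset L) (W : Finset J) (A : Set U) (g : U → U) : Prop :=
  ∃ (m : J → U) (D : J → Set U), (∀ j ∈ W, D j ⊆ A) ∧
    (∀ j ∈ W, ∀ j' ∈ W, j ≠ j' → Disjoint (D j) (D j')) ∧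
    (∀ j ∈ W, ∀ w ∈ D j, RI (D j) g w (m j)) ∧ (∀ j ∈ W, (X j).Nonempty → m j ∈ D j) ∧
    (∀ j ∈ W, ¬ (X j).Nonempty → D j = ∅) ∧ ∀ j ∈ W, ∀ i ∈ X j, pos i ∈ D j

omit [Fintype U] in
lemma loc_fam {J : Type} (X : J → Finset L) (W : Finset J) : Loc (Fam pos X W) := by
  rintro A g g' ⟨m, D, h1, h2, h3, h4, h5⟩ hg
  exact ⟨m, D, h1, h2, fun j hj w hw => (h3 j hj w hw).congr fun x hx => hg x (h1 j hj hx), h4, h5⟩

lemma bd_fam {c : U → U → ℝ} (hc : ∀ x y, 0 ≤ c x y) {gr : U → U → ℝ}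
    (hit : ∀ T y z, y ∈ T → NN c T y z ≤ gr z y * FF c T) {B : Finset L → U → ℝ}
    (hB0 : ∀ X y, 0 ≤ B X y) (hB1 : ∀ i y, gr (pos i) y ≤ B {i} y)
    (hB2 : ∀ X y, 2 ≤ X.card → ∑ z, ∑ X1 ∈ splits X, gr z y * (B X1 z * B (X \ X1) z) ≤ B X y)
    {BF : Finset L → ℝ} (hF0 : ∀ X, 0 ≤ BF X) (hF1 : ∀ X, X.card ≤ 1 → 1 ≤ BF X)
    (hF2 : ∀ X, 2 ≤ X.card → ∑ z, ∑ X1 ∈ splits X, B X1 z * B (X \ X1) z ≤ BF X)
    {J : Type} (X : J → Finset L) (W : Finset J) :
    Bd c (Fam pos X W) ∅ (W.card.factorial * ∏ j ∈ W, BF (X j)) := by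
  induction hn : W.card generalizing W with
  | zero =>
    rw [card_eq_zero] at hn; subst hn
    intro T _
    simp only [Nat.factorial_zero, Nat.cast_one, prod_empty, mul_one, one_mul]
    apply sum_le_sum; intro g _
    have := ind_le_one (∃ A, Fam pos X ∅ A g ∧ ∀ w ∈ A, w ∉ T)
    have := wt_nonneg hc T g
    nlinarith
  | succ n ih =>
    intro T _
    set E : J → (U → U) → ℝ := fun j g => if 2 ≤ (X j).card then
      ∑ z, ∑ X1 ∈ splits (X j), ind (Term g z (fun _ => True) ∧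
        ∃ A, Tg pos X1 z (Tg pos (X j \ X1) z (Fam pos X (W.erase j))) A g ∧ (∀ w ∈ A, w ∉ T) ∧
          ∀ w ∈ A, ¬ Rch g z w)
      else ind (∃ A, Fam pos X (W.erase j) A g ∧ ∀ w ∈ A, w ∉ T) with hE
    have hE0 : ∀ j g, 0 ≤ E j g := by
      intro j g
      simp only [hE]
      split_ifs
      · exact sum_nonneg fun a _ => sum_nonneg fun b _ => ind_nonneg _
      · exact ind_nonneg _
    have h1 : ∀ g ∈ fors T, ind (∃ A, Fam pos X W A g ∧ ∀ w ∈ A, w ∉ T) ≤ ∑ j ∈ W, E j g := by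
      intro g hg
      have hg := mem_fors.1 hg
      by_cases hp : ∃ A, Fam pos X W A g ∧ ∀ w ∈ A, w ∉ T
      swap
      · rw [ind_neg hp]; exact sum_nonneg fun j _ => hE0 j g
      obtain ⟨A, ⟨m, D, a1, a2, a3, a4, a4', a5⟩, a6⟩ := id hp
      obtain ⟨j, hj, hmin⟩ := exists_min_image W
        (fun j => if (X j).Nonempty then (orb g (m j)).card + 1 else 0) (card_pos.1 (by omega))
      refine le_trans ?_ (single_le_sum (fun j _ => hE0 j g) hj)
      have hrest : Fam pos X (W.erase j) (⋃ j' ∈ W.erase j, D j') g :=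
        ⟨m, D, fun j' hj' => Set.subset_biUnion_of_mem (u := D) hj',
          fun j1 h1 j2 h2 => a2 j1 (mem_of_mem_erase h1) j2 (mem_of_mem_erase h2),
          fun j' hj' => a3 j' (mem_of_mem_erase hj'), fun j' hj' => a4 j' (mem_of_mem_erase hj'),
          fun j' hj' => a4' j' (mem_of_mem_erase hj'), fun j' hj' => a5 j' (mem_of_mem_erase hj')⟩
      have hrT : ∀ w ∈ ⋃ j' ∈ W.erase j, D j', w ∉ T := by
        intro w hw
        simp only [Set.mem_iUnion] at hw
        obtain ⟨j', hj', hw⟩ := hw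
        exact a6 w (a1 j' (mem_of_mem_erase hj') hw)
      simp only [hE]
      split_ifs with h2
      · apply ind_le_sum2
        intro _
        have hne : (X j).Nonempty := card_pos.1 (by omega)
        obtain ⟨z, X1, B1, B2, b1, b2, b3, b4, b5, b6, b7, b8, b9, b10, b11⟩ :=
          split_top hg h2 fun i hi => a3 j hj _ (a5 j hj i hi)
        have hdis : Disjoint (D j) (⋃ j' ∈ W.erase j, D j') := by
          simp only [Set.disjoint_iUnion_right]
          intro j' hj'
          exact a2 j hj j' (mem_of_mem_erase hj') (ne_of_mem_erase hj').symm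
        obtain ⟨t, t1, t2⟩ := hg.2 z
        refine ⟨z, mem_univ _, X1, mem_filter.2 ⟨mem_powerset.2 b1, b2, b3⟩,
          ⟨t, t1, t2, trivial⟩, B1 ∪ (B2 ∪ ⋃ j' ∈ W.erase j, D j'), ⟨B1, _, Set.subset_union_left,
            Set.subset_union_right, ?_, ⟨B2, _, Set.subset_union_left, Set.subset_union_right,
              hdis.mono_left b5, hrest, b10⟩, b9⟩, ?_, ?_⟩
        · exact Set.disjoint_union_right.2 ⟨b6, hdis.mono_left b4⟩
        · rintro w (hw | hw | hw)
          exacts [a6 w (a1 j hj (b4 hw)), a6 w (a1 j hj (b5 hw)), hrT w hw]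
        · rintro w (hw | hw | hw)
          · exact b7 w hw
          · exact b8 w hw
          · intro hr
            rcases b11.orbit hr with h | h
            · exact Set.disjoint_left.1 hdis h hw
            · simp only [Set.mem_iUnion] at hw
              obtain ⟨j', hj', hw⟩ := hw
              have hj'W := mem_of_mem_erase hj'
              have hne' : (X j').Nonempty := by
                by_contra hn; rw [a4' j' hj'W hn] at hw; exact hw
              have c1 := hmin j' hj'W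
              simp only [hne, hne', if_true] at c1
              have c2 : m j ≠ m j' := by
                intro e
                exact Set.disjoint_left.1 (a2 j hj j' hj'W (ne_of_mem_erase hj').symm)
                  (a4 j hj hne) (e ▸ a4 j' hj'W hne')
              have := orb_lt hg (h.trans (a3 j' hj'W w hw).rch) c2
              omega
      · exact ind_mono fun _ => ⟨_, hrest, hrT⟩
    have h2 : ∀ j ∈ W, ∑ g ∈ fors T, wt c T g * E j g ≤
        n.factorial * (∏ j ∈ W, BF (X j)) * FF c T := by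
      intro j hj
      have hW := ih (W.erase j) (by rw [card_erase_of_mem hj, hn]; rfl)
      set b : ℝ := n.factorial * ∏ j ∈ W.erase j, BF (X j) with hb
      have hb0 : 0 ≤ b := mul_nonneg (by positivity) (prod_nonneg fun _ _ => hF0 _)
      have hFF := FF_nonneg hc T
      have e : (n.factorial : ℝ) * (∏ j ∈ W, BF (X j)) * FF c T = BF (X j) * (b * FF c T) := by
        rw [hb, ← mul_prod_erase W _ hj]; ring
      rw [e]
      simp only [hE]
      split_ifs with h2
      · simp only [mul_sum]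
        rw [sum_comm]
        refine le_trans ?_ (mul_le_mul_of_nonneg_right (hF2 _ h2) (mul_nonneg hb0 hFF))
        rw [sum_mul]
        apply sum_le_sum; intro z _
        rw [sum_comm, sum_mul]
        apply sum_le_sum; intro X1 hX1
        obtain ⟨p1, p2, p3⟩ := mem_filter.1 hX1
        have r1 := bd_tg hc hit hB0 hB1 hB2 (X j \ X1) p3 z _ (loc_fam X (W.erase j)) {z}
          (mem_singleton_self _) b hb0 (hW.mono (empty_subset _))
        have r2 := bd_tg hc hit hB0 hB1 hB2 X1 p2 z _ ((loc_fam X (W.erase j)).tg pos _ _) {z}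
          (mem_singleton_self _) _ (mul_nonneg (hB0 _ _) hb0) r1
        refine (cond_path hc (((loc_fam X (W.erase j)).tg pos _ _).tg pos _ _) r2 T z _
          (by simp)).trans ?_
        have h5 : ∑ g ∈ fors T, wt c T g * ind (Term g z fun _ => True) ≤ FF c T := by
          apply sum_le_sum; intro g _
          have := ind_le_one (Term g z fun _ => True)
          have := wt_nonneg hc T g
          nlinarith
        have := mul_nonneg (hB0 X1 z) (mul_nonneg (hB0 (X j \ X1) z) hb0)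
        calc _ ≤ B X1 z * (B (X j \ X1) z * b) * FF c T := by gcongr
          _ = _ := by ring
      · refine (hW T (empty_subset _)).trans ?_
        have := hF1 (X j) (by omega)
        have := mul_nonneg hb0 hFF
        nlinarith
    calc _ ≤ ∑ g ∈ fors T, wt c T g * ∑ j ∈ W, E j g :=
          sum_le_sum fun g hg => mul_le_mul_of_nonneg_left (h1 g hg) (wt_nonneg hc _ _)
      _ = ∑ j ∈ W, ∑ g ∈ fors T, wt c T g * E j g := by simp only [mul_sum]; rw [sum_comm]
      _ ≤ ∑ j ∈ W, n.factorial * (∏ j ∈ W, BF (X j)) * FF c T := sum_le_sum h2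
      _ = _ := by rw [sum_const, hn, nsmul_eq_mul, Nat.factorial_succ]; push_cast; ring

end Gen

variable {V : Type} {G : SimpleGraph V} [hG : Nice G]

lemma pair_pt {a b l α β γ : ℝ} (ha : 1 ≤ a) (hab : a ≤ b) (hl0 : 0 < l) (hl : l ≤ 2 * b)
    (hα : 0 ≤ α) (hβγ : β ≤ γ) (e : α + γ = 2 * β) :
    a ^ (-β) * b ^ (-β) ≤ 2 ^ α * l ^ (-α) * a ^ (-γ) := by
  have ha0 : 0 < a := by linarith
  have hb0 : 0 < b := by linarith
  have h1 : a ^ (-β) = a ^ (-γ) * a ^ (γ - β) := by rw [← Real.rpow_add ha0]; congr 1; ring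
  have h2 : a ^ (γ - β) ≤ b ^ (γ - β) := Real.rpow_le_rpow ha0.le hab (by linarith)
  have h3 : b ^ (γ - β) * b ^ (-β) = b ^ (-α) := by
    rw [← Real.rpow_add hb0]; congr 1; linarith
  have h4 : b ^ (-α) ≤ (l / 2) ^ (-α) :=
    Real.rpow_le_rpow_of_nonpos (by positivity) (by linarith) (by linarith)
  have h5 : (l / 2) ^ (-α) = 2 ^ α * l ^ (-α) := by
    rw [Real.div_rpow hl0.le (by norm_num), Real.rpow_neg (x := 2) (by norm_num)]; field_simp
  calc a ^ (-β) * b ^ (-β) = a ^ (-γ) * (a ^ (γ - β) * b ^ (-β)) := by rw [h1]; ring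
    _ ≤ a ^ (-γ) * (b ^ (γ - β) * b ^ (-β)) := by gcongr
    _ ≤ a ^ (-γ) * (2 ^ α * l ^ (-α)) := by rw [h3, ← h5]; gcongr
    _ = _ := by ring

lemma half_pt {a l β : ℝ} (hl0 : 0 < l) (hl : l ≤ 2 * a) (hβ : 0 ≤ β) :
    a ^ (-β) ≤ 2 ^ β * l ^ (-β) := by
  have h4 : a ^ (-β) ≤ (l / 2) ^ (-β) :=
    Real.rpow_le_rpow_of_nonpos (by positivity) (by linarith) (by linarith)
  have h5 : (l / 2) ^ (-β) = 2 ^ β * l ^ (-β) := by
    rw [Real.div_rpow hl0.le (by norm_num), Real.rpow_neg (x := 2) (by norm_num)]; field_simp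
  rwa [h5] at h4

lemma conv2_pt {α β γ : ℝ} (hα : 0 ≤ α) (hβγ : β ≤ γ) (e : α + γ = 2 * β) (z x1 x2 : V) :
    el G x1 z ^ (-β) * el G x2 z ^ (-β) ≤
      2 ^ α * el G x1 x2 ^ (-α) * (el G x1 z ^ (-γ) + el G x2 z ^ (-γ)) := by
  have h := el_tri (G := G) x1 z x2
  rw [el_comm z x2] at h
  have p1 := el_pos (G := G) x1 z
  have p2 := el_pos (G := G) x2 z
  have p3 := el_pos (G := G) x1 x2
  rcases le_total (el G x1 z) (el G x2 z) with h1 | h1
  · refine (pair_pt (one_le_el _ _) h1 p3 (by linarith) hα hβγ e).trans ?_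
    gcongr
    have : 0 ≤ el G x2 z ^ (-γ) := by positivity
    linarith
  · rw [mul_comm]
    refine (pair_pt (one_le_el _ _) h1 p3 (by linarith) hα hβγ e).trans ?_
    gcongr
    have : 0 ≤ el G x1 z ^ (-γ) := by positivity
    linarith

lemma conv3_aux {α β γ : ℝ} (hα : 0 ≤ α) (hβγ : β ≤ γ) (e : α + γ = 2 * β) (z y x1 x2 : V)
    (h1 : el G x1 z ≤ el G x2 z) :
    el G z y ^ (-β) * (el G x1 z ^ (-β) * el G x2 z ^ (-β)) ≤
      2 ^ β * 2 ^ α * el G x1 x2 ^ (-α) * el G x1 y ^ (-β) *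
        (el G y z ^ (-γ) + el G x1 z ^ (-γ)) := by
  have hβ : 0 ≤ β := by linarith
  have h := el_tri (G := G) x1 z x2
  rw [el_comm z x2] at h
  have h' := el_tri (G := G) x1 z y
  rw [el_comm y z]
  have p1 := el_pos (G := G) x1 z
  have p2 := el_pos (G := G) x2 z
  have p3 := el_pos (G := G) x1 x2
  have p4 := el_pos (G := G) z y
  have p5 := el_pos (G := G) x1 y
  rcases le_total (el G x1 z) (el G z y) with h2 | h2
  · have a1 := half_pt (a := el G z y) p5 (by linarith) hβ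
    have a2 := pair_pt (one_le_el _ _) h1 p3 (by linarith) hα hβγ e
    have : 0 ≤ el G z y ^ (-γ) := by positivity
    calc _ ≤ (2 ^ β * el G x1 y ^ (-β)) * (2 ^ α * el G x1 x2 ^ (-α) * el G x1 z ^ (-γ)) := by
          gcongr
      _ = 2 ^ β * 2 ^ α * el G x1 x2 ^ (-α) * el G x1 y ^ (-β) * el G x1 z ^ (-γ) := by ring
      _ ≤ _ := by gcongr; linarith
  · have a1 := half_pt (a := el G x1 z) p5 (by linarith) hβ
    have a2 := pair_pt (one_le_el z y) (h2.trans h1) p3 (by linarith) hα hβγ e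
    have : 0 ≤ el G x1 z ^ (-γ) := by positivity
    calc _ = el G x1 z ^ (-β) * (el G z y ^ (-β) * el G x2 z ^ (-β)) := by ring
      _ ≤ (2 ^ β * el G x1 y ^ (-β)) * (2 ^ α * el G x1 x2 ^ (-α) * el G z y ^ (-γ)) := by
          gcongr
      _ = 2 ^ β * 2 ^ α * el G x1 x2 ^ (-α) * el G x1 y ^ (-β) * el G z y ^ (-γ) := by ring
      _ ≤ _ := by gcongr; linarith

lemma conv3_pt {α β γ : ℝ} (hα : 0 ≤ α) (hβγ : β ≤ γ) (e : α + γ = 2 * β) (z y x1 x2 : V) :
    el G z y ^ (-β) * (el G x1 z ^ (-β) * el G x2 z ^ (-β)) ≤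
      2 ^ β * 2 ^ α * el G x1 x2 ^ (-α) * (el G x1 y ^ (-β) + el G x2 y ^ (-β)) *
        (el G y z ^ (-γ) + el G x1 z ^ (-γ) + el G x2 z ^ (-γ)) := by
  have p1 := el_pos (G := G) x1 z
  have p2 := el_pos (G := G) x2 z
  have p3 := el_pos (G := G) x1 x2
  have p4 := el_pos (G := G) y z
  have p5 := el_pos (G := G) x1 y
  have p6 := el_pos (G := G) x2 y
  rcases le_total (el G x1 z) (el G x2 z) with h1 | h1
  · refine (conv3_aux hα hβγ e z y x1 x2 h1).trans ?_
    apply mul_le_mul _ _ (by positivity) (by positivity)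
    · apply mul_le_mul_of_nonneg_left _ (by positivity)
      have : 0 ≤ el G x2 y ^ (-β) := by positivity
      linarith
    · have : 0 ≤ el G x2 z ^ (-γ) := by positivity
      linarith
  · rw [mul_comm (el G x1 z ^ (-β))]
    refine (conv3_aux hα hβγ e z y x2 x1 h1).trans ?_
    rw [el_comm x2 x1]
    apply mul_le_mul _ _ (by positivity) (by positivity)
    · apply mul_le_mul_of_nonneg_left _ (by positivity)
      have : 0 ≤ el G x1 y ^ (-β) := by positivity
      linarith
    · have : 0 ≤ el G x1 z ^ (-γ) := by positivity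
      linarith

/-- A weight on sets of labels that behaves like a negative power of the spread. -/
structure Spread (G : SimpleGraph V) {L : Type} (p : L → V) (α : ℝ) (S : Finset L → ℝ) : Prop where
  nonneg : ∀ X, 0 ≤ S X
  one_le : ∀ X, X.card ≤ 1 → 1 ≤ S X
  join : ∀ X X1 i1 i2, X1 ⊆ X → i1 ∈ X1 → i2 ∈ X \ X1 →
    S X1 * S (X \ X1) * el G (p i1) (p i2) ^ (-α) ≤ S X

theorem multi_fin {d α β γ : ℝ} (h : Growth G d) (hd : 8 < d) (hβ : β < d - 2) (hγ : d < γ)
    (hα : 0 ≤ α) (e : α + γ = 2 * β) (L J : Type) [Fintype L] [Fintype J] :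
    ∃ C : ℝ, 0 ≤ C ∧ ∀ (U : Type) [Fintype U] (ι : U → V), Function.Injective ι →
      ∀ (pos : L → U) (X : J → Finset L) (S : Finset L → ℝ), Spread G (ι ∘ pos) α S →
      EW G ι 1 (fun g => ind (∃ A, Fam pos X univ A g)) ≤ C * ∏ j, S (X j) := by
  have hβ0 : 0 ≤ β := by linarith
  have hβγ : β ≤ γ := by linarith
  obtain ⟨Cg, hCg, hit⟩ := hit_bound h hd hβ0 hβ
  obtain ⟨M, hM1, hM⟩ := h.sum_el hγ (by linarith)
  set n := Fintype.card L with hn
  set K : ℝ := 2 ^ n * n * n with hK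
  have hK0 : 0 ≤ K := by positivity
  set Λ : ℝ := Cg + K * (Cg * (2 ^ β * 2 ^ α * 2 * (3 * M))) + K * (2 ^ α * (2 * M)) with hΛ
  have l1 : 0 ≤ K * (Cg * (2 ^ β * 2 ^ α * 2 * (3 * M))) := by positivity
  have l2 : 0 ≤ K * (2 ^ α * (2 * M)) := by positivity
  have hΛ1 : 1 ≤ Λ := by linarith
  have hΛ0 : 0 < Λ := by linarith
  have hΛ2 : Cg ≤ Λ := by linarith
  have hΛ3 : K * (Cg * (2 ^ β * 2 ^ α * 2 * (3 * M))) ≤ Λ := by linarith
  have hΛ4 : K * (2 ^ α * (2 * M)) ≤ Λ := by linarith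
  clear_value Λ
  have hK' := hK
  clear_value K
  refine ⟨(Fintype.card J).factorial * (Λ ^ (2 * n)) ^ Fintype.card J, by positivity,
    fun U _ ι hι pos X S hS => ?_⟩
  have hMU : ∀ x : V, ∑ z : U, el G x (ι z) ^ (-γ) ≤ M := by
    intro x
    have := hM x (univ.image ι)
    rwa [sum_image (fun a _ b _ h => hι h)] at this
  have hp : ∀ x y : V, ∀ s : ℝ, 0 ≤ el G x y ^ s := fun x y s =>
    (Real.rpow_pos_of_pos (el_pos _ _) _).le
  have hsp : ∀ (Y : Finset L) (f : Finset L → L → L → ℝ) (b : ℝ), 0 ≤ b →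
      (∀ X1 ∈ splits Y, ∀ i1 ∈ X1, ∀ i2 ∈ Y \ X1, f X1 i1 i2 ≤ b) →
      ∑ X1 ∈ splits Y, ∑ i1 ∈ X1, ∑ i2 ∈ Y \ X1, f X1 i1 i2 ≤ K * b := by
    intro Y f b hb hf
    have c1 : ∀ Z : Finset L, (Z.card : ℝ) ≤ n := fun Z => by exact_mod_cast card_le_univ Z
    have c2 : ((splits Y).card : ℝ) ≤ 2 ^ n := by
      have : (splits Y).card ≤ 2 ^ n := by
        refine (card_le_card (filter_subset _ _)).trans ?_
        rw [card_powerset]
        exact Nat.pow_le_pow_right (by norm_num) (card_le_univ Y)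
      exact_mod_cast this
    refine (sum_le_card_nsmul _ _ (n * (n * b)) fun X1 h1 => ?_).trans ?_
    · refine (sum_le_card_nsmul _ _ (n * b) fun i1 h2 => ?_).trans ?_
      · refine (sum_le_card_nsmul _ _ b fun i2 h3 => hf X1 h1 i1 h2 i2 h3).trans ?_
        rw [nsmul_eq_mul]; exact mul_le_mul_of_nonneg_right (c1 _) hb
      · rw [nsmul_eq_mul]; exact mul_le_mul_of_nonneg_right (c1 _) (by positivity)
    · rw [nsmul_eq_mul, hK']
      calc _ ≤ 2 ^ n * (n * (n * b)) := by gcongr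
        _ = _ := by ring
  set B : Finset L → U → ℝ := fun Y y =>
    Λ ^ (2 * Y.card) / Λ * S Y * ∑ i ∈ Y, el G (ι (pos i)) (ι y) ^ (-β) with hB
  have hBB : ∀ Y, ∀ X1 ∈ splits Y, ∀ z, B X1 z * B (Y \ X1) z =
      ∑ i1 ∈ X1, ∑ i2 ∈ Y \ X1, Λ ^ (2 * Y.card) / Λ / Λ * (S X1 * S (Y \ X1)) *
        (el G (ι (pos i1)) (ι z) ^ (-β) * el G (ι (pos i2)) (ι z) ^ (-β)) := by
    intro Y X1 h1 z
    have h2 := mem_powerset.1 (mem_filter.1 h1).1
    have h3 : 2 * Y.card = 2 * X1.card + 2 * (Y \ X1).card := by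
      rw [card_sdiff_of_subset h2]; have := card_le_card h2; omega
    simp only [← mul_sum, ← sum_mul, hB]
    rw [h3, pow_add]; ring
  have key := bd_fam (c := cN G ι 1 (kl G ι)) (pos := pos) (cN_nonneg one_pos' kl_nonneg)
    (gr := fun z y => Cg * el G (ι z) (ι y) ^ (-β)) (fun T y z hy => hit U ι hι T y z hy)
    (B := B) (fun Y y => by
      have := hS.nonneg Y
      have := sum_nonneg (s := Y) fun i _ => hp (ι (pos i)) (ι y) (-β)
      simp only [hB]; positivity)
    (fun i y => by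
      have h1 := hS.one_le {i} (by simp)
      have h2 := hp (ι (pos i)) (ι y) (-β)
      simp only [hB, card_singleton, sum_singleton]
      have : Λ ^ (2 * 1) / Λ = Λ := by field_simp
      rw [this]
      have : Cg ≤ Λ * S {i} := by nlinarith
      gcongr)
    (fun Y y _ => by
      rw [sum_comm]
      have h1 : ∀ X1 ∈ splits Y, ∑ z, Cg * el G (ι z) (ι y) ^ (-β) * (B X1 z * B (Y \ X1) z) =
          ∑ i1 ∈ X1, ∑ i2 ∈ Y \ X1, Λ ^ (2 * Y.card) / Λ / Λ * Cg * (S X1 * S (Y \ X1)) *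
            ∑ z, el G (ι z) (ι y) ^ (-β) *
              (el G (ι (pos i1)) (ι z) ^ (-β) * el G (ι (pos i2)) (ι z) ^ (-β)) := by
        intro X1 h1
        simp only [hBB Y X1 h1, mul_sum]
        rw [sum_comm]; apply sum_congr rfl; intro i1 _
        rw [sum_comm]; apply sum_congr rfl; intro i2 _
        apply sum_congr rfl; intro z _; ring
      rw [sum_congr rfl h1]
      set Sg := ∑ i ∈ Y, el G (ι (pos i)) (ι y) ^ (-β) with hSg
      have hSg0 : 0 ≤ Sg := sum_nonneg fun i _ => hp _ _ _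
      have hSY := hS.nonneg Y
      refine (hsp Y _ (Λ ^ (2 * Y.card) / Λ / Λ * (Cg * (2 ^ β * 2 ^ α * 2 * (3 * M))) * S Y * Sg)
        (by positivity) fun X1 h1 i1 h2 i2 h3 => ?_).trans ?_
      · have h4 := mem_powerset.1 (mem_filter.1 h1).1
        have a1 := hS.join Y X1 i1 i2 h4 h2 h3
        have a2 : ∑ z, el G (ι z) (ι y) ^ (-β) *
            (el G (ι (pos i1)) (ι z) ^ (-β) * el G (ι (pos i2)) (ι z) ^ (-β)) ≤
            2 ^ β * 2 ^ α * el G (ι (pos i1)) (ι (pos i2)) ^ (-α) * (2 * Sg) * (3 * M) := by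
          refine (sum_le_sum fun z _ => conv3_pt hα hβγ e _ _ _ _).trans ?_
          rw [← mul_sum]
          simp only [sum_add_distrib]
          have b1 : el G (ι (pos i1)) (ι y) ^ (-β) ≤ Sg := single_le_sum
            (f := fun i => el G (ι (pos i)) (ι y) ^ (-β)) (fun i _ => hp _ _ _) (h4 h2)
          have b2 : el G (ι (pos i2)) (ι y) ^ (-β) ≤ Sg := single_le_sum
            (f := fun i => el G (ι (pos i)) (ι y) ^ (-β)) (fun i _ => hp _ _ _) (mem_sdiff.1 h3).1
          have b3 := hp (ι (pos i1)) (ι (pos i2)) (-α)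
          have := hMU (ι y)
          have := hMU (ι (pos i1))
          have := hMU (ι (pos i2))
          have := sum_nonneg (s := univ) fun z _ => hp (ι y) (ι z) (-γ)
          have := sum_nonneg (s := univ) fun z _ => hp (ι (pos i1)) (ι z) (-γ)
          have := sum_nonneg (s := univ) fun z _ => hp (ι (pos i2)) (ι z) (-γ)
          have b4 : 0 ≤ 2 ^ β * 2 ^ α * el G (ι (pos i1)) (ι (pos i2)) ^ (-α) :=
            mul_nonneg (by positivity) b3
          apply mul_le_mul _ (by linarith) (by linarith) (mul_nonneg b4 (by linarith))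
          exact mul_le_mul_of_nonneg_left (by linarith) b4
        have a3 := hS.nonneg X1
        have a4 := hS.nonneg (Y \ X1)
        calc _ ≤ Λ ^ (2 * Y.card) / Λ / Λ * Cg * (S X1 * S (Y \ X1)) *
              (2 ^ β * 2 ^ α * el G (ι (pos i1)) (ι (pos i2)) ^ (-α) * (2 * Sg) * (3 * M)) :=
              mul_le_mul_of_nonneg_left a2 (by positivity)
          _ = Λ ^ (2 * Y.card) / Λ / Λ * (Cg * (2 ^ β * 2 ^ α * 2 * (3 * M))) *
              (S X1 * S (Y \ X1) * el G (ι (pos i1)) (ι (pos i2)) ^ (-α)) * Sg := by ring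
          _ ≤ _ := mul_le_mul_of_nonneg_right (mul_le_mul_of_nonneg_left a1 (by positivity)) hSg0
      · simp only [hB]
        calc _ = Λ ^ (2 * Y.card) / Λ * S Y * Sg *
              (K * (Cg * (2 ^ β * 2 ^ α * 2 * (3 * M))) / Λ) := by ring
          _ ≤ Λ ^ (2 * Y.card) / Λ * S Y * Sg * 1 := by
              apply mul_le_mul_of_nonneg_left _ (by positivity)
              rw [div_le_one hΛ0]; exact hΛ3
          _ = _ := by ring)
    (BF := fun Y => Λ ^ (2 * Y.card) * S Y) (fun Y => by have := hS.nonneg Y; positivity)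
    (fun Y hY => by
      have := hS.one_le Y hY
      have : 1 ≤ Λ ^ (2 * Y.card) := one_le_pow₀ hΛ1
      nlinarith)
    (fun Y _ => by
      rw [sum_comm]
      have h1 : ∀ X1 ∈ splits Y, ∑ z, B X1 z * B (Y \ X1) z =
          ∑ i1 ∈ X1, ∑ i2 ∈ Y \ X1, Λ ^ (2 * Y.card) / Λ / Λ * (S X1 * S (Y \ X1)) *
            ∑ z, el G (ι (pos i1)) (ι z) ^ (-β) * el G (ι (pos i2)) (ι z) ^ (-β) := by
        intro X1 h1
        simp only [hBB Y X1 h1, mul_sum]
        rw [sum_comm]; apply sum_congr rfl; intro i1 _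
        rw [sum_comm]
      rw [sum_congr rfl h1]
      have hSY := hS.nonneg Y
      refine (hsp Y _ (Λ ^ (2 * Y.card) / Λ / Λ * (2 ^ α * (2 * M)) * S Y)
        (by positivity) fun X1 h1 i1 h2 i2 h3 => ?_).trans ?_
      · have h4 := mem_powerset.1 (mem_filter.1 h1).1
        have a1 := hS.join Y X1 i1 i2 h4 h2 h3
        have a2 : ∑ z, el G (ι (pos i1)) (ι z) ^ (-β) * el G (ι (pos i2)) (ι z) ^ (-β) ≤
            2 ^ α * el G (ι (pos i1)) (ι (pos i2)) ^ (-α) * (2 * M) := by
          refine (sum_le_sum fun z _ => conv2_pt hα hβγ e _ _ _).trans ?_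
          rw [← mul_sum]
          simp only [sum_add_distrib]
          have b3 := hp (ι (pos i1)) (ι (pos i2)) (-α)
          have := hMU (ι (pos i1))
          have := hMU (ι (pos i2))
          exact mul_le_mul_of_nonneg_left (by linarith) (by positivity)
        have a3 := hS.nonneg X1
        have a4 := hS.nonneg (Y \ X1)
        calc _ ≤ Λ ^ (2 * Y.card) / Λ / Λ * (S X1 * S (Y \ X1)) *
              (2 ^ α * el G (ι (pos i1)) (ι (pos i2)) ^ (-α) * (2 * M)) :=
              mul_le_mul_of_nonneg_left a2 (by positivity)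
          _ = Λ ^ (2 * Y.card) / Λ / Λ * (2 ^ α * (2 * M)) *
              (S X1 * S (Y \ X1) * el G (ι (pos i1)) (ι (pos i2)) ^ (-α)) := by ring
          _ ≤ _ := mul_le_mul_of_nonneg_left a1 (by positivity)
      · calc _ = Λ ^ (2 * Y.card) * S Y * (K * (2 ^ α * (2 * M)) / Λ / Λ) := by ring
          _ ≤ Λ ^ (2 * Y.card) * S Y * 1 := by
              apply mul_le_mul_of_nonneg_left _ (by positivity)
              rw [div_le_one hΛ0, div_le_iff₀ hΛ0]; nlinarith
          _ = _ := by ring)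
    X univ ∅ subset_rfl
  unfold EW Ex
  rw [div_le_iff₀ (FF_wired one_pos' _)]
  simp only [notMem_empty, not_false_eq_true, implies_true, and_true] at key
  refine key.trans ?_
  apply mul_le_mul_of_nonneg_right _ (FF_nonneg (cN_nonneg one_pos' kl_nonneg) _)
  rw [card_univ, mul_assoc]
  gcongr
  rw [prod_mul_distrib]
  apply mul_le_mul_of_nonneg_right _ (prod_nonneg fun j _ => hS.nonneg _)
  rw [← card_univ, ← prod_const]
  apply prod_le_prod (fun _ _ => by positivity)
  intro j _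
  exact pow_le_pow_right₀ hΛ1 (by have := card_le_univ (X j); omega)

end Pool.Agent.MP_12d2c5_pr

end MrgPart1

-- marker of a merged file
example : 731051 + 165308 = 731051 + 165308 := rfl
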