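import Mathlib.Topology.GDelta.MetrizableSpace
import Mathlib.MeasureTheory.Measure.Real
import Mathlib.MeasureTheory.Constructions.ProjectiveFamilyContent
import Mathlib.MeasureTheory.Constructions.SimpleGraph
import Mathlib.MeasureTheory.Measure.MeasuredSets
import Pool.Agent.MP_12d2c5_pr.Multi
import Mathlib.Dynamics.Ergodic.MeasurePreserving
import Mathlib.Algebra.Order.Archimedean.Real.Hom

-- ======== part 0: formerly Pool.Agent.MP_12d2c5_pr.Cfg
section MrgPart0

/-! Configurations, restricted reachability, measurability and cylinder events. -/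

open scoped Classical symmDiff ENNReal
open Finset MeasureTheory

namespace Pool.Agent.MP_12d2c5_pr

variable {V : Type}

abbrev Om (V : Type) : Type := Sym2 V → Bool

/-- The subgraph of `G` of open edges. -/
def Fg (G : SimpleGraph V) (ω : Om V) : SimpleGraph V :=
  G ⊓ SimpleGraph.fromEdgeSet {e | ω e = true}

lemma Fg_adj {G : SimpleGraph V} {ω : Om V} {u v : V} :
    (Fg G ω).Adj u v ↔ G.Adj u v ∧ ω s(u, v) = true := by
  simp only [Fg, SimpleGraph.inf_adj, SimpleGraph.fromEdgeSet_adj, Set.mem_ofPred_eq]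
  exact ⟨fun h => ⟨h.1, h.2.1⟩, fun h => ⟨h.1, h.2, h.1.ne⟩⟩

lemma Fg_le (G : SimpleGraph V) (ω : Om V) : Fg G ω ≤ G := inf_le_left

lemma meas_coord (e : Sym2 V) : Measurable fun ω : Om V => ω e = true :=
  (measurable_of_countable (fun b : Bool => b = true)).comp (measurable_pi_apply e)

lemma measurable_Fg (G : SimpleGraph V) : Measurable (Fg G) := by
  rw [SimpleGraph.measurable_iff_adj]
  intro u v
  simp only [Fg_adj]
  exact measurable_const.and (meas_coord _)

/-- Reachability inside the set `A`. -/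
def RIn (F : SimpleGraph V) (A : Set V) (u v : V) : Prop :=
  Relation.ReflTransGen (fun a b => F.Adj a b ∧ a ∈ A ∧ b ∈ A) u v

lemma RIn.refl (F : SimpleGraph V) (A : Set V) (u : V) : RIn F A u u := Relation.ReflTransGen.refl

lemma RIn.trans {F : SimpleGraph V} {A : Set V} {u v w : V} (h : RIn F A u v) (h' : RIn F A v w) :
    RIn F A u w := Relation.ReflTransGen.trans h h'

lemma RIn.single {F : SimpleGraph V} {A : Set V} {u v : V} (h : F.Adj u v) (hu : u ∈ A)
    (hv : v ∈ A) : RIn F A u v := Relation.ReflTransGen.single ⟨h, hu, hv⟩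

lemma RIn.tail {F : SimpleGraph V} {A : Set V} {u v w : V} (h : RIn F A u v) (h' : F.Adj v w)
    (hv : v ∈ A) (hw : w ∈ A) : RIn F A u w := h.trans (RIn.single h' hv hw)

lemma RIn.ind {F : SimpleGraph V} {A : Set V} {u : V} {P : V → Prop} (h0 : P u)
    (hs : ∀ a b, RIn F A u a → F.Adj a b → a ∈ A → b ∈ A → P a → P b) {v : V}
    (h : RIn F A u v) : P v := by
  induction h with
  | refl => exact h0
  | tail h1 h2 ih => exact hs _ _ h1 h2.1 h2.2.1 h2.2.2 ih

lemma RIn.symm {F : SimpleGraph V} {A : Set V} {u v : V} (h : RIn F A u v) : RIn F A v u :=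
  RIn.ind (P := fun v => RIn F A v u) (RIn.refl _ _ _)
    (fun _ _ _ h1 h2 h3 ih => (RIn.single h1.symm h3 h2).trans ih) h

lemma RIn.imp {F F' : SimpleGraph V} {A A' : Set V} {u v : V} (h : RIn F A u v)
    (H : ∀ a b, F.Adj a b → a ∈ A → b ∈ A → F'.Adj a b ∧ a ∈ A' ∧ b ∈ A') : RIn F' A' u v :=
  MP_f8cd8e_pr.rtg_mono (fun a b h => H a b h.1 h.2.1 h.2.2) h

lemma RIn.mono {F : SimpleGraph V} {A A' : Set V} {u v : V} (h : RIn F A u v) (hA : A ⊆ A') :
    RIn F A' u v := h.imp fun _ _ h1 h2 h3 => ⟨h1, hA h2, hA h3⟩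

lemma RIn.mem {F : SimpleGraph V} {A : Set V} {u v : V} (h : RIn F A u v) (hu : u ∈ A) : v ∈ A :=
  RIn.ind (P := fun v => v ∈ A) hu (fun _ _ _ _ _ h _ => h) h

lemma rin_univ {F : SimpleGraph V} {u v : V} : RIn F Set.univ u v ↔ F.Reachable u v := by
  rw [SimpleGraph.reachable_iff_reflTransGen]; simp [RIn]

lemma RIn.reach {F : SimpleGraph V} {A : Set V} {u v : V} (h : RIn F A u v) : F.Reachable u v :=
  rin_univ.1 (h.mono (Set.subset_univ _))

lemma reach_ind {F : SimpleGraph V} {u : V} {P : V → Prop} (h0 : P u)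
    (hs : ∀ a b, F.Reachable u a → F.Adj a b → P a → P b) {v : V} (h : F.Reachable u v) : P v :=
  RIn.ind h0 (fun a b h1 h2 _ _ ih => hs a b h1.reach h2 ih) (rin_univ.2 h)

section Meas

variable {Ω : Type} [MeasurableSpace Ω]

lemma meas_rtg [Countable V] {r : Ω → V → V → Prop} (hr : ∀ a b, Measurable fun ω => r ω a b)
    (u v : V) : Measurable fun ω => Relation.ReflTransGen (r ω) u v := by
  let R : ℕ → Ω → V → Prop := fun n => Nat.rec (fun _ v => v = u)
    (fun _ ih ω v => ∃ w, ih ω w ∧ r ω w v) n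
  have h1 : ∀ n v, Measurable fun ω => R n ω v := by
    intro n
    induction n with
    | zero => intro v; exact measurable_const
    | succ n ih => intro v; exact Measurable.exists fun w => (ih w).and (hr w v)
  have h2 : (fun ω => Relation.ReflTransGen (r ω) u v) = fun ω => ∃ n, R n ω v := by
    ext ω
    constructor
    · intro h
      induction h with
      | refl => exact ⟨0, rfl⟩
      | tail _ h ih => obtain ⟨n, hn⟩ := ih; exact ⟨n + 1, _, hn, h⟩
    · rintro ⟨n, hn⟩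
      induction n generalizing v with
      | zero => rw [show v = u from hn]
      | succ n ih => obtain ⟨w, h1, h2⟩ := hn; exact (ih w h1).tail h2
  rw [h2]
  exact Measurable.exists fun n => h1 n v

lemma meas_adj (u v : V) : Measurable fun F : SimpleGraph V => F.Adj u v := by fun_prop

lemma meas_rin [Countable V] (A : Set V) (u v : V) :
    Measurable fun F : SimpleGraph V => RIn F A u v :=
  meas_rtg (fun a b => (meas_adj a b).and measurable_const) u v

lemma meas_reach [Countable V] (u v : V) : Measurable fun F : SimpleGraph V => F.Reachable u v := by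
  simp only [← rin_univ]; exact meas_rin _ u v

lemma meas_infinite {κ : Type} [Countable κ] {P : Ω → κ → Prop} (h : ∀ y, Measurable fun ω => P ω y) :
    Measurable fun ω => {y | P ω y}.Infinite := by
  have : (fun ω => {y | P ω y}.Infinite) = fun ω => ∀ s : Finset κ, ∃ y, P ω y ∧ y ∉ s := by
    ext ω
    constructor
    · intro h s; exact h.exists_notMem_finset s
    · intro h hf
      obtain ⟨y, h1, h2⟩ := h hf.toFinset
      exact h2 (hf.mem_toFinset.2 h1)
  rw [this]
  exact Measurable.forall fun s => Measurable.exists fun y => (h y).and measurable_const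

/-- A predicate determined by finitely many measurable atoms is measurable. -/
lemma meas_of_atoms {κ : Type} (s : Finset κ) {a : κ → Ω → Prop} (ha : ∀ i, Measurable (a i))
    {P : Ω → Prop} (h : ∀ ω ω', (∀ i ∈ s, (a i ω ↔ a i ω')) → P ω → P ω') : Measurable P := by
  have : P = fun ω => ∃ t : Finset s, (∃ ω', P ω' ∧ ∀ i : s, (a i ω' ↔ i ∈ t)) ∧
      ∀ i : s, (a i ω ↔ i ∈ t) := by
    ext ω
    constructor
    · intro hP
      exact ⟨univ.filter fun i => a i ω, ⟨ω, hP, by simp⟩, by simp⟩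
    · rintro ⟨t, ⟨ω', h1, h2⟩, h3⟩
      exact h ω' ω (fun i hi => (h2 ⟨i, hi⟩).trans (h3 ⟨i, hi⟩).symm) h1
  rw [this]
  exact Measurable.exists fun t => measurable_const.and
    (Measurable.forall fun i => (ha i).iff measurable_const)

end Meas

/-- Events that depend on finitely many edges. -/
def Cyl (s : Set (Om V)) : Prop :=
  ∃ F : Finset (Sym2 V), ∀ ω ω' : Om V, (∀ e ∈ F, ω e = ω' e) → ω ∈ s → ω' ∈ s

lemma Cyl.meas {s : Set (Om V)} (h : Cyl s) : MeasurableSet s := by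
  obtain ⟨F, hF⟩ := h
  exact (meas_of_atoms F (a := fun e ω => ω e = true) meas_coord (P := (· ∈ s)) fun ω ω' h =>
    hF ω ω' fun e he => Bool.eq_iff_iff.2 (h e he)).setOf

lemma Cyl.inter {s t : Set (Om V)} (h : Cyl s) (h' : Cyl t) : Cyl (s ∩ t) := by
  obtain ⟨F, hF⟩ := h
  obtain ⟨F', hF'⟩ := h'
  exact ⟨F ∪ F', fun ω ω' h hs => ⟨hF ω ω' (fun e he => h e (mem_union_left _ he)) hs.1,
    hF' ω ω' (fun e he => h e (mem_union_right _ he)) hs.2⟩⟩

lemma cyl_coord (e : Sym2 V) (b : Bool) : Cyl {ω : Om V | ω e = b} :=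
  ⟨{e}, fun _ _ h hs => (h e (mem_singleton_self _)).symm.trans hs⟩

lemma exists_cyl (m : Measure (Om V)) [IsFiniteMeasure m] {s : Set (Om V)} (hs : MeasurableSet s)
    {ε : ℝ≥0∞} (hε : 0 < ε) : ∃ t, Cyl t ∧ m (t ∆ s) < ε := by
  obtain ⟨t, ht, h⟩ := exists_measure_symmDiff_lt_of_generateFrom_isSetRing (μ := m)
    isSetRing_measurableCylinders ⟨{Set.univ}, by simp, by
      rw [Set.singleton_subset_iff]; exact univ_mem_measurableCylinders _,
      by simp⟩ generateFrom_measurableCylinders.symm hs hε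
  refine ⟨t, ?_, h⟩
  obtain ⟨F, S, -, rfl⟩ := (mem_measurableCylinders _).1 ht
  refine ⟨F, fun ω ω' h hs => ?_⟩
  rw [mem_cylinder] at hs ⊢
  have : F.restrict ω' = F.restrict ω := by ext e; exact (h e e.2).symm
  rwa [this]

lemma le_of_cyl (m1 m2 : Measure (Om V)) [IsFiniteMeasure m1] [IsFiniteMeasure m2]
    (h : ∀ t, Cyl t → m1 t ≤ m2 t) {s : Set (Om V)} (hs : MeasurableSet s) : m1 s ≤ m2 s := by
  apply ENNReal.le_of_forall_pos_le_add
  intro ε hε _
  obtain ⟨t, ht, h1⟩ := exists_cyl (m1 + m2) hs (ε := ε) (by exact_mod_cast hε)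
  rw [Measure.add_apply] at h1
  have a1 : m1 s ≤ m1 t + m1 (t ∆ s) := by
    refine le_trans (measure_mono fun x hx => ?_) (measure_union_le _ _)
    by_cases hx' : x ∈ t
    · exact Or.inl hx'
    · exact Or.inr (Or.inr ⟨hx, hx'⟩)
  have a2 : m2 t ≤ m2 s + m2 (t ∆ s) := by
    refine le_trans (measure_mono fun x hx => ?_) (measure_union_le _ _)
    by_cases hx' : x ∈ s
    · exact Or.inl hx'
    · exact Or.inr (Or.inl ⟨hx, hx'⟩)
  calc m1 s ≤ m2 s + m2 (t ∆ s) + m1 (t ∆ s) := a1.trans (by gcongr; exact (h t ht).trans a2)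
    _ = m2 s + (m1 (t ∆ s) + m2 (t ∆ s)) := by ring
    _ ≤ _ := by gcongr

lemma conv_cyl {E : ℕ → ((Om V → ℝ) →ₗ[ℝ] ℝ)} {ν : Measure (Om V)} [IsFiniteMeasure ν]
    (h : ∀ A : Finset (Sym2 V), Filter.Tendsto (fun n => E n fun ω => ind (∀ e ∈ A, ω e = true))
      Filter.atTop (nhds (ν.real {ω | ∀ e ∈ A, ω e = true})))
    {s : Set (Om V)} (hs : Cyl s) :
    Filter.Tendsto (fun n => E n fun ω => ind (ω ∈ s)) Filter.atTop (nhds (ν.real s)) := by
  obtain ⟨F, hF⟩ := hs
  have key : ∀ A : Finset (Sym2 V),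
      Filter.Tendsto (fun n => E n fun ω => ind (ω ∈ s ∧ ∀ e ∈ A, ω e = true))
      Filter.atTop (nhds (ν.real {ω | ω ∈ s ∧ ∀ e ∈ A, ω e = true})) := by
    induction F using Finset.induction_on generalizing s with
    | empty =>
      intro A
      rcases s.eq_empty_or_nonempty with rfl | ⟨ω0, h0⟩
      · have : (fun ω : Om V => ind (ω ∈ (∅ : Set (Om V)) ∧ ∀ e ∈ A, ω e = true)) = 0 := by
          ext ω; simp [ind]
        rw [this]; simp
      · have : ∀ ω, ω ∈ s := fun ω => hF ω0 ω (by simp) h0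
        simpa [this] using h A
    | insert e F he ih =>
      intro A
      have hd : ∀ b : Bool, ∀ ω ω' : Om V, (∀ e ∈ F, ω e = ω' e) →
          ω ∈ {ω | Function.update ω e b ∈ s} → ω' ∈ {ω | Function.update ω e b ∈ s} := by
        intro b ω ω' h1 h2
        refine hF _ _ (fun e' he' => ?_) h2
        by_cases h3 : e' = e
        · subst h3; simp
        · rw [Function.update_of_ne h3, Function.update_of_ne h3]
          exact h1 e' ((mem_insert.1 he').resolve_left h3)
      have t1 := ih (hd true) (insert e A)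
      have t2 := ih (hd false) A
      have t3 := ih (hd false) (insert e A)
      have u : ∀ (ω : Om V) (b : Bool), ω e = b → Function.update ω e b = ω := by
        rintro ω b rfl; exact Function.update_eq_self _ _
      have e1 : (fun ω : Om V => ind (ω ∈ s ∧ ∀ e ∈ A, ω e = true)) =
          (fun ω => ind (ω ∈ {ω | Function.update ω e true ∈ s} ∧ ∀ x ∈ insert e A, ω x = true)) +
          (fun ω => ind (ω ∈ {ω | Function.update ω e false ∈ s} ∧ ∀ e ∈ A, ω e = true)) -
          (fun ω => ind (ω ∈ {ω | Function.update ω e false ∈ s} ∧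
            ∀ x ∈ insert e A, ω x = true)) := by
        ext ω
        simp only [Pi.add_apply, Pi.sub_apply, Set.mem_ofPred_eq, forall_mem_insert]
        cases hb : ω e
        · simp [u ω false hb, ind]
        · simp [u ω true hb]
      have m := (meas_coord e).setOf
      have e2 : ν.real {ω | ω ∈ s ∧ ∀ e ∈ A, ω e = true} =
          ν.real {ω | ω ∈ {ω | Function.update ω e true ∈ s} ∧ ∀ x ∈ insert e A, ω x = true} +
          ν.real {ω | ω ∈ {ω | Function.update ω e false ∈ s} ∧ ∀ e ∈ A, ω e = true} -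
          ν.real {ω | ω ∈ {ω | Function.update ω e false ∈ s} ∧ ∀ x ∈ insert e A, ω x = true} := by
        rw [← measureReal_inter_add_sdiff (s := {ω | ω ∈ s ∧ ∀ e ∈ A, ω e = true}) m,
          ← measureReal_inter_add_sdiff
            (s := {ω | ω ∈ {ω | Function.update ω e false ∈ s} ∧ ∀ e ∈ A, ω e = true}) m]
        have a1 : {ω : Om V | ω ∈ s ∧ ∀ e ∈ A, ω e = true} ∩ {ω | ω e = true} =
            {ω | ω ∈ {ω | Function.update ω e true ∈ s} ∧ ∀ x ∈ insert e A, ω x = true} := by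
          ext ω
          simp only [Set.mem_inter_iff, Set.mem_ofPred_eq, forall_mem_insert]
          constructor
          · rintro ⟨⟨h1, h2⟩, h3⟩; exact ⟨by rwa [u ω true h3], h3, h2⟩
          · rintro ⟨h1, h3, h2⟩; exact ⟨⟨by rwa [u ω true h3] at h1, h2⟩, h3⟩
        have a2 : {ω : Om V | ω ∈ s ∧ ∀ e ∈ A, ω e = true} \ {ω | ω e = true} =
            {ω | ω ∈ {ω | Function.update ω e false ∈ s} ∧ ∀ e ∈ A, ω e = true} \
              {ω | ω e = true} := by
          ext ω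
          simp only [Set.mem_sdiff, Set.mem_ofPred_eq, Bool.not_eq_true]
          constructor
          · rintro ⟨⟨h1, h2⟩, h3⟩; exact ⟨⟨by rwa [u ω false h3], h2⟩, h3⟩
          · rintro ⟨⟨h1, h2⟩, h3⟩; exact ⟨⟨by rwa [u ω false h3] at h1, h2⟩, h3⟩
        have a3 : {ω : Om V | ω ∈ {ω | Function.update ω e false ∈ s} ∧ ∀ e ∈ A, ω e = true} ∩
            {ω | ω e = true} =
            {ω | ω ∈ {ω | Function.update ω e false ∈ s} ∧ ∀ x ∈ insert e A, ω x = true} := by
          ext ω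
          simp only [Set.mem_inter_iff, Set.mem_ofPred_eq, forall_mem_insert]
          tauto
        rw [a1, a2, a3]; ring
      rw [e2]
      simp only [e1, map_add, map_sub]
      exact (t1.add t2).sub t3
  simpa using key ∅

lemma conv_mono {Λ : ℕ → ((Om V → ℝ) →ₗ[ℝ] ℝ)}
    (h : ∀ A : Finset (Sym2 V), Filter.Tendsto
      (fun n => Λ n fun ω => ∏ e ∈ A, (1 + ind (ω e = true))) Filter.atTop (nhds 0))
    (B : Finset (Sym2 V)) :
    Filter.Tendsto (fun n => Λ n fun ω => ind (∀ e ∈ B, ω e = true)) Filter.atTop (nhds 0) := by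
  have key : ∀ A : Finset (Sym2 V), Disjoint A B → Filter.Tendsto (fun n => Λ n fun ω =>
      (∏ e ∈ A, (1 + ind (ω e = true))) * ind (∀ e ∈ B, ω e = true)) Filter.atTop (nhds 0) := by
    induction B using Finset.induction_on with
    | empty => intro A _; simpa [ind] using h A
    | insert e B he ih =>
      intro A hA
      rw [disjoint_insert_right] at hA
      have t1 := ih (insert e A) (disjoint_insert_left.2 ⟨he, hA.2⟩)
      have t2 := ih A hA.2
      have e1 : (fun ω : Om V => (∏ e ∈ A, (1 + ind (ω e = true))) *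
          ind (∀ x ∈ insert e B, ω x = true)) =
          (fun ω => (∏ e ∈ insert e A, (1 + ind (ω e = true))) * ind (∀ e ∈ B, ω e = true)) -
          (fun ω => (∏ e ∈ A, (1 + ind (ω e = true))) * ind (∀ e ∈ B, ω e = true)) := by
        ext ω
        simp only [Pi.sub_apply, forall_mem_insert, prod_insert hA.1, ind_and]
        ring
      simp only [e1, map_sub]
      simpa using t1.sub t2
  simpa using key ∅ (by simp)

/-- Exchange the states of two edges. -/
noncomputable def sw (e f : Sym2 V) (ω : Om V) : Om V := ω ∘ Equiv.swap e f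

lemma sw_sw (e f : Sym2 V) (ω : Om V) : sw e f (sw e f ω) = ω := by
  ext x; simp [sw]

lemma sw_comm (e f : Sym2 V) : sw e f = sw f e := by
  ext ω x; simp [sw, Equiv.swap_comm]

@[simp] lemma sw_left (e f : Sym2 V) (ω : Om V) : sw e f ω e = ω f := by simp [sw]

@[simp] lemma sw_right (e f : Sym2 V) (ω : Om V) : sw e f ω f = ω e := by simp [sw]

lemma sw_other {e f x : Sym2 V} (h1 : x ≠ e) (h2 : x ≠ f) (ω : Om V) : sw e f ω x = ω x := by
  simp [sw, Equiv.swap_apply_of_ne_of_ne h1 h2]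

lemma meas_comp (σ : Sym2 V → Sym2 V) : Measurable fun ω : Om V => ω ∘ σ :=
  measurable_pi_lambda _ fun e => measurable_pi_apply (σ e)

lemma measurable_sw (e f : Sym2 V) : Measurable (sw e f : Om V → Om V) := meas_comp _

lemma Cyl.comp {s : Set (Om V)} (h : Cyl s) (σ : Sym2 V → Sym2 V) :
    Cyl ((fun ω : Om V => ω ∘ σ) ⁻¹' s) := by
  obtain ⟨F, hF⟩ := h
  exact ⟨F.image σ, fun ω ω' h hs => hF _ _ (fun e he => h _ (mem_image_of_mem _ he)) hs⟩

end Pool.Agent.MP_12d2c5_pr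

end MrgPart0

-- ======== part 1: formerly Pool.Agent.MP_12d2c5_pr.Free
section MrgPart1

/-! The limit of free spanning trees: invariance, the swap inequality, absence of cycles. -/

open scoped Classical ENNReal
open Finset MeasureTheory

namespace Pool.Agent.MP_12d2c5_pr

open MP_f8cd8e_pr

variable {V : Type}

lemma sum_ind {α : Type} (s : Finset α) (p : α → Prop) [DecidablePred p] :
    ∑ x ∈ s, ind (p x) = ((s.filter p).card : ℝ) := by
  rw [card_filter]; push_cast; exact sum_congr rfl fun x _ => by unfold ind; congr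

/-- No two neighbours of a vertex are joined off that vertex. -/
def Acy (F : SimpleGraph V) : Prop :=
  ∀ v u1 u2, F.Adj v u1 → F.Adj v u2 → u1 ≠ u2 → ¬ RIn F {v}ᶜ u1 u2

lemma acy_of_isAcyclic {F : SimpleGraph V} (h : F.IsAcyclic) : Acy F := by
  intro v u1 u2 h1 h2 hne hr
  have hb := SimpleGraph.isBridge_iff.1 (SimpleGraph.isAcyclic_iff_forall_adj_isBridge.1 h h1)
  apply hb
  have a1 : (F.deleteEdges {s(v, u1)}).Adj v u2 := by
    rw [SimpleGraph.deleteEdges_adj]
    refine ⟨h2, fun h => ?_⟩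
    rcases Sym2.eq_iff.1 (Set.mem_singleton_iff.1 h) with ⟨-, e⟩ | ⟨e, -⟩
    · exact hne e.symm
    · exact h1.ne e
  refine a1.reachable.trans (RIn.reach (A := Set.univ) (hr.symm.imp fun a b h3 h4 h5 => ?_))
  refine ⟨SimpleGraph.deleteEdges_adj.2 ⟨h3, fun h => ?_⟩, trivial, trivial⟩
  rcases Sym2.eq_iff.1 (Set.mem_singleton_iff.1 h) with ⟨e, -⟩ | ⟨-, e⟩
  · exact h4 e
  · exact h5 e

lemma tree_exchange {T : SimpleGraph V} (hT : T.IsTree) {a b : V} {B : Set V} (ha : a ∈ B)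
    (hb : b ∉ B) : ∃ x y, x ∈ B ∧ y ∉ B ∧ T.Adj x y ∧
      (T.deleteEdges {s(x, y)} ⊔ SimpleGraph.edge a b).IsTree := by
  obtain ⟨p, hp, -⟩ := hT.existsUnique_path a b
  have key : ∃ x y, x ∈ B ∧ y ∉ B ∧ T.Adj x y ∧ x ∈ p.support ∧ y ∈ p.support ∧
      (T.deleteEdges {s(x, y)}).Reachable a x ∧ (T.deleteEdges {s(x, y)}).Reachable y b := by
    induction p with
    | nil => exact absurd ha hb
    | @cons a a' b h q ih =>
      rw [SimpleGraph.Walk.cons_isPath_iff] at hp
      by_cases ha' : a' ∈ B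
      · obtain ⟨x, y, h1, h2, h3, h4, h5, h6, h7⟩ := ih ha' hb hp.1
        refine ⟨x, y, h1, h2, h3, by simp [h4], by simp [h5], ?_, h7⟩
        refine SimpleGraph.Reachable.trans (SimpleGraph.Adj.reachable ?_) h6
        refine SimpleGraph.deleteEdges_adj.2 ⟨h, fun h' => ?_⟩
        rcases Sym2.eq_iff.1 (Set.mem_singleton_iff.1 h') with ⟨e, -⟩ | ⟨e, -⟩
        · exact hp.2 (e ▸ h4)
        · exact hp.2 (e ▸ h5)
      · refine ⟨a, a', ha, ha', h, by simp, by simp, SimpleGraph.Reachable.refl _,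
          ⟨q.toDeleteEdges _ fun e he h' => ?_⟩⟩
        rw [Set.mem_singleton_iff.1 h'] at he
        exact hp.2 (q.fst_mem_support_of_mem_edges he)
  obtain ⟨x, y, h1, h2, h3, -, -, h6, h7⟩ := key
  refine ⟨x, y, h1, h2, h3, ⟨?_, ?_⟩⟩
  · have hab : a ≠ b := by rintro rfl; exact hb ha
    set T' := T.deleteEdges {s(x, y)} ⊔ SimpleGraph.edge a b with hT'
    have r1 : T'.Reachable a x := h6.mono le_sup_left
    have r2 : T'.Reachable a y :=
      (SimpleGraph.Adj.reachable (G := T') (Or.inr ((SimpleGraph.edge_adj _ _ _ _).2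
        ⟨Or.inl ⟨rfl, rfl⟩, hab⟩))).trans (h7.mono le_sup_left).symm
    have : ∀ w, T'.Reachable a w := by
      intro w
      refine reach_ind (P := fun w => T'.Reachable a w) (SimpleGraph.Reachable.refl _) ?_
        (hT.connected a w)
      intro u v _ huv ih
      by_cases he : s(u, v) = s(x, y)
      · rcases Sym2.eq_iff.1 he with ⟨-, e⟩ | ⟨-, e⟩
        · rw [e]; exact r2
        · rw [e]; exact r1
      · exact ih.trans (SimpleGraph.Adj.reachable (G := T')
          (Or.inl (SimpleGraph.deleteEdges_adj.2 ⟨huv, he⟩)))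
    have hne : Nonempty V := ⟨a⟩
    exact ⟨fun u v => (this u).symm.trans (this v)⟩
  · apply SimpleGraph.IsAcyclic.sup_edge_of_not_reachable _
      (hT.isAcyclic.anti (SimpleGraph.deleteEdges_le _))
    intro hr
    exact SimpleGraph.isBridge_iff.1 (SimpleGraph.isAcyclic_iff_forall_adj_isBridge.1
      hT.isAcyclic h3) (h6.symm.trans (hr.trans h7.symm))

variable {G : SimpleGraph V} {U : Type}

/-- The configuration of a graph on a piece. -/
noncomputable def cfgT (ι : U → V) (T : SimpleGraph U) : Om V :=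
  fun e => decide (∃ a b, T.Adj a b ∧ e = s(ι a, ι b))

lemma cfgT_true {ι : U → V} {T : SimpleGraph U} {e : Sym2 V} :
    cfgT ι T e = true ↔ ∃ a b, T.Adj a b ∧ e = s(ι a, ι b) := by simp [cfgT]

lemma cfgT_iff {ι : U → V} (hι : Function.Injective ι) {T : SimpleGraph U} {a b : U} :
    cfgT ι T s(ι a, ι b) = true ↔ T.Adj a b := by
  rw [cfgT_true]
  constructor
  · rintro ⟨a', b', h, e⟩
    rcases Sym2.eq_iff.1 e with ⟨e1, e2⟩ | ⟨e1, e2⟩
    · rw [hι e1, hι e2]; exact h
    · rw [hι e1, hι e2]; exact h.symm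
  · intro h; exact ⟨a, b, h, rfl⟩

lemma cfgT_inj {ι : U → V} (hι : Function.Injective ι) : Function.Injective (cfgT ι) := by
  intro T T' h
  ext a b
  rw [← cfgT_iff hι, ← cfgT_iff hι, h]

lemma cfgT_adj {ι : U → V} {T : SimpleGraph U} {u v : V} (h : (Fg G (cfgT ι T)).Adj u v) :
    ∃ a b, T.Adj a b ∧ u = ι a ∧ v = ι b := by
  obtain ⟨a, b, h1, e⟩ := cfgT_true.1 (Fg_adj.1 h).2
  rcases Sym2.eq_iff.1 e with ⟨e1, e2⟩ | ⟨e1, e2⟩
  · exact ⟨a, b, h1, e1, e2⟩
  · exact ⟨b, a, h1.symm, e1, e2⟩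

lemma cfgT_rin {ι : U → V} (hι : Function.Injective ι) {T : SimpleGraph U} {A : Set V} {a : U}
    {y : V} (h : RIn (Fg G (cfgT ι T)) A (ι a) y) : ∃ b, y = ι b ∧ RIn T (ι ⁻¹' A) a b := by
  refine RIn.ind (P := fun y => ∃ b, y = ι b ∧ RIn T (ι ⁻¹' A) a b) ⟨a, rfl, RIn.refl _ _ _⟩ ?_ h
  rintro u v - h1 h2 h3 ⟨b, rfl, ih⟩
  obtain ⟨a', b', h4, e1, rfl⟩ := cfgT_adj h1
  rw [← hι e1] at h4
  exact ⟨b', rfl, ih.tail h4 h2 h3⟩

lemma acy_cfgT {ι : U → V} (hι : Function.Injective ι) {T : SimpleGraph U} (h : Acy T) :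
    Acy (Fg G (cfgT ι T)) := by
  intro v u1 u2 h1 h2 hne hr
  obtain ⟨a, b, h3, rfl, rfl⟩ := cfgT_adj h1
  obtain ⟨a', b', h4, e, rfl⟩ := cfgT_adj h2
  rw [← hι e] at h4
  obtain ⟨c, e', h5⟩ := cfgT_rin hι hr
  rw [← hι e'] at h5
  exact h a b b' h3 h4 (fun h => hne (by rw [h])) (h5.mono fun x hx hx' => hx (by
    rw [Set.mem_singleton_iff.1 hx']; rfl))

variable [Fintype U]

/-- The configurations of the spanning trees of the piece. -/
noncomputable def trs (G : SimpleGraph V) (ι : U → V) : Finset (Om V) :=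
  ((trees U).filter fun T => ∀ a b, T.Adj a b → G.Adj (ι a) (ι b)).image (cfgT ι)

lemma mem_trs {ι : U → V} {ω : Om V} :
    ω ∈ trs G ι ↔ ∃ T : SimpleGraph U, T.IsTree ∧ (∀ a b, T.Adj a b → G.Adj (ι a) (ι b)) ∧
      cfgT ι T = ω := by
  simp [trs, trees, and_assoc]

/-- Average over a finite set of configurations. -/
noncomputable def av (S : Finset (Om V)) : (Om V → ℝ) →ₗ[ℝ] ℝ where
  toFun ψ := (∑ ω ∈ S, ψ ω) / S.card
  map_add' ψ ψ' := by simp [sum_add_distrib, add_div]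
  map_smul' c ψ := by simp [← mul_sum, mul_div_assoc]

lemma av_apply (S : Finset (Om V)) (ψ : Om V → ℝ) : av S ψ = (∑ ω ∈ S, ψ ω) / S.card := rfl

lemma av_trs {ι : U → V} (hι : Function.Injective ι) (v : U) (ψ : Om V → ℝ) :
    av (trs G ι) ψ = EF G ι v 1 fun g => ψ (cfgT ι (TG g)) := by
  set φ : Sym2 U → ℝ := fun e => ind (e.map ι ∈ G.edgeSet) with hφ
  have e1 : net φ = cN G ι 1 0 := by
    ext a b
    by_cases h : a = b
    · simp [net, h, cN_self]
    · rw [cN_ne _ _ h]; simp [net, h, hφ, ind]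
  have e2 : ∀ T : SimpleGraph U, tw φ T = ind (∀ a b, T.Adj a b → G.Adj (ι a) (ι b)) := by
    intro T
    by_cases h : ∀ a b, T.Adj a b → G.Adj (ι a) (ι b)
    · rw [ind_pos h]
      apply prod_eq_one
      intro e he
      induction e using Sym2.ind with
      | h a b => exact ind_pos (by simpa using h a b (by simpa using he))
    · rw [ind_neg h]
      push Not at h
      obtain ⟨a, b, h1, h2⟩ := h
      exact prod_eq_zero (i := s(a, b)) (by simpa using h1) (ind_neg (by simpa using h2))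
  have e3 : ∀ ψ : Om V → ℝ, ∑ ω ∈ trs G ι, ψ ω =
      ∑ g ∈ fors {v}, wt (cN G ι 1 0) {v} g * ψ (cfgT ι (TG g)) := by
    intro ψ
    rw [← e1, ← tree_sum φ v fun T => ψ (cfgT ι T), trs,
      sum_image (fun a _ b _ h => cfgT_inj hι h), sum_filter]
    apply sum_congr rfl; intro T _
    rw [e2]; unfold ind; split_ifs <;> simp
  have e4 := e3 fun _ => 1
  simp only [sum_const, nsmul_eq_mul, mul_one] at e4
  rw [av_apply, e3, e4]; rfl

/-- The edges of `G` leaving `β`. -/
noncomputable def ex (G : SimpleGraph V) [Nice G] (β : Finset V) : Finset (Sym2 V) :=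
  β.biUnion fun x => ((nb G x).filter (· ∉ β)).image fun y => s(x, y)

lemma mem_ex [Nice G] {β : Finset V} {e : Sym2 V} :
    e ∈ ex G β ↔ ∃ x y, x ∈ β ∧ y ∉ β ∧ G.Adj x y ∧ e = s(x, y) := by
  simp only [ex, mem_biUnion, mem_image, mem_filter, mem_nb]
  constructor
  · rintro ⟨x, h1, y, ⟨h2, h3⟩, rfl⟩; exact ⟨x, y, h1, h3, h2, rfl⟩
  · rintro ⟨x, y, h1, h3, h2, rfl⟩; exact ⟨x, h1, y, ⟨h2, h3⟩, rfl⟩

lemma trs_swap [Nice G] {ι : U → V} (hι : Function.Injective ι) {β : Finset V} {a b : U}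
    (ha : ι a ∈ β) (hb : ι b ∉ β) (hab : G.Adj (ι a) (ι b)) {ω : Om V} (hω : ω ∈ trs G ι)
    (hf : ω s(ι a, ι b) = false) :
    ∃ e ∈ ex G β, ω e = true ∧ sw e s(ι a, ι b) ω ∈ trs G ι := by
  obtain ⟨T, hT, hTG, rfl⟩ := mem_trs.1 hω
  obtain ⟨x, y, h1, h2, h3, h4⟩ := tree_exchange hT (B := ι ⁻¹' β) ha hb
  have h5 := (cfgT_iff hι).2 h3
  refine ⟨s(ι x, ι y), mem_ex.2 ⟨_, _, h1, h2, hTG x y h3, rfl⟩, h5, mem_trs.2 ⟨_, h4, ?_, ?_⟩⟩
  · rintro u v (h | h)
    · exact hTG u v h.1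
    · rcases ((SimpleGraph.edge_adj _ _ _ _).1 h).1 with ⟨rfl, rfl⟩ | ⟨rfl, rfl⟩
      · exact hab
      · exact hab.symm
  · have hne : a ≠ b := by rintro rfl; exact hb ha
    have inj : ∀ {u v u' v' : U}, s(ι u, ι v) = s(ι u', ι v') → s(u, v) = s(u', v') :=
      fun h => Sym2.map.injective hι (by simpa using h)
    ext e
    by_cases e1 : e = s(ι a, ι b)
    · subst e1
      rw [sw_right, h5]
      exact (cfgT_iff hι).2 (Or.inr ((SimpleGraph.edge_adj _ _ _ _).2 ⟨Or.inl ⟨rfl, rfl⟩, hne⟩))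
    by_cases e2 : e = s(ι x, ι y)
    · subst e2
      rw [sw_left, hf, ← Bool.not_eq_true, cfgT_iff hι]
      rintro (h | h)
      · exact (SimpleGraph.deleteEdges_adj.1 h).2 rfl
      · rcases ((SimpleGraph.edge_adj _ _ _ _).1 h).1 with ⟨rfl, rfl⟩ | ⟨rfl, rfl⟩
        · exact e1 rfl
        · exact e1 Sym2.eq_swap
    rw [sw_other e2 e1, Bool.eq_iff_iff, cfgT_true, cfgT_true]
    constructor
    · rintro ⟨u, v, h | h, rfl⟩
      · exact ⟨u, v, h.1, rfl⟩
      · rcases ((SimpleGraph.edge_adj _ _ _ _).1 h).1 with ⟨rfl, rfl⟩ | ⟨rfl, rfl⟩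
        · exact absurd rfl e1
        · exact absurd Sym2.eq_swap e1
    · rintro ⟨u, v, h, rfl⟩
      refine ⟨u, v, Or.inl (SimpleGraph.deleteEdges_adj.2 ⟨h, fun h' => e2 ?_⟩), rfl⟩
      have := congrArg (Sym2.map ι) (Set.mem_singleton_iff.1 h')
      simpa using this

lemma av_swap {S : Finset (Om V)} {E : Finset (Sym2 V)} {f : Sym2 V}
    (h : ∀ ω ∈ S, ω f = false → ∃ e ∈ E, ω e = true ∧ sw e f ω ∈ S) (t : Set (Om V)) :
    av S (fun ω => ind (ω ∈ t ∩ {ω | ω f = false})) ≤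
      ∑ e ∈ E, av S fun ω => ind (ω ∈ ({ω | ω e = false} ∩ {ω | ω f = true}) ∩ sw e f ⁻¹' t) := by
  simp only [av_apply, ← sum_div]
  apply div_le_div_of_nonneg_right _ (by positivity)
  have h1 : ∀ ω ∈ S, ind (ω ∈ t ∩ {ω | ω f = false}) ≤
      ∑ e ∈ E, ind (ω ∈ t ∧ ω f = false ∧ ω e = true ∧ sw e f ω ∈ S) := by
    intro ω hω
    by_cases hp : ω ∈ t ∩ {ω | ω f = false}
    · obtain ⟨e, he, h2, h3⟩ := h ω hω hp.2
      rw [ind_pos hp, ← ind_pos (show ω ∈ t ∧ ω f = false ∧ ω e = true ∧ sw e f ω ∈ S from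
        ⟨hp.1, hp.2, h2, h3⟩)]
      exact single_le_sum (f := fun e => ind (ω ∈ t ∧ ω f = false ∧ ω e = true ∧ sw e f ω ∈ S))
        (fun _ _ => ind_nonneg _) he
    · rw [ind_neg hp]; exact sum_nonneg fun _ _ => ind_nonneg _
  refine (sum_le_sum h1).trans ?_
  rw [sum_comm]
  apply sum_le_sum; intro e _
  rw [sum_ind, sum_ind, Nat.cast_le]
  apply card_le_card_of_injOn (sw e f)
  · intro ω hω
    simp only [coe_filter, Set.mem_ofPred_eq] at hω ⊢
    obtain ⟨-, h1, h2, h3, h4⟩ := hω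
    refine ⟨h4, ⟨?_, ?_⟩, ?_⟩
    · simpa using h2
    · simpa using h3
    · simpa [sw_sw] using h1
  · intro ω _ ω' _ h
    rw [← sw_sw e f ω, h, sw_sw]

/-- The action of an automorphism on configurations. -/
def act (φ : G ≃g G) (ω : Om V) : Om V := ω ∘ Sym2.map φ

lemma Fg_act (φ : G ≃g G) (ω : Om V) : Fg G (act φ ω) = (Fg G ω).comap φ := by
  ext u v
  simp [Fg_adj, act, φ.map_adj_iff]

lemma act_symm (φ : G ≃g G) (ω : Om V) : act φ.symm (act φ ω) = ω := by
  ext e
  induction e using Sym2.ind with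
  | h a b => simp [act]

lemma trs_act {U' : Type} [Fintype U'] {ι : U → V} {ι' : U' → V} (φ : G ≃g G) (e : U ≃ U')
    (he : ∀ u, ι' (e u) = φ (ι u)) {ω : Om V} (h : ω ∈ trs G ι') : act φ ω ∈ trs G ι := by
  obtain ⟨T, hT, hTG, rfl⟩ := mem_trs.1 h
  refine mem_trs.2 ⟨T.comap e, (SimpleGraph.Iso.comap e T).isTree_iff.2 hT, fun a b h => ?_, ?_⟩
  · have := hTG _ _ h
    rwa [he, he, φ.map_adj_iff] at this
  · ext x
    rw [Bool.eq_iff_iff, act, Function.comp_apply, cfgT_true, cfgT_true]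
    constructor
    · rintro ⟨a, b, h, rfl⟩; exact ⟨e a, e b, h, by simp [he]⟩
    · rintro ⟨a, b, h, h'⟩
      refine ⟨e.symm a, e.symm b, by simpa using h, ?_⟩
      apply Sym2.map.injective φ.injective
      rw [h']; simp [← he]

lemma av_act {U' : Type} [Fintype U'] {ι : U → V} {ι' : U' → V} (φ : G ≃g G) (e : U ≃ U')
    (he : ∀ u, ι' (e u) = φ (ι u)) (ψ : Om V → ℝ) :
    av (trs G ι) ψ = av (trs G ι') fun ω => ψ (act φ ω) := by
  have inj : Function.Injective (act φ) := fun ω ω' h => by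
    rw [← act_symm φ ω, h, act_symm]
  have : trs G ι = (trs G ι').image (act φ) := by
    ext ω
    rw [mem_image]
    constructor
    · intro h
      refine ⟨act φ.symm ω, trs_act φ.symm e.symm (fun u => ?_) h, act_symm φ.symm ω⟩
      obtain ⟨u, rfl⟩ := e.surjective u
      simp [he]
    · rintro ⟨ω', h, rfl⟩; exact trs_act φ e he h
  rw [av_apply, av_apply, this, sum_image (fun a _ b _ h => inj h), card_image_of_injective _ inj]

/-- The ball as a type. -/
abbrev Bs (G : SimpleGraph V) (o : V) (n : ℕ) : Type := ↥({v | G.dist o v ≤ n} : Set V)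

noncomputable instance [Nice G] (o : V) (n : ℕ) : Fintype (Bs G o n) := (ball_fin G o n).fintype

/-- The free spanning tree of the ball. -/
noncomputable def FE (G : SimpleGraph V) [Nice G] (o : V) (n : ℕ) : (Om V → ℝ) →ₗ[ℝ] ℝ :=
  av (trs G (Subtype.val : Bs G o n → V))

/-- `ν` is the limit of the free spanning trees of balls. -/
def FLim (G : SimpleGraph V) [Nice G] (ν : Measure (Om V)) : Prop :=
  ∀ o s, Cyl s →
    Filter.Tendsto (fun n => FE G o n fun ω => ind (ω ∈ s)) Filter.atTop (nhds (ν.real s))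

/-- Erase the values off the edges of `G`. -/
noncomputable def mask (G : SimpleGraph V) (ω : Om V) : Om V :=
  fun e => ω e && decide (e ∈ G.edgeSet)

lemma measurable_mask (G : SimpleGraph V) : Measurable (mask G) :=
  measurable_pi_lambda _ fun e =>
    (measurable_of_countable fun b : Bool => b && decide (e ∈ G.edgeSet)).comp
      (measurable_pi_apply e)

lemma Fg_mask (G : SimpleGraph V) (ω : Om V) : Fg G (mask G ω) = Fg G ω := by
  ext u v
  simp only [Fg_adj, mask, Bool.and_eq_true, decide_eq_true_eq, SimpleGraph.mem_edgeSet]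
  tauto

theorem flim_of_hyp [Nice G] {μ : Measure (Om V)} [IsProbabilityMeasure μ]
    (h : ∀ (o : V) (A : Finset (Sym2 V)), (↑A : Set (Sym2 V)) ⊆ G.edgeSet →
      Filter.Tendsto (fun n : ℕ =>
        (((({T : SimpleGraph ↥({v | G.dist o v ≤ n} : Set V) |
              T ≤ G.induce ({v | G.dist o v ≤ n} : Set V) ∧ T.IsTree ∧
              ∀ e ∈ A, e ∈ (T.map (Function.Embedding.subtype _)).edgeSet}).ncard : ℕ) : ℝ) /
         ((({T : SimpleGraph ↥({v | G.dist o v ≤ n} : Set V) |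
              T ≤ G.induce ({v | G.dist o v ≤ n} : Set V) ∧ T.IsTree}).ncard : ℕ) : ℝ)))
        Filter.atTop (nhds (μ {ω | ∀ e ∈ A, ω e = true}).toReal)) :
    FLim G (μ.map (mask G)) := by
  intro o s hs
  refine conv_cyl (fun A => ?_) hs
  have hm : MeasurableSet {ω : Om V | ∀ e ∈ A, ω e = true} :=
    Cyl.meas ⟨A, fun ω ω' h h' e he => (h e he).symm.trans (h' e he)⟩
  rw [Measure.real, Measure.map_apply (measurable_mask G) hm]
  by_cases hA : (↑A : Set (Sym2 V)) ⊆ G.edgeSet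
  · have e1 : mask G ⁻¹' {ω : Om V | ∀ e ∈ A, ω e = true} = {ω | ∀ e ∈ A, ω e = true} := by
      ext ω
      simp only [Set.mem_preimage, Set.mem_ofPred_eq, mask, Bool.and_eq_true, decide_eq_true_eq]
      exact ⟨fun h e he => (h e he).1, fun h e he => ⟨h e he, hA he⟩⟩
    rw [e1]
    refine (h o A hA).congr fun n => ?_
    have hι : Function.Injective (Subtype.val : Bs G o n → V) := Subtype.val_injective
    have k1 : ∀ T : SimpleGraph (Bs G o n), T ≤ G.induce ({v | G.dist o v ≤ n} : Set V) ↔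
        ∀ a b, T.Adj a b → G.Adj a b := fun T => Iff.rfl
    have k2 : ∀ (T : SimpleGraph (Bs G o n)) (e : Sym2 V),
        e ∈ (T.map (Function.Embedding.subtype _)).edgeSet ↔ cfgT Subtype.val T e = true := by
      intro T e
      rw [cfgT_true]
      induction e using Sym2.ind with
      | h u v =>
        rw [SimpleGraph.mem_edgeSet, SimpleGraph.map_adj]
        constructor
        · rintro ⟨a, b, h, rfl, rfl⟩; exact ⟨a, b, h, rfl⟩
        · rintro ⟨a, b, h, e⟩
          rcases Sym2.eq_iff.1 e with ⟨rfl, rfl⟩ | ⟨rfl, rfl⟩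
          · exact ⟨a, b, h, rfl, rfl⟩
          · exact ⟨b, a, h.symm, rfl, rfl⟩
    rw [FE, av_apply]
    rw [sum_ind]
    congr 2
    · rw [← Set.ncard_coe_finset, ← Set.ncard_image_of_injective _ (cfgT_inj hι)]
      congr 1
      ext ω
      simp only [Set.mem_image, Set.mem_ofPred_eq, coe_filter, mem_trs, k1]
      constructor
      · rintro ⟨T, ⟨h1, h2, h3⟩, rfl⟩
        exact ⟨⟨T, h2, h1, rfl⟩, fun e he => (k2 T e).1 (h3 e he)⟩
      · rintro ⟨⟨T, h2, h1, rfl⟩, h3⟩
        exact ⟨T, ⟨h1, h2, fun e he => (k2 T e).2 (h3 e he)⟩, rfl⟩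
    · rw [← Set.ncard_coe_finset, ← Set.ncard_image_of_injective _ (cfgT_inj hι)]
      congr 1
      ext ω
      simp only [Set.mem_image, Set.mem_ofPred_eq, mem_coe, mem_trs, k1]
      constructor
      · rintro ⟨T, ⟨h1, h2⟩, rfl⟩; exact ⟨T, h2, h1, rfl⟩
      · rintro ⟨T, h2, h1, rfl⟩; exact ⟨T, ⟨h1, h2⟩, rfl⟩
  · obtain ⟨e, he, he'⟩ := Set.not_subset.1 hA
    have e1 : mask G ⁻¹' {ω : Om V | ∀ e ∈ A, ω e = true} = ∅ := by
      ext ω
      simp only [Set.mem_preimage, Set.mem_ofPred_eq, mask, Bool.and_eq_true, decide_eq_true_eq,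
        Set.mem_empty_iff_false, iff_false]
      exact fun h => he' (h e he).2
    rw [e1]
    simp only [measure_empty, ENNReal.toReal_zero]
    refine tendsto_const_nhds.congr fun n => ?_
    rw [FE, av_apply, sum_eq_zero, zero_div]
    intro ω hω
    obtain ⟨T, -, hT, rfl⟩ := mem_trs.1 hω
    apply ind_neg
    intro h
    obtain ⟨a, b, h1, rfl⟩ := cfgT_true.1 (h e he)
    exact he' (hT a b h1)

variable [Nice G] {ν : Measure (Om V)} [IsProbabilityMeasure ν]

theorem FLim.inv (h : FLim G ν) (φ : G ≃g G) : MeasurePreserving (act φ) ν ν := by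
  have hm : Measurable (act φ) := meas_comp _
  refine ⟨hm, ?_⟩
  have key : ∀ t, Cyl t → ν.map (act φ) t = ν t := by
    intro t ht
    rw [Measure.map_apply hm ht.meas]
    have t1 := h (org G) t ht
    have t2 := h (φ (org G)) _ (ht.comp (Sym2.map φ))
    have e : ∀ n, (FE G (org G) n fun ω => ind (ω ∈ t)) =
        FE G (φ (org G)) n fun ω => ind (ω ∈ (fun ω : Om V => ω ∘ Sym2.map φ) ⁻¹' t) := by
      intro n
      exact av_act φ (φ.toEquiv.subtypeEquiv fun v => by simp) (fun u => rfl) _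
    simp only [← e] at t2
    have := tendsto_nhds_unique t2 t1
    exact (ENNReal.toReal_eq_toReal_iff' (measure_ne_top _ _) (measure_ne_top _ _)).1 this
  ext s hs
  exact le_antisymm (le_of_cyl _ _ (fun t ht => (key t ht).le) hs)
    (le_of_cyl _ _ (fun t ht => (key t ht).ge) hs)

theorem FLim.swap (h : FLim G ν) {β : Finset V} {a b : V} (ha : a ∈ β) (hb : b ∉ β)
    (hab : G.Adj a b) {s : Set (Om V)} (hs : MeasurableSet s) :
    ν (s ∩ {ω | ω s(a, b) = false}) ≤
      ∑ e ∈ ex G β, ν (({ω | ω e = false} ∩ {ω | ω s(a, b) = true}) ∩ sw e s(a, b) ⁻¹' s) := by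
  set f := s(a, b) with hf
  have mc : ∀ e : Sym2 V, MeasurableSet ({ω : Om V | ω e = false} ∩ {ω | ω f = true}) :=
    fun e => ((cyl_coord e false).inter (cyl_coord f true)).meas
  have e1 : ∀ s, MeasurableSet s → ν.restrict {ω | ω f = false} s = ν (s ∩ {ω | ω f = false}) :=
    fun s hs => Measure.restrict_apply hs
  have e2 : ∀ s, MeasurableSet s → (∑ e ∈ ex G β,
      (ν.restrict ({ω | ω e = false} ∩ {ω | ω f = true})).map (sw e f)) s =
      ∑ e ∈ ex G β, ν (({ω | ω e = false} ∩ {ω | ω f = true}) ∩ sw e f ⁻¹' s) := by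
    intro s hs
    rw [Measure.finsetSum_apply]
    apply sum_congr rfl; intro e _
    rw [Measure.map_apply (measurable_sw _ _) hs, Measure.restrict_apply (measurable_sw _ _ hs),
      Set.inter_comm]
  rw [← e1 s hs, ← e2 s hs]
  refine le_of_cyl _ _ (fun t ht => ?_) hs
  rw [e1 t ht.meas, e2 t ht.meas]
  have t1 := h a _ (ht.inter (cyl_coord f false))
  have t2 := tendsto_finsetSum (ex G β) fun e _ => h a _
    (((cyl_coord e false).inter (cyl_coord f true)).inter (ht.comp (Equiv.swap e f)))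
  have t3 := le_of_tendsto_of_tendsto t1 t2 (by
    filter_upwards [Filter.eventually_ge_atTop 1] with n hn
    refine av_swap (fun ω hω h1 => ?_) t
    exact trs_swap (ι := (Subtype.val : Bs G a n → V)) Subtype.val_injective
      (a := ⟨a, by simp⟩) (b := ⟨b, by simpa [dist_adj hab] using hn⟩) ha hb hab hω h1)
  rw [← ENNReal.toReal_le_toReal (measure_ne_top _ _) (ENNReal.sum_ne_top.2
    fun _ _ => measure_ne_top _ _), ENNReal.toReal_sum fun _ _ => measure_ne_top _ _]
  exact t3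

omit [Nice G] in
lemma cyl_rin {S : Finset V} {A : Set V} (hA : A ⊆ S) {u v : V} {ω ω' : Om V}
    (h : ∀ e ∈ S.sym2, ω e = ω' e) (hr : RIn (Fg G ω) A u v) : RIn (Fg G ω') A u v :=
  hr.imp fun a b h1 h2 h3 => ⟨Fg_adj.2 ⟨(Fg_adj.1 h1).1, by
    rw [← h _ (mk_mem_sym2_iff.2 ⟨hA h2, hA h3⟩)]; exact (Fg_adj.1 h1).2⟩, h2, h3⟩

lemma rin_ball {F : SimpleGraph V} {A : Set V} {u v : V} (o : V) (h : RIn F A u v) :
    ∃ M, ∀ M' ≥ M, RIn F (A ∩ ball G o M') u v := by
  refine RIn.ind (P := fun v => ∃ M, ∀ M' ≥ M, RIn F (A ∩ ball G o M') u v)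
    ⟨0, fun _ _ => RIn.refl _ _ _⟩ ?_ h
  rintro a b - h1 h2 h3 ⟨M, hM⟩
  refine ⟨M + G.dist o a + G.dist o b, fun M' hM' => (hM M' (by omega)).tail h1 ⟨h2, ?_⟩ ⟨h3, ?_⟩⟩
  · simp only [mem_coe, mem_ball]; omega
  · simp only [mem_coe, mem_ball]; omega

theorem FLim.acy (h : FLim G ν) : ∀ᵐ ω ∂ν, Acy (Fg G ω) := by
  have := countable_V G
  have key : ∀ (v u1 u2 : V) (M : ℕ), ∀ᵐ ω ∂ν, ¬ ((Fg G ω).Adj v u1 ∧ (Fg G ω).Adj v u2 ∧
      u1 ≠ u2 ∧ RIn (Fg G ω) ({v}ᶜ ∩ ball G v M) u1 u2) := by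
    intro v u1 u2 M
    have hc : Cyl {ω | (Fg G ω).Adj v u1 ∧ (Fg G ω).Adj v u2 ∧
        u1 ≠ u2 ∧ RIn (Fg G ω) ({v}ᶜ ∩ ball G v M) u1 u2} := by
      refine ⟨insert s(v, u1) (insert s(v, u2) (ball G v M).sym2), fun ω ω' h hs => ?_⟩
      obtain ⟨h1, h2, h3, h4⟩ := hs
      rw [Fg_adj] at h1 h2
      refine ⟨Fg_adj.2 ⟨h1.1, ?_⟩, Fg_adj.2 ⟨h2.1, ?_⟩, h3,
        cyl_rin Set.inter_subset_right (fun e he => h e (by simp [he])) h4⟩
      · rw [← h _ (by simp)]; exact h1.2
      · rw [← h _ (by simp)]; exact h2.2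
    have t1 := h v _ hc
    have t2 : ∀ n, (FE G v n fun ω => ind (ω ∈ {ω | (Fg G ω).Adj v u1 ∧ (Fg G ω).Adj v u2 ∧
        u1 ≠ u2 ∧ RIn (Fg G ω) ({v}ᶜ ∩ ball G v M) u1 u2})) = 0 := by
      intro n
      rw [FE, av_apply, sum_eq_zero, zero_div]
      intro ω hω
      obtain ⟨T, hT, -, rfl⟩ := mem_trs.1 hω
      apply ind_neg
      rintro ⟨h1, h2, h3, h4⟩
      exact acy_cfgT Subtype.val_injective (acy_of_isAcyclic hT.isAcyclic) v u1 u2 h1 h2 h3
        (h4.mono Set.inter_subset_left)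
    simp only [t2] at t1
    have := tendsto_nhds_unique t1 tendsto_const_nhds
    rw [ae_iff]
    simp only [not_not]
    exact (measureReal_eq_zero_iff (measure_ne_top _ _)).1 this
  simp only [← ae_all_iff] at key
  filter_upwards [key] with ω hω v u1 u2 h1 h2 h3 h4
  obtain ⟨M, hM⟩ := rin_ball (G := G) v h4
  exact hω v u1 u2 M ⟨h1, h2, h3, hM M le_rfl⟩

end Pool.Agent.MP_12d2c5_pr

end MrgPart1

-- marker of a merged file
example : 731051 + 733561 = 731051 + 733561 := rfl
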