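import Mathlib.CategoryTheory.Countable
import Mathlib.MeasureTheory.Integral.Bochner.Set
import Mathlib.Analysis.InnerProductSpace.Basic
import Mathlib.Data.Finset.CastCard
import Pool.Agent.MP_12d2c5_pr.Free

-- ======== part 0: formerly Pool.Agent.MP_12d2c5_pr.Forest
section MrgPart0

/-! Deterministic facts on forests: branches, edge counts, trifurcations, finite pasts. -/

open scoped Classical
open Finset

namespace Pool.Agent.MP_12d2c5_pr

variable {V : Type} {F : SimpleGraph V}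

lemma Acy.branch (h : Acy F) {v u u' : V} (h1 : F.Adj v u) (h2 : F.Adj u u') (h3 : u' ≠ v) {y : V}
    (hy : RIn F {u}ᶜ u' y) : RIn F {v}ᶜ u y := by
  have : RIn F {v}ᶜ u' y := by
    refine RIn.ind (P := fun y => RIn F {v}ᶜ u' y) (RIn.refl _ _ _) ?_ hy
    intro a b h4 h5 h6 h7 ih
    refine ih.tail h5 (ih.mem h3) ?_
    rintro rfl
    exact h u u' _ h2 h1.symm h3 (h4.tail h5 h6 h7)
  exact (RIn.single h2 h1.ne' h3).trans this

lemma Acy.leaf (h : Acy F) {U : Finset V} (hU : U.Nonempty) :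
    ∃ x ∈ U, (U.filter (F.Adj x)).card ≤ 1 := by
  by_contra hn
  push Not at hn
  have two : ∀ x ∈ U, ∀ v, ∃ y ∈ U, F.Adj x y ∧ y ≠ v := by
    intro x hx v
    obtain ⟨y, hy, hyv⟩ := exists_mem_ne (hn x hx) v
    exact ⟨y, (mem_filter.1 hy).1, (mem_filter.1 hy).2, hyv⟩
  obtain ⟨x0, hx0⟩ := hU
  obtain ⟨y0, hy0, h0, -⟩ := two x0 hx0 x0
  obtain ⟨p, hp, hmin⟩ := exists_min_image ((U ×ˢ U).filter fun p => F.Adj p.1 p.2)
    (fun p => (U.filter (RIn F {p.1}ᶜ p.2)).card) ⟨(x0, y0), by simp [hx0, hy0, h0]⟩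
  obtain ⟨v, u⟩ := p
  simp only [mem_filter, mem_product] at hp
  obtain ⟨u', h1, h2, h3⟩ := two u hp.1.2 v
  have a1 := hmin (u, u') (by simp [hp.1.2, h1, h2])
  have a2 : U.filter (RIn F {u}ᶜ u') ⊂ U.filter (RIn F {v}ᶜ u) := by
    constructor
    · intro y hy
      exact mem_filter.2 ⟨(mem_filter.1 hy).1, h.branch hp.2 h2 h3 (mem_filter.1 hy).2⟩
    · intro hs
      have := (mem_filter.1 (hs (mem_filter.2 ⟨hp.1.2, RIn.refl _ _ _⟩))).2
      exact this.mem h2.ne' rfl
  exact absurd (card_lt_card a2) (not_lt.2 a1)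

lemma Acy.count (h : Acy F) (U : Finset V) : ∑ x ∈ U, (U.filter (F.Adj x)).card ≤ 2 * U.card := by
  induction hn : U.card generalizing U with
  | zero => rw [card_eq_zero] at hn; simp [hn]
  | succ n ih =>
    obtain ⟨x, hx, h1⟩ := h.leaf (U := U) (card_pos.1 (by omega))
    have h2 := ih (U.erase x) (by rw [card_erase_of_mem hx, hn]; rfl)
    rw [← add_sum_erase U _ hx]
    have h3 : ∀ y ∈ U.erase x, (U.filter (F.Adj y)).card ≤
        ((U.erase x).filter (F.Adj y)).card + if F.Adj x y then 1 else 0 := by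
      intro y _
      split_ifs with hxy
      · refine le_trans (card_le_card (t := insert x ((U.erase x).filter (F.Adj y))) ?_)
          (card_insert_le _ _)
        intro z hz
        by_cases hzx : z = x
        · simp [hzx]
        · simp only [mem_filter] at hz; simp [hz, hzx]
      · apply card_le_card
        intro z hz
        simp only [mem_filter] at hz
        have : z ≠ x := by rintro rfl; exact hxy hz.2.symm
        simp [hz, this]
    have h4 := sum_le_sum h3
    rw [sum_add_distrib, ← card_filter] at h4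
    have h5 : ((U.erase x).filter (fun y => F.Adj x y)).card ≤ (U.filter (F.Adj x)).card :=
      card_le_card (filter_subset_filter _ (erase_subset _ _))
    omega

variable {G : SimpleGraph V} [hG : Nice G]

/-- Ordered pairs of neighbours from a subset of a ball. -/
lemma Acy.count_ball (h : Acy F) (o : V) (m : ℕ) {U : Finset V} (hU : U ⊆ ball G o m)
    {r : V → V → Prop} (hr : ∀ x ∈ U, ∀ y, r x y → F.Adj x y ∧ (y ∈ ball G o m → y ∈ U)) :
    ∑ x ∈ U, ((nb G x).filter (r x)).card ≤ 2 * U.card + dg G * (sph G o m).card := by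
  have h1 : ∀ x ∈ U, ((nb G x).filter (r x)).card ≤
      (U.filter (F.Adj x)).card + if x ∈ sph G o m then dg G else 0 := by
    intro x hx
    split_ifs with hs
    · have := card_le_card (filter_subset (r x) (nb G x))
      rw [card_nb] at this; omega
    · apply card_le_card
      intro y hy
      obtain ⟨h2, h3⟩ := mem_filter.1 hy
      refine mem_filter.2 ⟨(hr x hx y h3).2 ?_, (hr x hx y h3).1⟩
      have a1 := mem_ball.1 (hU hx)
      have a2 := dist_tri (G := G) o x y
      rw [dist_adj (mem_nb.1 h2)] at a2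
      rw [mem_sph] at hs
      rw [mem_ball]; omega
  refine (sum_le_sum h1).trans ?_
  rw [sum_add_distrib, ← sum_filter, sum_const, smul_eq_mul, mul_comm _ (dg G)]
  have := h.count U
  have : (U.filter (· ∈ sph G o m)).card ≤ (sph G o m).card :=
    card_le_card fun x hx => (mem_filter.1 hx).2
  gcongr

/-- All components are infinite. -/
def InfC (F : SimpleGraph V) : Prop := ∀ v, {y | F.Reachable v y}.Infinite

/-- The branch at `v` through the neighbour `u` is infinite. -/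
def InfBr (F : SimpleGraph V) (v u : V) : Prop := F.Adj v u ∧ {y | RIn F {v}ᶜ u y}.Infinite

def Trunk (F : SimpleGraph V) (v : V) : Prop := ∃ u1 u2, u1 ≠ u2 ∧ InfBr F v u1 ∧ InfBr F v u2

def Trif (F : SimpleGraph V) (v : V) : Prop :=
  ∃ u1 u2 u3, u1 ≠ u2 ∧ u1 ≠ u3 ∧ u2 ≠ u3 ∧ InfBr F v u1 ∧ InfBr F v u2 ∧ InfBr F v u3

omit hG in
lemma rin_decomp {A : Set V} {u y : V} (h : RIn F A u y) :
    y = u ∨ ∃ u', F.Adj u u' ∧ u' ∈ A ∧ RIn F {u}ᶜ u' y := by
  refine RIn.ind (P := fun y => y = u ∨ ∃ u', F.Adj u u' ∧ u' ∈ A ∧ RIn F {u}ᶜ u' y)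
    (Or.inl rfl) ?_ h
  intro a b _ h2 _ h4 ih
  by_cases hb : b = u
  · exact Or.inl hb
  right
  rcases ih with rfl | ⟨u', h5, h6, h7⟩
  · exact ⟨b, h2, h4, RIn.refl _ _ _⟩
  · exact ⟨u', h5, h6, h7.tail h2 (h7.mem h5.ne') hb⟩

lemma exists_infBr (hF : F ≤ G) {A : Set V} {u : V} (h : {y | RIn F A u y}.Infinite) :
    ∃ u' ∈ A, InfBr F u u' := by
  by_contra hn
  push Not at hn
  apply h
  refine ((Set.finite_singleton u).union (Set.Finite.biUnion
    (s := {u' | F.Adj u u' ∧ u' ∈ A}) (t := fun u' => {y | RIn F {u}ᶜ u' y})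
    ((hG.fin u).subset fun u' hu' => hF hu'.1) fun u' hu' => ?_)).subset fun y hy => ?_
  · by_contra hi
    exact hn u' hu'.2 ⟨hu'.1, hi⟩
  · rcases rin_decomp hy with h | ⟨u', h1, h2, h3⟩
    · exact Or.inl h
    · right
      simp only [Set.mem_iUnion]
      exact ⟨u', ⟨h1, h2⟩, h3⟩

omit hG in
lemma Acy.infBr_back (h : Acy F) {v u u1 : V} (h1 : F.Adj v u) (h2 : InfBr F v u1) (h3 : u1 ≠ u) :
    InfBr F u v :=
  ⟨h1.symm, h2.2.mono fun _ hy => h.branch h1.symm h2.1 h3 hy⟩

lemma Acy.trunk_next (h : Acy F) (hF : F ≤ G) {v u : V} (h1 : Trunk F v) (h2 : InfBr F v u) :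
    Trunk F u := by
  obtain ⟨u', h3, h4⟩ := exists_infBr hF h2.2
  obtain ⟨u1, u2, h5, h6, h7⟩ := h1
  by_cases e : u1 = u
  · exact ⟨u', v, h3, h4, h.infBr_back h2.1 h7 (by rw [← e]; exact h5.symm)⟩
  · exact ⟨u', v, h3, h4, h.infBr_back h2.1 h6 e⟩

lemma Acy.trif_count (h : Acy F) (hF : F ≤ G) (o : V) (m : ℕ) :
    ((ball G o m).filter (Trif F)).card ≤ dg G * (sph G o m).card := by
  set U := (ball G o m).filter (Trunk F) with hU
  have h1 := h.count_ball (G := G) o m (U := U) (filter_subset _ _) (r := InfBr F)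
    fun x hx y hy => ⟨hy.1, fun hy' => mem_filter.2 ⟨hy', h.trunk_next hF (mem_filter.1 hx).2 hy⟩⟩
  have h2 : ∀ x ∈ U, 2 + (if Trif F x then 1 else 0) ≤ ((nb G x).filter (InfBr F x)).card := by
    intro x hx
    split_ifs with ht
    · obtain ⟨u1, u2, u3, a1, a2, a3, a4, a5, a6⟩ := ht
      exact two_lt_card_iff.2 ⟨u1, u2, u3, mem_filter.2 ⟨mem_nb.2 (hF a4.1), a4⟩,
        mem_filter.2 ⟨mem_nb.2 (hF a5.1), a5⟩, mem_filter.2 ⟨mem_nb.2 (hF a6.1), a6⟩, a1, a2, a3⟩
    · obtain ⟨u1, u2, a1, a4, a5⟩ := (mem_filter.1 hx).2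
      exact one_lt_card.2 ⟨u1, mem_filter.2 ⟨mem_nb.2 (hF a4.1), a4⟩, u2,
        mem_filter.2 ⟨mem_nb.2 (hF a5.1), a5⟩, a1⟩
  have h3 := sum_le_sum h2
  rw [sum_add_distrib, ← card_filter, sum_const, smul_eq_mul] at h3
  have h4 : (ball G o m).filter (Trif F) ⊆ U.filter (Trif F) := by
    intro x hx
    obtain ⟨a0, u1, u2, u3, a1, a2, a3, a4, a5, a6⟩ := mem_filter.1 hx
    exact mem_filter.2 ⟨mem_filter.2 ⟨a0, u1, u2, a1, a4, a5⟩, (mem_filter.1 hx).2⟩
  have : ((ball G o m).filter (Trif F)).card ≤ (U.filter (fun x => Trif F x)).card :=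
    card_le_card h4
  omega

lemma InfC.meets_sph (h : InfC F) (hF : F ≤ G) {o u : V} {m : ℕ} (hu : u ∈ ball G o m) :
    ∃ s ∈ sph G o m, F.Reachable u s := by
  obtain ⟨y, hy, hy'⟩ := exists_far (G := G) o m (h u)
  have : (∃ s ∈ sph G o m, F.Reachable u s) ∨ G.dist o y ≤ m := by
    refine reach_ind (P := fun y => (∃ s ∈ sph G o m, F.Reachable u s) ∨ G.dist o y ≤ m)
      (Or.inr (mem_ball.1 hu)) ?_ hy
    intro a b h1 h2 ih
    rcases ih with ih | ih
    · exact Or.inl ih
    · by_cases e : G.dist o a = m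
      · exact Or.inl ⟨a, mem_sph.2 e, h1⟩
      · have := dist_tri (G := G) o a b
        rw [dist_adj (hF h2)] at this
        right; omega
  exact this.resolve_right (by omega)

/-- The only edge of `F` leaving `β` goes from `e0` to `e1`. -/
def Pend (F : SimpleGraph V) (β : Finset V) (e0 e1 : V) : Prop :=
  ∀ a ∈ β, ∀ b, b ∉ β → F.Adj a b → a = e0 ∧ b = e1

omit hG in
lemma Pend.rin {β : Finset V} {e0 e1 : V} (h : Pend F β e0 e1) {A : Set V} {u v : V} (hu : u ∉ β)
    (hv : v ∉ β) (hr : RIn F A u v) : RIn F (A \ β) u v := by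
  have : (v ∉ β → RIn F (A \ β) u v) ∧ (v ∈ β → RIn F (A \ β) u e1) := by
    refine RIn.ind (P := fun v => (v ∉ β → RIn F (A \ β) u v) ∧ (v ∈ β → RIn F (A \ β) u e1))
      ⟨fun _ => RIn.refl _ _ _, fun h => absurd h hu⟩ ?_ hr
    intro a b _ h2 h3 h4 ih
    by_cases ha : a ∈ β
    · exact ⟨fun hb => by rw [(h a ha b hb h2).2]; exact ih.2 ha, fun _ => ih.2 ha⟩
    · exact ⟨fun hb => (ih.1 ha).tail h2 ⟨h3, ha⟩ ⟨h4, hb⟩,
        fun hb => by rw [← (h b hb a ha h2.symm).2]; exact ih.1 ha⟩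
  exact this.1 hv

omit hG in
lemma Pend.reach_iff {β : Finset V} {e0 e1 : V} (h : Pend F β e0 e1) {u v : V} (hu : u ∉ β)
    (hv : v ∉ β) : F.Reachable u v ↔ RIn F (↑β)ᶜ u v :=
  ⟨fun hr => by simpa [Set.compl_eq_univ_sdiff] using h.rin hu hv (rin_univ.2 hr), RIn.reach⟩

omit hG in
lemma Pend.reach_exit {β : Finset V} {e0 e1 : V} (h : Pend F β e0 e1) (hI : InfC F) {u : V}
    (hu : u ∈ β) : F.Reachable u e1 := by
  obtain ⟨y, hy, hy'⟩ := (hI u).exists_notMem_finset β
  have : F.Reachable u e1 ∨ y ∈ β := by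
    refine reach_ind (P := fun y => F.Reachable u e1 ∨ y ∈ β) (Or.inr hu) ?_ hy
    intro a b h1 h2 ih
    rcases ih with ih | ih
    · exact Or.inl ih
    · by_cases hb : b ∈ β
      · exact Or.inr hb
      · left; rw [← (h a ih b hb h2).2]; exact h1.trans h2.reachable
  exact this.resolve_right hy'

/-- In a one-ended tree every finite set lies in a finite past. -/
lemma exists_past (hF : F ≤ G) (hA : Acy F) (hI : InfC F) (hT : ∀ v, ¬ Trunk F v) (k : V)
    (S : Finset V) (hS : ∀ s ∈ S, F.Reachable k s) :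
    ∃ (β : Finset V) (e0 e1 : V), S ⊆ β ∧ e0 ∈ β ∧ e1 ∉ β ∧ F.Adj e0 e1 ∧ Pend F β e0 e1 ∧
      F.Reachable k e0 := by
  have hp : ∀ v, ∃ p, InfBr F v p := fun v => by
    obtain ⟨p, -, h⟩ := exists_infBr hF (A := Set.univ) (u := v) (by simpa [rin_univ] using hI v)
    exact ⟨p, h⟩
  choose par hpar using hp
  have fin : ∀ v, {y | RIn F {par v}ᶜ v y}.Finite := by
    intro v
    by_contra hi
    obtain ⟨u', h1, h2⟩ := exists_infBr hF hi
    exact hT v ⟨u', par v, h1, h2, hpar v⟩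
  have step : ∀ v y, RIn F {par v}ᶜ v y → RIn F {par (par v)}ᶜ (par v) y := by
    intro v y hy
    have h1 : par (par v) ≠ v := by
      intro e
      have := (hpar (par v)).2
      rw [e] at this
      exact this (fin v)
    exact hA.branch (hpar (par v)).1.symm (hpar v).1.symm h1.symm hy
  have iter : ∀ n j y, RIn F {par (par^[n] k)}ᶜ (par^[n] k) y →
      RIn F {par (par^[n + j] k)}ᶜ (par^[n + j] k) y := by
    intro n j y hy
    induction j with
    | zero => exact hy
    | succ j ih =>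
      rw [← add_assoc, Function.iterate_succ_apply']
      exact step _ _ ih
  have all : ∀ y, F.Reachable k y → ∃ n, RIn F {par (par^[n] k)}ᶜ (par^[n] k) y := by
    intro y hy
    refine reach_ind (P := fun y => ∃ n, RIn F {par (par^[n] k)}ᶜ (par^[n] k) y)
      ⟨0, RIn.refl _ _ _⟩ ?_ hy
    rintro a b - h2 ⟨n, ih⟩
    by_cases hb : b = par (par^[n] k)
    · refine ⟨n + 1, ?_⟩
      rw [Function.iterate_succ_apply', hb]
      exact RIn.refl _ _ _
    · exact ⟨n, ih.tail h2 (ih.mem (hpar _).1.ne) hb⟩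
  have hN : ∃ N, ∀ s ∈ S, RIn F {par (par^[N] k)}ᶜ (par^[N] k) s := by
    choose! nn hnn using all
    refine ⟨S.sup nn, fun s hs => ?_⟩
    have := iter (nn s) (S.sup nn - nn s) s (hnn s (hS s hs))
    rwa [Nat.add_sub_cancel' (le_sup (f := nn) hs)] at this
  obtain ⟨N, hN⟩ := hN
  have hk : ∀ n, F.Reachable k (par^[n] k) := by
    intro n
    induction n with
    | zero => exact SimpleGraph.Reachable.refl _
    | succ n ih => rw [Function.iterate_succ_apply']; exact ih.trans (hpar _).1.reachable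
  set v := par^[N] k with hv
  refine ⟨(fin v).toFinset, v, par v, fun s hs => by simpa using hN s hs,
    by simpa using RIn.refl _ _ _, ?_, (hpar v).1, ?_, hk N⟩
  · simp only [Set.Finite.mem_toFinset, Set.mem_ofPred_eq]
    exact fun h => h.mem (hpar v).1.ne rfl
  · intro a ha b hb hab
    simp only [Set.Finite.mem_toFinset, Set.mem_ofPred_eq] at ha hb
    have h1 : b = par v := by
      by_contra hn
      exact hb (ha.tail hab (ha.mem (hpar v).1.ne) hn)
    refine ⟨?_, h1⟩
    by_contra hn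
    subst h1
    exact hA _ v a (hpar v).1.symm hab.symm (Ne.symm hn) ha

end Pool.Agent.MP_12d2c5_pr

end MrgPart0

-- ======== part 1: formerly Pool.Agent.MP_12d2c5_pr.Wired
section MrgPart1

/-! The free limit is also the wired limit; multi-point bounds for the limit measure. -/

open scoped Classical ENNReal
open Finset MeasureTheory Filter

namespace Pool.Agent.MP_12d2c5_pr

open MP_f8cd8e_pr

section Gen

variable {Ω : Type} [MeasurableSpace Ω] {ν : Measure Ω} [IsProbabilityMeasure ν]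

omit [MeasurableSpace Ω] in
lemma ind_eq (E : Set Ω) : (fun ω => ind (ω ∈ E)) = E.indicator 1 := by
  ext ω; by_cases h : ω ∈ E <;> simp [ind, h]

lemma sum_meas_le {κ κ' : Type} (s : Finset κ) (s' : Finset κ') {E : κ → Set Ω} {E' : κ' → Set Ω}
    (hE : ∀ i, MeasurableSet (E i)) (hE' : ∀ i, MeasurableSet (E' i)) {c : ℝ}
    (h : ∀ᵐ ω ∂ν, ∑ i ∈ s, ind (ω ∈ E i) ≤ c + ∑ j ∈ s', ind (ω ∈ E' j)) :
    ∑ i ∈ s, ν.real (E i) ≤ c + ∑ j ∈ s', ν.real (E' j) := by
  have i1 : ∀ E : Set Ω, MeasurableSet E → Integrable (fun ω => ind (ω ∈ E)) ν := by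
    intro E hE; rw [ind_eq]; exact (integrable_const (1 : ℝ)).indicator hE
  have i2 : ∀ E : Set Ω, MeasurableSet E → ∫ ω, ind (ω ∈ E) ∂ν = ν.real E := by
    intro E hE; rw [ind_eq, integral_indicator_one hE]
  have i3 := integrable_finsetSum s fun i _ => i1 _ (hE i)
  have i4 := integrable_finsetSum s' fun i _ => i1 _ (hE' i)
  have := integral_mono_ae i3 ((integrable_const c).add i4) h
  simp only [Pi.add_apply] at this
  rw [integral_add (integrable_const c) i4, integral_finsetSum _ fun i _ => i1 _ (hE i),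
    integral_finsetSum _ fun i _ => i1 _ (hE' i)] at this
  simpa [i2 _ (hE _), i2 _ (hE' _)] using this

lemma sum_meas_le' {κ : Type} (s : Finset κ) {E : κ → Set Ω}
    (hE : ∀ i, MeasurableSet (E i)) {c : ℝ} (h : ∀ᵐ ω ∂ν, ∑ i ∈ s, ind (ω ∈ E i) ≤ c) :
    ∑ i ∈ s, ν.real (E i) ≤ c := by
  simpa using sum_meas_le (ν := ν) s (∅ : Finset Unit) (E' := fun _ => ∅) hE
    (fun _ => MeasurableSet.empty) (c := c) (by simpa using h)

end Gen

variable {V : Type} {G : SimpleGraph V} [hG : Nice G] {ν : Measure (Om V)} [IsProbabilityMeasure ν]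
  {d : ℝ}

lemma le_of_folner (hg : Growth G d) (o : V) (R : ℕ) {a b c : ℝ} (hc : 0 ≤ c)
    (h : ∀ m, R ≤ m → a * bl G m ≤ b * bl G m + c * (sph G o m).card) : a ≤ b := by
  apply le_of_forall_pos_le_add
  intro ε hε
  obtain ⟨m, hm, h1⟩ := hg.folner (ε := ε / (c + 1)) (by positivity) R o
  have h2 := h m hm
  have h3 : (0 : ℝ) < bl G m := by exact_mod_cast bl_pos G m
  have h4 : c * (ε / (c + 1)) ≤ ε := by
    rw [← mul_div_assoc, div_le_iff₀ (by positivity)]; nlinarith
  have h5 := mul_le_mul_of_nonneg_left h1 hc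
  have : a * bl G m ≤ (b + ε) * bl G m := by nlinarith
  exact le_of_mul_le_mul_right this h3

lemma FLim.deg_le (h : FLim G ν) (hg : Growth G d) (x : V) :
    ∑ y ∈ nb G x, ν.real {ω | ω s(x, y) = true} ≤ 2 := by
  set a : V → ℝ := fun x => ∑ y ∈ nb G x, ν.real {ω | ω s(x, y) = true} with ha
  have hc : ∀ z, a z = a x := by
    intro z
    obtain ⟨φ, rfl⟩ := hG.trans x z
    simp only [ha]
    rw [nb_iso, sum_image fun a _ b _ h => φ.injective h]
    apply sum_congr rfl; intro y _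
    exact (h.inv φ).measureReal_preimage (meas_coord s(x, y)).setOf.nullMeasurableSet
  refine le_of_folner hg x 0 (c := dg G) (by positivity) fun m _ => ?_
  have := sum_meas_le' (ν := ν) ((ball G x m).sigma fun z => nb G z)
    (E := fun p => {ω | ω s(p.1, p.2) = true}) (fun p => (meas_coord _).setOf)
    (c := 2 * bl G m + dg G * (sph G x m).card) (by
      filter_upwards [h.acy] with ω hω
      have := hω.count_ball (G := G) x m (U := ball G x m) subset_rfl (r := (Fg G ω).Adj)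
        fun x _ y hy => ⟨hy, id⟩
      rw [card_ball] at this
      rw [sum_sigma]
      refine le_trans (le_of_eq ?_) (by exact_mod_cast this :
        ((∑ z ∈ ball G x m, ((nb G z).filter ((Fg G ω).Adj z)).card : ℕ) : ℝ) ≤ _)
      push_cast
      apply sum_congr rfl; intro z _
      rw [sum_ind]
      congr 2
      ext y
      simp only [mem_filter, mem_nb, Fg_adj]
      tauto)
  rw [sum_sigma] at this
  change ∑ z ∈ ball G x m, a z ≤ _ at this
  simp only [hc, sum_const, card_ball, nsmul_eq_mul] at this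
  change a x * _ ≤ _
  linarith

/-- The wired spanning forest of the ball. -/
noncomputable def WE (G : SimpleGraph V) [Nice G] (o : V) (n : ℕ) : (Om V → ℝ) →ₗ[ℝ] ℝ where
  toFun ψ := EW G (Subtype.val : Bs G o n → V) 1 fun g => ψ (cfgT Subtype.val (TG g))
  map_add' ψ ψ' := by
    simpa [EW] using Ex_lin (cN G (Subtype.val : Bs G o n → V) 1 (kl G Subtype.val)) ∅
      (fun g => ψ (cfgT Subtype.val (TG g))) (fun g => ψ' (cfgT Subtype.val (TG g))) 1 1
  map_smul' c ψ := by
    simpa [EW] using Ex_lin (cN G (Subtype.val : Bs G o n → V) 1 (kl G Subtype.val)) ∅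
      (fun g => ψ (cfgT Subtype.val (TG g))) (fun g => ψ (cfgT Subtype.val (TG g))) c 0

lemma WE_apply (o : V) (n : ℕ) (ψ : Om V → ℝ) : WE G o n ψ =
    EW G (Subtype.val : Bs G o n → V) 1 fun g => ψ (cfgT Subtype.val (TG g)) := rfl

lemma connTo_ball (o : V) (n : ℕ) : ConnTo G (Subtype.val : Bs G o n → V) ⟨o, by simp⟩ := by
  rintro ⟨z, hz⟩
  induction hk : G.dist o z generalizing z with
  | zero =>
    have := dist_zero.1 hk
    subst this
    exact Relation.ReflTransGen.refl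
  | succ k ih =>
    obtain ⟨x', h1, h2⟩ := exists_next (G := G) (x := z) (y := o) (by rintro rfl; simp at hk)
    rw [SimpleGraph.dist_comm, SimpleGraph.dist_comm (u := z)] at h2
    have h3 : G.dist o z ≤ n := hz
    exact Relation.ReflTransGen.head (b := ⟨x', show G.dist o x' ≤ n by omega⟩) h1
      (ih x' _ (by omega))

lemma FE_apply (o : V) (n : ℕ) (ψ : Om V → ℝ) : FE G o n ψ =
    EF G (Subtype.val : Bs G o n → V) ⟨o, by simp⟩ 1 fun g => ψ (cfgT Subtype.val (TG g)) :=
  av_trs Subtype.val_injective _ ψ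

omit hG in
lemma ind_cfgT {U : Type} (ι : U → V) (e : Sym2 V) (g : U → U) :
    ind (cfgT ι (TG g) e = true) = ind (XE ι e g) := ind_congr cfgT_true

lemma EW_nonneg {U : Type} [Fintype U] (ι : U → V) {ψ : (U → U) → ℝ} (h : ∀ g, 0 ≤ ψ g) :
    0 ≤ EW G ι 1 ψ := by
  have := Ex_mono (cN_nonneg (G := G) (ι := ι) one_pos' (kl_nonneg (G := G) (ι := ι))) (T := ∅)
    (ψ := fun _ => 0) (ψ' := ψ) fun g _ _ => h g
  rwa [Ex_const (FF_wired one_pos' _)] at this

lemma wired_ge (hg : Growth G d) (o x : V) {ε : ℝ} (hε : 0 < ε) :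
    ∀ᶠ n in atTop, 2 - ε ≤ ∑ y ∈ nb G x, WE G o n fun ω => ind (ω s(x, y) = true) := by
  obtain ⟨m, -, hm⟩ := hg.folner (ε := ε / 2) (by positivity) 0 o
  set ι : Bs G o m → V := Subtype.val with hι
  have inj : Function.Injective ι := Subtype.val_injective
  have cU : Fintype.card (Bs G o m) = bl G m := by
    rw [← card_ball o m]
    exact Fintype.card_of_subtype _ (by simp)
  have h1 := wired_avg (G := G) inj
  have h2 : (bl G m : ℝ) ≤ (univ.filter fun x : Bs G o m => kl G ι x = 0).card +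
      (sph G o m).card := by
    have a1 := card_filter_add_card_filter_not (s := (univ : Finset (Bs G o m)))
      (fun x => kl G ι x = 0)
    have a2 : (univ.filter fun x : Bs G o m => ¬ kl G ι x = 0).card ≤ (sph G o m).card := by
      apply card_le_card_of_injOn ι _ inj.injOn
      intro z hz
      simp only [coe_filter, mem_univ, true_and, Set.mem_ofPred_eq, kl, Nat.cast_eq_zero,
        card_eq_zero] at hz
      obtain ⟨y, hy⟩ := nonempty_iff_ne_empty.2 hz
      obtain ⟨b1, b2⟩ := mem_filter.1 hy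
      have b3 : ¬ G.dist o y ≤ m := fun h => b2 ⟨⟨y, h⟩, rfl⟩
      have b4 := dist_tri (G := G) o (ι z) y
      rw [dist_adj (mem_nb.1 b1)] at b4
      have b5 : G.dist o (ι z) ≤ m := z.2
      simp only [mem_coe, mem_sph]; omega
    rw [card_univ, cU] at a1
    exact_mod_cast (by omega)
  have hne : (univ : Finset (Bs G o m)).Nonempty := ⟨⟨o, by simp⟩, mem_univ _⟩
  obtain ⟨z, -, hz⟩ := exists_le_of_sum_le (f := fun _ => 2 - ε) hne (by
    refine le_trans ?_ h1
    simp only [sum_const, card_univ, cU, nsmul_eq_mul]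
    nlinarith)
  obtain ⟨φ, hφ⟩ := hG.trans (ι z) x
  filter_upwards [eventually_ge_atTop (G.dist o (φ o) + m)] with n hn
  refine hz.trans ?_
  have hb : ∀ w : Bs G o m, G.dist o (φ (ι w)) ≤ n := by
    intro w
    have b1 := dist_tri (G := G) o (φ o) (φ (ι w))
    have b2 : G.dist o (ι w) ≤ m := w.2
    rw [dist_iso] at b1; omega
  have h3 : ∀ y ∈ univ.filter fun y : Bs G o m => G.Adj (ι z) (ι y),
      (EW G ι 1 fun g => ind (XE ι s(ι z, ι y) g)) ≤
        WE G o n fun ω => ind (ω s(x, φ (ι y)) = true) := by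
    intro y hy
    have hy' := (mem_filter.1 hy).2
    have := le_wired (G := G) (ι := (Subtype.val : Bs G o n → V)) Subtype.val_injective
      (a := ⟨_, hb z⟩) (b := ⟨_, hb y⟩) (φ.map_adj_iff.2 hy') (by
        intro v hv
        obtain ⟨v', hv', rfl⟩ := mem_image.1 hv
        obtain ⟨w, -, rfl⟩ := mem_image.1 hv'
        exact mem_image.2 ⟨⟨_, hb w⟩, mem_univ _, rfl⟩) ((low_wired inj hy').iso φ)
    simp only [WE_apply, ind_cfgT, ← hφ]
    exact this
  refine (sum_le_sum h3).trans ?_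
  rw [← sum_image (g := fun y => φ (ι y))
    (f := fun y => WE G o n fun ω => ind (ω s(x, y) = true))
    fun a _ b _ h => inj (φ.injective h)]
  apply sum_le_sum_of_subset_of_nonneg
  · intro v hv
    obtain ⟨y, hy, rfl⟩ := mem_image.1 hv
    rw [mem_nb, ← hφ]; exact φ.map_adj_iff.2 (mem_filter.1 hy).2
  · intro v _ _
    exact EW_nonneg _ fun g => ind_nonneg _

lemma edge_le (o : V) (n : ℕ) (e : Sym2 V) :
    (WE G o n fun ω => ind (ω e = true)) ≤ FE G o n fun ω => ind (ω e = true) := by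
  simp only [WE_apply, FE_apply, ind_cfgT]
  exact edge_compare Subtype.val_injective one_pos' (connTo_ball o n) e

lemma FLim.delta (h : FLim G ν) (hg : Growth G d) (o : V) (e : Sym2 V) :
    Tendsto (fun n => (FE G o n - WE G o n) fun ω => ind (ω e = true)) atTop (nhds 0) := by
  simp only [LinearMap.sub_apply]
  induction e using Sym2.ind with
  | h x y =>
  by_cases hxy : G.Adj x y
  · have t1 := tendsto_finsetSum (nb G x) fun y _ => h o _ (cyl_coord s(x, y) true)
    have t2 := h.deg_le hg x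
    rw [Metric.tendsto_nhds]
    intro ε hε
    filter_upwards [wired_ge hg o x (half_pos hε),
      t1.eventually (gt_mem_nhds (lt_of_le_of_lt t2 (show (2 : ℝ) < 2 + ε / 2 by linarith)))]
      with n h1 h2
    have h3 := single_le_sum (f := fun y => (FE G o n fun ω => ind (ω s(x, y) = true)) -
      WE G o n fun ω => ind (ω s(x, y) = true)) (fun y _ => sub_nonneg.2 (edge_le o n _))
      (mem_nb.2 hxy)
    rw [sum_sub_distrib] at h3
    rw [Real.dist_eq, sub_zero, abs_of_nonneg (sub_nonneg.2 (edge_le o n _))]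
    change ∑ y ∈ nb G x, (FE G o n fun ω => ind (ω s(x, y) = true)) < _ at h2
    linarith
  · refine tendsto_const_nhds.congr fun n => ?_
    have h1 : (FE G o n fun ω => ind (ω s(x, y) = true)) = 0 := by
      rw [FE, av_apply, sum_eq_zero, zero_div]
      intro ω hω
      obtain ⟨T, -, hT, rfl⟩ := mem_trs.1 hω
      apply ind_neg
      intro h
      obtain ⟨a, b, h1, e⟩ := cfgT_true.1 h
      apply hxy
      rw [← SimpleGraph.mem_edgeSet, e]
      exact hT a b h1
    have h2 := edge_le (G := G) o n s(x, y)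
    have h3 : 0 ≤ WE G o n fun ω => ind (ω s(x, y) = true) := EW_nonneg _ fun g => ind_nonneg _
    linarith

theorem FLim.wlim (h : FLim G ν) (hg : Growth G d) (o : V) {s : Set (Om V)} (hs : Cyl s) :
    Tendsto (fun n => WE G o n fun ω => ind (ω ∈ s)) atTop (nhds (ν.real s)) := by
  have key : ∀ A : Finset (Sym2 V), Tendsto (fun n => (FE G o n - WE G o n)
      fun ω => ∏ e ∈ A, (1 + ind (ω e = true))) atTop (nhds 0) := by
    have e1 : ∀ (A : Finset (Sym2 V)) (n : ℕ), ((FE G o n - WE G o n)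
        fun ω => ∏ e ∈ A, (1 + ind (ω e = true))) =
        EF G (Subtype.val : Bs G o n → V) ⟨o, by simp⟩ 1 (YE Subtype.val A) -
        EW G (Subtype.val : Bs G o n → V) 1 (YE Subtype.val A) := by
      intro A n
      simp only [LinearMap.sub_apply, WE_apply, FE_apply, ind_cfgT]
      rfl
    intro A
    induction A using Finset.induction_on with
    | empty =>
      refine tendsto_const_nhds.congr fun n => ?_
      have : YE (Subtype.val : Bs G o n → V) (∅ : Finset (Sym2 V)) = fun _ => 1 := by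
        ext; simp [YE]
      rw [e1, this, EW, EF, Ex_const (FF_wired one_pos' _),
        Ex_const (FF_free one_pos' (connTo_ball o n) _ subset_rfl), sub_self]
    | insert e A he ih =>
      have t1 := (ih.const_mul 3).add ((h.delta hg o e).const_mul (2 ^ A.card))
      simp only [mul_zero, add_zero] at t1
      refine squeeze_zero (fun n => ?_) (fun n => ?_) t1
      · rw [e1]
        exact sub_nonneg.2 (Y_compare Subtype.val_injective (connTo_ball o n) _ one_pos')
      · rw [e1, e1]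
        simp only [LinearMap.sub_apply, WE_apply, FE_apply, ind_cfgT]
        exact Y_step Subtype.val_injective (connTo_ball o n) he one_pos'
  refine conv_cyl (fun A => ?_) hs
  have t1 := h o {ω | ∀ e ∈ A, ω e = true} ⟨A, fun ω ω' h h' e he => (h e he).symm.trans (h' e he)⟩
  have t2 := t1.sub (conv_mono key A)
  simpa using t2

end Pool.Agent.MP_12d2c5_pr

end MrgPart1

-- ======== part 2: formerly Pool.Agent.MP_12d2c5_pr.Meas
section MrgPart2

/-! Multi-point bounds, infinite components, null equivariant events, closed good sets. -/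

open scoped Classical ENNReal
open Finset MeasureTheory Filter

namespace Pool.Agent.MP_12d2c5_pr

open MP_f8cd8e_pr

variable {V : Type}

lemma RIn.self {F : SimpleGraph V} {A : Set V} {u v : V} (h : RIn F A u v) :
    RIn F {w | RIn F A u w} u v :=
  RIn.ind (P := fun v => RIn F {w | RIn F A u w} u v) (RIn.refl _ _ _)
    (fun _ _ h1 h2 h3 h4 ih => ih.tail h2 h1 (h1.tail h2 h3 h4)) h

lemma common_top {U : Type} {T : Finset U} {g : U → U} (hg : IsFor T g) {D : Set U} {w0 : U}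
    (hw0 : w0 ∈ D) : ∃ m ∈ D, ∀ w, RIn (TG g) D w0 w → RI D g w m := by
  obtain ⟨t, ht, hr⟩ := hg.2 w0
  have : ∃ m ∈ D, (g m ∈ D → g m = m) ∧ RI D g w0 m := by
    revert hw0
    refine Rch.ind (P := fun w0 => w0 ∈ D → ∃ m ∈ D, (g m ∈ D → g m = m) ∧ RI D g w0 m)
      (fun h => ⟨t, h, fun _ => ht, RI.refl _ _ _⟩) ?_ hr
    intro x _ ih hx
    by_cases h : g x ∈ D
    · obtain ⟨m, h1, h2, h3⟩ := ih h
      exact ⟨m, h1, h2, RI.head hx h3⟩
    · exact ⟨x, hx, fun h' => absurd h' h, RI.refl _ _ _⟩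
  obtain ⟨m, h1, h2, h3⟩ := this
  refine ⟨m, h1, fun w hw => RIn.ind (P := fun w => RI D g w m) h3 ?_ hw⟩
  rintro a b - ⟨h4, h5 | h5⟩ h6 h7 ih
  · rcases Relation.ReflTransGen.cases_head ih with rfl | ⟨c, hc, h8⟩
    · exact absurd ((h2 (h5 ▸ h7)).symm.trans h5) h4
    · rw [← h5, hc.2]; exact h8
  · exact RI.head h7 (h5 ▸ ih)

/-- The points `p l` are connected according to `grp`. -/
def Pat (F : SimpleGraph V) {L J : Type} (p : L → V) (grp : L → J) : Prop :=
  ∀ l l', F.Reachable (p l) (p l') ↔ grp l = grp l'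

variable {G : SimpleGraph V} [hG : Nice G] {ν : Measure (Om V)} [IsProbabilityMeasure ν] {d : ℝ}

theorem FLim.multi (h : FLim G ν) (hg : Growth G d) (hd : 8 < d) {α β γ : ℝ} (hβ : β < d - 2)
    (hγ : d < γ) (hα : 0 ≤ α) (e : α + γ = 2 * β) (L J : Type) [Fintype L] [Fintype J] :
    ∃ C : ℝ, 0 ≤ C ∧ ∀ (p : L → V) (grp : L → J) (S : Finset L → ℝ), Spread G p α S →
      ν {ω | Pat (Fg G ω) p grp} ≤
        ENNReal.ofReal (C * ∏ j, S (univ.filter fun l => grp l = j)) := by
  obtain ⟨C, hC, hm⟩ := multi_fin hg hd hβ hγ hα e L J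
  refine ⟨C, hC, fun p grp S hS => ?_⟩
  set o := org G
  set W : ℕ → Set (Om V) := fun M =>
    {ω | ∀ l l', RIn (Fg G ω) (ball G o M) (p l) (p l') ↔ grp l = grp l'} with hW
  have cW : ∀ M, Cyl (W M) := fun M => ⟨(ball G o M).sym2, fun ω ω' h hs l l' =>
    Iff.trans ⟨cyl_rin subset_rfl fun e he => (h e he).symm, cyl_rin subset_rfl h⟩ (hs l l')⟩
  have b0 : 0 ≤ C * ∏ j, S (univ.filter fun l => grp l = j) :=
    mul_nonneg hC (prod_nonneg fun j _ => hS.nonneg _)
  have key : ∀ M, univ.sup (fun l => G.dist o (p l)) ≤ M →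
      ν (W M) ≤ ENNReal.ofReal (C * ∏ j, S (univ.filter fun l => grp l = j)) := by
    intro M hM
    have hp : ∀ l, G.dist o (p l) ≤ M := fun l =>
      (le_sup (f := fun l => G.dist o (p l)) (mem_univ l)).trans hM
    rw [ENNReal.le_ofReal_iff_toReal_le (measure_ne_top _ _) b0]
    refine le_of_tendsto (h.wlim hg o (cW M)) ?_
    filter_upwards [eventually_ge_atTop M] with n hn
    set ι : Bs G o n → V := Subtype.val with hι
    have inj : Function.Injective ι := Subtype.val_injective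
    set pos : L → Bs G o n := fun l => ⟨p l, (hp l).trans hn⟩ with hpos
    refine le_trans ?_ (hm _ ι inj pos (fun j => univ.filter fun l => grp l = j) S hS)
    rw [WE_apply]
    apply Ex_mono (cN_nonneg one_pos' kl_nonneg)
    intro g hg hw
    apply ind_mono
    intro hω
    set A : Set (Bs G o n) := ι ⁻¹' ball G o M with hA
    have r1 : ∀ l l', RIn (TG g) A (pos l) (pos l') ↔ grp l = grp l' := by
      intro l l'
      rw [← hω l l']
      constructor
      · intro hr
        refine RIn.ind (P := fun b => RIn (Fg G (cfgT ι (TG g))) (ball G o M) (p l) (ι b))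
          (RIn.refl _ _ _) ?_ hr
        intro a b _ h2 h3 h4 ih
        exact ih.tail (Fg_adj.2 ⟨adj_of_TG hg hw h2, (cfgT_iff inj).2 h2⟩) h3 h4
      · intro hr
        obtain ⟨b, e, hb⟩ := cfgT_rin inj (a := pos l) hr
        rwa [← inj (show ι (pos l') = ι b from e)] at hb
    set D : J → Set (Bs G o n) := fun j => {w | ∃ l, grp l = j ∧ RIn (TG g) A (pos l) w} with hD
    have top : ∀ j, ∃ m, (∀ w ∈ D j, RI (D j) g w m) ∧ ((∃ l, grp l = j) → m ∈ D j) := by
      intro j
      by_cases hj : ∃ l, grp l = j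
      · obtain ⟨l, rfl⟩ := hj
        have e1 : D (grp l) = {w | RIn (TG g) A (pos l) w} := by
          ext w
          exact ⟨fun ⟨l', h1, h2⟩ => ((r1 l l').2 h1.symm).trans h2, fun h => ⟨l, rfl, h⟩⟩
        obtain ⟨m, h1, h2⟩ := common_top hg (D := D (grp l)) (w0 := pos l)
          ⟨l, rfl, RIn.refl _ _ _⟩
        exact ⟨m, fun w hw => h2 w (by rw [e1] at hw ⊢; exact RIn.self hw), fun _ => h1⟩
      · exact ⟨⟨o, by simp⟩, fun w ⟨l, h, _⟩ => absurd ⟨l, h⟩ hj, fun h => absurd h hj⟩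
    choose m hm1 hm2 using top
    refine ⟨Set.univ, m, D, by simp, ?_, fun j _ => hm1 j, ?_, ?_, ?_⟩
    · intro j _ j' _ hne
      rw [Set.disjoint_left]
      rintro w ⟨l, rfl, h1⟩ ⟨l', rfl, h2⟩
      exact hne ((r1 l l').1 (h1.trans h2.symm))
    · rintro j - ⟨l, hl⟩
      exact hm2 j ⟨l, (mem_filter.1 hl).2⟩
    · intro j _ hj
      rw [Set.eq_empty_iff_forall_notMem]
      rintro w ⟨l, hl, -⟩
      exact hj ⟨l, mem_filter.2 ⟨mem_univ _, hl⟩⟩
    · intro j _ l hl
      exact ⟨l, (mem_filter.1 hl).2, RIn.refl _ _ _⟩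
  have sub : {ω | Pat (Fg G ω) p grp} ⊆ ⋃ M0, ⋂ M ≥ M0, W M := by
    intro ω hω
    have : ∀ᶠ M in atTop, ∀ l l', RIn (Fg G ω) (ball G o M) (p l) (p l') ↔ grp l = grp l' := by
      simp only [eventually_all]
      intro l l'
      by_cases hl : grp l = grp l'
      · obtain ⟨M, hM⟩ := rin_ball (G := G) o (rin_univ.2 ((hω l l').2 hl))
        filter_upwards [eventually_ge_atTop M] with M' hM'
        exact iff_of_true (by simpa using hM M' hM') hl
      · exact Eventually.of_forall fun M => iff_of_false (fun h => hl ((hω l l').1 h.reach)) hl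
    obtain ⟨M0, hM0⟩ := eventually_atTop.1 this
    simp only [Set.mem_iUnion, Set.mem_iInter]
    exact ⟨M0, hM0⟩
  refine (measure_mono sub).trans ?_
  rw [Monotone.measure_iUnion fun a b hab => Set.biInter_subset_biInter_left
    fun M (hM : M ≥ b) => (show M ≥ a from hab.trans hM)]
  refine iSup_le fun M0 => le_trans (measure_mono ?_) (key (M0 + _) (Nat.le_add_left _ _))
  exact Set.biInter_subset_of_mem (show M0 + _ ≥ M0 from Nat.le_add_right _ _)

theorem FLim.infC (h : FLim G ν) : ∀ᵐ ω ∂ν, InfC (Fg G ω) := by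
  have := countable_V G
  have key : ∀ β : Finset V, ∀ᵐ ω ∂ν, β.Nonempty → ∃ e ∈ ex G β, ω e = true := by
    intro β
    by_cases hβ : β.Nonempty
    swap
    · exact Eventually.of_forall fun _ h => absurd h hβ
    obtain ⟨x, hx⟩ := hβ
    have := hG.inf
    obtain ⟨y, hy⟩ := Infinite.exists_notMem_finset β
    have : ∃ a b, a ∈ β ∧ b ∉ β ∧ G.Adj a b := by
      by_contra hn
      push Not at hn
      exact hy (reach_ind (P := (· ∈ β)) hx
        (fun a b _ h2 ih => by by_contra hb; exact hn a b ih hb h2) (hG.conn x y))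
    obtain ⟨a, b, ha, hb, hab⟩ := this
    have h1 := h.swap ha hb hab (s := {ω | ∀ e ∈ ex G β, ω e = false})
      (Cyl.meas ⟨ex G β, fun ω ω' h h' e he => (h e he).symm.trans (h' e he)⟩)
    rw [sum_eq_zero] at h1
    · rw [ae_iff]
      refine measure_mono_null (fun ω hω => ?_) (nonpos_iff_eq_zero.1 h1)
      simp only [Set.mem_ofPred_eq, Classical.not_imp, not_exists, not_and,
        Bool.not_eq_true] at hω
      exact ⟨hω.2, hω.2 _ (mem_ex.2 ⟨a, b, ha, hb, hab, rfl⟩)⟩
    · intro e he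
      convert measure_empty (μ := ν)
      rw [Set.eq_empty_iff_forall_notMem]
      rintro ω ⟨⟨-, h2⟩, h3⟩
      have := h3 e he
      rw [sw_left, h2] at this
      exact absurd this (by simp)
  rw [← ae_all_iff] at key
  filter_upwards [key] with ω hω v hf
  obtain ⟨e, he, h1⟩ := hω hf.toFinset ⟨v, by simp⟩
  obtain ⟨x, y, hx, hy, hxy, rfl⟩ := mem_ex.1 he
  simp only [Set.Finite.mem_toFinset, Set.mem_ofPred_eq] at hx hy
  exact hy (hx.trans (Fg_adj.2 ⟨hxy, h1⟩).reachable)

lemma FLim.real_le (h : FLim G ν) {P : V → SimpleGraph V → Prop} (hm : ∀ x, Measurable (P x))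
    (he : ∀ (φ : G ≃g G) x F, P x (F.comap φ) → P (φ x) F) (x y : V) :
    ν.real {ω | P x (Fg G ω)} ≤ ν.real {ω | P y (Fg G ω)} := by
  obtain ⟨φ, rfl⟩ := hG.trans x y
  rw [← (h.inv φ).measureReal_preimage (s := {ω | P x (Fg G ω)})
    ((hm x).comp (measurable_Fg G)).setOf.nullMeasurableSet]
  refine measureReal_mono fun ω hω => he φ x _ ?_
  rw [← Fg_act]; exact hω

theorem FLim.null (h : FLim G ν) (hg : Growth G d) {P : V → SimpleGraph V → Prop}
    (hm : ∀ x, Measurable (P x)) (he : ∀ (φ : G ≃g G) x F, P x (F.comap φ) → P (φ x) F) (R : ℕ)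
    {C : ℝ} (hC : 0 ≤ C) (hc : ∀ᵐ ω ∂ν, ∀ o m,
      (((ball G o m).filter fun x => P x (Fg G ω)).card : ℝ) ≤ C * (sph G o (m + R)).card) :
    ∀ᵐ ω ∂ν, ∀ x, ¬ P x (Fg G ω) := by
  have := countable_V G
  rw [ae_all_iff]
  intro x
  have h1 : ν.real {ω | P x (Fg G ω)} ≤ 0 := by
    refine le_of_folner hg x R (c := C * bl G R) (by positivity) fun m hm' => ?_
    obtain ⟨m, rfl⟩ := Nat.exists_eq_add_of_le' hm'
    have a1 := sum_meas_le' (ν := ν) (ball G x m) (E := fun y => {ω | P y (Fg G ω)})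
      (fun y => ((hm y).comp (measurable_Fg G)).setOf) (c := C * (sph G x (m + R)).card) (by
        filter_upwards [hc] with ω hω
        rw [sum_ind]; exact hω x m)
    have a2 := sum_le_sum (s := ball G x m) fun y _ => h.real_le hm he x y
    rw [sum_const, card_ball, nsmul_eq_mul] at a2
    have a3 : (bl G (m + R) : ℝ) ≤ bl G m * bl G R := by exact_mod_cast bl_add G m R
    have a4 : 0 ≤ ν.real {ω | P x (Fg G ω)} := measureReal_nonneg
    have a5 : (0 : ℝ) ≤ bl G R := by positivity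
    nlinarith [mul_le_mul_of_nonneg_left a3 a4, mul_le_mul_of_nonneg_left (a2.trans a1) a5]
  rw [ae_iff]
  simp only [not_not]
  exact (measureReal_eq_zero_iff (measure_ne_top _ _)).1 (le_antisymm h1 measureReal_nonneg)

/-- `F'` is obtained from `F` by replacing the edge `w w'` by the edge `w a`. -/
def Mov (F F' : SimpleGraph V) (w w' a : V) : Prop :=
  F.Adj w w' ∧ ∀ u v, F'.Adj u v ↔ (F.Adj u v ∧ s(u, v) ≠ s(w, w')) ∨ s(u, v) = s(w, a)

/-- A family of subgraphs in which every edge can be inserted. -/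
def Closed (G : SimpleGraph V) (Gd : Set (SimpleGraph V)) : Prop :=
  ∀ F ∈ Gd, F ≤ G ∧ ∀ w a, G.Adj w a → ¬ F.Adj w a → ∃ w', ∃ F' ∈ Gd, Mov F F' w w' a

theorem FLim.closure (h : FLim G ν) {P : SimpleGraph V → Prop} (hP : ∀ᵐ ω ∂ν, P (Fg G ω)) :
    ∃ Gd : Set (SimpleGraph V), (∀ᵐ ω ∂ν, Fg G ω ∈ Gd) ∧ (∀ F ∈ Gd, P F) ∧ Closed G Gd := by
  have := countable_V G
  obtain ⟨N, hN1, hN2, hN3⟩ := exists_measurable_superset_of_null (ae_iff.1 hP)
  let K : ℕ → Set (Om V) := fun k => Nat.rec Nᶜ (fun _ S => S ∩ {ω | ∀ w a, G.Adj w a →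
    ω s(w, a) = false → ∃ w', G.Adj w w' ∧ ω s(w, w') = true ∧ sw s(w, w') s(w, a) ω ∈ S}) k
  have hK : ∀ k, K (k + 1) = K k ∩ {ω | ∀ w a, G.Adj w a → ω s(w, a) = false →
    ∃ w', G.Adj w w' ∧ ω s(w, w') = true ∧ sw s(w, w') s(w, a) ω ∈ K k} := fun k => rfl
  have anti : Antitone K := antitone_nat_of_succ_le fun k => by
    rw [hK]; exact Set.inter_subset_left
  have mf : ∀ e : Sym2 V, Measurable fun ω : Om V => ω e = false := fun e =>
    (measurable_of_countable (fun b : Bool => b = false)).comp (measurable_pi_apply e)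
  have key : ∀ k, MeasurableSet (K k) ∧ ∀ᵐ ω ∂ν, ω ∈ K k := by
    intro k
    induction k with
    | zero => exact ⟨hN2.compl, by rw [ae_iff]; simpa [K] using hN3⟩
    | succ k ih =>
      have m1 : ∀ w a : V, Measurable fun ω : Om V => ∃ w', G.Adj w w' ∧ ω s(w, w') = true ∧
          sw s(w, w') s(w, a) ω ∈ K k := fun w a => Measurable.exists fun w' =>
        measurable_const.and ((meas_coord _).and (ih.1.mem.comp (measurable_sw _ _)))
      refine ⟨ih.1.inter (Measurable.setOf (Measurable.forall fun w => Measurable.forall fun a =>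
        measurable_const.imp ((mf _).imp (m1 w a)))), ?_⟩
      have : ∀ w a, ∀ᵐ ω ∂ν, G.Adj w a → ω s(w, a) = false →
          ∃ w', G.Adj w w' ∧ ω s(w, w') = true ∧ sw s(w, w') s(w, a) ω ∈ K k := by
        intro w a
        by_cases hwa : G.Adj w a
        swap
        · exact Eventually.of_forall fun _ h => absurd h hwa
        have h1 := h.swap (β := {w}) (mem_singleton_self w) (by simpa using hwa.ne') hwa
          (m1 w a).not.setOf
        rw [sum_eq_zero] at h1
        · rw [ae_iff]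
          refine measure_mono_null (fun ω hω => ?_) (nonpos_iff_eq_zero.1 h1)
          simp only [Set.mem_ofPred_eq, Classical.not_imp] at hω
          exact ⟨hω.2.2, hω.2.1⟩
        · intro e he
          obtain ⟨x, y, hx, -, hxy, rfl⟩ := mem_ex.1 he
          rw [mem_singleton.1 hx] at hxy ⊢
          refine measure_mono_null ?_ (ae_iff.1 ih.2)
          rintro ω ⟨⟨-, h2⟩, h3⟩ h4
          exact h3 ⟨y, hxy, by rw [sw_left]; exact h2, by rw [sw_sw]; exact h4⟩
      simp only [← ae_all_iff] at this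
      filter_upwards [ih.2, this] with ω h1 h2
      exact ⟨h1, h2⟩
  refine ⟨Fg G '' ⋂ k, K k, ?_, ?_, ?_⟩
  · filter_upwards [ae_all_iff.2 fun k => (key k).2] with ω hω
    exact ⟨ω, Set.mem_iInter.2 hω, rfl⟩
  · rintro _ ⟨ω, hω, rfl⟩
    by_contra hn
    exact Set.mem_iInter.1 hω 0 (hN1 hn)
  · rintro _ ⟨ω, hω, rfl⟩
    refine ⟨Fg_le G ω, fun w a hwa hn => ?_⟩
    have hf : ω s(w, a) = false := by simpa [Fg_adj, hwa] using hn
    have : ∃ w', G.Adj w w' ∧ ω s(w, w') = true ∧ ∀ k, sw s(w, w') s(w, a) ω ∈ K k := by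
      by_contra hc
      push Not at hc
      choose! kk hkk using hc
      obtain ⟨w', h1, h2, h3⟩ := (Set.mem_iInter.1 hω ((nb G w).sup kk + 1)).2 w a hwa hf
      exact hkk w' h1 h2 (anti (le_sup (f := kk) (mem_nb.2 h1)) h3)
    obtain ⟨w', h1, h2, h3⟩ := this
    refine ⟨w', _, ⟨_, Set.mem_iInter.2 h3, rfl⟩, Fg_adj.2 ⟨h1, h2⟩, fun u v => ?_⟩
    simp only [Fg_adj]
    by_cases e2 : s(u, v) = s(w, a)
    · have : G.Adj u v := by rw [← SimpleGraph.mem_edgeSet, e2]; exact hwa
      simp [e2, h2, this]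
    by_cases e1 : s(u, v) = s(w, w')
    · simp only [e1, sw_left, hf]
      simp [← e1, e2]
    · rw [sw_other e1 e2]; tauto

end Pool.Agent.MP_12d2c5_pr

end MrgPart2

-- ======== part 3: formerly Pool.Agent.MP_12d2c5_pr.Ends
section MrgPart3

/-! The trees of the limit forest are one-ended. -/

open scoped Classical ENNReal
open Finset MeasureTheory Filter

namespace Pool.Agent.MP_12d2c5_pr

variable {V : Type} {F F' : SimpleGraph V}

lemma rin_of_walk {A : Set V} {u y : V} (q : F.Walk u y) (hq : ∀ z ∈ q.support, z ∈ A) :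
    RIn F A u y := by
  induction q with
  | nil => exact RIn.refl _ _ _
  | cons h q ih =>
    exact (RIn.single h (hq _ (by simp)) (hq _ (by simp))).trans (ih fun z hz => hq z (by simp [hz]))

lemma rin_map {V' : Type} {F : SimpleGraph V'} {φ : V → V'} {A : Set V} {A' : Set V'} {u v : V}
    (h : RIn (F.comap φ) A u v) (hA : ∀ a ∈ A, φ a ∈ A') : RIn F A' (φ u) (φ v) :=
  RIn.ind (P := fun v => RIn F A' (φ u) (φ v)) (RIn.refl _ _ _)
    (fun _ _ _ h2 h3 h4 ih => ih.tail h2 (hA _ h3) (hA _ h4)) h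

lemma InfBr.map {φ : V → V} (hφ : Function.Injective φ) {v u : V} (h : InfBr (F.comap φ) v u) :
    InfBr F (φ v) (φ u) := by
  refine ⟨h.1, (h.2.image hφ.injOn).mono ?_⟩
  rintro _ ⟨y, hy, rfl⟩
  exact rin_map hy fun a ha h => ha (hφ h)

lemma comap_comap_symm (φ : V ≃ V) (F : SimpleGraph V) : (F.comap φ).comap φ.symm = F := by
  ext u v; simp

lemma reach_comap (φ : V ≃ V) {u v : V} :
    (F.comap φ).Reachable u v ↔ F.Reachable (φ u) (φ v) := by
  rw [← rin_univ, ← rin_univ]
  refine ⟨fun h => rin_map h (by simp), fun h => ?_⟩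
  rw [← comap_comap_symm φ F] at h
  simpa using rin_map (A' := Set.univ) h (by simp)

lemma meas_infBr [Countable V] (v u : V) : Measurable fun F : SimpleGraph V => InfBr F v u :=
  (meas_adj v u).and (meas_infinite fun y => meas_rin _ u y)

lemma meas_trunk [Countable V] (v : V) : Measurable fun F : SimpleGraph V => Trunk F v :=
  Measurable.exists fun _ => Measurable.exists fun _ =>
    measurable_const.and ((meas_infBr _ _).and (meas_infBr _ _))

lemma Pend.rin_exit {β : Finset V} {e0 e1 : V} (h : Pend F β e0 e1) {A : Set V} {u y : V}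
    (hu : u ∈ β) (hy : y ∉ β) (hr : RIn F A u y) : RIn F A u e1 := by
  have : RIn F A u e1 ∨ y ∈ β := by
    refine RIn.ind (P := fun y => RIn F A u e1 ∨ y ∈ β) (Or.inr hu) ?_ hr
    intro a b h1 h2 h3 h4 ih
    rcases ih with ih | ih
    · exact Or.inl ih
    · by_cases hb : b ∈ β
      · exact Or.inr hb
      · left; rw [← (h a ih b hb h2).2]; exact h1.tail h2 h3 h4
  exact this.resolve_right hy

lemma Pend.not_trunk {β : Finset V} {e0 e1 : V} (h : Pend F β e0 e1) (hA : Acy F) {s : V}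
    (hs : s ∈ β) : ¬ Trunk F s := by
  have : ∀ u, InfBr F s u → RIn F {s}ᶜ u e1 := by
    intro u hu
    by_cases hb : u ∈ β
    · obtain ⟨y, h1, h2⟩ := hu.2.exists_notMem_finset β
      exact h.rin_exit hb h2 h1
    · rw [(h s hs u hb hu.1).2]; exact RIn.refl _ _ _
  rintro ⟨u1, u2, h1, h2, h3⟩
  exact hA s u1 u2 h2.1 h3.1 h1 ((this u1 h2).trans (this u2 h3).symm)

section Mov

variable {w w' a : V}

lemma Mov.adj (h : Mov F F' w w' a) : F'.Adj w a := (h.2 w a).2 (Or.inr rfl)

lemma Mov.keep (h : Mov F F' w w' a) {u v : V} (huv : F.Adj u v) (hu : u ≠ w) (hv : v ≠ w) :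
    F'.Adj u v := by
  refine (h.2 u v).2 (Or.inl ⟨huv, fun e => ?_⟩)
  rcases Sym2.eq_iff.1 e with ⟨e, -⟩ | ⟨-, e⟩
  · exact hu e
  · exact hv e

lemma Mov.back (h : Mov F F' w w' a) {u v : V} (huv : F'.Adj u v) (hu : u ≠ w) (hv : v ≠ w) :
    F.Adj u v := by
  rcases (h.2 u v).1 huv with h1 | e
  · exact h1.1
  · rcases Sym2.eq_iff.1 e with ⟨e, -⟩ | ⟨-, e⟩
    · exact absurd e hu
    · exact absurd e hv

lemma Mov.far (h : Mov F F' w w' a) {u v : V} (hu : ¬ F.Reachable u w) (huv : F.Adj u v) :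
    F'.Adj u v :=
  h.keep huv (by rintro rfl; exact hu (SimpleGraph.Reachable.refl _))
    (by rintro rfl; exact hu huv.reachable)

lemma Mov.rin (h : Mov F F' w w' a) {A : Set V} {u y : V} (hu : ¬ F.Reachable u w)
    (hr : RIn F A u y) : RIn F' A u y :=
  RIn.ind (P := fun y => RIn F' A u y) (RIn.refl _ _ _) (fun _ _ h1 h2 h3 h4 ih =>
    ih.tail (h.far (fun h' => hu (h1.reach.trans h')) h2) h3 h4) hr

lemma Mov.infBr (h : Mov F F' w w' a) {v u : V} (hv : ¬ F.Reachable v w) (hr : InfBr F v u) :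
    InfBr F' v u :=
  ⟨h.far hv hr.1, hr.2.mono fun _ hy => h.rin (fun h' => hv (hr.1.reachable.trans h')) hy⟩

lemma Mov.part (h : Mov F F' w w' a) (ha : ¬ F.Reachable a w) {y : V} (hy : RIn F {w'}ᶜ w y) :
    RIn F' {a}ᶜ w y := by
  refine RIn.ind (P := fun y => RIn F' {a}ᶜ w y) (RIn.refl _ _ _) ?_ hy
  intro u v h1 h2 h3 h4 ih
  refine ih.tail ((h.2 u v).2 (Or.inl ⟨h2, fun e => ?_⟩)) ?_ ?_
  · rcases Sym2.eq_iff.1 e with ⟨-, e⟩ | ⟨e, -⟩
    · exact h4 e
    · exact h3 e
  · rintro rfl; exact ha h1.reach.symm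
  · rintro rfl; exact ha (h1.tail h2 h3 h4).reach.symm

lemma Mov.pend (h : Mov F F' w w' a) (hA : Acy F) {Δ : Finset V}
    (hΔ : ∀ y, y ∈ Δ ↔ RIn F {w'}ᶜ w y) : Pend F Δ w w' := by
  intro u hu v hv huv
  rw [hΔ] at hu hv
  have h1 : v = w' := by
    by_contra hn
    exact hv (hu.tail huv (hu.mem h.1.ne) hn)
  subst h1
  refine ⟨?_, rfl⟩
  by_contra hn
  exact hA v w u h.1.symm huv.symm (Ne.symm hn) hu

lemma Mov.pend' (h : Mov F F' w w' a) (hA : Acy F) (ha : ¬ F.Reachable a w) {Δ : Finset V}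
    (hΔ : ∀ y, y ∈ Δ ↔ RIn F {w'}ᶜ w y) : Pend F' Δ w a := by
  intro u hu v hv huv
  rcases (h.2 u v).1 huv with ⟨h1, h2⟩ | e
  · obtain ⟨rfl, rfl⟩ := h.pend hA hΔ u hu v hv h1
    exact absurd rfl h2
  · rcases Sym2.eq_iff.1 e with e | ⟨rfl, rfl⟩
    · exact e
    · exact absurd ((hΔ _).1 hu).reach.symm ha

lemma Mov.rin_iff (h : Mov F F' w w' a) {A : Set V} (hw : w ∉ A) {u v : V} :
    RIn F A u v ↔ RIn F' A u v :=
  ⟨fun hr => hr.imp fun _ _ h1 h2 h3 =>
      ⟨h.keep h1 (by rintro rfl; exact hw h2) (by rintro rfl; exact hw h3), h2, h3⟩,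
    fun hr => hr.imp fun _ _ h1 h2 h3 =>
      ⟨h.back h1 (by rintro rfl; exact hw h2) (by rintro rfl; exact hw h3), h2, h3⟩⟩

end Mov

variable {G : SimpleGraph V} [hG : Nice G]

lemma three_ends (hF : F ≤ G) (hA : Acy F) (hA' : Acy F') (hT : ∀ v, ¬ Trif F' v) {a v : V}
    (p : F.Walk v a) (hp : p.IsPath) (ha : Trunk F a)
    (h2 : ∀ v u, F.Reachable v a → InfBr F v u → InfBr F' v u) :
    ∀ u, InfBr F' v u → InfBr F v u := by
  induction p with
  | nil =>
    intro u hu
    by_contra hn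
    obtain ⟨u1, u2, a1, a2, a3⟩ := ha
    exact hT _ ⟨u1, u2, u, a1, by rintro rfl; exact hn a2, by rintro rfl; exact hn a3,
      h2 _ _ (SimpleGraph.Reachable.refl _) a2, h2 _ _ (SimpleGraph.Reachable.refl _) a3, hu⟩
  | @cons v v' a h q ih =>
    intro u hu
    by_contra hn
    rw [SimpleGraph.Walk.cons_isPath_iff] at hp
    have r1 : RIn F {v}ᶜ v' a := rin_of_walk q fun z hz e => hp.2 (e ▸ hz)
    have r0 : F.Reachable v a := h.reachable.trans r1.reach
    have b1 : InfBr F v v' := by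
      have : ∃ u1, InfBr F a u1 ∧ ¬ RIn F {a}ᶜ u1 v := by
        obtain ⟨u1, u2, a1, a2, a3⟩ := ha
        by_contra hc
        push Not at hc
        exact hA a u1 u2 a2.1 a3.1 a1 ((hc u1 a2).trans (hc u2 a3).symm)
      obtain ⟨u1, a1, a2⟩ := this
      refine ⟨h, a1.2.mono fun y hy => ?_⟩
      refine RIn.ind (P := fun y => RIn F {v}ᶜ v' y) (r1.tail a1.1 (r1.mem h.ne') ?_) ?_ hy
      · rintro rfl; exact a2 (RIn.refl _ _ _)
      · intro x y h1 h3 h4 h5 ih
        refine ih.tail h3 ?_ ?_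
        · rintro rfl; exact a2 h1
        · rintro rfl; exact a2 (h1.tail h3 h4 h5)
    have b2 : u ≠ v' := by rintro rfl; exact hn b1
    have b3 := h2 _ _ r0 b1
    obtain ⟨u', b4, b5⟩ := exists_infBr hF (ih hp.1 ha h2 v (hA'.infBr_back b3.1 hu b2)).2
    exact hT v ⟨v', u', u, Ne.symm b4, b2.symm, by rintro rfl; exact hn b5, b3, h2 _ _ r0 b5, hu⟩

lemma Closed.trunk {Gd : Set (SimpleGraph V)} (hC : Closed G Gd)
    (hP : ∀ F ∈ Gd, Acy F ∧ ∀ v, ¬ Trif F v) {a s : V} (hF : F ∈ Gd) (ha : Trunk F a)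
    (hs : Trunk F s) : F.Reachable a s := by
  suffices ∀ n a', G.dist a' s = n → ∀ F ∈ Gd, Trunk F a → Trunk F s → F.Reachable a a' →
      F.Reachable a s from this _ a rfl F hF ha hs (SimpleGraph.Reachable.refl _)
  intro n
  induction n with
  | zero => intro a' h F _ _ _ hr; rwa [← dist_zero.1 h]
  | succ n ih =>
    intro a' h F hF ha hs hr
    obtain ⟨w, h1, h2⟩ := exists_next (G := G) (x := a') (y := s) (by rintro rfl; simp at h)
    by_cases hw : F.Reachable a w
    · exact ih w (by omega) F hF ha hs hw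
    by_contra hn
    have hw' : ¬ F.Reachable a' w := fun h => hw (hr.trans h)
    obtain ⟨w', F', hF', hM⟩ := (hC F hF).2 w a' h1.symm fun h => hw' h.symm.reachable
    have hA := (hP F hF).1
    have fin : {y | RIn F {w'}ᶜ w y}.Finite := by
      by_contra hi
      obtain ⟨p⟩ := hr.symm
      have := three_ends (hC F hF).1 hA (hP F' hF').1 (hP F' hF').2 p.bypass p.bypass_isPath ha
        (fun v u h3 h4 => hM.infBr (fun h => hw (h3.symm.trans h)) h4) w
        ⟨hM.adj.symm, Set.Infinite.mono (fun y hy => hM.part hw' hy) hi⟩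
      exact hw' this.1.reachable
    have hΔ : ∀ y, y ∈ fin.toFinset ↔ RIn F {w'}ᶜ w y := fun y => by simp
    have p1 := hM.pend hA hΔ
    have p2 := hM.pend' hA hw' hΔ
    have s1 : s ∉ fin.toFinset := fun h => p1.not_trunk hA h hs
    have w1 : w ∈ fin.toFinset := (hΔ w).2 (RIn.refl _ _ _)
    have a1 : a ∉ fin.toFinset := fun h => hw ((hΔ a).1 h).reach.symm
    have br : ∀ u, InfBr F s u → InfBr F' s u := by
      intro u hu
      have u1 : u ∉ fin.toFinset := by
        intro h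
        obtain ⟨rfl, rfl⟩ := p1 u h s s1 hu.1.symm
        exact hu.2 fin
      refine ⟨hM.keep hu.1 (by rintro rfl; exact s1 w1) (by rintro rfl; exact u1 w1), ?_⟩
      refine (hu.2.sdiff fin).mono fun y hy => ?_
      exact ((hM.rin_iff fun h => h.2 w1).1 (p1.rin u1 (by simpa using hy.2) hy.1)).mono
        Set.sdiff_subset
    obtain ⟨u1, u2, c1, c2, c3⟩ := ha
    obtain ⟨v1, v2, d1, d2, d3⟩ := hs
    have := ih w (by omega) F' hF' ⟨u1, u2, c1, hM.infBr hw c2, hM.infBr hw c3⟩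
      ⟨v1, v2, d1, br _ d2, br _ d3⟩
      ((hM.rin hw (rin_univ.2 hr)).reach.trans hM.adj.symm.reachable)
    exact hn ((hM.rin_iff (by simpa using w1)).2 ((p2.reach_iff a1 s1).1 this)).reach

variable {ν : Measure (Om V)} [IsProbabilityMeasure ν] {d : ℝ}

theorem FLim.noTrif (h : FLim G ν) (hg : Growth G d) : ∀ᵐ ω ∂ν, ∀ x, ¬ Trif (Fg G ω) x := by
  have := countable_V G
  refine h.null hg (P := fun x F => Trif F x) (fun x => ?_) ?_ 0 (C := dg G) (by positivity) ?_
  · exact Measurable.exists fun _ => Measurable.exists fun _ => Measurable.exists fun _ =>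
      measurable_const.and (measurable_const.and (measurable_const.and
        ((meas_infBr _ _).and ((meas_infBr _ _).and (meas_infBr _ _)))))
  · rintro φ x F ⟨u1, u2, u3, a1, a2, a3, a4, a5, a6⟩
    exact ⟨φ u1, φ u2, φ u3, φ.injective.ne a1, φ.injective.ne a2, φ.injective.ne a3,
      a4.map φ.injective, a5.map φ.injective, a6.map φ.injective⟩
  · filter_upwards [h.acy] with ω hω o m
    exact_mod_cast hω.trif_count (Fg_le G ω) o m

omit hG in
lemma spread_mk {L : Type} {p : L → V} {α : ℝ} {S : Finset L → ℝ} (h0 : ∀ X, 0 ≤ S X)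
    (h1 : ∀ X, X.card ≤ 1 → 1 ≤ S X) (h2 : ∀ X X1 X2 i1 i2, X2.card + X1.card = X.card →
      i1 ∈ X1 → i2 ∈ X2 → i1 ≠ i2 → S X1 * S X2 * el G (p i1) (p i2) ^ (-α) ≤ S X) :
    Spread G p α S :=
  ⟨h0, h1, fun X X1 i1 i2 a1 a2 a3 => h2 X X1 _ i1 i2 (card_sdiff_add_card_eq_card a1) a2 a3
    (by rintro rfl; exact (mem_sdiff.1 a3).2 a2)⟩

lemma FLim.two_pt (h : FLim G ν) (hg : Growth G d) (hd : 8 < d) {ε : ℝ} (hε : 0 < ε) :
    ∃ R : ℕ, ∀ x y, R ≤ G.dist x y → ν.real {ω | (Fg G ω).Reachable x y} ≤ ε := by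
  obtain ⟨C, hC, hm⟩ := h.multi hg hd (α := d - 7) (β := d - 3) (γ := d + 1) (by linarith)
    (by linarith) (by linarith) (by ring) Bool Unit
  obtain ⟨R, hR⟩ := exists_nat_ge (C / ε)
  refine ⟨R, fun x y hxy => ?_⟩
  have e0 : 0 ≤ el G x y ^ (-(d - 7)) := Real.rpow_nonneg (el_pos x y).le _
  have := hm (fun b => if b then x else y) (fun _ => ())
    (fun X => if 2 ≤ X.card then el G x y ^ (-(d - 7)) else 1) (spread_mk (fun X => by
      split_ifs <;> positivity) (fun X hX => by rw [if_neg (by omega)]) (by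
      intro X X1 X2 i1 i2 a1 h2 h3 a5
      have a2 := card_pos.2 ⟨_, h2⟩
      have a3 := card_pos.2 ⟨_, h3⟩
      have a4 : X.card ≤ 2 := by simpa using card_le_univ X
      rw [if_neg (show ¬ 2 ≤ X1.card by omega), if_neg (show ¬ 2 ≤ X2.card by omega),
        if_pos (show 2 ≤ X.card by omega)]
      cases i1 <;> cases i2 <;> simp [el_comm] at a5 ⊢))
  have b1 : el G x y ^ (-(d - 7)) ≤ el G x y ^ (-1 : ℝ) :=
    Real.rpow_le_rpow_of_exponent_le (one_le_el x y) (by linarith)
  rw [Real.rpow_neg_one] at b1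
  have b2 : C * (el G x y)⁻¹ ≤ ε := by
    rw [mul_inv_le_iff₀ (el_pos x y)]
    rw [div_le_iff₀ hε] at hR
    have : (R : ℝ) ≤ G.dist x y := by exact_mod_cast hxy
    unfold el; nlinarith
  refine ENNReal.toReal_le_of_le_ofReal hε.le (le_trans (measure_mono fun ω hω => ?_)
    (this.trans (ENNReal.ofReal_le_ofReal ?_)))
  · intro l l'
    cases l <;> cases l' <;> simp [show (Fg G ω).Reachable x y from hω,
      (show (Fg G ω).Reachable x y from hω).symm]
  · simp only [filter_true, card_univ, Fintype.card_bool, le_refl, if_true, prod_const,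
      Fintype.card_unit, pow_one]
    nlinarith [mul_le_mul_of_nonneg_left b1 hC]

lemma exists_sparse (G : SimpleGraph V) [hG : Nice G] (R n : ℕ) :
    ∃ Y : Finset V, Y.card = n ∧ ∀ x ∈ Y, ∀ y ∈ Y, x ≠ y → R ≤ G.dist x y := by
  induction n with
  | zero => exact ⟨∅, rfl, by simp⟩
  | succ n ih =>
    obtain ⟨Y, h1, h2⟩ := ih
    have := hG.inf
    obtain ⟨z, hz⟩ := Infinite.exists_notMem_finset (Y.biUnion fun y => ball G y R)
    simp only [mem_biUnion, mem_ball, not_exists, not_and, not_le] at hz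
    have hz' : z ∉ Y := fun h => by simpa using hz z h
    refine ⟨insert z Y, by rw [card_insert_of_notMem hz', h1], ?_⟩
    simp only [mem_insert]
    rintro x (rfl | hx) y (rfl | hy) hne
    · exact absurd rfl hne
    · rw [SimpleGraph.dist_comm]; exact (hz y hy).le
    · exact (hz x hx).le
    · exact h2 x hx y hy hne

theorem FLim.noTrunk (h : FLim G ν) (hg : Growth G d) (hd : 8 < d) :
    ∀ᵐ ω ∂ν, ∀ x, ¬ Trunk (Fg G ω) x := by
  have := countable_V G
  obtain ⟨Gd, h1, h2, h3⟩ := h.closure (P := fun F => Acy F ∧ ∀ v, ¬ Trif F v)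
    (h.acy.and (h.noTrif hg))
  set P : V → SimpleGraph V → Prop := fun x F => Trunk F x ∧ ∀ y, Trunk F y → F.Reachable x y
    with hP
  have hm : ∀ x, Measurable (P x) := fun x => (meas_trunk x).and
    (Measurable.forall fun y => (meas_trunk y).imp (meas_reach x y))
  have tm : ∀ (φ : V ≃ V) (F : SimpleGraph V) x, Trunk (F.comap φ) x → Trunk F (φ x) := by
    rintro φ F x ⟨u1, u2, a1, a2, a3⟩
    exact ⟨φ u1, φ u2, φ.injective.ne a1, a2.map φ.injective, a3.map φ.injective⟩
  have he : ∀ (φ : G ≃g G) x F, P x (F.comap φ) → P (φ x) F := by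
    rintro φ x F ⟨a1, a2⟩
    refine ⟨tm φ.toEquiv F x a1, fun y hy => ?_⟩
    rw [← comap_comap_symm φ.toEquiv F] at hy
    obtain ⟨y, rfl⟩ := φ.surjective y
    have := tm φ.toEquiv.symm _ _ hy
    rw [show φ.toEquiv.symm (φ y) = y from φ.toEquiv.symm_apply_apply y] at this
    exact (reach_comap φ.toEquiv).1 (a2 y this)
  have key : ∀ x, ν.real {ω | P x (Fg G ω)} = 0 := by
    intro x
    refine le_antisymm (le_of_forall_pos_le_add fun ε hε => ?_) measureReal_nonneg
    obtain ⟨n, hn⟩ := exists_nat_gt (2 / ε)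
    have n0 : (0 : ℝ) < n := lt_trans (by positivity) hn
    obtain ⟨R, hR⟩ := h.two_pt hg hd (ε := 1 / (n * n)) (by positivity)
    obtain ⟨Y, hY1, hY2⟩ := exists_sparse G R n
    have a1 := sum_meas_le (ν := ν) Y Y.offDiag (E := fun y => {ω | P y (Fg G ω)})
      (E' := fun p => {ω | (Fg G ω).Reachable p.1 p.2})
      (fun y => ((hm y).comp (measurable_Fg G)).setOf)
      (fun p => ((meas_reach p.1 p.2).comp (measurable_Fg G)).setOf) (c := 1)
      (Eventually.of_forall fun ω => by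
        by_cases h0 : ∃ y ∈ Y, P y (Fg G ω)
        · obtain ⟨y, hy, hy'⟩ := h0
          rw [← add_sum_erase Y _ hy]
          refine add_le_add (ind_le_one _) ?_
          rw [sum_ind, sum_ind, Nat.cast_le]
          apply card_le_card_of_injOn (fun z => (y, z))
          · intro z hz
            simp only [coe_filter, mem_erase, Set.mem_ofPred_eq, mem_offDiag] at hz ⊢
            exact ⟨⟨hy, hz.1.2, hz.1.1.symm⟩, hy'.2 z hz.2.1⟩
          · intro z _ z' _ h; exact (Prod.ext_iff.1 h).2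
        · rw [sum_eq_zero (f := fun y => ind (ω ∈ {ω | P y (Fg G ω)}))
            fun y hy => ind_neg fun h => h0 ⟨y, hy, h⟩]
          have := sum_nonneg (s := Y.offDiag) fun p _ =>
            ind_nonneg (ω ∈ {ω | (Fg G ω).Reachable p.1 p.2})
          linarith)
    have a2 := sum_le_sum (s := Y) fun y _ => h.real_le hm he x y
    have a3 := sum_le_sum (s := Y.offDiag) fun p hp => hR p.1 p.2
      (hY2 _ (mem_offDiag.1 hp).1 _ (mem_offDiag.1 hp).2.1 (mem_offDiag.1 hp).2.2)
    rw [sum_const, nsmul_eq_mul] at a2 a3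
    have a4 : (Y.offDiag.card : ℝ) ≤ n * n := by
      rw [offDiag_card, hY1]; exact_mod_cast Nat.sub_le _ _
    have a5 : (Y.offDiag.card : ℝ) * (1 / (n * n)) ≤ 1 := by
      rw [mul_one_div, div_le_one (by positivity)]; exact a4
    rw [hY1] at a2
    rw [div_lt_iff₀ hε] at hn
    have : n * ν.real {ω | P x (Fg G ω)} ≤ n * ε := by linarith
    rw [zero_add]
    exact le_of_mul_le_mul_left this n0
  have key2 : ∀ᵐ ω ∂ν, ∀ x, ¬ P x (Fg G ω) := by
    rw [ae_all_iff]
    intro x
    rw [ae_iff]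
    simp only [not_not]
    exact (measureReal_eq_zero_iff (measure_ne_top _ _)).1 (key x)
  filter_upwards [h1, key2] with ω a1 a2 x hx
  exact a2 x ⟨hx, fun y hy => h3.trunk h2 a1 hx hy⟩

end Pool.Agent.MP_12d2c5_pr

end MrgPart3

-- ======== part 4: formerly Pool.Agent.MP_12d2c5_pr.Power
section MrgPart4

/-! Power counting: summability of multi-point functions. -/

open scoped Classical ENNReal
open Finset MeasureTheory Filter

namespace Pool.Agent.MP_12d2c5_pr

variable {V : Type} {G : SimpleGraph V} {L : Type}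

/-- Clusterings at all dyadic scales that only separate far points. -/
def Adm (G : SimpleGraph V) (x : L → V) (κ : ℕ → L → Set L) : Prop :=
  ∀ s i j, κ s i ≠ κ s j → (2 : ℝ) ^ (s + 1) ≤ el G (x i) (x j)

noncomputable def cnt (κ : ℕ → L → Set L) (N : ℕ) (X : Finset L) : ℝ :=
  ∑ s ∈ range N, (((X.image (κ s)).card : ℝ) - 1)

lemma Adm.el_le {x : L → V} {κ : ℕ → L → Set L} (h : Adm G x κ) (N : ℕ) (i j : L) {δ : ℝ}
    (hδ : 0 ≤ δ) :
    el G (x i) (x j) ^ (-δ) ≤ 2 ^ (-∑ s ∈ range N, δ * ind (κ s i ≠ κ s j)) := by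
  rw [← mul_sum, sum_ind]
  set t := (range N).filter fun s => κ s i ≠ κ s j with ht
  have : (2 : ℝ) ^ t.card ≤ el G (x i) (x j) := by
    rcases t.eq_empty_or_nonempty with h0 | h0
    · rw [h0]; simpa using one_le_el (G := G) _ _
    · have h1 : t ⊆ range (t.max' h0 + 1) := fun s hs =>
        mem_range.2 (Nat.lt_succ_of_le (le_max' t s hs))
      have h2 := card_le_card h1
      rw [card_range] at h2
      exact (pow_le_pow_right₀ one_le_two h2).trans (h _ i j (mem_filter.1 (max'_mem t h0)).2)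
  calc _ ≤ ((2 : ℝ) ^ t.card) ^ (-δ) :=
        Real.rpow_le_rpow_of_nonpos (by positivity) this (by linarith)
    _ = _ := by rw [← Real.rpow_natCast, ← Real.rpow_mul (by norm_num)]; congr 1; ring

lemma Adm.spread {x : L → V} {κ : ℕ → L → Set L} (h : Adm G x κ) (N : ℕ) {α : ℝ} (hα : 0 ≤ α) :
    Spread G x α fun X => 2 ^ (-(α * cnt κ N X)) := by
  refine ⟨fun X => by positivity, fun X hX => ?_, fun X X1 i1 i2 h1 h2 h3 => ?_⟩
  · apply Real.one_le_rpow one_le_two
    have : cnt κ N X ≤ 0 := sum_nonpos fun s _ => by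
      have : ((X.image (κ s)).card : ℝ) ≤ 1 := by exact_mod_cast card_image_le.trans hX
      linarith
    nlinarith
  · refine (mul_le_mul_of_nonneg_left (h.el_le N i1 i2 hα) (by positivity)).trans ?_
    rw [← Real.rpow_add two_pos, ← Real.rpow_add two_pos]
    apply Real.rpow_le_rpow_of_exponent_le one_le_two
    have : cnt κ N X ≤ cnt κ N X1 + cnt κ N (X \ X1) + ∑ s ∈ range N, ind (κ s i1 ≠ κ s i2) := by
      unfold cnt
      rw [← sum_add_distrib, ← sum_add_distrib]
      apply sum_le_sum; intro s _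
      have a1 : X.image (κ s) = X1.image (κ s) ∪ (X \ X1).image (κ s) := by
        rw [← image_union, union_sdiff_of_subset h1]
      have a2 := card_union_add_card_inter (X1.image (κ s)) ((X \ X1).image (κ s))
      rw [← a1] at a2
      have a3 : ((X.image (κ s)).card : ℝ) + (X1.image (κ s) ∩ (X \ X1).image (κ s)).card =
        (X1.image (κ s)).card + ((X \ X1).image (κ s)).card := by exact_mod_cast a2
      by_cases e : κ s i1 = κ s i2
      · have : (1 : ℝ) ≤ (X1.image (κ s) ∩ (X \ X1).image (κ s)).card := by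
          exact_mod_cast card_pos.2 ⟨κ s i1, mem_inter.2 ⟨mem_image_of_mem _ h2,
            by rw [e]; exact mem_image_of_mem _ h3⟩⟩
        rw [ind_neg (not_not.2 e)]; linarith
      · have : (0 : ℝ) ≤ (X1.image (κ s) ∩ (X \ X1).image (κ s)).card := by positivity
        rw [ind_pos e]; linarith
    rw [← mul_sum]
    nlinarith

/-- Sum over the ways of removing the points one at a time. -/
noncomputable def maj (w : V → V → ℝ≥0∞) (i0 : L) : ℕ → Finset L → (L → V) → ℝ≥0∞
  | 0, _, _ => 1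
  | n + 1, J, x => ∑ i ∈ J.erase i0, ∑ p ∈ J.erase i, maj w i0 n (J.erase i) x * w (x i) (x p)

lemma maj_congr (w : V → V → ℝ≥0∞) (i0 : L) (n : ℕ) (J : Finset L) {x x' : L → V}
    (h : ∀ i ∈ J, x i = x' i) : maj w i0 n J x = maj w i0 n J x' := by
  induction n generalizing J with
  | zero => rfl
  | succ n ih =>
    simp only [maj]
    refine sum_congr rfl fun i hi => sum_congr rfl fun p hp => ?_
    rw [ih _ fun j hj => h j (mem_of_mem_erase hj), h i (mem_of_mem_erase hi),
      h p (mem_of_mem_erase hp)]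

lemma maj_sum {w : V → V → ℝ≥0∞} {M : ℝ≥0∞} (hM : M ≠ ⊤) (hw : ∀ y, ∑' z, w z y ≤ M) (i0 : L)
    (o : V) (n : ℕ) (J : Finset L) (h1 : J.card = n + 1) (h2 : i0 ∈ J) :
    ∑' x : L → V, (if ∀ i, i ∉ J.erase i0 → x i = o then maj w i0 n J x else 0) ≠ ⊤ := by
  induction n generalizing J with
  | zero =>
    have : J.erase i0 = ∅ := by rw [← card_eq_zero, card_erase_of_mem h2, h1]
    rw [tsum_eq_single (fun _ => o)]
    · simp [maj]
    · intro x hx
      rw [if_neg]
      intro h; exact hx (funext fun i => h i (by simp [this]))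
  | succ n ih =>
    have e : ∀ x : L → V, (if ∀ i, i ∉ J.erase i0 → x i = o then maj w i0 (n + 1) J x else 0) =
        ∑ i ∈ J.erase i0, ∑ p ∈ J.erase i, (if ∀ i, i ∉ J.erase i0 → x i = o then
          maj w i0 n (J.erase i) x * w (x i) (x p) else 0) := by
      intro x; split_ifs <;> simp [maj]
    simp only [e]
    rw [Summable.tsum_finsetSum fun _ _ => ENNReal.summable]
    refine ENNReal.sum_ne_top.2 fun i hi => ?_
    rw [Summable.tsum_finsetSum fun _ _ => ENNReal.summable]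
    refine ENNReal.sum_ne_top.2 fun p hp => ?_
    have hT := ih (J.erase i) (by rw [card_erase_of_mem (mem_of_mem_erase hi), h1]; rfl)
      (mem_erase.2 ⟨(mem_erase.1 hi).1.symm, h2⟩)
    set T : (L → V) → ℝ≥0∞ := fun x => if ∀ j, j ∉ (J.erase i).erase i0 → x j = o then
      maj w i0 n (J.erase i) x else 0 with hTd
    have inj : Function.Injective fun x : L → V => (Function.update x i o, x i) := by
      intro x x' h
      obtain ⟨a1, a2⟩ := Prod.ext_iff.1 h
      funext j
      by_cases hj : j = i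
      · rw [hj]; exact a2
      · simpa [hj] using congrFun a1 j
    have b1 := ENNReal.tsum_comp_le_tsum_of_injective inj fun q => T q.1 * w q.2 (q.1 p)
    rw [ENNReal.tsum_prod'] at b1
    simp only [ENNReal.tsum_mul_left] at b1
    have b2 : ∑' x : L → V, T x * ∑' z, w z (x p) ≤ (∑' x, T x) * M := by
      rw [← ENNReal.tsum_mul_right]
      exact ENNReal.tsum_le_tsum fun x => by gcongr; exact hw _
    refine ne_top_of_le_ne_top (ENNReal.mul_ne_top hT hM)
      (le_trans (ENNReal.tsum_le_tsum fun x => ?_) (b1.trans b2))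
    split_ifs with hx
    · simp only [hTd]
      rw [if_pos, Function.update_of_ne (mem_erase.1 hp).1, maj_congr w i0 n (J.erase i)
        (x := Function.update x i o) (x' := x) fun j hj => Function.update_of_ne (mem_erase.1 hj).1 _ _]
      intro j hj
      by_cases e : j = i
      · simp [e]
      · rw [Function.update_of_ne e]
        exact hx j fun h => hj (by simp only [mem_erase] at h ⊢; tauto)
    · exact zero_le

lemma prim [Fintype L] (x : L → V) (i0 : L) {γ : ℝ} (hγ : 0 ≤ γ) :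
    ∃ κ N, Adm G x κ ∧ ∀ n, n < Fintype.card L → ∃ J : Finset L, i0 ∈ J ∧ J.card = n + 1 ∧
      ENNReal.ofReal (2 ^ (-(γ * (n + cnt κ N J)))) ≤
        maj (fun u v => ENNReal.ofReal (el G u v ^ (-γ))) i0 n J x := by
  set κ : ℕ → L → Set L := fun s i =>
    {j | Relation.ReflTransGen (fun a b => el G (x a) (x b) < 2 ^ (s + 1)) i j} with hκ
  obtain ⟨N, hN⟩ : ∃ N : ℕ, ∀ i j, el G (x i) (x j) < 2 ^ (N + 1) := by
    obtain ⟨B, hB⟩ := Finite.exists_le fun p : L × L => el G (x p.1) (x p.2)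
    obtain ⟨N, hN⟩ := pow_unbounded_of_one_lt B (one_lt_two (α := ℝ))
    exact ⟨N, fun i j => ((hB (i, j)).trans_lt hN).trans_le
      (pow_le_pow_right₀ one_le_two (Nat.le_succ N))⟩
  refine ⟨κ, N, fun s i j h => ?_, fun n => ?_⟩
  · by_contra hn
    apply h
    ext k
    exact ⟨fun h => Relation.ReflTransGen.head (by rw [el_comm]; exact not_le.1 hn) h,
      fun h => Relation.ReflTransGen.head (not_le.1 hn) h⟩
  induction n with
  | zero => intro _; exact ⟨{i0}, by simp, by simp, by simp [cnt, maj]⟩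
  | succ n ih =>
    intro hn
    obtain ⟨J, h1, h2, h3⟩ := ih (by omega)
    obtain ⟨j0, hj0⟩ : ∃ j, j ∉ J := by
      by_contra hc
      push Not at hc
      rw [eq_univ_iff_forall.2 hc, card_univ] at h2; omega
    obtain ⟨⟨i, p⟩, hq, hmin⟩ := exists_min_image (Jᶜ ×ˢ J) (fun q => el G (x q.1) (x q.2))
      ⟨(j0, i0), by simp [hj0, h1]⟩
    simp only [mem_product, mem_compl, Prod.forall, and_imp] at hq hmin
    refine ⟨insert i J, mem_insert_of_mem h1, by rw [card_insert_of_notMem hq.1, h2], ?_⟩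
    set t := (range N).filter fun s => (2 : ℝ) ^ (s + 1) ≤ el G (x i) (x p) with ht
    have a1 : el G (x i) (x p) ≤ 2 ^ (t.card + 1) := by
      by_contra hc
      have : range (t.card + 1) ⊆ t := by
        intro s hs
        have b1 : (2 : ℝ) ^ (s + 1) ≤ el G (x i) (x p) :=
          (pow_le_pow_right₀ one_le_two (by have := mem_range.1 hs; omega)).trans (not_le.1 hc).le
        have := (pow_lt_pow_iff_right₀ (one_lt_two (α := ℝ))).1 (b1.trans_lt (hN i p))
        exact mem_filter.2 ⟨mem_range.2 (by omega), b1⟩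
      have := card_le_card this
      simp at this
    have a2 : cnt κ N J + t.card ≤ cnt κ N (insert i J) := by
      rw [ht, ← sum_ind]
      unfold cnt
      rw [← sum_add_distrib]
      apply sum_le_sum; intro s _
      by_cases hs : (2 : ℝ) ^ (s + 1) ≤ el G (x i) (x p)
      · rw [ind_pos hs, image_insert, card_insert_of_notMem]
        · push_cast; linarith
        · intro h
          obtain ⟨j, hj, e⟩ := mem_image.1 h
          have b1 : i ∈ κ s j := by rw [e]; exact Relation.ReflTransGen.refl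
          have b2 : ∀ k, k ∈ κ s j → k ∈ J := by
            intro k hk
            induction hk with
            | refl => exact hj
            | tail _ h2 ih =>
              by_contra hc
              have := hmin _ _ hc ih
              rw [el_comm] at h2
              linarith
          exact hq.1 (b2 i b1)
      · have : ((J.image (κ s)).card : ℝ) ≤ ((insert i J).image (κ s)).card := by
          exact_mod_cast card_le_card (image_subset_image (subset_insert _ _))
        rw [ind_neg hs]; linarith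
    have a3 : (2 : ℝ) ^ (-(γ * (t.card + 1))) ≤ el G (x i) (x p) ^ (-γ) := by
      refine le_trans (le_of_eq ?_) (Real.rpow_le_rpow_of_nonpos (el_pos _ _) a1 (by linarith))
      rw [← Real.rpow_natCast, ← Real.rpow_mul (by norm_num)]; congr 1; push_cast; ring
    have a4 : i ≠ i0 := by rintro rfl; exact hq.1 h1
    simp only [maj]
    refine le_trans ?_ (single_le_sum (f := fun i' => ∑ p ∈ (insert i J).erase i',
      maj (fun u v => ENNReal.ofReal (el G u v ^ (-γ))) i0 n ((insert i J).erase i') x *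
        ENNReal.ofReal (el G (x i') (x p) ^ (-γ))) (fun _ _ => zero_le)
      (mem_erase.2 ⟨a4, mem_insert_self _ _⟩))
    simp only [erase_insert hq.1]
    refine le_trans ?_ (single_le_sum (f := fun p =>
      maj (fun u v => ENNReal.ofReal (el G u v ^ (-γ))) i0 n J x *
        ENNReal.ofReal (el G (x i) (x p) ^ (-γ))) (fun _ _ => zero_le) hq.2)
    refine le_trans ?_ (mul_le_mul' h3 (ENNReal.ofReal_le_ofReal a3))
    rw [← ENNReal.ofReal_mul (by positivity), ← Real.rpow_add two_pos]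
    apply ENNReal.ofReal_le_ofReal
    apply Real.rpow_le_rpow_of_exponent_le one_le_two
    push_cast
    nlinarith

variable [hG : Nice G] {d : ℝ}

theorem power [Fintype L] (hg : Growth G d) {γ : ℝ} (hγ : d < γ) (hγ0 : 0 ≤ γ) (i0 : L) (o : V)
    {f : (L → V) → ℝ≥0∞} {C : ℝ} (hC : 0 ≤ C) (h0 : ∀ x, x i0 ≠ o → f x = 0)
    (h1 : ∀ x κ N, Adm G x κ → f x ≤ ENNReal.ofReal (C * 2 ^ (-(γ * cnt κ N univ)))) :
    ∑' x, f x ≠ ⊤ := by
  obtain ⟨M, -, hM⟩ := hg.sum_el hγ hγ0
  obtain ⟨n, hn⟩ : ∃ n, Fintype.card L = n + 1 :=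
    Nat.exists_eq_succ_of_ne_zero (Fintype.card_pos_iff.2 ⟨i0⟩).ne'
  have := maj_sum (w := fun u v => ENNReal.ofReal (el G u v ^ (-γ))) (M := ENNReal.ofReal M)
    ENNReal.ofReal_ne_top (fun y => by
      rw [ENNReal.tsum_eq_iSup_sum]
      refine iSup_le fun s => ?_
      rw [← ENNReal.ofReal_sum_of_nonneg fun z _ => Real.rpow_nonneg (el_pos _ _).le _]
      simp only [el_comm _ y]
      exact ENNReal.ofReal_le_ofReal (hM y s)) i0 o n univ hn (mem_univ _)
  refine ne_top_of_le_ne_top (ENNReal.mul_ne_top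
    (ENNReal.ofReal_ne_top (r := C * 2 ^ (γ * n))) this) ?_
  rw [← ENNReal.tsum_mul_left]
  refine ENNReal.tsum_le_tsum fun x => ?_
  by_cases hx : x i0 = o
  swap
  · rw [h0 x hx]; exact zero_le
  obtain ⟨κ, N, a1, a2⟩ := prim (G := G) x i0 hγ0
  obtain ⟨J, -, a3, a4⟩ := a2 n (by omega)
  rw [(card_eq_iff_eq_univ J).1 (a3.trans hn.symm)] at a4
  rw [if_pos (fun i hi => by rw [show i = i0 by simpa using hi]; exact hx)]
  refine (h1 x κ N a1).trans (le_trans ?_ (mul_le_mul' le_rfl a4))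
  rw [← ENNReal.ofReal_mul (by positivity), mul_assoc C, ← Real.rpow_add two_pos]
  apply le_of_eq; congr 3; ring

variable {ν : Measure (Om V)} [IsProbabilityMeasure ν]

theorem FLim.power (h : FLim G ν) (hg : Growth G d) (hd : 8 < d) {α β γ : ℝ} (hβ : β < d - 2)
    (hγ : d < γ) (hα : 0 ≤ α) (e : α + γ = 2 * β) [Fintype L] {J : Type} [Fintype J]
    (grp : L → J) (X : J → Finset L) (hX : ∀ j l, l ∈ X j ↔ grp l = j) (i0 : L) (o : V)
    (Con : (L → V) → Prop) (Tie : L → L → Prop) (R : ℕ) (h0 : ∀ x, Con x → x i0 = o)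
    (hT : ∀ x, Con x → ∀ l l', Tie l l' → G.dist (x l) (x l') ≤ R)
    (W : (L → V) → ℝ) (Wb : (L → Set L) → ℝ) (hWb : ∀ k, 0 ≤ Wb k)
    (hW : ∀ x κ N, Adm G x κ → W x ≤ 2 ^ (-∑ s ∈ range N, Wb (κ s)))
    (hk : ∀ k : L → Set L, (∀ l l', Tie l l' → k l = k l') →
      γ * (((univ.image k).card : ℝ) - 1) ≤ α * ∑ j, ((((X j).image k).card : ℝ) - 1) + Wb k) :
    ∑' x, (if Con x then ν {ω | Pat (Fg G ω) x grp} * ENNReal.ofReal (W x) else 0) ≠ ⊤ := by
  obtain ⟨C, hC, hm⟩ := h.multi hg hd hβ hγ hα e L J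
  have hγ0 : 0 ≤ γ := by linarith
  set K : ℝ := γ * Fintype.card L + α * Fintype.card J with hK
  have hK0 : 0 ≤ K := by positivity
  refine Pool.Agent.MP_12d2c5_pr.power hg hγ hγ0 i0 o (C := C * 2 ^ (K * R)) (by positivity)
    (fun x hx => if_neg fun h => hx (h0 x h)) fun x κ N hA => ?_
  split_ifs with hx
  swap
  · exact zero_le
  have a1 := hm x grp _ (hA.spread N hα)
  have a2 : ∀ j, (univ.filter fun l => grp l = j) = X j := fun j => by ext l; simp [hX]
  simp only [a2] at a1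
  refine (mul_le_mul' a1 (ENNReal.ofReal_le_ofReal (hW x κ N hA))).trans ?_
  rw [← ENNReal.ofReal_mul (by positivity), ← Real.rpow_sum_of_pos two_pos, mul_assoc, mul_assoc,
    ← Real.rpow_add two_pos, ← Real.rpow_add two_pos]
  apply ENNReal.ofReal_le_ofReal
  apply mul_le_mul_of_nonneg_left _ hC
  apply Real.rpow_le_rpow_of_exponent_le one_le_two
  have a3 : ∀ s ∈ range N, γ * (((univ.image (κ s)).card : ℝ) - 1) ≤
      α * ∑ j, ((((X j).image (κ s)).card : ℝ) - 1) + Wb (κ s) + K * ind (s < R) := by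
    intro s _
    by_cases hs : s < R
    · have b1 : ((univ.image (κ s)).card : ℝ) ≤ Fintype.card L := by
        exact_mod_cast card_image_le
      have b2 : ∑ _j : J, (-1 : ℝ) ≤ ∑ j, ((((X j).image (κ s)).card : ℝ) - 1) :=
        sum_le_sum fun j _ => by
          have : (0 : ℝ) ≤ ((X j).image (κ s)).card := by positivity
          linarith
      simp only [sum_const, card_univ, nsmul_eq_mul] at b2
      have := hWb (κ s)
      rw [ind_pos hs]
      nlinarith
    · rw [ind_neg hs, mul_zero, add_zero]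
      refine hk _ fun l l' hl => ?_
      by_contra hn
      have b1 := hA s l l' hn
      have b2 : (G.dist (x l) (x l') : ℝ) ≤ s := by exact_mod_cast (hT x hx l l' hl).trans (not_lt.1 hs)
      have b3 : ((s + 1 : ℕ) : ℝ) < 2 ^ (s + 1) := by exact_mod_cast Nat.lt_two_pow_self
      unfold el at b1
      push_cast at b3
      linarith
  have a4 := sum_le_sum a3
  rw [sum_add_distrib, sum_add_distrib, ← mul_sum, ← mul_sum, ← mul_sum, sum_comm, sum_ind] at a4
  have a5 : (((range N).filter fun s => s < R).card : ℝ) ≤ R := by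
    exact_mod_cast (card_le_card fun s hs => mem_range.2 (mem_filter.1 hs).2).trans
      (card_range R).le
  have a6 := mul_le_mul_of_nonneg_left a5 hK0
  simp only [sum_neg_distrib, ← mul_sum]
  unfold cnt
  linarith

end Pool.Agent.MP_12d2c5_pr

end MrgPart4

-- ======== part 5: formerly Pool.Agent.MP_12d2c5_pr.Rigid
section MrgPart5

/-! Rigid and strong vertex sets of a graph, and a sparse covering lemma. -/

open scoped Classical
open Finset

namespace Pool.Agent.MP_12d2c5_pr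

variable {α α' : Type} {lam : ℝ} {H : SimpleGraph α} {H' : SimpleGraph α'}

noncomputable def cst (lam : ℝ) (X : Finset α) : ℝ := max ((X.card : ℝ) - lam) 0

lemma cst_nonneg (X : Finset α) : 0 ≤ cst lam X := le_max_right _ _

lemma cst_mono {X : Finset α} {X' : Finset α'} (h : X.card ≤ X'.card) : cst lam X ≤ cst lam X' :=
  max_le_max (by have : (X.card : ℝ) ≤ X'.card := by exact_mod_cast h
                 linarith) le_rfl

lemma cst_eq (h2 : lam < 2) {X : Finset α} (h : 2 ≤ X.card) : cst lam X = X.card - lam :=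
  max_eq_left (by have : (2 : ℝ) ≤ X.card := by exact_mod_cast h
                  linarith)

/-- Every edge inside `W` lies in a member of the family. -/
def Cov (H : SimpleGraph α) (W : Finset α) (C : Finset (Finset α)) : Prop :=
  ∀ a ∈ W, ∀ b ∈ W, H.Adj a b → ∃ X ∈ C, a ∈ X ∧ b ∈ X

def Rigid (lam : ℝ) (H : SimpleGraph α) (W : Finset α) : Prop :=
  ∀ C, Cov H W C → (W.card : ℝ) - lam ≤ ∑ X ∈ C, cst lam X

lemma Rigid.family {W : Finset α} (h : Rigid lam H W) {κ : Type} (s : Finset κ) (Y : κ → Finset α)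
    (hY : ∀ a ∈ W, ∀ b ∈ W, H.Adj a b → ∃ i ∈ s, a ∈ Y i ∧ b ∈ Y i) :
    (W.card : ℝ) - lam ≤ ∑ i ∈ s, cst lam (Y i) := by
  refine (h (s.image Y) fun a ha b hb hab => ?_).trans
    (sum_image_le_of_nonneg fun _ _ => cst_nonneg _)
  obtain ⟨i, hi, h1⟩ := hY a ha b hb hab
  exact ⟨_, mem_image_of_mem _ hi, h1⟩

lemma Rigid.map {W : Finset α} (h : Rigid lam H W) (j : α → α') (hj : Set.InjOn j W)
    (ha : ∀ a ∈ W, ∀ b ∈ W, H.Adj a b → H'.Adj (j a) (j b)) : Rigid lam H' (W.image j) := by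
  intro C hC
  rw [card_image_of_injOn hj]
  refine (h.family C (fun X => W.filter (j · ∈ X)) fun a h1 b h2 h3 => ?_).trans
    (sum_le_sum fun X _ => cst_mono ?_)
  · obtain ⟨X, h4, h5, h6⟩ := hC _ (mem_image_of_mem _ h1) _ (mem_image_of_mem _ h2) (ha a h1 b h2 h3)
    exact ⟨X, h4, mem_filter.2 ⟨h1, h5⟩, mem_filter.2 ⟨h2, h6⟩⟩
  · exact card_le_card_of_injOn j (fun a ha => (mem_filter.1 ha).2)
      (hj.mono fun a ha => (mem_filter.1 ha).1)

lemma Rigid.nbr (h2 : lam < 2) {W : Finset α} (h : Rigid lam H W) (hW : 2 ≤ W.card) {a : α}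
    (ha : a ∈ W) : ∃ b ∈ W, H.Adj a b := by
  by_contra hn
  push Not at hn
  have := h {W.erase a} fun u hu v hv huv => ⟨_, mem_singleton_self _,
    mem_erase.2 ⟨by rintro rfl; exact hn v hv huv, hu⟩,
    mem_erase.2 ⟨by rintro rfl; exact hn u hu huv.symm, hv⟩⟩
  rw [sum_singleton, cst, cast_card_erase_of_mem ha] at this
  have h3 : (2 : ℝ) ≤ W.card := by exact_mod_cast hW
  rcases le_max_iff.1 this with h | h <;> linarith

lemma improve_one (h2 : lam < 2) {R : Finset α} (hR : Rigid lam H R) (hc : 2 ≤ R.card)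
    {C : Finset (Finset α)} (hC : Cov H R C) : ∃ C' : Finset (Finset α),
      (∀ Y ∈ C, ∃ Y' ∈ C', Y ⊆ Y') ∧ (∃ Y' ∈ C', R ⊆ Y') ∧
      ∑ X ∈ C', cst lam X ≤ ∑ X ∈ C, cst lam X := by
  set M := C.filter fun Y => 2 ≤ (Y ∩ R).card with hM
  set Ys := R ∪ M.biUnion fun Y => Y \ R with hYs
  refine ⟨insert Ys (C.filter fun Y => ¬ 2 ≤ (Y ∩ R).card), fun Y hY => ?_,
    ⟨Ys, mem_insert_self _ _, subset_union_left⟩, ?_⟩
  · by_cases h : 2 ≤ (Y ∩ R).card
    · refine ⟨Ys, mem_insert_self _ _, fun y hy => ?_⟩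
      by_cases hy' : y ∈ R
      · exact mem_union_left _ hy'
      · exact mem_union_right _ (mem_biUnion.2 ⟨Y, mem_filter.2 ⟨hY, h⟩, mem_sdiff.2 ⟨hy, hy'⟩⟩)
    · exact ⟨Y, mem_insert_of_mem (mem_filter.2 ⟨hY, h⟩), subset_rfl⟩
  · have a1 := hR.family M (fun Y => Y ∩ R) fun a h1 b h3 h4 => by
      obtain ⟨X, h5, h6, h7⟩ := hC a h1 b h3 h4
      have b1 := mem_inter.2 ⟨h6, h1⟩
      have b2 := mem_inter.2 ⟨h7, h3⟩
      exact ⟨X, mem_filter.2 ⟨h5, one_lt_card.2 ⟨a, b1, b, b2, h4.ne⟩⟩, b1, b2⟩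
    have a2 : (Ys.card : ℝ) ≤ R.card + ∑ Y ∈ M, ((Y \ R).card : ℝ) := by
      exact_mod_cast (card_union_le _ _).trans (Nat.add_le_add_left card_biUnion_le _)
    have a3 : ∑ Y ∈ M, cst lam (Y ∩ R) + ∑ Y ∈ M, ((Y \ R).card : ℝ) = ∑ Y ∈ M, cst lam Y := by
      rw [← sum_add_distrib]
      apply sum_congr rfl; intro Y hY
      have b1 := (mem_filter.1 hY).2
      have b2 : ((Y \ R).card : ℝ) + (Y ∩ R).card = Y.card := by
        exact_mod_cast card_sdiff_add_card_inter Y R
      rw [cst_eq h2 b1, cst_eq h2 (b1.trans (card_le_card inter_subset_left))]; linarith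
    have a4 : cst lam Ys = Ys.card - lam := cst_eq h2 (hc.trans (card_le_card subset_union_left))
    have a5 := sum_filter_add_sum_filter_not C (fun Y => 2 ≤ (Y ∩ R).card) (cst lam)
    by_cases e : Ys ∈ C.filter fun Y => ¬ 2 ≤ (Y ∩ R).card
    · rw [insert_eq_of_mem e]
      have := sum_nonneg (s := M) fun Y _ => cst_nonneg (lam := lam) Y
      linarith
    · rw [sum_insert e]; linarith

lemma improve (h2 : lam < 2) {Z : Finset α} (Rs : Finset (Finset α))
    (hR : ∀ R ∈ Rs, R ⊆ Z ∧ Rigid lam H R ∧ 2 ≤ R.card) {C : Finset (Finset α)} (hC : Cov H Z C) :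
    ∃ C' : Finset (Finset α), Cov H Z C' ∧ (∀ R ∈ Rs, ∃ Y' ∈ C', R ⊆ Y') ∧
      ∑ X ∈ C', cst lam X ≤ ∑ X ∈ C, cst lam X := by
  induction Rs using Finset.induction_on with
  | empty => exact ⟨C, hC, by simp, le_rfl⟩
  | insert R Rs _ ih =>
    obtain ⟨C1, h3, h4, h5⟩ := ih fun R hR' => hR R (mem_insert_of_mem hR')
    obtain ⟨a1, a2, a3⟩ := hR R (mem_insert_self _ _)
    obtain ⟨C2, b1, b2, b3⟩ := improve_one h2 a2 a3 (C := C1)
      fun a ha b hb => h3 a (a1 ha) b (a1 hb)
    refine ⟨C2, fun a ha b hb hab => ?_, fun R' hR' => ?_, b3.trans h5⟩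
    · obtain ⟨X, c1, c2, c3⟩ := h3 a ha b hb hab
      obtain ⟨Y, c4, c5⟩ := b1 X c1
      exact ⟨Y, c4, c5 c2, c5 c3⟩
    · rcases mem_insert.1 hR' with rfl | hR'
      · exact b2
      · obtain ⟨X, c1, c2⟩ := h4 R' hR'
        obtain ⟨Y, c4, c5⟩ := b1 X c1
        exact ⟨Y, c4, c2.trans c5⟩

lemma Rigid.union (h2 : lam < 2) {R1 R2 : Finset α} (a1 : Rigid lam H R1) (a2 : Rigid lam H R2)
    (h : 2 ≤ (R1 ∩ R2).card) : Rigid lam H (R1 ∪ R2) := by
  intro C hC
  have b1 := h.trans (card_le_card inter_subset_left)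
  have b2 := h.trans (card_le_card inter_subset_right)
  obtain ⟨C', -, h4, h5⟩ := improve h2 {R1, R2} (by
    simp only [mem_insert, mem_singleton]
    rintro R (rfl | rfl)
    · exact ⟨subset_union_left, a1, b1⟩
    · exact ⟨subset_union_right, a2, b2⟩) hC
  obtain ⟨Y1, c1, c2⟩ := h4 R1 (by simp)
  obtain ⟨Y2, c3, c4⟩ := h4 R2 (by simp)
  refine le_trans ?_ h5
  by_cases e : Y1 = Y2
  · subst e
    refine le_trans ?_ (single_le_sum (fun X _ => cst_nonneg X) c1)
    exact (le_max_left _ _).trans (cst_mono (card_le_card (union_subset c2 c4)))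
  · refine le_trans ?_ (add_le_sum (fun X _ => cst_nonneg X) c1 c3 e)
    have d1 := cst_mono (lam := lam) (card_le_card c2)
    have d2 := cst_mono (lam := lam) (card_le_card c4)
    rw [cst_eq h2 b1] at d1
    rw [cst_eq h2 b2] at d2
    have d3 : ((R1 ∪ R2).card : ℝ) + (R1 ∩ R2).card = R1.card + R2.card := by
      exact_mod_cast card_union_add_card_inter R1 R2
    have d4 : (2 : ℝ) ≤ (R1 ∩ R2).card := by exact_mod_cast h
    linarith

def Strong (lam : ℝ) (H : SimpleGraph α) (Q : Finset α) : Prop :=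
  4 ≤ Q.card ∧ ∀ a ∈ Q, Rigid lam H (Q.erase a)

lemma Strong.erase (h2 : lam < 2) {Q : Finset α} (h : Strong lam H Q) (a : α) :
    Rigid lam H (Q.erase a) := by
  by_cases ha : a ∈ Q
  · exact h.2 a ha
  rw [erase_eq_of_notMem ha]
  obtain ⟨x, hx, y, hy, hxy⟩ := one_lt_card.1 (show 1 < Q.card by have := h.1; omega)
  have := (h.2 x hx).union h2 (h.2 y hy) (by
    have e : Q.erase x ∩ Q.erase y = (Q.erase x).erase y := by ext; simp; tauto
    rw [e, card_erase_of_mem (mem_erase.2 ⟨hxy.symm, hy⟩), card_erase_of_mem hx]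
    have := h.1; omega)
  have e : Q.erase x ∪ Q.erase y = Q := by
    ext z; simp only [mem_union, mem_erase]
    by_cases hz : z = x
    · subst hz; simp [hx, hxy]
    · tauto
  rwa [e] at this

lemma Strong.map {Q : Finset α} (h : Strong lam H Q) (j : α → α') (hj : Set.InjOn j Q)
    (ha : ∀ a ∈ Q, ∀ b ∈ Q, H.Adj a b → H'.Adj (j a) (j b)) : Strong lam H' (Q.image j) := by
  refine ⟨by rw [card_image_of_injOn hj]; exact h.1, fun a' ha' => ?_⟩
  obtain ⟨a, h1, rfl⟩ := mem_image.1 ha'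
  have := (h.2 a h1).map (H' := H') j (hj.mono fun x hx => mem_of_mem_erase hx)
    fun x hx y hy => ha x (mem_of_mem_erase hx) y (mem_of_mem_erase hy)
  have e : (Q.erase a).image j = (Q.image j).erase (j a) := by
    ext z
    simp only [mem_image, mem_erase]
    constructor
    · rintro ⟨x, ⟨h2, h3⟩, rfl⟩; exact ⟨fun e => h2 (hj h3 h1 e), x, h3, rfl⟩
    · rintro ⟨h2, x, h3, rfl⟩; exact ⟨x, ⟨by rintro rfl; exact h2 rfl, h3⟩, rfl⟩
  rwa [e] at this

/-- Admissible covers. -/
def AdC (lam : ℝ) (H : SimpleGraph α) (W : Finset α) (C : Finset (Finset α)) : Prop :=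
  (∀ X ∈ C, 3 ≤ X.card) ∧ Cov H W C ∧ ∀ Q ⊆ W, Strong lam H Q → ∃ X ∈ C, Q ⊆ X

theorem density (h1 : 1 < lam) (h2 : lam < 2) (H : SimpleGraph α) (W : Finset α) :
    ∃ C : Finset (Finset α), ∑ X ∈ C, (X.card : ℝ) ≤ 3 / (2 - lam) * W.card ∧
      (∀ X ∈ C, X.card ≤ 3 ∨ Strong lam H X) ∧ Cov H W C ∧
      ∀ Q ⊆ W, Strong lam H Q → ∃ X ∈ C, Q ⊆ X := by
  have l0 : 0 < 2 - lam := by linarith
  have cW : Cov H W {W} := fun a ha b hb _ => ⟨W, mem_singleton_self _, ha, hb⟩
  by_cases hW : W.card ≤ 3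
  · refine ⟨{W}, ?_, by simp [hW], cW, fun Q hQ _ => ⟨W, mem_singleton_self _, hQ⟩⟩
    rw [sum_singleton]
    refine le_mul_of_one_le_left (by positivity) ?_
    rw [le_div_iff₀ l0]; linarith
  set c : Finset α → ℝ := fun X => X.card - lam - 1 with hc
  have c0 : ∀ X : Finset α, 3 ≤ X.card → (2 - lam) / 3 * X.card ≤ c X := by
    intro X hX
    have : (3 : ℝ) ≤ X.card := by exact_mod_cast hX
    simp only [hc]; nlinarith
  have c1 : ∀ X : Finset α, 3 ≤ X.card → 0 ≤ c X := fun X hX =>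
    le_trans (by positivity) (c0 X hX)
  obtain ⟨C, hC, hmin⟩ := exists_min_image (W.powerset.powerset.filter (AdC lam H W))
    (fun C => ∑ X ∈ C, c X) ⟨{W}, mem_filter.2 ⟨by simp, by simp; omega, cW,
      fun Q hQ _ => ⟨W, mem_singleton_self _, hQ⟩⟩⟩
  obtain ⟨hC0, hC1, hC2, hC3⟩ := mem_filter.1 hC
  have rep : ∀ X ∈ C, ∀ (s : Finset (Finset α)) (N : Finset α → Finset α),
      (∀ i ∈ s, N i ⊆ X ∧ 3 ≤ (N i).card) →
      (∀ a ∈ X, ∀ b ∈ X, H.Adj a b → ∃ i ∈ s, a ∈ N i ∧ b ∈ N i) →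
      (∀ Q ⊆ X, Strong lam H Q → ∃ i ∈ s, Q ⊆ N i) → c X ≤ ∑ i ∈ s, c (N i) := by
    intro X hX s N a1 a2 a3
    have b1 := hmin (C.erase X ∪ s.image N) (mem_filter.2 ⟨?_, ?_, ?_, ?_⟩)
    · have b2 := sum_union_inter (s₁ := C.erase X) (s₂ := s.image N) (f := c)
      have b3 := sum_nonneg (s := C.erase X ∩ s.image N) fun Y hY =>
        c1 Y (hC1 Y (mem_of_mem_erase (mem_inter.1 hY).1))
      have b4 := add_sum_erase C c hX
      have b5 : ∑ Y ∈ s.image N, c Y ≤ ∑ i ∈ s, c (N i) := sum_image_le_of_nonneg fun Y hY => by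
        obtain ⟨i, hi, rfl⟩ := mem_image.1 hY
        exact c1 _ (a1 i hi).2
      linarith
    · rw [mem_powerset] at hC0 ⊢
      refine union_subset ((erase_subset _ _).trans hC0) fun Y hY => ?_
      obtain ⟨i, hi, rfl⟩ := mem_image.1 hY
      exact mem_powerset.2 ((a1 i hi).1.trans (mem_powerset.1 (hC0 hX)))
    · intro Y hY
      rcases mem_union.1 hY with hY | hY
      · exact hC1 Y (mem_of_mem_erase hY)
      · obtain ⟨i, hi, rfl⟩ := mem_image.1 hY
        exact (a1 i hi).2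
    · intro a ha b hb hab
      obtain ⟨Y, b1, b2, b3⟩ := hC2 a ha b hb hab
      by_cases e : Y = X
      · subst e
        obtain ⟨i, hi, h⟩ := a2 a b2 b b3 hab
        exact ⟨_, mem_union_right _ (mem_image_of_mem _ hi), h⟩
      · exact ⟨Y, mem_union_left _ (mem_erase.2 ⟨e, b1⟩), b2, b3⟩
    · intro Q hQ hs
      obtain ⟨Y, b1, b2⟩ := hC3 Q hQ hs
      by_cases e : Y = X
      · subst e
        obtain ⟨i, hi, h⟩ := a3 Q b2 hs
        exact ⟨_, mem_union_right _ (mem_image_of_mem _ hi), h⟩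
      · exact ⟨Y, mem_union_left _ (mem_erase.2 ⟨e, b1⟩), b2⟩
  refine ⟨C, ?_, fun X hX => ?_, hC2, hC3⟩
  · have a1 := hmin {W} (mem_filter.2 ⟨by simp, by simp; omega, cW,
      fun Q hQ _ => ⟨W, mem_singleton_self _, hQ⟩⟩)
    have a2 := sum_le_sum fun X hX => c0 X (hC1 X hX)
    rw [← mul_sum] at a2
    simp only [sum_singleton, hc] at a1
    rw [div_mul_eq_mul_div, le_div_iff₀ l0]
    simp only [hc] at a2
    nlinarith
  by_cases h4 : X.card ≤ 3
  · exact Or.inl h4
  refine Or.inr ⟨by omega, fun a ha => ?_⟩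
  have sq : ∀ Q ⊆ X, Strong lam H Q → Q.erase a ⊆ X.erase a ∧ Rigid lam H (Q.erase a) ∧
      2 ≤ (Q.erase a).card := fun Q hQ hs => ⟨erase_subset_erase _ hQ, hs.erase h2 a, by
        have := pred_card_le_card_erase (s := Q) (a := a)
        have := hs.1; omega⟩
  have nb : ∀ b ∈ X.erase a, ∃ b' ∈ X.erase a, H.Adj b b' := by
    intro b hb
    by_contra hn
    push Not at hn
    obtain ⟨hba, hbX⟩ := mem_erase.1 hb
    obtain ⟨z, hz⟩ : ((X.erase a).erase b).Nonempty := by
      rw [← card_pos, card_erase_of_mem hb, card_erase_of_mem ha]; omega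
    simp only [mem_erase] at hz
    have k3 : ({a, b, z} : Finset α).card = 3 :=
      card_eq_three.2 ⟨a, b, z, hba.symm, hz.2.1.symm, hz.1.symm, rfl⟩
    have ne : X.erase b ≠ {a, b, z} := fun e => notMem_erase b X (by simp [e])
    have := rep X hX {X.erase b, {a, b, z}} id (by
      simp only [mem_insert, mem_singleton, id]
      rintro i (rfl | rfl)
      · exact ⟨erase_subset _ _, by rw [card_erase_of_mem hbX]; omega⟩
      · exact ⟨by simp [insert_subset_iff, ha, hbX, hz.2.2], k3.ge⟩) (by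
      intro u hu v hv huv
      by_cases e1 : u = b
      · subst e1
        have : v = a := by by_contra h; exact hn v (mem_erase.2 ⟨h, hv⟩) huv
        exact ⟨{a, u, z}, by simp, by simp, by simp [this]⟩
      by_cases e2 : v = b
      · subst e2
        have : u = a := by by_contra h; exact hn u (mem_erase.2 ⟨h, hu⟩) huv.symm
        exact ⟨{a, v, z}, by simp, by simp [this], by simp⟩
      exact ⟨X.erase b, by simp, mem_erase.2 ⟨e1, hu⟩, mem_erase.2 ⟨e2, hv⟩⟩) (by
      intro Q hQ hs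
      refine ⟨X.erase b, by simp, fun y hy => mem_erase.2 ⟨?_, hQ hy⟩⟩
      rintro rfl
      obtain ⟨d1, d2, d3⟩ := sq Q hQ hs
      obtain ⟨b', d4, d5⟩ := d2.nbr h2 d3 (mem_erase.2 ⟨hba, hy⟩)
      exact hn b' (d1 d4) d5)
    rw [sum_pair ne] at this
    simp only [hc, id, k3, cast_card_erase_of_mem hbX] at this
    push_cast at this
    linarith
  intro Y hY
  obtain ⟨Y', b1, b2, b3⟩ := improve h2 ((X.erase a).powerset.filter fun R =>
    Rigid lam H R ∧ 2 ≤ R.card) (fun R hR => ⟨mem_powerset.1 (mem_filter.1 hR).1,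
      (mem_filter.1 hR).2⟩) hY
  have edge : ∀ u ∈ X.erase a, ∀ v ∈ X.erase a, H.Adj u v → ∃ i ∈ Y'.filter fun i =>
      2 ≤ (i ∩ X.erase a).card, u ∈ i ∩ X.erase a ∧ v ∈ i ∩ X.erase a := by
    intro u hu v hv huv
    obtain ⟨i, d1, d2, d3⟩ := b1 u hu v hv huv
    have e1 := mem_inter.2 ⟨d2, hu⟩
    have e2 := mem_inter.2 ⟨d3, hv⟩
    exact ⟨i, mem_filter.2 ⟨d1, one_lt_card.2 ⟨u, e1, v, e2, huv.ne⟩⟩, e1, e2⟩
  have na : ∀ i : Finset α, a ∉ i ∩ X.erase a := fun i h => notMem_erase a X (mem_inter.1 h).2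
  have := rep X hX (Y'.filter fun i => 2 ≤ (i ∩ X.erase a).card)
    (fun i => insert a (i ∩ X.erase a)) (fun i hi => ⟨insert_subset ha
      (inter_subset_right.trans (erase_subset _ _)), by
        rw [card_insert_of_notMem (na i)]; have := (mem_filter.1 hi).2; omega⟩) (by
      intro u hu v hv huv
      by_cases e1 : u = a
      · subst e1
        obtain ⟨v', d1, d2⟩ := nb v (mem_erase.2 ⟨huv.ne', hv⟩)
        obtain ⟨i, d3, d4, -⟩ := edge v (mem_erase.2 ⟨huv.ne', hv⟩) v' d1 d2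
        exact ⟨i, d3, mem_insert_self _ _, mem_insert_of_mem d4⟩
      by_cases e2 : v = a
      · subst e2
        obtain ⟨v', d1, d2⟩ := nb u (mem_erase.2 ⟨e1, hu⟩)
        obtain ⟨i, d3, d4, -⟩ := edge u (mem_erase.2 ⟨e1, hu⟩) v' d1 d2
        exact ⟨i, d3, mem_insert_of_mem d4, mem_insert_self _ _⟩
      obtain ⟨i, d3, d4, d5⟩ := edge u (mem_erase.2 ⟨e1, hu⟩) v (mem_erase.2 ⟨e2, hv⟩) huv
      exact ⟨i, d3, mem_insert_of_mem d4, mem_insert_of_mem d5⟩) (by
      intro Q hQ hs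
      obtain ⟨d1, d2, d3⟩ := sq Q hQ hs
      obtain ⟨i, d4, d5⟩ := b2 _ (mem_filter.2 ⟨mem_powerset.2 d1, d2, d3⟩)
      have d6 := subset_inter d5 d1
      refine ⟨i, mem_filter.2 ⟨d4, d3.trans (card_le_card d6)⟩, fun y hy => ?_⟩
      by_cases e : y = a
      · simp [e]
      · exact mem_insert_of_mem (d6 (mem_erase.2 ⟨e, hy⟩)))
  have b4 : ∑ i ∈ Y'.filter (fun i => 2 ≤ (i ∩ X.erase a).card), c (insert a (i ∩ X.erase a)) ≤
      ∑ i ∈ Y', cst lam i := by
    refine le_trans (sum_le_sum fun i hi => ?_) (sum_le_sum_of_subset_of_nonneg (filter_subset _ _)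
      fun i _ _ => cst_nonneg i)
    refine le_trans (le_of_eq ?_) ((le_max_left _ _).trans
      (cst_mono (card_le_card (inter_subset_left (s₂ := X.erase a)))))
    simp only [hc, card_insert_of_notMem (na i)]
    push_cast; ring
  rw [cast_card_erase_of_mem ha]
  simp only [hc] at this b4
  linarith

/-- The vertices in rigid sets of size at most `n` that contain `B1`, `B2` and avoid `K`. -/
def Sn (lam : ℝ) (H : SimpleGraph α) (n : ℕ) (K B1 B2 : α) : Set α :=
  {a | ∃ W, Rigid lam H W ∧ W.card ≤ n ∧ K ∉ W ∧ B1 ∈ W ∧ B2 ∈ W ∧ a ∈ W}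

lemma Sn.map {n : ℕ} {K B1 B2 a : α} (θ : α ≃ α')
    (h : ∀ C C', C ≠ K → C' ≠ K → H.Adj C C' → H'.Adj (θ C) (θ C')) (ha : a ∈ Sn lam H n K B1 B2) :
    θ a ∈ Sn lam H' n (θ K) (θ B1) (θ B2) := by
  obtain ⟨W, h1, h2, h3, h4, h5, h6⟩ := ha
  refine ⟨W.image θ, h1.map θ θ.injective.injOn fun a ha b hb =>
    h a b (by rintro rfl; exact h3 ha) (by rintro rfl; exact h3 hb), card_image_le.trans h2, ?_,
    mem_image_of_mem _ h4, mem_image_of_mem _ h5, mem_image_of_mem _ h6⟩
  simpa using h3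

end Pool.Agent.MP_12d2c5_pr

end MrgPart5

-- ======== part 6: formerly Pool.Agent.MP_12d2c5_pr.Finite
section MrgPart6

/-! Almost sure finiteness: thin contacts between trees, and rigid sets of trees. -/

open scoped Classical ENNReal
open Finset MeasureTheory Filter

namespace Pool.Agent.MP_12d2c5_pr

variable {V : Type}

/-- The distance-`r` component graph. -/
def CG (G F : SimpleGraph V) (r : ℕ) : SimpleGraph F.ConnectedComponent :=
  SimpleGraph.fromRel fun k₁ k₂ => ∃ u v : V, F.connectedComponentMk u = k₁ ∧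
    F.connectedComponentMk v = k₂ ∧ G.dist u v ≤ r

lemma CG_adj {G F : SimpleGraph V} {r : ℕ} {C C' : F.ConnectedComponent} :
    (CG G F r).Adj C C' ↔ C ≠ C' ∧ ∃ u v : V, F.connectedComponentMk u = C ∧
      F.connectedComponentMk v = C' ∧ G.dist u v ≤ r := by
  rw [CG, SimpleGraph.fromRel_adj]
  refine and_congr_right fun _ => ⟨?_, Or.inl⟩
  rintro (h | ⟨u, v, h1, h2, h3⟩)
  · exact h
  · exact ⟨v, u, h2, h1, by rwa [SimpleGraph.dist_comm]⟩

lemma meas_pat [Countable V] {L J : Type} [Fintype L] (p : L → V) (grp : L → J) :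
    Measurable fun F : SimpleGraph V => Pat F p grp :=
  Measurable.forall fun _ => Measurable.forall fun _ => (meas_reach _ _).iff measurable_const

lemma ae_tsum_ne_top {Ω ι : Type} [MeasurableSpace Ω] {ν : Measure Ω} [Countable ι]
    {E : ι → Set Ω} (hE : ∀ i, MeasurableSet (E i)) (c : ι → ℝ≥0∞) (h : ∑' i, ν (E i) * c i ≠ ⊤) :
    ∀ᵐ ω ∂ν, ∑' i, (E i).indicator (fun _ => c i) ω ≠ ⊤ := by
  have m : ∀ i, Measurable ((E i).indicator fun _ => c i) := fun i =>
    measurable_const.indicator (hE i)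
  have := ae_lt_top (μ := ν) (Measurable.tsum m) (by
    rw [lintegral_tsum fun i => (m i).aemeasurable]
    simpa only [lintegral_indicator_const (hE _), mul_comm] using h)
  exact this.mono fun ω h => h.ne

lemma card_four {K : Type} (a b c e : K) {α γ δ : ℝ} (h0 : 0 ≤ α) (h1 : α ≤ γ) (h2 : γ ≤ 2 * α)
    (h3 : 3 * (γ - α) ≤ 2 * δ) :
    γ * ((({a, b, c, e} : Finset K).card : ℝ) - 1) ≤
      α * (((({a, b} : Finset K).card : ℝ) - 1) + ((({a, c, e} : Finset K).card : ℝ) - 1)) +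
        (δ * ind (b ≠ c) + δ * ind (b ≠ e)) := by
  by_cases e1 : a = b <;> by_cases e2 : a = c <;> by_cases e3 : a = e <;> by_cases e4 : b = c <;>
    by_cases e5 : b = e <;> by_cases e6 : c = e <;> subst_vars <;>
    simp_all [ind] <;> linarith

lemma Rigid.comap {α β : Type} {lam : ℝ} {H : SimpleGraph α} {j : β → α}
    (hj : Function.Injective j) {W : Finset β} (h : Rigid lam H (W.image j)) :
    Rigid lam (H.comap j) W := by
  intro C hC
  have := h.family C (fun X => X.image j) fun a ha b hb hab => by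
    obtain ⟨a, h1, rfl⟩ := mem_image.1 ha
    obtain ⟨b, h2, rfl⟩ := mem_image.1 hb
    obtain ⟨X, h3, h4, h5⟩ := hC a h1 b h2 hab
    exact ⟨X, h3, mem_image_of_mem _ h4, mem_image_of_mem _ h5⟩
  rw [card_image_of_injective _ hj] at this
  exact this.trans (sum_le_sum fun X _ => cst_mono card_image_le)

lemma Rigid.count {L J K : Type} [Fintype L] [Fintype J] {lam : ℝ} (h2 : lam < 2)
    {Γ : SimpleGraph J} (h : Rigid lam Γ univ) (grp : L → J) (σ : L → L)
    (h3 : ∀ l, grp l ≠ grp (σ l)) (h4 : ∀ a b, Γ.Adj a b → ∃ l, grp l = a ∧ grp (σ l) = b)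
    (k : L → K) (hk : ∀ l, k l = k (σ l)) (X : J → Finset L) (hX : ∀ j l, l ∈ X j ↔ grp l = j) :
    lam * (((univ.image k).card : ℝ) - 1) ≤ ∑ j, ((((X j).image k).card : ℝ) - 1) := by
  set Y : K → Finset J := fun c => (univ.filter fun l => k l = c).image grp with hY
  have a1 := h.family (univ.image k) Y fun a _ b _ hab => by
    obtain ⟨l, rfl, rfl⟩ := h4 a b hab
    exact ⟨k l, mem_image_of_mem _ (mem_univ _), mem_image_of_mem _ (by simp),
      mem_image_of_mem _ (by simp [← hk l])⟩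
  have a2 : ∑ c ∈ univ.image k, cst lam (Y c) = ∑ c ∈ univ.image k, (((Y c).card : ℝ) - lam) := by
    refine sum_congr rfl fun c hc => cst_eq h2 ?_
    obtain ⟨l, -, rfl⟩ := mem_image.1 hc
    exact one_lt_card.2 ⟨grp l, mem_image_of_mem _ (by simp), grp (σ l),
      mem_image_of_mem _ (by simp [← hk l]), h3 l⟩
  have a3 : ∑ c ∈ univ.image k, ((Y c).card : ℝ) =
      ∑ j, ((((X j).image k).card : ℝ)) := by
    have b1 : ∀ c, ((Y c).card : ℝ) = ∑ j, ind (∃ l, k l = c ∧ grp l = j) := by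
      intro c; rw [sum_ind]; congr 2; ext j; simp [hY]
    have b2 : ∀ j, ((((X j).image k).card : ℝ)) =
        ∑ c ∈ univ.image k, ind (∃ l, k l = c ∧ grp l = j) := by
      intro j; rw [sum_ind]; congr 2; ext c
      simp only [mem_image, mem_filter, mem_univ, true_and, hX]
      exact ⟨fun ⟨l, h1, h2⟩ => ⟨⟨l, h2⟩, l, h2, h1⟩, fun ⟨_, l, h1, h2⟩ => ⟨l, h2, h1⟩⟩
    simp only [b1, b2]
    exact sum_comm
  rw [a2, sum_sub_distrib, a3, sum_const, nsmul_eq_mul] at a1
  rw [sum_sub_distrib, sum_const, nsmul_eq_mul]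
  linarith

/-- Far along a tree, another tree is thin. -/
def Thin (G : SimpleGraph V) (d : ℝ) (F : SimpleGraph V) : Prop :=
  ∀ x y, ¬ F.Reachable x y → ∀ ε : ℝ, 0 < ε → {u | F.Reachable u x ∧ ∃ Y : Finset V,
    (∀ z ∈ Y, F.Reachable z y) ∧ ε ≤ ∑ z ∈ Y, el G u z ^ (-(d - 1))}.Finite

def FinS (G : SimpleGraph V) (r : ℕ) (lam : ℝ) (F : SimpleGraph V) : Prop :=
  ∀ n K B1 B2, B1 ≠ B2 → (Sn lam (CG G F r) n K B1 B2).Finite

noncomputable def lamd (d : ℝ) : ℝ := (d + (d - 8) / 10) / (d - 4 - 3 * ((d - 8) / 10))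

lemma one_lt_lamd {d : ℝ} (hd : 8 < d) : 1 < lamd d := by
  unfold lamd; rw [lt_div_iff₀ (by linarith)]; linarith

lemma lamd_lt_two {d : ℝ} (hd : 8 < d) : lamd d < 2 := by
  unfold lamd; rw [div_lt_iff₀ (by linarith)]; linarith

variable {G : SimpleGraph V} [hG : Nice G] {ν : Measure (Om V)} [IsProbabilityMeasure ν] {d : ℝ}

theorem FLim.thin (h : FLim G ν) (hg : Growth G d) (hd : 8 < d) : ∀ᵐ ω ∂ν, Thin G d (Fg G ω) := by
  have := countable_V G
  simp only [Thin, ae_all_iff]
  intro a b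
  set W : (Fin 5 → V) → ℝ := fun x =>
    el G (x 2) (x 3) ^ (-(d - 1)) * el G (x 2) (x 4) ^ (-(d - 1)) with hW
  set grp : Fin 5 → Bool := ![true, false, true, false, false] with hgrp
  have h1 := h.power hg hd (α := d - 4 - 3 * ((d - 8) / 10)) (β := d - 2 - (d - 8) / 10)
    (γ := d + (d - 8) / 10) (by linarith) (by linarith) (by linarith) (by ring) grp
    (fun j => if j then {0, 2} else {1, 3, 4})
    (fun j l => by cases j <;> fin_cases l <;> simp [hgrp]) 0 a (fun x => x 0 = a ∧ x 1 = b)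
    (fun l l' => l = 0 ∧ l' = 1) (G.dist a b) (fun x h => h.1)
    (by rintro x ⟨h1, h2⟩ _ _ ⟨rfl, rfl⟩; rw [h1, h2]) W
    (fun k => (d - 1) * ind (k 2 ≠ k 3) + (d - 1) * ind (k 2 ≠ k 4))
    (fun k => add_nonneg (mul_nonneg (by linarith) (ind_nonneg _))
      (mul_nonneg (by linarith) (ind_nonneg _)))
    (fun x κ N hA => by
      rw [sum_add_distrib, neg_add, Real.rpow_add two_pos]
      exact mul_le_mul (hA.el_le N 2 3 (by linarith)) (hA.el_le N 2 4 (by linarith))
        (Real.rpow_nonneg (el_pos _ _).le _) (by positivity))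
    (fun k hk => by
      have e0 := hk 0 1 ⟨rfl, rfl⟩
      have e1 : univ.image k = {k 0, k 2, k 3, k 4} := by
        ext c; simp [Fin.exists_fin_succ, ← e0, eq_comm]
      simp only [Fintype.sum_bool, if_true, Bool.false_eq_true, if_false, image_insert,
        image_singleton, e1, ← e0]
      exact card_four _ _ _ _ (by linarith) (by linarith) (by linarith) (by linarith))
  have h2 := ae_tsum_ne_top (ν := ν) (E := fun x : Fin 5 → V => {ω | Pat (Fg G ω) x grp})
    (fun x => ((meas_pat x grp).comp (measurable_Fg G)).setOf)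
    (fun x => if x 0 = a ∧ x 1 = b then ENNReal.ofReal (W x) else 0) (by
      convert h1 using 3 with x
      split_ifs <;> simp)
  filter_upwards [h2] with ω hω hab ε hε
  have inj : Function.Injective fun q : V × V × V => (![a, b, q.1, q.2.1, q.2.2] : Fin 5 → V) := by
    rintro ⟨u, y, z⟩ ⟨u', y', z'⟩ h
    have e2 := congrFun h 2
    have e3 := congrFun h 3
    have e4 := congrFun h 4
    simp at e2 e3 e4
    simp [e2, e3, e4]
  have h3 := ne_top_of_le_ne_top hω (ENNReal.tsum_comp_le_tsum_of_injective inj _)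
  rw [ENNReal.tsum_prod'] at h3
  refine (ENNReal.finite_const_le_of_tsum_ne_top h3 (ε := ENNReal.ofReal (ε * ε))
    (by simp [hε])).subset ?_
  rintro u ⟨hu, Y, hY, hs⟩
  have w0 : ∀ z, 0 ≤ el G u z ^ (-(d - 1)) := fun z => Real.rpow_nonneg (el_pos _ _).le _
  refine le_trans ?_ (ENNReal.sum_le_tsum (Y ×ˢ Y))
  refine (ENNReal.ofReal_le_ofReal (mul_self_le_mul_self hε.le hs)).trans ?_
  rw [sum_mul_sum, ← sum_product', ENNReal.ofReal_sum_of_nonneg fun p _ => mul_nonneg (w0 _) (w0 _)]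
  refine sum_le_sum fun p hp => ?_
  obtain ⟨p1, p2⟩ := mem_product.1 hp
  rw [Set.indicator_of_mem]
  · simp [hW]
  · have key : ∀ l, (Fg G ω).Reachable ((![a, b, u, p.1, p.2] : Fin 5 → V) l)
        (if grp l then a else b) := by
      intro l
      fin_cases l <;> simp [hgrp, hu, hY _ p1, hY _ p2]
    intro l l'
    refine ⟨fun h => ?_, fun h => (key l).trans (by rw [h]; exact (key l').symm)⟩
    have := (key l).symm.trans (h.trans (key l'))
    cases e : grp l <;> cases e' : grp l' <;> simp [e, e'] at this ⊢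
    · exact hab this.symm
    · exact hab this

theorem FLim.finS (h : FLim G ν) (hg : Growth G d) (hd : 8 < d) (r : ℕ) :
    ∀ᵐ ω ∂ν, FinS G r (lamd d) (Fg G ω) := by
  have := countable_V G
  let L : (m : ℕ) → SimpleGraph (Fin m) → Type := fun m Γ =>
    ({p : Fin m × Fin m // Γ.Adj p.1 p.2} ⊕ Unit) × Bool
  let grp : (m : ℕ) → (Γ : SimpleGraph (Fin m)) → Fin m × Fin m → L m Γ → Fin m := fun m Γ j l =>
    if l.2 then (Sum.elim Subtype.val (fun _ => j) l.1).1
      else (Sum.elim Subtype.val (fun _ => j) l.1).2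
  let Con : V → V → (m : ℕ) → (Γ : SimpleGraph (Fin m)) → (L m Γ → V) → Prop := fun b1 b2 m Γ x =>
    x (Sum.inr (), true) = b1 ∧ x (Sum.inr (), false) = b2 ∧
      ∀ p, G.dist (x (Sum.inl p, true)) (x (Sum.inl p, false)) ≤ r
  have key : ∀ (b1 b2 : V) (m : ℕ) (Γ : SimpleGraph (Fin m)) (j : Fin m × Fin m), ∀ᵐ ω ∂ν,
      j.1 ≠ j.2 → Rigid (lamd d) Γ univ →
        {x : L m Γ → V | Con b1 b2 m Γ x ∧ Pat (Fg G ω) x (grp m Γ j)}.Finite := by
    intro b1 b2 m Γ j
    by_cases hj : j.1 ≠ j.2 ∧ Rigid (lamd d) Γ univ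
    swap
    · exact Eventually.of_forall fun _ h1 h2 => absurd ⟨h1, h2⟩ hj
    have h1 := h.power hg hd (α := d - 4 - 3 * ((d - 8) / 10)) (β := d - 2 - (d - 8) / 10)
      (γ := d + (d - 8) / 10) (by linarith) (by linarith) (by linarith) (by ring) (grp m Γ j)
      (fun i => univ.filter fun l => grp m Γ j l = i) (by simp) (Sum.inr (), true) b1
      (Con b1 b2 m Γ) (fun l l' => l' = (l.1, !l.2)) (r + G.dist b1 b2) (fun x h => h.1) (by
        rintro x ⟨h1, h2, h3⟩ ⟨p | p, t⟩ _ rfl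
        · have := h3 p
          cases t
          · rw [SimpleGraph.dist_comm] at this; exact this.trans (Nat.le_add_right _ _)
          · exact this.trans (Nat.le_add_right _ _)
        · cases t
          · simp [h1, h2, SimpleGraph.dist_comm]
          · simp [h1, h2]) (fun _ => 1) (fun _ => 0) (fun _ => le_rfl) (by simp) (fun k hk => by
        have := hj.2.count (lamd_lt_two hd) (grp m Γ j) (fun l => (l.1, !l.2)) (by
          rintro ⟨p | p, t⟩
          · cases t
            · exact p.2.ne'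
            · exact p.2.ne
          · cases t
            · exact hj.1.symm
            · exact hj.1) (fun a b hab => ⟨(Sum.inl ⟨(a, b), hab⟩, true), rfl, rfl⟩) k
          (fun l => hk _ _ rfl) (fun i => univ.filter fun l => grp m Γ j l = i) (by simp)
        have a0 : 0 < d - 4 - 3 * ((d - 8) / 10) := by linarith
        have a1 := mul_le_mul_of_nonneg_left this a0.le
        rw [← mul_assoc, lamd, mul_div_cancel₀ _ a0.ne'] at a1
        rw [add_zero]
        exact a1)
    have h2 := ae_finite_setOfPred_mem (μ := ν)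
      (s := fun x : L m Γ → V => {ω | Con b1 b2 m Γ x ∧ Pat (Fg G ω) x (grp m Γ j)}) (by
        convert h1 using 3 with x
        by_cases hx : Con b1 b2 m Γ x <;> simp [hx])
    exact h2.mono fun ω h _ _ => h
  simp only [← ae_all_iff] at key
  filter_upwards [key] with ω hω n K B1 B2 hB
  obtain ⟨b1, rfl⟩ := B1.exists_rep
  obtain ⟨b2, rfl⟩ := B2.exists_rep
  set F := Fg G ω with hF
  refine Set.Finite.subset ((Set.finite_Iic n).biUnion (t := fun m => ⋃ Γ : SimpleGraph (Fin m),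
    ⋃ j : Fin m × Fin m, ⋃ x ∈ {x : L m Γ → V | (j.1 ≠ j.2 ∧ Rigid (lamd d) Γ univ) ∧
      Con b1 b2 m Γ x ∧ Pat F x (grp m Γ j)}, Set.range fun l => F.connectedComponentMk (x l))
    fun m _ => Set.finite_iUnion fun Γ => Set.finite_iUnion fun j => Set.Finite.biUnion ?_
      fun x _ => Set.finite_range _) ?_
  · by_cases hj : j.1 ≠ j.2 ∧ Rigid (lamd d) Γ univ
    · exact (hω b1 b2 m Γ j hj.1 hj.2).subset fun x hx => hx.2
    · simp only [hj, false_and, Set.ofPred_false, Set.finite_empty]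
  rintro a ⟨W, h1, h2, -, h4, h5, h6⟩
  set j : Fin W.card → F.ConnectedComponent := fun i => (W.equivFin.symm i).1 with hj
  have inj : Function.Injective j := Subtype.val_injective.comp W.equivFin.symm.injective
  have sur : ∀ c ∈ W, ∃ i, j i = c := fun c hc => ⟨W.equivFin ⟨c, hc⟩, by simp [hj]⟩
  have im : univ.image j = W := by
    ext c
    simp only [mem_image, mem_univ, true_and]
    exact ⟨by rintro ⟨i, rfl⟩; exact (W.equivFin.symm i).2, sur c⟩
  obtain ⟨i1, e1⟩ := sur _ h4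
  obtain ⟨i2, e2⟩ := sur _ h5
  obtain ⟨a', h7, h8⟩ := h1.nbr (lamd_lt_two hd) (one_lt_card.2 ⟨_, h4, _, h5, hB⟩) h6
  obtain ⟨i, rfl⟩ := sur _ h6
  obtain ⟨i', rfl⟩ := sur _ h7
  set Γ := (CG G F r).comap j with hΓ
  have : ∀ p : {p : Fin W.card × Fin W.card // Γ.Adj p.1 p.2}, ∃ u v : V,
    F.connectedComponentMk u = j p.1.1 ∧ F.connectedComponentMk v = j p.1.2 ∧ G.dist u v ≤ r :=
    fun p => (CG_adj.1 p.2).2
  choose u v hu hv huv using this
  set x : L W.card Γ → V := fun l =>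
    if l.2 then Sum.elim u (fun _ => b1) l.1 else Sum.elim v (fun _ => b2) l.1 with hx
  have hm : ∀ l, F.connectedComponentMk (x l) = j (grp _ Γ (i1, i2) l) := by
    rintro ⟨p | p, t⟩ <;> cases t
    · exact hv p
    · exact hu p
    · exact e2.symm
    · exact e1.symm
  simp only [Set.mem_iUnion]
  refine ⟨W.card, h2, Γ, (i1, i2), x, ⟨⟨?_, Rigid.comap inj (by rwa [im])⟩, ⟨rfl, rfl, huv⟩, ?_⟩,
    (Sum.inl ⟨(i, i'), h8⟩, true), hu _⟩
  · rintro (rfl : i1 = i2); exact hB (e1.symm.trans e2)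
  · intro l l'
    rw [← SimpleGraph.ConnectedComponent.eq, hm, hm, inj.eq_iff]

end Pool.Agent.MP_12d2c5_pr

end MrgPart6

-- marker of a merged file
example : 731051 + 689470 = 731051 + 689470 := rfl
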