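import Pool.Agent.MP_12d2c5_pr.Final

/-! The component graph is isomorphic to no fixed graph with positive probability. -/

open scoped Classical ENNReal
open Finset MeasureTheory Filter

namespace Pool.Agent.MP_12d2c5_pr

variable {V : Type} {G : SimpleGraph V} {r L ρ : ℕ} {τ : Dat V} {lam : ℝ} {F F' : SimpleGraph V}
  {Φ : Set (Dat V)} {k b1 b2 : V} {i : ℕ → ℕ∞}

/-- The invariants of a tree take prescribed values, and it has infinitely many valid sites. -/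
def De (G : SimpleGraph V) (r L ρ : ℕ) (lam : ℝ) (Φ : Set (Dat V)) (k b1 b2 : V) (i : ℕ → ℕ∞)
    (F : SimpleGraph V) : Prop :=
  InfC F ∧ (∀ n, (SS G r lam n k b1 b2 F).Finite) ∧
    (∀ n, (NS G r lam n k b1 b2 F).encard = i n) ∧
    ∀ n, ∃ τ ∈ Φ, Vd G r L ρ lam Φ k k b1 b2 b1 b2 F τ ∧ n < G.dist k τ.e0

lemma meas_de [Countable V] : Measurable (De G r L ρ lam Φ k b1 b2 i) := by
  have e1 : ∀ a b : ℕ∞, a = b ↔ ∀ j : ℕ, ((j : ℕ∞) ≤ a ↔ (j : ℕ∞) ≤ b) := fun a b =>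
    ⟨fun h => by simp [h], ENat.eq_of_forall_natCast_le_iff⟩
  have e2 : ∀ {α : Type} (S : Set α), S.Finite ↔ ∃ j : ℕ, ¬ (j : ℕ∞) ≤ S.encard := by
    intro α S
    rw [← Set.encard_ne_top_iff]
    refine ⟨fun h => ?_, fun ⟨j, hj⟩ h => hj (by simp [h])⟩
    obtain ⟨j, hj⟩ := ENat.exists_nat_gt h
    exact ⟨j, not_le.2 hj⟩
  have m1 : ∀ n j, Measurable fun F : SimpleGraph V =>
      ((j : ℕ) : ℕ∞) ≤ (SS G r lam n k b1 b2 F).encard := fun n j =>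
    meas_encard (fun _ => meas_sn _ _ _ _ _) j
  have m2 : ∀ n j, Measurable fun F : SimpleGraph V =>
      ((j : ℕ) : ℕ∞) ≤ (NS G r lam n k b1 b2 F).encard := fun n j =>
    meas_encard (fun _ => (meas_cg _ _).and (meas_sn _ _ _ _ _)) j
  unfold De
  simp only [e1, e2]
  exact (Measurable.forall fun v => meas_infinite fun y => meas_reach v y).and
    ((Measurable.forall fun _ => Measurable.exists fun _ => (m1 _ _).not).and
      ((Measurable.forall fun _ => Measurable.forall fun _ => (m2 _ _).iff measurable_const).and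
        (Measurable.forall fun _ => Measurable.exists fun _ =>
          measurable_const.and ((meas_vd _).and measurable_const))))

variable [hG : Nice G]

lemma Tw.contra' (h : Tw G F F' τ) (hΦ : Spar G L ρ Φ) (hr : 1 ≤ r) (hρ : L + r ≤ ρ) (h1 : τ ∈ Φ)
    (hp : Pend F τ.β τ.e0 τ.e1) (hp' : Pend F' τ.β τ.f0 τ.f1)
    (hv : Vd G r L ρ lam Φ k k b1 b2 b1 b2 F τ) (hD : De G r L ρ lam Φ k b1 b2 i F)
    (hD' : De G r L ρ lam Φ k b1 b2 i F') : False := by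
  obtain ⟨θ, hθ⟩ := h.equiv
  have hθ' : ∀ v, v ∉ τ.β → θ.symm (F'.connectedComponentMk v) = F.connectedComponentMk v :=
    fun v hv => by rw [← hθ v hv, θ.symm_apply_apply]
  have hs := (hΦ τ h1).1
  have hv' := h.vd hΦ hr hρ h1 hv h1 hv
  obtain ⟨-, ⟨o1, -⟩, a3, t, a4, a5, -, n, a7⟩ := id hv
  have o7 := a4.2.1.1
  have a4' : Loc' G r ρ F'.Reachable τ t := a4.congr hs hr hρ fun u v d1 d2 _ _ => h.reach d1 d2
  have na := hΦ.not_adj hρ h.inf' h1 hp' a4' fun t' y d1 d2 d3 d4 =>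
    a5 t' y (fun τ3 e1 e2 => d1 τ3 e1 (h.mats hΦ hρ h1 e1 e2))
      (fun τ3 e1 e2 => d2 τ3 e1 (h.mats hΦ hρ h1 e1 e2))
      ((h.reach (d1 τ h1 h.mat') o7).2 d3) ((h.reach (d2 τ h1 h.mat') hs.e1).2 d4)
  have back : ∀ C C', (CG G F' r).Adj C C' → (CG G F r).Adj (θ.symm C) (θ.symm C') :=
    fun C C' hC => h.symm.cg hs hr a4' hθ' hC (by rintro ⟨rfl, rfl⟩; exact na hC)
      (by rintro ⟨rfl, rfl⟩; exact na hC.symm)
  have ek := SimpleGraph.ConnectedComponent.eq.2 a3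
  have l4 : (NS G r lam n k b1 b2 F').encard ≤
      (NS G r lam n k b1 b2 F \ {F.connectedComponentMk t}).encard := by
    refine Set.encard_le_encard_of_injOn (f := θ.symm) ?_ θ.symm.injective.injOn
    rintro C ⟨e1, e2⟩
    refine ⟨⟨?_, h.symm.ss hs hr hv' hθ' e2⟩, fun e => na ?_⟩
    · rw [← hθ' k o1]; exact back _ _ e1
    · rw [← hθ t o7, ← Set.mem_singleton_iff.1 e, θ.apply_symm_apply,
        SimpleGraph.ConnectedComponent.eq.2 hv'.2.2.1]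
      exact e1
  have l5 : F.connectedComponentMk t ∈ NS G r lam n k b1 b2 F := by
    refine ⟨?_, a7⟩
    obtain ⟨-, b, e1, e2⟩ := a4.2.1
    rw [← ek]
    exact CG_adj.2 ⟨fun e => a4.2.2.1 (SimpleGraph.ConnectedComponent.eq.1 e).symm, b, t,
      SimpleGraph.ConnectedComponent.eq.2 (hp.reach_exit h.inf e1), rfl, e2⟩
  have f2 : (NS G r lam n k b1 b2 F).Finite := (hD.2.1 n).subset fun C hC => hC.2
  have l6 := (f2.subset Set.sdiff_subset).encard_lt_encard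
    (Set.sdiff_singleton_ssubset.2 l5)
  rw [hD'.2.2.1, ← hD.2.2.1] at l4
  exact absurd l4 (not_le.2 l6)

variable {ν : Measure (Om V)} [IsProbabilityMeasure ν] {d : ℝ}

theorem FLim.de (h : FLim G ν) (hΦ : Spar G L ρ Φ) (hr : 1 ≤ r) (hρ : L + r ≤ ρ) :
    ∀ᵐ ω ∂ν, ¬ De G r L ρ lam Φ k b1 b2 i (Fg G ω) := by
  have := countable_V G
  rw [ae_iff]
  simp only [not_not]
  have ne : ∀ {F : SimpleGraph V} {τ : Dat V}, Vd G r L ρ lam Φ k k b1 b2 b1 b2 F τ →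
      τ.e1 ≠ τ.f1 := by
    rintro F τ ⟨-, -, -, t, h, -⟩ e
    exact h.1 (e ▸ SimpleGraph.Reachable.refl _)
  refine toggle (ι := Φ) (Vd := fun τ => {ω | Vd G r L ρ lam Φ k k b1 b2 b1 b2 (Fg G ω) τ})
    (fun τ => ((meas_vd τ.1).comp (measurable_Fg G)).setOf)
    (T := fun τ => sw s(τ.1.e0, τ.1.e1) s(τ.1.f0, τ.1.f1)) (Gd := {ω | InfC (Fg G ω)})
    (meas_de.comp (measurable_Fg G)).setOf h.infC
    (fun τ s hm hs => h.tog (hΦ τ τ.2).1 hm fun ω hω => ⟨(hs hω).1, ne (hs hω)⟩) ?_ ?_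
  · rintro ⟨τ, hτ⟩ ω hD hv hI
    have hs := (hΦ τ hτ).1
    simp only [Set.mem_ofPred_eq] at hD hv hI ⊢
    generalize hω' : sw s(τ.e0, τ.e1) s(τ.f0, τ.f1) ω = ω' at hD hv ⊢
    have e : ω = sw s(τ.e0, τ.e1) s(τ.f0, τ.f1) ω' := by rw [← hω', sw_sw]
    have tw : Tw G (Fg G ω') (Fg G ω) τ ∧ ¬ De G r L ρ lam Φ k b1 b2 i (Fg G ω) := by
      rcases hv.1 with hm | hm
      · obtain ⟨a1, a2, a3⟩ := sw_state hs.e0 hs.e1 hs.f0 hs.f1 hs.af (ne hv) hm.1 hm.2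
        rw [← e] at a1 a2 a3
        have tw : Tw G (Fg G ω') (Fg G ω) τ :=
          ⟨Fg_le _ _, Fg_le _ _, hD.1, hI, hv.1, Or.inr ⟨a1, a2⟩, a3⟩
        exact ⟨tw, tw.contra' hΦ hr hρ hτ hm.1 a1 hv hD⟩
      · obtain ⟨a1, a2, a3⟩ := sw_state hs.f0 hs.f1 hs.e0 hs.e1 hs.ae (ne hv).symm hm.1 hm.2
        rw [sw_comm, ← e] at a1 a2 a3
        have tw : Tw G (Fg G ω') (Fg G ω) τ :=
          ⟨Fg_le _ _, Fg_le _ _, hD.1, hI, hv.1, Or.inl ⟨a1, a2⟩, a3⟩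
        exact ⟨tw, fun hD' => tw.symm.contra' hΦ hr hρ hτ a1 hm.1
          (tw.vd hΦ hr hρ hτ hv hτ hv) hD' hD⟩
    exact ⟨tw.2, fun τ' => ⟨tw.1.vd hΦ hr hρ hτ hv τ'.2,
      tw.1.symm.vd hΦ hr hρ hτ (tw.1.vd hΦ hr hρ hτ hv hτ hv) τ'.2⟩⟩
  · rintro E ⟨Λ, hΛ⟩ ω hω
    set g : Sym2 V → ℕ := Sym2.lift ⟨fun a b => G.dist k a + G.dist k b, fun a b => add_comm _ _⟩
      with hg
    obtain ⟨τ, h1, h2, h3⟩ := hω.2.2.2 (Λ.sup g + L)
    have hs := (hΦ τ h1).1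
    have out : ∀ a ∈ τ.β, ∀ b, s(a, b) ∉ Λ := by
      intro a ha b hb
      have a1 : G.dist k a + G.dist k b ≤ Λ.sup g := le_sup (f := g) hb
      have a2 := hs.sub a ha
      have a3 := dist_tri (G := G) k a τ.e0
      rw [SimpleGraph.dist_comm] at a2
      omega
    refine ⟨⟨τ, h1⟩, h2, fun ω' => hΛ _ _ fun e he => sw_other ?_ ?_ ω'⟩
    · rintro rfl; exact out _ hs.e0 _ he
    · rintro rfl; exact out _ hs.f0 _ he

theorem FLim.two_trees (h : FLim G ν) (hg : Growth G d) (hd : 8 < d) :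
    ∀ᵐ ω ∂ν, ∃ k k', ¬ (Fg G ω).Reachable k k' := by
  rw [ae_iff]
  refine (measureReal_eq_zero_iff (measure_ne_top _ _)).1 (le_antisymm
    (le_of_forall_pos_le_add fun ε hε => ?_) measureReal_nonneg)
  obtain ⟨R, hR⟩ := h.two_pt hg hd hε
  have := hG.inf
  obtain ⟨y, -, hy⟩ := exists_far (G := G) (org G) R Set.infinite_univ
  rw [zero_add]
  refine (measureReal_mono fun ω hω => ?_).trans (hR _ _ hy.le)
  simp only [Set.mem_ofPred_eq, not_exists, not_not] at hω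
  exact hω _ _

theorem FLim.noIso (h : FLim G ν) (hg : Growth G d) (hd : 8 < d) (hr : 1 ≤ r) {W : Type}
    [Countable W] (Γ : SimpleGraph W) : ∀ᵐ ω ∂ν, IsEmpty (CG G (Fg G ω) r ≃g Γ) := by
  have := countable_V G
  choose N c hN hc using exists_spar G
  have key : ∀ (L ρ j : ℕ) (k b1 b2 : V) (a a1 a2 : W), ∀ᵐ ω ∂ν, L + r ≤ ρ →
      ¬ De G r L ρ (lamd d) {τ | St G L τ ∧ c L ρ τ = j} k b1 b2
        (fun n => {C | Γ.Adj a C ∧ C ∈ Sn (lamd d) Γ n a a1 a2}.encard) (Fg G ω) := by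
    intro L ρ j k b1 b2 a a1 a2
    by_cases hρ : L + r ≤ ρ
    · exact (h.de (hc L ρ j) hr hρ).mono fun _ h _ => h
    · exact Eventually.of_forall fun _ h => absurd h hρ
  simp only [← ae_all_iff] at key
  filter_upwards [key, h.infC, h.finS hg hd r, h.rich hg hd hr, h.two_trees hg hd]
    with ω a1 a2 a3 a4 a5
  generalize Fg G ω = F at a1 a2 a3 a4 a5 ⊢
  refine ⟨fun φ => ?_⟩
  obtain ⟨k, k', hkk⟩ := a5
  obtain ⟨L, ρ, b1, b2, hρ, hb, hW⟩ := a4 k k' hkk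
  have s2 : ∀ n, φ '' NS G r (lamd d) n k b1 b2 F = {C | Γ.Adj (φ (F.connectedComponentMk k)) C ∧
      C ∈ Sn (lamd d) Γ n (φ (F.connectedComponentMk k)) (φ (F.connectedComponentMk b1))
        (φ (F.connectedComponentMk b2))} := by
    intro n
    ext C
    obtain ⟨C, rfl⟩ := φ.surjective C
    rw [φ.injective.mem_set_image, NS, Set.mem_ofPred_eq, Set.mem_ofPred_eq, φ.map_adj_iff]
    refine and_congr_right fun _ => ⟨Sn.map φ.toEquiv fun _ _ _ _ h => φ.map_adj_iff.2 h,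
      fun hC => ?_⟩
    simpa [SS] using Sn.map φ.symm.toEquiv (fun _ _ _ _ h => φ.symm.map_adj_iff.2 h) hC
  have far : ∀ n, ∃ τ, (∀ Φ, τ ∈ Φ → Vd G r L ρ (lamd d) Φ k k b1 b2 b1 b2 F τ) ∧
      St G L τ ∧ n < G.dist k τ.e0 := by
    intro n
    obtain ⟨_, ⟨⟨m, d1⟩, τ, t, d2, d3, rfl⟩, d4⟩ := hW.exists_notMem_finset
      ((ball G k (n + 2 * ρ + (G.dist k b1 + G.dist k b2))).image F.connectedComponentMk)
    have d5 : ¬ G.dist k t ≤ _ := fun h => d4 (mem_image_of_mem _ (mem_ball.2 h))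
    obtain ⟨hs, hp, he, hl, hf⟩ := d2
    have d6 := hs.near hl.2.1
    have d7 := dist_tri (G := G) k τ.e0 t
    have out : ∀ v, G.dist k v ≤ G.dist k b1 + G.dist k b2 → v ∉ τ.β := by
      intro v hv hb
      have g1 := hs.sub v hb
      have g2 := dist_tri (G := G) k v τ.e0
      rw [SimpleGraph.dist_comm] at g1
      omega
    refine ⟨τ, fun Φ hΦ => ⟨Or.inl ⟨hp, he⟩, ⟨out _ (by simp), out _ (by simp), out _ (by omega),
      out _ (by omega), out _ (by omega), out _ (by omega)⟩,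
      SimpleGraph.ConnectedComponent.eq.1 d3, t, hl, fun t' y g1 g2 =>
        hf t' y (g1 τ hΦ (Or.inl ⟨hp, he⟩)) (g2 τ hΦ (Or.inl ⟨hp, he⟩)), fun h => d4 (mem_image.2
        ⟨k, self_mem_ball _ _, (SimpleGraph.ConnectedComponent.eq.2 h).symm⟩), m, d1⟩, hs,
      by omega⟩
  have : ∃ j, ∀ n, ∃ τ ∈ {τ | St G L τ ∧ c L ρ τ = j}, Vd G r L ρ (lamd d)
      {τ | St G L τ ∧ c L ρ τ = j} k k b1 b2 b1 b2 F τ ∧ n < G.dist k τ.e0 := by
    by_contra hc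
    push Not at hc
    choose m hm using hc
    obtain ⟨τ, d1, d2, d3⟩ := far ((range (N L ρ + 1)).sup m)
    have d4 := hm (c L ρ τ) τ ⟨d2, rfl⟩ (d1 _ ⟨d2, rfl⟩)
    have d5 : m (c L ρ τ) ≤ (range (N L ρ + 1)).sup m :=
      le_sup (f := m) (mem_range.2 (Nat.lt_succ_of_le (hN L ρ τ)))
    omega
  obtain ⟨j, hj⟩ := this
  exact a1 L ρ j k b1 b2 _ _ _ hρ ⟨a2, fun n => a3 n _ _ _ hb,
    fun n => (φ.injective.encard_image _).symm.trans (congrArg Set.encard (s2 n)), hj⟩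

end Pool.Agent.MP_12d2c5_pr
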